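import Pool.Agent.Lib.MP_8dbdcc_co.AA.Spec
import Pool.Agent.Lib.MP_214199_co.Eff.Bezout

/-!
# Bezout's theorem for linear functionals (`S_Bz`)
-/

set_option autoImplicit false

namespace Pool.Agent.Lib.MP_8dbdcc_co.AA

open MvPolynomial Finset

open Pool.Agent.Lib.MP_214199_co.Eff in
theorem tBz : S_Bz := by
  classical
  intro K _ f g ι _ L hf hg hLf hLg hind
  have hf0 : f ≠ 0 := hf.ne_zero
  have hg0 : g ≠ 0 := by rintro rfl; exact hg (dvd_zero f)
  have hfp : Prime f := hf.prime
  -- `L` is surjective
  have hLs : LinearMap.range L = ⊤ := by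
    by_contra hne
    obtain ⟨φ, hφ, hle⟩ := Submodule.exists_le_ker_of_lt_top _ (lt_top_iff_ne_top.2 hne)
    apply hφ
    have hsum : ∀ v : ι → K, φ v = ∑ i, φ (Pi.single i 1) * v i := by
      intro v
      conv_lhs => rw [pi_eq_sum_univ' v]
      rw [map_sum]
      apply Finset.sum_congr rfl
      intro i _
      rw [map_smul, smul_eq_mul, mul_comm]
    have hc := hind (fun i => φ (Pi.single i 1)) (fun a => by
      rw [← hsum (L a)]
      exact LinearMap.mem_ker.1 (hle (LinearMap.mem_range_self L a)))
    apply LinearMap.ext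
    intro v
    rw [hsum v, LinearMap.zero_apply]
    apply Finset.sum_eq_zero
    intro i _
    rw [congrFun hc i, Pi.zero_apply, zero_mul]
  have hpre : ∀ i : ι, ∃ P : Pl K, L P = Pi.single i 1 := fun i => by
    have h1 : (Pi.single i 1 : ι → K) ∈ LinearMap.range L := by rw [hLs]; trivial
    exact h1
  choose P hP using hpre
  set N := Finset.univ.sup (fun i => (P i).totalDegree) with hN
  have hPN : ∀ i, (P i).totalDegree ≤ N := fun i =>
    Finset.le_sup (f := fun i => (P i).totalDegree) (Finset.mem_univ i)
  set m := f.totalDegree with hm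
  set n := g.totalDegree with hn
  set d := m + n + N with hd
  set A := (restrictTotalDegree (Fin 2) K (n + N)).map (LinearMap.mulLeft K f) with hA
  set B := (restrictTotalDegree (Fin 2) K (m + N)).map (LinearMap.mulLeft K g) with hB
  set C := (restrictTotalDegree (Fin 2) K N).map (LinearMap.mulLeft K (f * g)) with hC
  have hfinA : FiniteDimensional K A := by rw [hA]; infer_instance
  have hfinB : FiniteDimensional K B := by rw [hB]; infer_instance
  have hAB : A ⊓ B ≤ C := by
    intro x hx
    obtain ⟨hxA, hxB⟩ := Submodule.mem_inf.1 hx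
    obtain ⟨a, ha, rfl⟩ := Submodule.mem_map.1 hxA
    obtain ⟨b, hb, hab⟩ := Submodule.mem_map.1 hxB
    simp only [LinearMap.mulLeft_apply] at hab
    have hdv : f ∣ g * b := ⟨a, hab⟩
    obtain ⟨c, rfl⟩ := (hfp.dvd_or_dvd hdv).resolve_left hg
    refine Submodule.mem_map.2 ⟨c, ?_, ?_⟩
    · rw [mem_restrictTotalDegree] at hb ⊢
      by_cases hc : c = 0
      · simp [hc]
      · rw [totalDegree_mul_of_isDomain hf0 hc, ← hm] at hb
        omega
    · simp only [LinearMap.mulLeft_apply]
      rw [← hab]; ring
  have hA_le : A ≤ restrictTotalDegree (Fin 2) K d := by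
    intro x hx
    obtain ⟨a, ha, rfl⟩ := Submodule.mem_map.1 hx
    rw [mem_restrictTotalDegree] at ha ⊢
    simp only [LinearMap.mulLeft_apply]
    have := totalDegree_mul f a
    omega
  have hB_le : B ≤ restrictTotalDegree (Fin 2) K d := by
    intro x hx
    obtain ⟨a, ha, rfl⟩ := Submodule.mem_map.1 hx
    rw [mem_restrictTotalDegree] at ha ⊢
    simp only [LinearMap.mulLeft_apply]
    have := totalDegree_mul g a
    omega
  have hfinC : FiniteDimensional K C := by rw [hC]; infer_instance
  have h1 : Module.finrank K A + Module.finrank K B ≤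
      Module.finrank K ↥(A ⊔ B) + Module.finrank K C := by
    rw [← Submodule.finrank_sup_add_finrank_inf_eq A B]
    have := Submodule.finrank_mono hAB
    omega
  -- the restriction of `L`
  let ev : restrictTotalDegree (Fin 2) K d →ₗ[K] (ι → K) :=
    L.comp (restrictTotalDegree (Fin 2) K d).subtype
  have hsurj : Function.Surjective ev := by
    intro v
    refine ⟨⟨∑ i, MvPolynomial.C (v i) * P i, ?_⟩, ?_⟩
    · rw [mem_restrictTotalDegree]
      refine (totalDegree_finsetSum _ _).trans (Finset.sup_le fun i _ => ?_)
      refine (totalDegree_mul _ _).trans ?_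
      rw [totalDegree_C]
      have := hPN i
      omega
    · change L (∑ i, MvPolynomial.C (v i) * P i) = v
      rw [map_sum]
      have h2 : ∀ i, L (MvPolynomial.C (v i) * P i) = v i • (Pi.single i 1 : ι → K) := by
        intro i
        rw [← MvPolynomial.smul_eq_C_mul, map_smul, hP]
      rw [Finset.sum_congr rfl (fun i _ => h2 i)]
      funext j
      simp [Finset.sum_apply, Pi.single_apply]
  have hrk : Module.finrank K (LinearMap.ker ev) + Fintype.card ι =
      Module.finrank K (restrictTotalDegree (Fin 2) K d) := by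
    have h := LinearMap.finrank_range_add_finrank_ker ev
    rw [LinearMap.range_eq_top.2 hsurj, finrank_top, Module.finrank_fintype_fun_eq_card] at h
    omega
  have hker : Module.finrank K ↥(A ⊔ B) ≤
      Module.finrank K (LinearMap.ker ev) := by
    have h : (A ⊔ B) ≤ (LinearMap.ker ev).map (restrictTotalDegree (Fin 2) K d).subtype := by
      rw [sup_le_iff]
      constructor
      · intro x hx
        refine Submodule.mem_map.2 ⟨⟨x, hA_le hx⟩, ?_, rfl⟩
        obtain ⟨a, ha, rfl⟩ := Submodule.mem_map.1 hx
        rw [LinearMap.mem_ker]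
        change L (f * a) = 0
        rw [mul_comm]
        exact hLf a
      · intro x hx
        refine Submodule.mem_map.2 ⟨⟨x, hB_le hx⟩, ?_, rfl⟩
        obtain ⟨a, ha, rfl⟩ := Submodule.mem_map.1 hx
        rw [LinearMap.mem_ker]
        change L (g * a) = 0
        rw [mul_comm]
        exact hLg a
    calc Module.finrank K ↥(A ⊔ B)
        ≤ Module.finrank K ((LinearMap.ker ev).map (restrictTotalDegree (Fin 2) K d).subtype) :=
          Submodule.finrank_mono h
      _ ≤ _ := Submodule.finrank_map_le _ _
  have eA : Module.finrank K A = Module.finrank K (restrictTotalDegree (Fin 2) K (n + N)) :=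
    bezout_finrank_map f hf0 _
  have eB : Module.finrank K B = Module.finrank K (restrictTotalDegree (Fin 2) K (m + N)) :=
    bezout_finrank_map g hg0 _
  have eC : Module.finrank K C = Module.finrank K (restrictTotalDegree (Fin 2) K N) :=
    bezout_finrank_map (f * g) (mul_ne_zero hf0 hg0) _
  have q1 := finrank_restrict K d
  have q2 := finrank_restrict K (n + N)
  have q3 := finrank_restrict K (m + N)
  have q4 := finrank_restrict K N
  rw [← eA] at q2
  rw [← eB] at q3
  rw [← eC] at q4
  have key : 2 * Fintype.card ι + (n + N + 1) * (n + N + 2) + (m + N + 1) * (m + N + 2) ≤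
      (d + 1) * (d + 2) + (N + 1) * (N + 2) := by omega
  rw [hd] at key
  nlinarith [key]

end Pool.Agent.Lib.MP_8dbdcc_co.AA
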