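import Pool.Agent.Lib.MP_8dbdcc_co.AA.Spec
import Pool.Agent.Lib.MP_214199_co.Eff.Bezout

/-!
# A conic has at most `p + 2` zeros which belong to rational lines
-/

set_option autoImplicit false

namespace Pool.Agent.Lib.MP_8dbdcc_co.AA

open MvPolynomial Finset

namespace C2_aux

/-- A basis of the orthogonal complement of a vector. -/
theorem exists_basis {F : Type} [Field F] (a b c : F) (h : a ≠ 0 ∨ b ≠ 0 ∨ c ≠ 0) :
    ∃ x y z x' y' z' : F, a * x + b * y + c * z = 0 ∧ a * x' + b * y' + c * z' = 0 ∧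
      (∀ s : F, x + s * x' ≠ 0 ∨ y + s * y' ≠ 0 ∨ z + s * z' ≠ 0) ∧
      (x' ≠ 0 ∨ y' ≠ 0 ∨ z' ≠ 0) := by
  by_cases ha : a = 0
  · by_cases hb : b = 0
    · have hc : c ≠ 0 := by
        rcases h with h | h | h
        · exact absurd ha h
        · exact absurd hb h
        · exact h
      refine ⟨c, 0, -a, 0, c, -b, by ring, by ring, fun s => Or.inl ?_, Or.inr (Or.inl hc)⟩
      simpa using hc
    · refine ⟨b, -a, 0, 0, -c, b, by ring, by ring, fun s => Or.inl ?_, Or.inr (Or.inr hb)⟩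
      simpa using hb
  · refine ⟨-b, a, 0, -c, 0, a, by ring, by ring, fun s => Or.inr (Or.inl ?_),
      Or.inr (Or.inr ha)⟩
    simpa using ha

/-- The linear polynomial of a vector. -/
noncomputable def mu {p : ℕ} [Fact p.Prime] (w : Fin 2 → KK p) (x y z : ZMod p) : Pl (KK p) :=
  C (algebraMap (ZMod p) (KK p) x - algebraMap (ZMod p) (KK p) z * w 0) * X 0 +
    C (algebraMap (ZMod p) (KK p) y - algebraMap (ZMod p) (KK p) z * w 1) * X 1 +
      C (algebraMap (ZMod p) (KK p) z)

theorem eval_mu {p : ℕ} [Fact p.Prime] (w : Fin 2 → KK p) (x y z : ZMod p) (Q : Fin 2 → KK p) :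
    eval Q (mu w x y z) = (algebraMap (ZMod p) (KK p) x - algebraMap (ZMod p) (KK p) z * w 0) * Q 0 +
      (algebraMap (ZMod p) (KK p) y - algebraMap (ZMod p) (KK p) z * w 1) * Q 1 +
        algebraMap (ZMod p) (KK p) z := by
  simp [mu]

theorem mu_deg {p : ℕ} [Fact p.Prime] (w : Fin 2 → KK p) (x y z : ZMod p) :
    (mu w x y z).totalDegree ≤ 1 := by
  unfold mu
  refine (totalDegree_add _ _).trans (max_le ((totalDegree_add _ _).trans (max_le ?_ ?_)) ?_)
  · refine (totalDegree_mul _ _).trans ?_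
    rw [totalDegree_C, totalDegree_X]
  · refine (totalDegree_mul _ _).trans ?_
    rw [totalDegree_C, totalDegree_X]
  · rw [totalDegree_C]
    exact Nat.zero_le _

theorem mu_ne {p : ℕ} [Fact p.Prime] (w : Fin 2 → KK p) (x y z : ZMod p)
    (h : x ≠ 0 ∨ y ≠ 0 ∨ z ≠ 0) : mu w x y z ≠ 0 := by
  intro h0
  have e0 := eval_mu w x y z ![0, 0]
  have e1 := eval_mu w x y z ![1, 0]
  have e2 := eval_mu w x y z ![0, 1]
  rw [h0, map_zero] at e0 e1 e2
  simp only [Matrix.cons_val_zero, Matrix.cons_val_one, mul_zero, mul_one, add_zero, zero_add] at e0 e1 e2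
  have hz : z = 0 := by
    have : algebraMap (ZMod p) (KK p) z = 0 := e0.symm
    rwa [map_eq_zero] at this
  rw [hz, map_zero, zero_mul, sub_zero, add_zero] at e1 e2
  have hx : x = 0 := by
    have : algebraMap (ZMod p) (KK p) x = 0 := e1.symm
    rwa [map_eq_zero] at this
  have hy : y = 0 := by
    have : algebraMap (ZMod p) (KK p) y = 0 := e2.symm
    rwa [map_eq_zero] at this
  rcases h with h | h | h
  · exact h hx
  · exact h hy
  · exact h hz

end C2_aux

open C2_aux in
theorem tC2 : S_C2 := by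
  intro p _ w g S _ hg hdeg hS
  classical
  rcases S.eq_empty_or_nonempty with rfl | ⟨Q₀, hQ₀⟩
  · simp
  choose! a b c hs h0 h1 using fun Q (hQ : Q ∈ S) => (hS Q hQ).2
  have hne : a Q₀ ≠ 0 ∨ b Q₀ ≠ 0 ∨ c Q₀ ≠ 0 := by
    by_contra hcon
    push Not at hcon
    obtain ⟨ha, hb, hc⟩ := hcon
    have := hs Q₀ hQ₀
    rw [ha, hb, hc] at this
    simp at this
  obtain ⟨x, y, z, x', y', z', e1, e2, e3, e4⟩ := exists_basis _ _ _ hne
  -- the vector of a parameter
  set Vx : Option (ZMod p) → ZMod p := fun o => o.elim x' fun s => x + s * x' with hVx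
  set Vy : Option (ZMod p) → ZMod p := fun o => o.elim y' fun s => y + s * y' with hVy
  set Vz : Option (ZMod p) → ZMod p := fun o => o.elim z' fun s => z + s * z' with hVz
  have hVne : ∀ o, Vx o ≠ 0 ∨ Vy o ≠ 0 ∨ Vz o ≠ 0 := by
    rintro (_ | s)
    · exact e4
    · exact e3 s
  have hV0 : ∀ o, Vx o * a Q₀ + Vy o * b Q₀ + Vz o * c Q₀ = 0 := by
    rintro (_ | s)
    · simp only [hVx, hVy, hVz, Option.elim]
      linear_combination e2
    · simp only [hVx, hVy, hVz, Option.elim]
      linear_combination e1 + s * e2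
  have hex : ∀ Q, ∃ o, Vx o * a Q + Vy o * b Q + Vz o * c Q = 0 := by
    intro Q
    by_cases h : x' * a Q + y' * b Q + z' * c Q = 0
    · exact ⟨none, h⟩
    · refine ⟨some (-(x * a Q + y * b Q + z * c Q) / (x' * a Q + y' * b Q + z' * c Q)), ?_⟩
      simp only [hVx, hVy, hVz, Option.elim]
      have h5 := div_mul_cancel₀ (-(x * a Q + y * b Q + z * c Q)) h
      linear_combination h5
  choose t ht using hex
  have hmu : ∀ Q ∈ S, ∀ o, Vx o * a Q + Vy o * b Q + Vz o * c Q = 0 →
      eval Q (mu w (Vx o) (Vy o) (Vz o)) = 0 := by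
    intro Q hQ o ho
    have hsQ := hs Q hQ
    have k0 := h0 Q hQ
    have k1 := h1 Q hQ
    rw [eval_mu]
    have ho' : algebraMap (ZMod p) (KK p) (Vx o) * algebraMap (ZMod p) (KK p) (a Q) +
        algebraMap (ZMod p) (KK p) (Vy o) * algebraMap (ZMod p) (KK p) (b Q) +
        algebraMap (ZMod p) (KK p) (Vz o) * algebraMap (ZMod p) (KK p) (c Q) = 0 := by
      rw [← map_mul, ← map_mul, ← map_mul, ← map_add, ← map_add, ho, map_zero]
    refine (mul_eq_zero.1 ?_).resolve_left hsQ
    linear_combination (algebraMap (ZMod p) (KK p) (Vx o) - algebraMap (ZMod p) (KK p) (Vz o) * w 0) * k0 +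
      (algebraMap (ZMod p) (KK p) (Vy o) - algebraMap (ZMod p) (KK p) (Vz o) * w 1) * k1 + ho'
  have hinj : Set.InjOn t (S.erase Q₀) := by
    intro Q hQ Q' hQ' hQQ
    by_contra hne'
    have hQS := Finset.mem_of_mem_erase hQ
    have hQS' := Finset.mem_of_mem_erase hQ'
    have hQ0 := Finset.ne_of_mem_erase hQ
    have hQ0' := Finset.ne_of_mem_erase hQ'
    have hT := Pool.Agent.Lib.MP_214199_co.Eff.bezout g (mu w (Vx (t Q)) (Vy (t Q)) (Vz (t Q))) hg
      (fun hdvd => by
        have hle := MvPolynomial.totalDegree_le_of_dvd_of_isDomain hdvd (mu_ne w _ _ _ (hVne (t Q)))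
        have := mu_deg w (Vx (t Q)) (Vy (t Q)) (Vz (t Q))
        omega)
      {Q₀, Q, Q'} (by
        intro P hP
        simp only [Finset.mem_insert, Finset.mem_singleton] at hP
        rcases hP with rfl | rfl | rfl
        · exact ⟨(hS _ hQ₀).1, hmu _ hQ₀ _ (hV0 _)⟩
        · exact ⟨(hS _ hQS).1, hmu _ hQS _ (ht _)⟩
        · exact ⟨(hS _ hQS').1, hmu _ hQS' _ (by rw [hQQ]; exact ht _)⟩)
    have hcard : ({Q₀, Q, Q'} : Finset (Fin 2 → KK p)).card = 3 := by
      rw [Finset.card_insert_of_notMem, Finset.card_insert_of_notMem, Finset.card_singleton]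
      · rw [Finset.mem_singleton]
        exact hne'
      · simp only [Finset.mem_insert, Finset.mem_singleton, not_or]
        exact ⟨fun h => hQ0 h.symm, fun h => hQ0' h.symm⟩
    have hd := mu_deg w (Vx (t Q)) (Vy (t Q)) (Vz (t Q))
    rw [hcard, hdeg] at hT
    omega
  have hle := Finset.card_le_card_of_injOn t (s := S.erase Q₀) (t := Finset.univ)
    (fun Q _ => Finset.mem_coe.2 (Finset.mem_univ _)) hinj
  rw [Finset.card_univ, Fintype.card_option, ZMod.card, Finset.card_erase_of_mem hQ₀] at hle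
  omega

end Pool.Agent.Lib.MP_8dbdcc_co.AA
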