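import Pool.Agent.Lib.MP_8dbdcc_co.AA.Spec

set_option autoImplicit false

namespace Pool.Agent.Lib.MP_8dbdcc_co.AA

open MvPolynomial Finset

theorem tCI : S_Match → S_Gen → S_CI := by
  classical
  intro hM hG p _ X m z hz hX hno
  have hp2 : 2 ≤ p := (Fact.out : p.Prime).two_le
  obtain ⟨τ, hτ, hdis, hcard⟩ := hM p X ((99 * p + 99) / 100) (by
    intro A hAX hA
    have := hno A hAX hA
    omega)
  have hτc : p / 300 ≤ τ.card := by omega
  have hgen := hG (Pt p) X τ 3 z hz (fun t ht => ⟨(hτ t ht).1, (hτ t ht).2.1⟩) hdis (by norm_num)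
  have hfin : {A : Finset (Pt p) | A ⊆ X ∧ A.card = m ∧ Arc p A} =
      ((X.powerset.filter fun A => A.card = m ∧ Arc p A : Finset (Finset (Pt p))) :
        Set (Finset (Pt p))) := by
    ext A
    simp
  rw [hfin, Set.ncard_coe_finset]
  have h1 : ((X.powerset.filter fun A => A.card = m ∧ Arc p A).card : ℝ) * z ^ m =
      ∑ A ∈ X.powerset.filter (fun A => A.card = m ∧ Arc p A), z ^ A.card := by
    rw [Finset.sum_congr rfl (g := fun _ => z ^ m), Finset.sum_const, nsmul_eq_mul]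
    intro A hA
    rw [(Finset.mem_filter.1 hA).2.1]
  have h2 : ∑ A ∈ X.powerset.filter (fun A => A.card = m ∧ Arc p A), z ^ A.card ≤
      ∑ A ∈ X.powerset.filter (fun A => ∀ t ∈ τ, ¬ t ⊆ A), z ^ A.card := by
    refine Finset.sum_le_sum_of_subset_of_nonneg ?_ (fun A _ _ => by positivity)
    intro A hA
    rw [Finset.mem_filter] at hA ⊢
    exact ⟨hA.1, fun t ht => (hτ t ht).2.2 A hA.2.2⟩
  have hq0 : 0 ≤ z / (1 + z) := by positivity
  have hq1 : z / (1 + z) ≤ 1 := by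
    rw [div_le_one (by linarith)]
    linarith
  have hb0 : 0 ≤ 1 - (z / (1 + z)) ^ 3 := by
    have := pow_le_one₀ (n := 3) hq0 hq1
    linarith
  have hb1 : 1 - (z / (1 + z)) ^ 3 ≤ 1 := by
    have : 0 ≤ (z / (1 + z)) ^ 3 := by positivity
    linarith
  have h3 : (1 - (z / (1 + z)) ^ 3) ^ τ.card ≤ (1 - (z / (1 + z)) ^ 3) ^ (p / 300) :=
    pow_le_pow_of_le_one hb0 hb1 hτc
  rw [h1]
  refine h2.trans (le_trans (le_of_eq ?_) (hgen.trans
    (mul_le_mul_of_nonneg_left h3 (pow_nonneg (by linarith) _))))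
  refine Finset.sum_congr ?_ (fun _ _ => rfl)
  ext A
  simp only [Finset.mem_filter]

end Pool.Agent.Lib.MP_8dbdcc_co.AA
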