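import Pool.Agent.Lib.MP_8dbdcc_co.AA.Spec

/-!
# Containers with a large arc
-/

set_option autoImplicit false

namespace Pool.Agent.Lib.MP_8dbdcc_co.AA

open MvPolynomial Finset

namespace CII_aux

theorem arc_mono {p : ℕ} {A B : Finset (Pt p)} (h : Arc p A) (hBA : B ⊆ A) : Arc p B :=
  fun a b c h0 => (card_le_card (filter_subset_filter _ hBA)).trans (h a b c h0)

theorem mem_flt {α : Type} (s : Finset α) (P : α → Prop) (i : DecidablePred P) (a : α) :
    a ∈ @Finset.filter α P i s ↔ a ∈ s ∧ P a := Finset.mem_filter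

/-- The zeros of the conic of a large arc. -/
theorem conic (hVol : S_Vol) (hA : S_IrrA) (hB : S_IrrB) (p : ℕ) [Fact p.Prime]
    (K : Finset (Pt p)) (hp : 400 ≤ p) (hK : Arc p K) (hK' : 99 * p ≤ 100 * K.card) :
    ∃ (q : MvPolynomial (Fin 2) (ZMod p)) (Z : Finset (Pt p)), q ≠ 0 ∧ q.totalDegree ≤ 2 ∧
      (∀ x, x ∈ Z ↔ eval ![x.1, x.2] q = 0) ∧ Arc p Z ∧ Z.card ≤ p + 2 ∧
      2 * K.card ≤ p + 2 + (Z ∩ K).card := by
  classical
  obtain ⟨q, hq, hq2, hc⟩ := hVol p K hp hK hK'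
  have hZ : ∀ x, x ∈ univ.filter (fun x : Pt p => eval ![x.1, x.2] q = 0) ↔
      eval ![x.1, x.2] q = 0 := by
    intro x
    simp
  have hBK : K.filter (fun x => eval ![x.1, x.2] q = 0) =
      univ.filter (fun x : Pt p => eval ![x.1, x.2] q = 0) ∩ K := by
    ext x
    simp only [mem_filter, mem_inter, mem_univ, true_and]
    exact and_comm
  rw [hBK] at hc
  have h5 : 5 ≤ (univ.filter (fun x : Pt p => eval ![x.1, x.2] q = 0) ∩ K).card := by omega
  have hAZ := hA p q _ _ hq hq2 hZ (arc_mono hK inter_subset_right) inter_subset_left h5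
  exact ⟨q, _, hq, hq2, hZ, hAZ, hB p _ hAZ, hc⟩

/-- The arcs through a point outside the conic. -/
theorem one_pt (hPairs : S_Pairs) (hGen : S_Gen) (p : ℕ) [Fact p.Prime] (X K Z : Finset (Pt p))
    (q : MvPolynomial (Fin 2) (ZMod p)) (z : ℝ) (hp : 400 ≤ p) (hz : 0 < z) (hKX : K ⊆ X)
    (hK' : 99 * p ≤ 100 * K.card) (hq2 : q.totalDegree ≤ 2)
    (hZ : ∀ x, x ∈ Z ↔ eval ![x.1, x.2] q = 0) (hAZ : Arc p Z) (hZc : Z.card ≤ p + 2)
    (hc : 2 * K.card ≤ p + 2 + (Z ∩ K).card) (R : Pt p) (hR : R ∉ Z) (S : Finset (Finset (Pt p)))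
    (hS : ∀ A ∈ S, A ⊆ X ∧ Arc p A ∧ R ∈ A) :
    ∑ A ∈ S, z ^ A.card ≤ (1 + z) ^ X.card * (1 - (z / (1 + z)) ^ 2) ^ (p / 3) := by
  obtain ⟨π, h1, h2, h3⟩ := hPairs p q Z (Z ∩ X) R (by omega) hq2 hZ hAZ hR inter_subset_left
  have hG := hGen (Pt p) X π 2 z hz (fun t ht => ⟨(h1 t ht).1.trans inter_subset_right,
    (h1 t ht).2.1⟩) h2 (by norm_num)
  refine le_trans (le_trans ?_ hG) ?_
  · apply sum_le_sum_of_subset_of_nonneg
    · intro A hA
      obtain ⟨hAX, hArc, hRA⟩ := hS A hA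
      exact (mem_flt _ _ _ _).2
        ⟨mem_powerset.2 hAX, fun t ht => (h1 t ht).2.2 A hArc hRA⟩
    · intro A _ _
      positivity
  have hcard : p / 3 ≤ π.card := by
    have h4 : (Z ∩ K).card ≤ (Z ∩ X).card := card_le_card (inter_subset_inter_left hKX)
    omega
  have hx0 : 0 ≤ z / (1 + z) := by positivity
  have hx1 : z / (1 + z) ≤ 1 := by
    rw [div_le_one (by positivity)]
    linarith
  have hy0 : 0 ≤ 1 - (z / (1 + z)) ^ 2 := by nlinarith
  have hy1 : 1 - (z / (1 + z)) ^ 2 ≤ 1 := by nlinarith [sq_nonneg (z / (1 + z))]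
  exact mul_le_mul_of_nonneg_left (pow_le_pow_of_le_one hy0 hy1 hcard) (by positivity)

end CII_aux

/-- **CII**: containers with a large arc. -/
theorem tCII : S_Vol → S_IrrA → S_IrrB → S_Pairs → S_Gen → S_CII := by
  intro hVol hA hB hPairs hGen p _ X K m z hp hz hKX hK hK'
  classical
  obtain ⟨q, Z, hq, hq2, hZ, hAZ, hZc, hc⟩ := CII_aux.conic hVol hA hB p K hp hK hK'
  let S : Finset (Finset (Pt p)) :=
    X.powerset.filter fun A => A.card = m ∧ Arc p A ∧ ¬ InConic p A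
  have hset : {A : Finset (Pt p) | A ⊆ X ∧ A.card = m ∧ Arc p A ∧ ¬ InConic p A} =
      (S : Set (Finset (Pt p))) := by
    ext A
    simp only [S, Set.mem_ofPred_eq, coe_filter, mem_powerset]
  rw [hset, Set.ncard_coe_finset]
  set bd : ℝ := (1 + z) ^ X.card * (1 - (z / (1 + z)) ^ 2) ^ (p / 3) with hbd
  have hmem : ∀ A ∈ S, A ⊆ X ∧ A.card = m ∧ Arc p A ∧ ¬ InConic p A := by
    intro A hA
    have := mem_filter.1 hA
    exact ⟨mem_powerset.1 this.1, this.2⟩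
  have hone : ∀ R ∈ X \ Z, ((S.filter fun A => R ∈ A).card : ℝ) * z ^ m ≤ bd := by
    intro R hR
    have h1 := CII_aux.one_pt hPairs hGen p X K Z q z hp hz hKX hK' hq2 hZ hAZ hZc hc R
      (mem_sdiff.1 hR).2 (S.filter fun A => R ∈ A) (by
        intro A hA
        obtain ⟨h2, h3⟩ := mem_filter.1 hA
        obtain ⟨h4, -, h5, -⟩ := hmem A h2
        exact ⟨h4, h5, h3⟩)
    have h6 : ∑ A ∈ S.filter (fun A => R ∈ A), z ^ A.card =
        ((S.filter fun A => R ∈ A).card : ℝ) * z ^ m := by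
      rw [sum_congr rfl (g := fun _ => z ^ m), sum_const, nsmul_eq_mul]
      intro A hA
      rw [(hmem A (mem_filter.1 hA).1).2.1]
    rw [h6] at h1
    exact h1
  have hcov : S ⊆ (X \ Z).biUnion fun R => S.filter fun A => R ∈ A := by
    intro A hA
    obtain ⟨h1, h2, h3, h4⟩ := hmem A hA
    have h5 : ∃ R ∈ A, R ∉ Z := by
      by_contra hcon
      push Not at hcon
      exact h4 ⟨q, hq, hq2, fun x hx => (hZ x).1 (hcon x hx)⟩
    obtain ⟨R, hRA, hRZ⟩ := h5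
    rw [mem_biUnion]
    exact ⟨R, mem_sdiff.2 ⟨h1 hRA, hRZ⟩, mem_filter.2 ⟨hA, hRA⟩⟩
  have hzm : 0 < z ^ m := by positivity
  have hbd0 : 0 ≤ bd := by
    have hx0 : 0 ≤ z / (1 + z) := by positivity
    have hx1 : z / (1 + z) ≤ 1 := by
      rw [div_le_one (by positivity)]
      linarith
    have hy0 : 0 ≤ 1 - (z / (1 + z)) ^ 2 := by nlinarith
    rw [hbd]
    positivity
  calc (S.card : ℝ) * z ^ m
      ≤ (∑ R ∈ X \ Z, (S.filter fun A => R ∈ A).card : ℕ) * z ^ m := by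
        apply mul_le_mul_of_nonneg_right _ hzm.le
        exact_mod_cast (card_le_card hcov).trans card_biUnion_le
    _ = ∑ R ∈ X \ Z, ((S.filter fun A => R ∈ A).card : ℝ) * z ^ m := by
        rw [Nat.cast_sum, sum_mul]
    _ ≤ ∑ _R ∈ X \ Z, bd := sum_le_sum hone
    _ = ((X \ Z).card : ℝ) * bd := by rw [sum_const, nsmul_eq_mul]
    _ ≤ X.card * bd := by
        apply mul_le_mul_of_nonneg_right _ hbd0
        exact_mod_cast card_le_card sdiff_subset

end Pool.Agent.Lib.MP_8dbdcc_co.AA
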