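import Pool.Agent.Lib.MP_8dbdcc_co.AA.Spec

/-!
# Counting points with jets (`S_CntD`)
-/

set_option autoImplicit false

namespace Pool.Agent.Lib.MP_8dbdcc_co.AA

open MvPolynomial Finset

namespace CntD_aux

variable {K : Type} [Field K]

theorem Dg_self (g : Pl K) : Dg g g = 0 := by
  rw [Dg_apply]
  ring

theorem iter_add (D : Derivation K (Pl K) (Pl K)) (i : ℕ) (a b : Pl K) :
    D^[i] (a + b) = D^[i] a + D^[i] b := by
  induction i generalizing a b with
  | zero => rfl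
  | succ i ih =>
    rw [Function.iterate_succ_apply, Function.iterate_succ_apply, Function.iterate_succ_apply,
      map_add, ih]

theorem iter_mul_const (D : Derivation K (Pl K) (Pl K)) (g : Pl K) (hg : D g = 0) (i : ℕ)
    (a : Pl K) : D^[i] (a * g) = D^[i] a * g := by
  induction i generalizing a with
  | zero => rfl
  | succ i ih =>
    rw [Function.iterate_succ_apply, Function.iterate_succ_apply, Derivation.leibniz, hg,
      smul_zero, zero_add, smul_eq_mul, mul_comm g (D a), ih]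

theorem iter_jet (D : Derivation K (Pl K) (Pl K)) (f : Pl K) (Q : Fin 2 → K) (w : ℕ)
    (hf : ∀ i < w, eval Q (D^[i] f) = 0) (i : ℕ) :
    ∀ (j : ℕ) (a : Pl K), i + j < w → eval Q (D^[i] (a * D^[j] f)) = 0 := by
  induction i with
  | zero =>
    intro j a h
    rw [Function.iterate_zero, id, map_mul, hf j (by omega), mul_zero]
  | succ i ih =>
    intro j a h
    rw [Function.iterate_succ_apply, Derivation.leibniz, smul_eq_mul, smul_eq_mul, iter_add,
      map_add, ← Function.iterate_succ_apply' D j f, ih (j + 1) a (by omega),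
      mul_comm (D^[j] f) (D a), ih j (D a) (by omega), add_zero]

/-- A linear polynomial vanishing at `Q'` and not at `Q`. -/
theorem exists_lin (Q' Q : Fin 2 → K) (h : Q' ≠ Q) :
    ∃ l : Pl K, eval Q' l = 0 ∧ eval Q l ≠ 0 := by
  obtain ⟨i, hi⟩ := Function.ne_iff.1 h
  refine ⟨X i - C (Q' i), by simp, ?_⟩
  rw [map_sub, eval_X, eval_C]
  exact sub_ne_zero.2 (Ne.symm hi)

/-- A linear polynomial vanishing at `Q` with `D l ≠ 0` at `Q`. -/
theorem exists_loc (g : Pl K) (Q : Fin 2 → K) (h : Smooth g Q) :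
    ∃ l : Pl K, eval Q l = 0 ∧ eval Q (Dg g l) ≠ 0 := by
  rcases h.2 with h0 | h1
  · refine ⟨X 1 - C (Q 1), by simp, ?_⟩
    rw [Dg_apply]
    simpa [pderiv_X] using h0
  · refine ⟨X 0 - C (Q 0), by simp, ?_⟩
    rw [Dg_apply]
    simpa [pderiv_X] using h1

/-- The functionals. -/
noncomputable def Ljet (D : Derivation K (Pl K) (Pl K)) (S : Finset (Fin 2 → K)) (w : ℕ) :
    Pl K →ₗ[K] ((S × Fin w) → K) :=
  LinearMap.pi fun q =>
    ((aeval (q.1 : Fin 2 → K) : Pl K →ₐ[K] K).toLinearMap) ∘ₗ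
      ((D : Pl K →ₗ[K] Pl K) ^ (q.2 : ℕ))

theorem Ljet_apply (D : Derivation K (Pl K) (Pl K)) (S : Finset (Fin 2 → K)) (w : ℕ) (a : Pl K)
    (q : S × Fin w) : Ljet D S w a q = eval (q.1 : Fin 2 → K) (D^[(q.2 : ℕ)] a) := by
  unfold Ljet
  rw [LinearMap.pi_apply, LinearMap.comp_apply, Module.End.pow_apply]
  rfl

theorem fac_ne (p : ℕ) [Fact p.Prime] [CharP K p] (m : ℕ) (hm : m < p) :
    (m.factorial : K) ≠ 0 := by
  intro h
  rw [CharP.cast_eq_zero_iff K p] at h
  exact absurd ((Nat.Prime.dvd_factorial (Fact.out : p.Prime)).1 h) (not_le.2 hm)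

theorem indep (hP : S_DPow) (p : ℕ) [Fact p.Prime] [CharP K p] (g : Pl K)
    (S : Finset (Fin 2 → K)) (w : ℕ) (hw : w ≤ p) (hS : ∀ Q ∈ S, Smooth g Q)
    (c : S × Fin w → K) (hc : ∀ a, ∑ i, c i * Ljet (Dg g) S w a i = 0) : c = 0 := by
  classical
  by_contra hne
  obtain ⟨⟨Q, i0⟩, hi0⟩ := Function.ne_iff.1 hne
  rw [Pi.zero_apply] at hi0
  -- the maximal index
  obtain ⟨m, hm, hmax⟩ := Finset.exists_max_image
    ((univ : Finset (Fin w)).filter fun i => c (Q, i) ≠ 0) (fun i => (i : ℕ)) ⟨i0, by simp [hi0]⟩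
  have hcm : c (Q, m) ≠ 0 := (Finset.mem_filter.1 hm).2
  have hgt : ∀ i : Fin w, (m : ℕ) < i → c (Q, i) = 0 := by
    intro i hi
    by_contra h
    have := hmax i (by simp [h])
    omega
  obtain ⟨l, hl0, hl1⟩ := exists_loc g Q (hS Q Q.2)
  have hlin : ∀ Q' : Fin 2 → K, ∃ l' : Pl K, eval Q' l' = 0 ∧ (Q' ≠ Q → eval (Q : Fin 2 → K) l' ≠ 0) := by
    intro Q'
    by_cases h : Q' = Q
    · exact ⟨0, map_zero _, fun h' => absurd h h'⟩
    · obtain ⟨l', h1, h2⟩ := exists_lin Q' Q h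
      exact ⟨l', h1, fun _ => h2⟩
  choose l' hl'0 hl'1 using hlin
  set E : Pl K := ∏ Q' ∈ S.erase Q, (l' Q') ^ w with hE
  have hEQ : eval (Q : Fin 2 → K) E ≠ 0 := by
    rw [hE, map_prod]
    refine Finset.prod_ne_zero_iff.2 ?_
    intro Q' hQ'
    rw [map_pow]
    exact pow_ne_zero _ (hl'1 Q' (Finset.ne_of_mem_erase hQ'))
  have h := hc (E * l ^ (m : ℕ))
  rw [Finset.sum_eq_single (Q, m)] at h
  · rw [Ljet_apply, (hP K (Dg g) E l Q m hl0).2] at h
    have h1 : (((m : ℕ).factorial : K)) ≠ 0 := fac_ne p m (lt_of_lt_of_le m.2 hw)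
    exact mul_ne_zero hcm (mul_ne_zero (mul_ne_zero h1 hEQ) (pow_ne_zero _ hl1)) h
  · rintro ⟨Q', i⟩ - hne'
    rw [Ljet_apply]
    simp only
    by_cases hQ : Q' = Q
    · subst hQ
      rcases lt_trichotomy (i : ℕ) (m : ℕ) with hlt | heq | hgt'
      · rw [(hP K (Dg g) E l Q' m hl0).1 i hlt, mul_zero]
      · exact absurd (by rw [Fin.ext heq] : ((Q', i) : S × Fin w) = (Q', m)) hne'
      · rw [hgt i hgt', zero_mul]
    · have hmem : (Q' : Fin 2 → K) ∈ S.erase Q :=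
        Finset.mem_erase.2 ⟨fun h => hQ (Subtype.ext h), Q'.2⟩
      have h2 : E * l ^ (m : ℕ) =
          ((∏ R ∈ (S.erase Q).erase Q', (l' R) ^ w) * l ^ (m : ℕ)) * (l' Q') ^ w := by
        rw [hE, ← Finset.mul_prod_erase _ _ hmem]
        ring
      rw [h2, (hP K (Dg g) _ (l' Q') Q' w (hl'0 Q')).1 i i.2, mul_zero]
  · intro h'
    exact absurd (Finset.mem_univ _) h'

end CntD_aux

open CntD_aux in
/-- The count of points with jets. -/
theorem tCntD : S_DPow → S_Bz → S_CntD := by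
  intro hP hB K _ p _ _ g f S w hw hg hgf hS hf
  have h := hB K g f (S × Fin w) (Ljet (Dg g) S w) hg hgf ?_ ?_ ?_
  · rw [Fintype.card_prod, Fintype.card_coe, Fintype.card_fin, mul_comm] at h
    exact h
  · intro a
    funext q
    rw [Ljet_apply, iter_mul_const _ _ (Dg_self g), map_mul, (hS q.1 q.1.2).1, mul_zero]
    rfl
  · intro a
    funext q
    rw [Ljet_apply]
    exact iter_jet (Dg g) f q.1 w (hf q.1 q.1.2) q.2 0 a (by simp)
  · intro c hc
    exact indep hP p g S w hw hS c hc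

end Pool.Agent.Lib.MP_8dbdcc_co.AA
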