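import Pool.Agent.Lib.MP_8dbdcc_co.AA.Spec

set_option autoImplicit false

namespace Pool.Agent.Lib.MP_8dbdcc_co.AA

open MvPolynomial Finset

theorem Conc_aux.dt_ne {p : ℕ} [Fact p.Prime] (A : Finset (Pt p)) (x y z : Pt p)
    (hA : Arc p A) (hx : x ∈ A) (hy : y ∈ A) (hz : z ∈ A) (hxy : x ≠ y) (hxz : x ≠ z)
    (hyz : y ≠ z) : dt x y z ≠ 0 := by
  intro h
  have hne : ((y.2 - x.2 : ZMod p), (-(y.1 - x.1) : ZMod p)) ≠ (0, 0) := by
    intro e
    rw [Prod.mk.injEq] at e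
    apply hxy
    ext
    · have := e.2
      have h2 : y.1 - x.1 = 0 := by rwa [neg_eq_zero] at this
      exact (sub_eq_zero.mp h2).symm
    · exact (sub_eq_zero.mp e.1).symm
  have hc := hA (y.2 - x.2) (-(y.1 - x.1)) ((y.2 - x.2) * x.1 + (-(y.1 - x.1)) * x.2) hne
  have hsub : ({x, y, z} : Finset (Pt p)) ⊆ A.filter (fun q =>
      (y.2 - x.2) * q.1 + (-(y.1 - x.1)) * q.2 =
        (y.2 - x.2) * x.1 + (-(y.1 - x.1)) * x.2) := by
    intro q hq
    rw [Finset.mem_filter]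
    simp only [Finset.mem_insert, Finset.mem_singleton] at hq
    rcases hq with rfl | rfl | rfl
    · exact ⟨hx, rfl⟩
    · exact ⟨hy, by ring⟩
    · refine ⟨hz, ?_⟩
      unfold dt at h
      linear_combination (-1 : ZMod p) * h
  have h3 : ({x, y, z} : Finset (Pt p)).card = 3 := by
    rw [Finset.card_eq_three]
    exact ⟨x, y, z, hxy, hxz, hyz, rfl⟩
  have := Finset.card_le_card hsub
  omega

theorem tConc : S_Conc := by
  intro p hp w A x y z hA hx hy hz hxy hxz hyz Q hQ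
  have hd : dt x y z ≠ 0 := Conc_aux.dt_ne A x y z hA hx hy hz hxy hxz hyz
  obtain ⟨h1, h2, h3⟩ := hQ
  have hev : ∀ v : Pt p, eval Q (LF (ux w v)) =
      (algebraMap (ZMod p) (KK p) v.1 - w 0) * Q 0 +
        (algebraMap (ZMod p) (KK p) v.2 - w 1) * Q 1 + 1 := by
    intro v
    simp [LF, ux]
  rw [hev] at h1 h2 h3
  have hd' : algebraMap (ZMod p) (KK p) (dt x y z) ≠ 0 := by
    intro e
    exact hd ((map_eq_zero _).mp e)
  have hdv : algebraMap (ZMod p) (KK p) (dt x y z) =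
      (algebraMap (ZMod p) (KK p) y.1 - algebraMap (ZMod p) (KK p) x.1) *
        (algebraMap (ZMod p) (KK p) z.2 - algebraMap (ZMod p) (KK p) x.2) -
      (algebraMap (ZMod p) (KK p) y.2 - algebraMap (ZMod p) (KK p) x.2) *
        (algebraMap (ZMod p) (KK p) z.1 - algebraMap (ZMod p) (KK p) x.1) := by
    simp [dt]
  have q0 : algebraMap (ZMod p) (KK p) (dt x y z) * Q 0 = 0 := by
    rw [hdv]
    linear_combination (algebraMap (ZMod p) (KK p) z.2 - algebraMap (ZMod p) (KK p) x.2) *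
      (h2 - h1) - (algebraMap (ZMod p) (KK p) y.2 - algebraMap (ZMod p) (KK p) x.2) * (h3 - h1)
  have q1 : algebraMap (ZMod p) (KK p) (dt x y z) * Q 1 = 0 := by
    rw [hdv]
    linear_combination (algebraMap (ZMod p) (KK p) y.1 - algebraMap (ZMod p) (KK p) x.1) *
      (h3 - h1) - (algebraMap (ZMod p) (KK p) z.1 - algebraMap (ZMod p) (KK p) x.1) * (h2 - h1)
  have r0 : Q 0 = 0 := (mul_eq_zero.mp q0).resolve_left hd'
  have r1 : Q 1 = 0 := (mul_eq_zero.mp q1).resolve_left hd'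
  rw [r0, r1] at h1
  simp at h1

end Pool.Agent.Lib.MP_8dbdcc_co.AA
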