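import Pool.Agent.Lib.MP_8dbdcc_co.AA.Spec

set_option autoImplicit false

namespace Pool.Agent.Lib.MP_8dbdcc_co.AA

open MvPolynomial Finset

namespace Cont_aux

/-- A set with at most `n` elements is the image of a function on `Fin n`. -/
private lemma enum {α : Type} [DecidableEq α] (n : ℕ) (T : Finset α) (hT : T.card ≤ n) :
    ∃ f : Fin n → Option α, eraseNone (univ.image f) = T := by
  classical
  refine ⟨fun i => if h : (i : ℕ) < T.card then some (T.equivFin.symm ⟨i, h⟩).1 else none, ?_⟩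
  ext x
  rw [mem_eraseNone, mem_image]
  constructor
  · rintro ⟨i, -, hi⟩
    by_cases h : (i : ℕ) < T.card
    · rw [dif_pos h] at hi
      have := Option.some.inj hi
      rw [← this]
      exact (T.equivFin.symm ⟨i, h⟩).2
    · rw [dif_neg h] at hi
      exact absurd hi (by simp)
  · intro hx
    refine ⟨⟨(T.equivFin ⟨x, hx⟩ : ℕ), lt_of_lt_of_le (T.equivFin ⟨x, hx⟩).2 hT⟩, mem_univ _, ?_⟩
    rw [dif_pos (T.equivFin ⟨x, hx⟩).2]
    simp

/-- A subset of an arc is an arc. -/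
private lemma arc_sub {p : ℕ} {A B : Finset (Pt p)} (hA : Arc p A) (hB : B ⊆ A) : Arc p B := by
  intro a b c hab
  exact le_trans (card_le_card (filter_subset_filter _ hB)) (hA a b c hab)

/-- Three different points of an arc are not collinear. -/
private lemma arc_dt {p : ℕ} [Fact p.Prime] {A : Finset (Pt p)} (hA : Arc p A) {t v w : Pt p}
    (ht : t ∈ A) (hv : v ∈ A) (hw : w ∈ A) (htv : t ≠ v) (htw : t ≠ w) (hvw : v ≠ w) :
    dt t v w ≠ 0 := by
  classical
  intro h
  have h1 := hA (-(v.2 - t.2)) (v.1 - t.1) (-(v.2 - t.2) * t.1 + (v.1 - t.1) * t.2) (by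
    intro hh
    rw [Prod.mk.injEq] at hh
    apply htv
    refine Prod.ext ?_ ?_
    · exact (sub_eq_zero.mp hh.2).symm
    · exact (sub_eq_zero.mp (neg_eq_zero.mp hh.1)).symm)
  have h2 : ({t, v, w} : Finset (Pt p)) ⊆ A.filter (fun q => -(v.2 - t.2) * q.1 + (v.1 - t.1) * q.2
      = -(v.2 - t.2) * t.1 + (v.1 - t.1) * t.2) := by
    intro x hx
    rw [mem_insert, mem_insert, mem_singleton] at hx
    unfold dt at h
    rcases hx with rfl | rfl | rfl
    · exact mem_filter.mpr ⟨ht, rfl⟩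
    · exact mem_filter.mpr ⟨hv, by ring⟩
    · refine mem_filter.mpr ⟨hw, ?_⟩
      linear_combination h
  have h3 : ({t, v, w} : Finset (Pt p)).card = 3 := card_eq_three.mpr ⟨t, v, w, htv, htw, hvw, rfl⟩
  have h4 := card_le_card h2
  rw [h3] at h4
  omega

end Cont_aux

open Cont_aux in
theorem tCont : S_KW → S_Deg → S_Cont := by
  classical
  intro hKW hDeg p _ r j hr hrp hcard hpow
  have hp0 : (0 : ℝ) < 2 * ((p : ℝ) + 1) := by positivity
  have hrp' : (r : ℝ) ≤ p := by exact_mod_cast hrp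
  have hδ0 : (0 : ℝ) ≤ (r : ℝ) / (2 * ((p : ℝ) + 1)) := by positivity
  have hδ1 : (r : ℝ) / (2 * ((p : ℝ) + 1)) < 1 := by
    rw [div_lt_one hp0]
    have : (0 : ℝ) ≤ p := Nat.cast_nonneg p
    linarith
  have hU : Fintype.card (Pt p) = p ^ 2 := by
    rw [Fintype.card_prod, ZMod.card, sq]
  -- the fingerprint functions
  have hF : ∀ T1 : Finset (Pt p), ∃ F : Finset (Pt p) → Finset (Pt p), Arc p T1 → T1.card = r →
      (∀ T, ((F T).card : ℝ) ≤ (p : ℝ) + 1 + 1) ∧
      ∀ I ⊆ univ \ T1, (∀ v ∈ I, ∀ w ∈ I, w ∉ Nb T1 v) →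
        ∃ T ⊆ I, T.card ≤ j ∧ I ⊆ T ∪ F T := by
    intro T1
    by_cases h : Arc p T1 ∧ T1.card = r
    · obtain ⟨hT1, hT1c⟩ := h
      obtain ⟨F, hF1, hF2⟩ := hKW (Pt p) (Nb T1) 1 ((r : ℝ) / (2 * ((p : ℝ) + 1))) ((p : ℝ) + 1)
        (by positivity) one_pos hδ0 hδ1 (univ \ T1) (by
          intro U' hU' hc
          have hne : U'.Nonempty := by
            rw [← card_pos]
            have h0 : (0 : ℝ) < (U'.card : ℝ) := by
              have : (0 : ℝ) ≤ p := Nat.cast_nonneg p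
              linarith
            exact_mod_cast h0
          have hd : Disjoint T1 U' := by
            rw [Finset.disjoint_left]
            intro x hx hx'
            exact (mem_sdiff.mp (hU' hx')).2 hx
          obtain ⟨v, hv, hv2⟩ := hDeg p T1 U' hT1 hd hne
          rw [hT1c] at hv2
          exact ⟨v, hv, hv2⟩)
      refine ⟨F, fun _ _ => ⟨fun T => (hF1 T).2, fun I hI hind => hF2 I hI hind j ?_⟩⟩
      have h1 : ((univ \ T1 : Finset (Pt p)).card : ℝ) ≤ (p : ℝ) ^ 2 := by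
        have : (univ \ T1 : Finset (Pt p)).card ≤ p ^ 2 := by
          rw [← hU]
          exact card_le_univ _
        exact_mod_cast this
      have h2 : (0 : ℝ) ≤ p := Nat.cast_nonneg p
      linarith
    · exact ⟨fun _ => ∅, fun h1 h2 => absurd ⟨h1, h2⟩ h⟩
  choose F hF using hF
  -- the containers
  have hG : ∀ T1 T2 : Finset (Pt p), ∃ X : Finset (Pt p), X.card = p + 2 + r + j ∧
      (Arc p T1 → T1.card = r → T2.card ≤ j → T1 ∪ T2 ∪ F T1 T2 ⊆ X) := by
    intro T1 T2
    by_cases h : Arc p T1 ∧ T1.card = r ∧ T2.card ≤ j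
    · obtain ⟨h1, h2, h3⟩ := h
      have h4 : (F T1 T2).card ≤ p + 2 := by
        have := (hF T1 h1 h2).1 T2
        have h5 : ((F T1 T2).card : ℝ) ≤ ((p + 2 : ℕ) : ℝ) := by
          push_cast
          linarith
        exact_mod_cast h5
      have h6 : (T1 ∪ T2 ∪ F T1 T2).card ≤ p + 2 + r + j := by
        have a1 := card_union_le (T1 ∪ T2) (F T1 T2)
        have a2 := card_union_le T1 T2
        omega
      obtain ⟨X, hX1, hX2⟩ := exists_superset_card_eq h6 (by rw [hU]; exact hcard)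
      exact ⟨X, hX2, fun _ _ _ => hX1⟩
    · obtain ⟨X, -, hX2⟩ := exists_superset_card_eq (s := (∅ : Finset (Pt p)))
        (n := p + 2 + r + j) (by simp) (by rw [hU]; exact hcard)
      exact ⟨X, hX2, fun h1 h2 h3 => absurd ⟨h1, h2, h3⟩ h⟩
  choose G hG1 hG2 using hG
  refine ⟨(univ : Finset ((Fin r → Option (Pt p)) × (Fin j → Option (Pt p)))).image
    (fun f => G (eraseNone (univ.image f.1)) (eraseNone (univ.image f.2))), ?_, ?_, ?_⟩
  · refine le_trans card_image_le ?_
    rw [card_univ, Fintype.card_prod, Fintype.card_fun, Fintype.card_fun, Fintype.card_option, hU,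
      Fintype.card_fin, Fintype.card_fin, pow_add]
  · intro X hX
    obtain ⟨f, -, rfl⟩ := mem_image.mp hX
    exact hG1 _ _
  · intro A hA hrA
    obtain ⟨T1, hT1A, hT1c⟩ := exists_subset_card_eq hrA
    have hT1 := arc_sub hA hT1A
    obtain ⟨T2, hT2I, hT2c, hIT⟩ := (hF T1 hT1 hT1c).2 (A \ T1)
      (sdiff_subset_sdiff (subset_univ _) (Subset.refl _)) (by
        intro v hv w hw hn
        unfold Nb at hn
        obtain ⟨-, hwv, t, ht, htv, htw, h0⟩ := mem_filter.mp hn
        exact arc_dt hA (hT1A ht) (mem_sdiff.mp hv).1 (mem_sdiff.mp hw).1 htv htw (Ne.symm hwv) h0)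
    obtain ⟨f1, hf1⟩ := enum r T1 hT1c.le
    obtain ⟨f2, hf2⟩ := enum j T2 hT2c
    refine ⟨G T1 T2, mem_image.mpr ⟨(f1, f2), mem_univ _, by simp only [hf1, hf2]⟩, ?_⟩
    refine Subset.trans ?_ (hG2 T1 T2 hT1 hT1c hT2c)
    intro x hx
    by_cases hx1 : x ∈ T1
    · exact mem_union_left _ (mem_union_left _ hx1)
    · rcases mem_union.mp (hIT (mem_sdiff.mpr ⟨hx, hx1⟩)) with h | h
      · exact mem_union_left _ (mem_union_right _ h)
      · exact mem_union_right _ h

end Pool.Agent.Lib.MP_8dbdcc_co.AA
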