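import Pool.Agent.Lib.MP_8dbdcc_co.AA.Spec

/-!
# The curve attached to a large arc
-/

set_option autoImplicit false

namespace Pool.Agent.Lib.MP_8dbdcc_co.AA

open MvPolynomial Finset

namespace Curve_aux

/-- The total degree of `phi`. -/
theorem phi_deg {p : ℕ} [Fact p.Prime] (c : ZMod p) (T : Finset (Pt p)) :
    (phi c T).totalDegree ≤ T.card := by
  unfold phi
  refine (totalDegree_mul _ _).trans ?_
  rw [totalDegree_C, Nat.zero_add]
  refine (totalDegree_finset_prod _ _).trans ?_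
  refine (Finset.sum_le_card_nsmul _ _ 1 ?_).trans (by simp)
  intro a _
  refine (totalDegree_sub _ _).trans ?_
  refine max_le ?_ ?_
  · refine (totalDegree_mul _ _).trans ?_
    rw [totalDegree_C, totalDegree_X]
  · refine (totalDegree_mul _ _).trans ?_
    rw [totalDegree_C, totalDegree_X]

/-- Two is not zero in the algebraic closure. -/
theorem two_ne {p : ℕ} [Fact p.Prime] (hp : 400 ≤ p) : (2 : KK p) ≠ 0 := by
  haveI : CharP (KK p) p := charP_of_injective_algebraMap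
    (FaithfulSMul.algebraMap_injective (ZMod p) (KK p)) p
  intro h
  have h1 : ((2 : ℕ) : KK p) = 0 := by exact_mod_cast h
  rw [CharP.cast_eq_zero_iff (KK p) p 2] at h1
  have h2 := Nat.le_of_dvd (by norm_num) h1
  omega

end Curve_aux

theorem tCurve : S_W → S_Tan → S_Res → S_Cx → S_Phi → S_Spc → S_Node → S_Conc → S_Int → S_Fac →
    S_N3 → S_Curve := by
  intro hW hTan hRes hCx hPhi hSpc hNode hConc hInt hFac hN3 p hpp A hp hA hc
  obtain ⟨w, hw⟩ := hW p
  haveI : CharP (KK p) p := charP_of_injective_algebraMap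
    (FaithfulSMul.algebraMap_injective (ZMod p) (KK p)) p
  obtain ⟨hft, c, hc0, hcc⟩ := hCx p A hA
  have hp2 : p ≠ 2 := by omega
  have hcard : 396 ≤ A.card := by omega
  obtain ⟨x0, hx0⟩ : A.Nonempty := Finset.card_pos.mp (by omega)
  obtain ⟨t, ht⟩ : ∃ t, t = (tang A x0).card := ⟨_, rfl⟩
  have htA : t + A.card = p + 2 := by rw [ht]; exact hTan p A x0 hA hx0
  have htx : ∀ x ∈ A, (tang A x).card = t := by
    intro x hx
    have := hTan p A x hA hx
    omega
  have hsub : ∀ x, tang A x ⊆ dirs p := fun x => Finset.filter_subset _ _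
  have hphi : ∀ x ∈ A, ux w x 0 ≠ 0 ∧
      (res (ux w x) (phi (c x) (tang A x))).natDegree = t ∧
      res (ux w x) (phi (c x) (tang A x)) ≠ 0 ∧
      (∀ τ, (res (ux w x) (phi (c x) (tang A x))).rootMultiplicity τ ≤ 1) ∧
      ∀ τ, (res (ux w x) (phi (c x) (tang A x))).IsRoot τ →
        ∃ a ∈ tang A x, DualPt w x a (Rb (ux w x) + τ • Jd (ux w x)) := by
    intro x hx
    have h := hPhi p w x (tang A x) (c x) hw (hsub x) (hc0 x hx)
    rw [htx x hx] at h
    exact h
  have hnode : ∀ x ∈ A, ∀ y ∈ A, x ≠ y →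
      (ux w x 0 * ux w y 1 - ux w x 1 * ux w y 0 ≠ 0) ∧
      (∃ Q, eval Q (LF (ux w x)) = 0 ∧ eval Q (LF (ux w y)) = 0) ∧
      ∀ Q, eval Q (LF (ux w x)) = 0 → eval Q (LF (ux w y)) = 0 →
        eval Q (phi (c x) (tang A x)) = - eval Q (phi (c y) (tang A y)) ∧
        eval Q (phi (c x) (tang A x)) ≠ 0 := by
    intro x hx y hy hxy
    exact hNode p w A x y c hp2 hw hA hx hy hxy (hc0 x hx) (hcc x hx y hy hxy)
  obtain ⟨G, hGd, hG⟩ := hInt (KK p) (Pt p) A (ux w) (fun x => phi (c x) (tang A x) ^ 2) (2 * t)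
    (fun x hx => (hphi x hx).1)
    (fun x hx => by
      refine (totalDegree_pow _ _).trans ?_
      have := Curve_aux.phi_deg (c x) (tang A x)
      rw [htx x hx] at this
      omega)
    (fun x hx y hy hxy => (hnode x hx y hy hxy).1)
    (fun x hx y hy hxy Q h1 h2 => by
      have h3 := ((hnode x hx y hy hxy).2.2 Q h1 h2).1
      simp only [map_pow]
      rw [h3]
      ring)
    (fun x hx y hy z hz hxy hxz hyz Q => hConc p w A x y z hA hx hy hz hxy hxz hyz Q)
  have henv : Env (KK p) (Pt p) A (ux w) (fun x => phi (c x) (tang A x)) t G := by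
    refine ⟨Curve_aux.two_ne hp, fun x hx => (hphi x hx).1, hGd, by omega, by omega, ?_, ?_, ?_⟩
    · intro x hx
      rw [hG x hx]
      simp only [map_pow]
    · intro x hx
      exact ⟨(hphi x hx).2.1, (hphi x hx).2.2.1, (hphi x hx).2.2.2.1⟩
    · intro x hx y hy hxy
      exact ⟨(hnode x hx y hy hxy).2.1, (hnode x hx y hy hxy).2.2⟩
  obtain ⟨g, hgi, hg2, hgt, hgr⟩ := hFac (KK p) (Pt p) A (ux w) _ t G henv
  have hroot : ∀ x ∈ A, ∀ τ, (res (ux w x) g).IsRoot τ →
      ∃ a ∈ tang A x, DualPt w x a (Rb (ux w x) + τ • Jd (ux w x)) := by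
    intro x hx τ hτ
    exact (hphi x hx).2.2.2.2 τ ((hgr x hx).2.2 τ hτ)
  have hlast : ∀ x ∈ A, ∀ y ∈ A, x ≠ y → ∀ Q, eval Q (LF (ux w x)) = 0 →
      eval Q (LF (ux w y)) = 0 → eval Q g ≠ 0 := by
    intro x hx y hy hxy Q h1 h2 h3
    obtain ⟨-, -, hev, -, hpar, -, -⟩ := hRes (KK p) (ux w x) (hphi x hx).1
    obtain ⟨τ, hτ⟩ := hpar Q h1
    have h4 : (res (ux w x) g).IsRoot τ := by
      rw [Polynomial.IsRoot.def, hev, ← hτ]
      exact h3
    have h5 := (hgr x hx).2.2 τ h4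
    have h6 : (res (ux w x) (phi (c x) (tang A x))).IsRoot τ := h5
    rw [Polynomial.IsRoot.def, hev, ← hτ] at h6
    exact ((hnode x hx y hy hxy).2.2 Q h1 h2).2 h6
  have hdeg : g.totalDegree = 2 := by
    by_contra hne
    have h3 : 3 ≤ g.totalDegree := by omega
    have h := hN3 (KK p) p g (fun i => w i - (w i) ^ p) (Pt p) A (ux w) hgi h3 (by omega)
      (fun x hx => (hphi x hx).1) (fun x hx => (hgr x hx).1) (fun x hx => (hgr x hx).2.1)
      (fun x hx τ hτ => by
        obtain ⟨a, _, ha⟩ := hroot x hx τ hτ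
        exact hSpc p w x a _ ha)
      hlast
    omega
  refine ⟨w, g, hw, hgi, hdeg, ?_, hlast⟩
  intro x hx
  refine ⟨(hphi x hx).1, by rw [(hgr x hx).1, hdeg], ?_⟩
  intro τ hτ
  obtain ⟨a, ha, hd⟩ := hroot x hx τ hτ
  exact ⟨a, hsub x ha, hd⟩

end Pool.Agent.Lib.MP_8dbdcc_co.AA
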