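import Pool.Agent.Lib.MP_8dbdcc_co.AA.Spec

/-!
# Segre's lemma of tangents, normalised
-/

set_option autoImplicit false

namespace Pool.Agent.Lib.MP_8dbdcc_co.AA

open MvPolynomial Finset

namespace Cx_aux

variable {p : ℕ} [Fact p.Prime]

lemma ft_ne (A : Finset (Pt p)) (x y : Pt p) (hy : y ∈ A) (hxy : x ≠ y) : ft A x y ≠ 0 := by
  unfold ft
  rw [Finset.prod_ne_zero_iff]
  intro a ha h
  unfold tang at ha
  rw [Finset.mem_filter] at ha
  exact hxy (ha.2 y hy h).symm

lemma dt_swap (x w y : Pt p) : dt y w x = -dt x w y := by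
  unfold dt
  ring

lemma dt_ne (A : Finset (Pt p)) (hA : Arc p A) (x w y : Pt p) (hx : x ∈ A) (hw : w ∈ A) (hy : y ∈ A)
    (hxw : x ≠ w) (hxy : x ≠ y) (hwy : w ≠ y) : dt x w y ≠ 0 := by
  intro h
  have hab : ((y.2 - x.2 : ZMod p), (-(y.1 - x.1) : ZMod p)) ≠ (0, 0) := by
    intro h0
    rw [Prod.mk.injEq] at h0
    apply hxy
    have h1 : y.2 = x.2 := sub_eq_zero.mp h0.1
    have h2 : y.1 = x.1 := sub_eq_zero.mp (neg_eq_zero.mp h0.2)
    exact Prod.ext h2.symm h1.symm
  have hc := hA (y.2 - x.2) (-(y.1 - x.1)) ((y.2 - x.2) * x.1 + (-(y.1 - x.1)) * x.2) hab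
  have hsub : ({x, w, y} : Finset (Pt p)) ⊆ A.filter
      (fun q => (y.2 - x.2) * q.1 + (-(y.1 - x.1)) * q.2 =
        (y.2 - x.2) * x.1 + (-(y.1 - x.1)) * x.2) := by
    intro q hq
    rw [Finset.mem_insert, Finset.mem_insert, Finset.mem_singleton] at hq
    rw [Finset.mem_filter]
    rcases hq with rfl | rfl | rfl
    · exact ⟨hx, rfl⟩
    · refine ⟨hw, ?_⟩
      unfold dt at h
      linear_combination h
    · refine ⟨hy, ?_⟩
      ring
  have h3 : ({x, w, y} : Finset (Pt p)).card = 3 := by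
    rw [Finset.card_eq_three]
    exact ⟨x, w, y, hxw, hxy, hwy, rfl⟩
  have h4 := Finset.card_le_card hsub
  omega

lemma prod_swap (B : Finset (Pt p)) (x y : Pt p) :
    ∏ w ∈ B, dt y w x = (-1) ^ B.card * ∏ w ∈ B, dt x w y := by
  rw [← Finset.prod_const, ← Finset.prod_mul_distrib]
  refine Finset.prod_congr rfl (fun w _ => ?_)
  rw [dt_swap]
  ring

lemma segre (hOne : S_One) (A : Finset (Pt p)) (hA : Arc p A) (x y z : Pt p) (hx : x ∈ A)
    (hy : y ∈ A) (hz : z ∈ A) (hxy : x ≠ y) (hxz : x ≠ z) (hyz : y ≠ z) :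
    ft A x y * ft A y z * ft A z x = (-1) ^ A.card * (ft A x z * ft A y x * ft A z y) := by
  set B := ((A.erase x).erase y).erase z with hB
  have hB2 : ((A.erase y).erase z).erase x = B := by
    ext q
    simp only [hB, Finset.mem_erase]
    tauto
  have hB3 : ((A.erase z).erase x).erase y = B := by
    ext q
    simp only [hB, Finset.mem_erase]
    tauto
  have hcard : B.card + 3 = A.card := by
    have h1 : (A.erase x).card + 1 = A.card := Finset.card_erase_add_one hx
    have h2 : ((A.erase x).erase y).card + 1 = (A.erase x).card :=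
      Finset.card_erase_add_one (Finset.mem_erase.mpr ⟨hxy.symm, hy⟩)
    have h3 : B.card + 1 = ((A.erase x).erase y).card :=
      Finset.card_erase_add_one (Finset.mem_erase.mpr ⟨hyz.symm, Finset.mem_erase.mpr ⟨hxz.symm, hz⟩⟩)
    omega
  have r1 := hOne p A x y z hA hx hy hz hxy hxz hyz
  have r2 := hOne p A y z x hA hy hz hx hyz hxy.symm hxz.symm
  have r3 := hOne p A z x y hA hz hx hy hxz.symm hyz.symm hxy
  rw [← hB] at r1
  rw [hB2] at r2
  rw [hB3] at r3
  have hmem : ∀ w ∈ B, w ∈ A ∧ w ≠ x ∧ w ≠ y ∧ w ≠ z := by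
    intro w hw
    simp only [hB, Finset.mem_erase] at hw
    exact ⟨hw.2.2.2, hw.2.2.1, hw.2.1, hw.1⟩
  have n1 : ∏ w ∈ B, dt x w y ≠ 0 := by
    rw [Finset.prod_ne_zero_iff]
    intro w hw
    obtain ⟨hwA, hwx, hwy, hwz⟩ := hmem w hw
    exact dt_ne A hA x w y hx hwA hy hwx.symm hxy hwy
  have n2 : ∏ w ∈ B, dt y w z ≠ 0 := by
    rw [Finset.prod_ne_zero_iff]
    intro w hw
    obtain ⟨hwA, hwx, hwy, hwz⟩ := hmem w hw
    exact dt_ne A hA y w z hy hwA hz hwy.symm hyz hwz
  have n3 : ∏ w ∈ B, dt z w x ≠ 0 := by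
    rw [Finset.prod_ne_zero_iff]
    intro w hw
    obtain ⟨hwA, hwx, hwy, hwz⟩ := hmem w hw
    exact dt_ne A hA z w x hz hwA hx hwz.symm hxz.symm hwx
  rw [prod_swap B z x] at r1
  rw [prod_swap B x y] at r2
  rw [prod_swap B y z] at r3
  have hs : ((-1 : ZMod p) ^ B.card) ^ 2 = 1 := by
    rw [← pow_mul, mul_comm, pow_mul, neg_one_sq, one_pow]
  have hA1 : (-1 : ZMod p) ^ A.card = -(-1) ^ B.card := by
    rw [← hcard, pow_add]
    ring
  rw [hA1]
  generalize ((-1 : ZMod p) ^ B.card) = s at r1 r2 r3 hs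
  generalize (∏ w ∈ B, dt x w y) = P1 at r1 r2 r3 n1
  generalize (∏ w ∈ B, dt y w z) = P2 at r1 r2 r3 n2
  generalize (∏ w ∈ B, dt z w x) = P3 at r1 r2 r3 n3
  have hm : (ft A x y * P1) * (ft A y z * P2) * (ft A z x * P3) =
      (-(ft A x z * (s * P3))) * (-(ft A y x * (s * P1))) * (-(ft A z y * (s * P2))) := by
    rw [r1, r2, r3]
  have hm2 : (P1 * P2 * P3) * (ft A x y * ft A y z * ft A z x) =
      (P1 * P2 * P3) * (-s * (ft A x z * ft A y x * ft A z y)) := by
    linear_combination hm - (ft A x z * ft A y x * ft A z y) * (P1 * P2 * P3) * s * hs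
  exact mul_left_cancel₀ (mul_ne_zero (mul_ne_zero n1 n2) n3) hm2

end Cx_aux

open Cx_aux in
theorem tCx : S_One → S_Cx := by
  intro hOne p _ A hA
  refine ⟨fun x _ y hy hxy => ft_ne A x y hy hxy, ?_⟩
  rcases A.eq_empty_or_nonempty with hE | ⟨x0, hx0⟩
  · refine ⟨fun _ => 1, fun x hx => ?_, fun x hx => ?_⟩
    · rw [hE] at hx
      simp at hx
    · rw [hE] at hx
      simp at hx
  · have hs : ((-1 : ZMod p) ^ A.card) * (-1) ^ A.card = 1 := by
      rw [← mul_pow]
      simp
    have hsne : ((-1 : ZMod p) ^ A.card) ≠ 0 := left_ne_zero_of_mul_eq_one hs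
    refine ⟨fun x => if x = x0 then 1 else (-1) ^ A.card * ft A x0 x / ft A x x0, ?_, ?_⟩
    · intro x hx
      by_cases h : x = x0
      · simp [h]
      · simp only [h, if_false]
        exact div_ne_zero (mul_ne_zero hsne (ft_ne A x0 x hx (fun e => h e.symm))) (ft_ne A x x0 hx0 h)
    · intro x hx y hy hxy
      by_cases h : x = x0
      · have hy0 : y ≠ x0 := fun e => hxy (h.trans e.symm)
        have n := ft_ne A y x0 hx0 hy0
        simp only [h, hy0, if_true, if_false]
        rw [div_mul_cancel₀ _ n, ← mul_assoc, hs]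
      · by_cases h' : y = x0
        · have n := ft_ne A x x0 hx0 h
          simp only [h, h', if_true, if_false]
          rw [div_mul_cancel₀ _ n, one_mul]
        · have n1 := ft_ne A x x0 hx0 h
          have n2 := ft_ne A y x0 hx0 h'
          have key := segre hOne A hA x0 x y hx0 hx hy (fun e => h e.symm) (fun e => h' e.symm) hxy
          simp only [h, h', if_false]
          rw [div_mul_eq_mul_div, div_mul_eq_mul_div, mul_div_assoc', div_eq_div_iff n1 n2]
          generalize ((-1 : ZMod p) ^ A.card) = s at hs key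
          linear_combination s * key

end Pool.Agent.Lib.MP_8dbdcc_co.AA
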