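import Pool.Agent.Lib.MP_8dbdcc_co.AA.Spec

/-!
# The degrees in the graph of an arc
-/

set_option autoImplicit false

namespace Pool.Agent.Lib.MP_8dbdcc_co.AA

open MvPolynomial Finset

namespace Deg_aux

variable {p : ℕ} [Fact p.Prime]

/-- The slope of the line through `t` and `v`. -/
noncomputable def sl (t v : Pt p) : Option (ZMod p) :=
  if v.1 - t.1 = 0 then none else some ((v.2 - t.2) / (v.1 - t.1))

theorem dt_of_sl (t v w : Pt p) (h : sl t v = sl t w) : dt t v w = 0 := by
  unfold sl at h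
  unfold dt
  by_cases hv : v.1 - t.1 = 0
  · by_cases hw : w.1 - t.1 = 0
    · rw [hv, hw]
      ring
    · rw [if_pos hv, if_neg hw] at h
      exact absurd h (by simp)
  · by_cases hw : w.1 - t.1 = 0
    · rw [if_neg hv, if_pos hw] at h
      exact absurd h (by simp)
    · rw [if_neg hv, if_neg hw, Option.some_inj, div_eq_div_iff hv hw] at h
      linear_combination -h

/-- Cauchy-Schwarz for the fibres of a map. -/
theorem cs {α β : Type} [DecidableEq α] [DecidableEq β] [Fintype β] (U : Finset α) (f : α → β) :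
    (U.card : ℝ) ^ 2 ≤ (Fintype.card β : ℝ) *
      (((U ×ˢ U).filter fun q => f q.1 = f q.2).card : ℝ) := by
  have h1 : (U.card : ℝ) = ∑ b : β, ((U.filter fun v => f v = b).card : ℝ) := by
    have := Finset.card_eq_sum_card_fiberwise (f := f) (s := U) (t := univ)
      (fun x _ => Finset.mem_coe.2 (Finset.mem_univ _))
    exact_mod_cast this
  have h2 : (((U ×ˢ U).filter fun q => f q.1 = f q.2).card : ℝ) =
      ∑ b : β, ((U.filter fun v => f v = b).card : ℝ) ^ 2 := by
    have h3 : ((U ×ˢ U).filter fun q => f q.1 = f q.2).card =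
        ∑ b : β, (((U ×ˢ U).filter fun q => f q.1 = f q.2).filter fun q => f q.1 = b).card :=
      Finset.card_eq_sum_card_fiberwise (f := fun q : α × α => f q.1) (t := univ)
        (fun x _ => Finset.mem_coe.2 (Finset.mem_univ _))
    rw [h3]
    push_cast
    refine Finset.sum_congr rfl fun b _ => ?_
    have h4 : ((U ×ˢ U).filter fun q => f q.1 = f q.2).filter (fun q => f q.1 = b) =
        (U.filter fun v => f v = b) ×ˢ (U.filter fun v => f v = b) := by
      ext ⟨a, c⟩
      simp only [Finset.mem_filter, Finset.mem_product]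
      constructor
      · rintro ⟨⟨⟨ha, hc⟩, hac⟩, hb⟩
        exact ⟨⟨ha, hb⟩, hc, hac ▸ hb⟩
      · rintro ⟨⟨ha, hb⟩, hc, hd⟩
        exact ⟨⟨⟨ha, hc⟩, hb.trans hd.symm⟩, hb⟩
    rw [h4, Finset.card_product]
    push_cast
    ring
  rw [h1, h2]
  have h5 := sq_sum_le_card_mul_sum_sq (s := (univ : Finset β))
    (f := fun b : β => ((U.filter fun v => f v = b).card : ℝ))
  rw [Finset.card_univ] at h5
  exact h5

/-- The number of pairs of `U` which are collinear with `t`. -/
theorem pairs (t : Pt p) (U : Finset (Pt p)) :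
    (U.card : ℝ) ^ 2 / (p + 1) - U.card ≤
      (((U ×ˢ U).filter fun q => q.1 ≠ q.2 ∧ dt t q.1 q.2 = 0).card : ℝ) := by
  classical
  have h1 := cs U (sl t)
  have hc : (Fintype.card (Option (ZMod p)) : ℝ) = p + 1 := by
    rw [Fintype.card_option, ZMod.card]
    push_cast
    ring
  rw [hc] at h1
  have hp : (0 : ℝ) < p + 1 := by positivity
  have h2 : (U.card : ℝ) ^ 2 / (p + 1) ≤ (((U ×ˢ U).filter fun q => sl t q.1 = sl t q.2).card : ℝ) := by
    rw [div_le_iff₀ hp, mul_comm]
    exact h1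
  have h3 : ((U ×ˢ U).filter fun q => sl t q.1 = sl t q.2).card ≤
      ((U ×ˢ U).filter fun q => q.1 ≠ q.2 ∧ dt t q.1 q.2 = 0).card + U.card := by
    have h4 : ((U ×ˢ U).filter fun q => sl t q.1 = sl t q.2) ⊆
        ((U ×ˢ U).filter fun q => q.1 ≠ q.2 ∧ dt t q.1 q.2 = 0) ∪ U.image fun v => (v, v) := by
      rintro ⟨a, b⟩ hq
      rw [Finset.mem_filter, Finset.mem_product] at hq
      rw [Finset.mem_union, Finset.mem_filter, Finset.mem_product, Finset.mem_image]
      by_cases hab : a = b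
      · right
        exact ⟨a, hq.1.1, by rw [hab]⟩
      · left
        exact ⟨hq.1, hab, dt_of_sl t a b hq.2⟩
    refine (Finset.card_le_card h4).trans ((Finset.card_union_le _ _).trans ?_)
    exact Nat.add_le_add_left Finset.card_image_le _
  have h5 : (((U ×ˢ U).filter fun q => sl t q.1 = sl t q.2).card : ℝ) ≤
      (((U ×ˢ U).filter fun q => q.1 ≠ q.2 ∧ dt t q.1 q.2 = 0).card : ℝ) + U.card := by
    exact_mod_cast h3
  linarith

/-- At most two points of an arc are collinear with two given points. -/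
theorem two (T : Finset (Pt p)) (hT : Arc p T) (v w : Pt p) (hvw : v ≠ w) :
    (T.filter fun t => dt t v w = 0).card ≤ 2 := by
  have h0 : (v.2 - w.2, w.1 - v.1) ≠ ((0 : ZMod p), (0 : ZMod p)) := by
    intro h
    rw [Prod.mk.injEq] at h
    exact hvw (Prod.ext (sub_eq_zero.1 h.2).symm (sub_eq_zero.1 h.1))
  refine le_trans (Finset.card_le_card ?_) (hT (v.2 - w.2) (w.1 - v.1) (v.2 * w.1 - v.1 * w.2) h0)
  intro t ht
  rw [Finset.mem_filter] at ht ⊢
  refine ⟨ht.1, ?_⟩
  have h := ht.2
  unfold dt at h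
  linear_combination h

end Deg_aux

open Deg_aux in
theorem tDeg : S_Deg := by
  classical
  intro p _ T U hT hTU hU
  have hp : (0 : ℝ) < p + 1 := by positivity
  refine Finset.exists_le_of_sum_le hU ?_
  rw [Finset.sum_const, nsmul_eq_mul]
  -- double counting
  have h1 : ∑ t ∈ T, (((U ×ˢ U).filter fun q => q.1 ≠ q.2 ∧ dt t q.1 q.2 = 0).card : ℝ) ≤
      2 * ∑ v ∈ U, ((U ∩ Nb T v).card : ℝ) := by
    have h2 : ∑ t ∈ T, ((U ×ˢ U).filter fun q => q.1 ≠ q.2 ∧ dt t q.1 q.2 = 0).card =
        ∑ q ∈ U ×ˢ U, (T.filter fun t => q.1 ≠ q.2 ∧ dt t q.1 q.2 = 0).card :=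
      Finset.sum_card_bipartiteAbove_eq_sum_card_bipartiteBelow
        (fun (t : Pt p) (q : Pt p × Pt p) => q.1 ≠ q.2 ∧ dt t q.1 q.2 = 0)
    have h3 : ∑ q ∈ U ×ˢ U, (T.filter fun t => q.1 ≠ q.2 ∧ dt t q.1 q.2 = 0).card ≤
        ∑ q ∈ U ×ˢ U, 2 * (if q.2 ∈ Nb T q.1 then 1 else 0) := by
      refine Finset.sum_le_sum fun q hq => ?_
      rw [Finset.mem_product] at hq
      by_cases hne : q.1 = q.2
      · rw [Finset.filter_false_of_mem (fun t _ h => h.1 hne)]
        exact Nat.zero_le _
      · by_cases hN : q.2 ∈ Nb T q.1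
        · rw [if_pos hN]
          refine le_trans (Finset.card_le_card ?_) (two T hT q.1 q.2 hne)
          intro t ht
          rw [Finset.mem_filter] at ht ⊢
          exact ⟨ht.1, ht.2.2⟩
        · rw [if_neg hN, Finset.filter_false_of_mem]
          · exact Nat.zero_le _
          · intro t ht h
            apply hN
            rw [Nb, Finset.mem_filter]
            refine ⟨Finset.mem_univ _, fun h' => hne h'.symm, t, ht, ?_, ?_, h.2⟩
            · rintro rfl
              exact Finset.disjoint_left.1 hTU ht hq.1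
            · rintro rfl
              exact Finset.disjoint_left.1 hTU ht hq.2
    have h4 : ∑ q ∈ U ×ˢ U, 2 * (if q.2 ∈ Nb T q.1 then 1 else 0) =
        2 * ∑ v ∈ U, (U ∩ Nb T v).card := by
      rw [← Finset.mul_sum, Finset.sum_product]
      congr 1
      refine Finset.sum_congr rfl fun v _ => ?_
      rw [← Finset.filter_mem_eq_inter, Finset.card_filter]
    have h5 := h3.trans_eq h4
    rw [← h2] at h5
    exact_mod_cast h5
  have h6 : (T.card : ℝ) * ((U.card : ℝ) ^ 2 / (p + 1) - U.card) ≤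
      ∑ t ∈ T, (((U ×ˢ U).filter fun q => q.1 ≠ q.2 ∧ dt t q.1 q.2 = 0).card : ℝ) := by
    rw [← nsmul_eq_mul, ← Finset.sum_const]
    exact Finset.sum_le_sum fun t _ => pairs t U
  have h7 := h6.trans h1
  have h8 : (U.card : ℝ) * ((T.card : ℝ) / (2 * (p + 1)) * ((U.card : ℝ) - (p + 1))) =
      ((T.card : ℝ) * ((U.card : ℝ) ^ 2 / (p + 1) - U.card)) / 2 := by
    field_simp
  rw [h8]
  linarith

end Pool.Agent.Lib.MP_8dbdcc_co.AA
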