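import Pool.Agent.Lib.MP_8dbdcc_co.AA.Spec

/-!
# Descent to `ZMod p`
-/

set_option autoImplicit false

namespace Pool.Agent.Lib.MP_8dbdcc_co.AA

open MvPolynomial Finset

namespace Desc_aux

variable {K : Type} [Field K]

/-- The shift by `w`. -/
noncomputable def sh (w : Fin 2 → K) : Pl K →ₐ[K] Pl K := aeval fun i => X i - C (w i)

theorem sh_inj (w : Fin 2 → K) (q : Pl K) (h : sh w q = 0) : q = 0 := by
  have h1 : (sh fun i => -w i).comp (sh w) = AlgHom.id K (Pl K) := by
    apply MvPolynomial.algHom_ext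
    intro i
    rw [AlgHom.comp_apply, AlgHom.id_apply, sh, sh, aeval_X, map_sub, aeval_X, map_neg]
    rw [← algebraMap_eq, AlgHom.commutes]
    ring
  have h2 := DFunLike.congr_fun h1 q
  rw [AlgHom.comp_apply, h, map_zero, AlgHom.id_apply] at h2
  exact h2.symm

theorem sh_deg (w : Fin 2 → K) (q : Pl K) : (sh w q).totalDegree ≤ q.totalDegree := by
  have h1 : ∀ i, (X i - C (w i) : Pl K).totalDegree ≤ 1 := by
    intro i
    refine (totalDegree_sub _ _).trans ?_
    rw [totalDegree_X, totalDegree_C]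
    exact le_of_eq rfl
  rw [sh, aeval_def, eval₂_eq]
  refine totalDegree_finsetSum_le fun d hd => ?_
  refine (totalDegree_mul _ _).trans ?_
  rw [algebraMap_eq, totalDegree_C, zero_add]
  refine (totalDegree_finsetProd _ _).trans ?_
  refine le_trans ?_ (le_totalDegree hd)
  rw [Finsupp.sum]
  refine Finset.sum_le_sum fun i _ => ?_
  refine (totalDegree_pow _ _).trans ?_
  calc d i * (X i - C (w i) : Pl K).totalDegree ≤ d i * 1 := Nat.mul_le_mul_left _ (h1 i)
    _ = d i := mul_one _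

theorem sh_eval (w : Fin 2 → K) (q : Pl K) (y : Fin 2 → K) :
    eval y (sh w q) = eval (fun i => y i - w i) q := by
  rw [← coe_aeval_eq_eval, ← coe_aeval_eq_eval]
  change (aeval y) (sh w q) = (aeval fun i => y i - w i) q
  rw [sh, comp_aeval_apply]
  congr 2
  funext i
  rw [map_sub, aeval_X, aeval_C]
  rfl

/-- A linear functional applied to the coefficients. -/
noncomputable def lin {p : ℕ} [Fact p.Prime] (ψ : KK p →ₗ[ZMod p] ZMod p) (q : Pl (KK p)) :
    MvPolynomial (Fin 2) (ZMod p) := ∑ d ∈ q.support, monomial d (ψ (coeff d q))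

theorem lin_coeff {p : ℕ} [Fact p.Prime] (ψ : KK p →ₗ[ZMod p] ZMod p) (q : Pl (KK p))
    (m : Fin 2 →₀ ℕ) : coeff m (lin ψ q) = ψ (coeff m q) := by
  rw [lin, coeff_sum]
  by_cases hm : m ∈ q.support
  · rw [Finset.sum_eq_single m]
    · rw [coeff_monomial, if_pos rfl]
    · intro d _ hd
      rw [coeff_monomial, if_neg hd]
    · intro h
      exact absurd hm h
  · rw [Finset.sum_eq_zero]
    · rw [notMem_support_iff.mp hm, map_zero]
    · intro d hd
      rw [coeff_monomial, if_neg]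
      rintro rfl
      exact hm hd

theorem lin_deg {p : ℕ} [Fact p.Prime] (ψ : KK p →ₗ[ZMod p] ZMod p) (q : Pl (KK p)) :
    (lin ψ q).totalDegree ≤ q.totalDegree := by
  rw [lin]
  refine totalDegree_finsetSum_le fun d hd => ?_
  exact (totalDegree_monomial_le _ _).trans (le_totalDegree hd)

theorem lin_eval {p : ℕ} [Fact p.Prime] (ψ : KK p →ₗ[ZMod p] ZMod p) (q : Pl (KK p))
    (y : Fin 2 → ZMod p) :
    eval y (lin ψ q) = ψ (eval (fun i => algebraMap (ZMod p) (KK p) (y i)) q) := by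
  rw [lin, map_sum, eval_eq, map_sum]
  refine Finset.sum_congr rfl fun d _ => ?_
  rw [eval_monomial]
  have h1 : coeff d q * ∏ i ∈ d.support, (algebraMap (ZMod p) (KK p) (y i)) ^ d i =
      (∏ i ∈ d.support, y i ^ d i) • coeff d q := by
    rw [Algebra.smul_def, map_prod, mul_comm]
    simp only [map_pow]
  rw [h1, map_smul, smul_eq_mul, mul_comm]
  rfl

end Desc_aux

open Desc_aux

/-- Descent to `ZMod p`. -/
theorem tDesc : S_Desc := by
  intro p _ w q hq hd
  have hq' : sh w q ≠ 0 := fun h => hq (sh_inj w q h)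
  obtain ⟨m, hm⟩ := ne_zero_iff.mp hq'
  have hψ : ∃ ψ : KK p →ₗ[ZMod p] ZMod p, ψ (coeff m (sh w q)) ≠ 0 := by
    by_contra hcon
    push Not at hcon
    exact hm ((Module.forall_dual_apply_eq_zero_iff (ZMod p) _).mp hcon)
  obtain ⟨ψ, hψ⟩ := hψ
  refine ⟨lin ψ (sh w q), ?_, (lin_deg _ _).trans ((sh_deg _ _).trans hd), ?_⟩
  · intro h
    apply hψ
    rw [← lin_coeff, h, coeff_zero]
  · intro x hx
    rw [lin_eval, sh_eval]
    have h1 : (fun i => algebraMap (ZMod p) (KK p) (![x.1, x.2] i) - w i) = ux w x := by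
      funext i
      fin_cases i <;> rfl
    rw [h1, hx, map_zero]

end Pool.Agent.Lib.MP_8dbdcc_co.AA
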