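import Pool.Agent.Lib.MP_8dbdcc_co.AA.Spec

/-!
# Tangent lines of a conic
-/

set_option autoImplicit false

namespace Pool.Agent.Lib.MP_8dbdcc_co.AA

open MvPolynomial Finset

namespace Disc_aux

/-- The exponent `(i, j)`. -/
noncomputable def ex (i j : ℕ) : Fin 2 →₀ ℕ := Finsupp.single 0 i + Finsupp.single 1 j

theorem ex_zero (i j : ℕ) : ex i j 0 = i := by
  simp [ex]

theorem ex_one (i j : ℕ) : ex i j 1 = j := by
  simp [ex]

theorem ex_inj {i j k l : ℕ} : ex i j = ex k l ↔ i = k ∧ j = l := by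
  constructor
  · intro h
    have h0 := DFunLike.congr_fun h 0
    have h1 := DFunLike.congr_fun h 1
    rw [ex_zero, ex_zero] at h0
    rw [ex_one, ex_one] at h1
    exact ⟨h0, h1⟩
  · rintro ⟨rfl, rfl⟩
    rfl

theorem ex_eq (m : Fin 2 →₀ ℕ) : ex (m 0) (m 1) = m := by
  ext i
  fin_cases i
  · exact ex_zero _ _
  · exact ex_one _ _

theorem deg_ex (m : Fin 2 →₀ ℕ) : ∑ i ∈ m.support, m i = m 0 + m 1 := by
  rw [← Fin.sum_univ_two]
  refine Finset.sum_subset (Finset.subset_univ _) fun i _ hi => ?_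
  exact Finsupp.notMem_support_iff.mp hi

/-- A polynomial of degree at most two. -/
noncomputable def qd {K : Type} [Field K] (a b c d e f : K) : Pl K :=
  monomial (ex 2 0) a + monomial (ex 1 1) b + monomial (ex 0 2) c + monomial (ex 1 0) d +
    monomial (ex 0 1) e + monomial (ex 0 0) f

theorem coeff_mon {K : Type} [Field K] (i j k l : ℕ) (a : K) :
    coeff (ex i j) (monomial (ex k l) a) = if k = i ∧ l = j then a else 0 := by
  classical
  rw [coeff_monomial]
  by_cases h : k = i ∧ l = j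
  · rw [if_pos h, if_pos (ex_inj.mpr h)]
  · rw [if_neg h, if_neg (fun h' => h (ex_inj.mp h'))]

theorem coeff_qd {K : Type} [Field K] (a b c d e f : K) (i j : ℕ) :
    coeff (ex i j) (qd a b c d e f) =
      (if 2 = i ∧ 0 = j then a else 0) + (if 1 = i ∧ 1 = j then b else 0) +
      (if 0 = i ∧ 2 = j then c else 0) + (if 1 = i ∧ 0 = j then d else 0) +
      (if 0 = i ∧ 1 = j then e else 0) + (if 0 = i ∧ 0 = j then f else 0) := by
  rw [qd, coeff_add, coeff_add, coeff_add, coeff_add, coeff_add, coeff_mon, coeff_mon, coeff_mon,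
    coeff_mon, coeff_mon, coeff_mon]

theorem mon_eq {K : Type} [Field K] (i j : ℕ) (a : K) :
    monomial (ex i j) a = (C a * X 0 ^ i * X 1 ^ j : Pl K) := by
  rw [ex, monomial_add_single, ← C_mul_X_pow_eq_monomial]

theorem qd_eq {K : Type} [Field K] (a b c d e f : K) :
    qd a b c d e f = (C a * X 0 ^ 2 + C b * (X 0 * X 1) + C c * X 1 ^ 2 + C d * X 0 + C e * X 1 +
      C f : Pl K) := by
  rw [qd, mon_eq, mon_eq, mon_eq, mon_eq, mon_eq, mon_eq]
  ring

theorem coeff_qd_zero {K : Type} [Field K] (a b c d e f : K) {i j : ℕ} (h : 2 < i + j) :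
    coeff (ex i j) (qd a b c d e f) = 0 := by
  rw [coeff_qd, if_neg (by omega), if_neg (by omega), if_neg (by omega), if_neg (by omega),
    if_neg (by omega), if_neg (by omega)]
  ring

theorem exists_qd {K : Type} [Field K] {g : Pl K} (hg : g.totalDegree ≤ 2) :
    g = qd (coeff (ex 2 0) g) (coeff (ex 1 1) g) (coeff (ex 0 2) g) (coeff (ex 1 0) g)
      (coeff (ex 0 1) g) (coeff (ex 0 0) g) := by
  ext m
  rw [← ex_eq m]
  by_cases h : m 0 + m 1 ≤ 2
  · rw [coeff_qd]
    generalize m 0 = i at h ⊢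
    generalize m 1 = j at h ⊢
    have hi : i ≤ 2 := by omega
    have hj : j ≤ 2 := by omega
    interval_cases i <;> interval_cases j <;> first | (exfalso; omega) | simp
  · rw [coeff_qd_zero _ _ _ _ _ _ (by omega)]
    refine coeff_eq_zero_of_totalDegree_lt ?_
    rw [ex_eq, deg_ex]
    omega

theorem deg_qd {K : Type} [Field K] (a b c d e f : K) : (qd a b c d e f).totalDegree ≤ 2 := by
  rw [totalDegree]
  refine Finset.sup_le fun m hm => ?_
  have h1 : (m.sum fun _ e => e) = m 0 + m 1 := by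
    rw [Finsupp.sum, deg_ex]
  rw [h1]
  by_contra h
  rw [mem_support_iff, ← ex_eq m] at hm
  exact hm (coeff_qd_zero _ _ _ _ _ _ (by omega))

theorem eval_qd {K : Type} [Field K] (a b c d e f : K) (u : Fin 2 → K) :
    eval u (qd a b c d e f) =
      a * u 0 ^ 2 + b * (u 0 * u 1) + c * u 1 ^ 2 + d * u 0 + e * u 1 + f := by
  rw [qd_eq]
  simp

theorem res_qd {K : Type} [Field K] (a b c d e f : K) (u : Fin 2 → K) :
    res u (qd a b c d e f) =
      Polynomial.C a * (Polynomial.C (-(u 0)⁻¹) + Polynomial.C (-(u 1)) * Polynomial.X) ^ 2 +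
      Polynomial.C b * ((Polynomial.C (-(u 0)⁻¹) + Polynomial.C (-(u 1)) * Polynomial.X) *
        (Polynomial.C (u 0) * Polynomial.X)) +
      Polynomial.C c * (Polynomial.C (u 0) * Polynomial.X) ^ 2 +
      Polynomial.C d * (Polynomial.C (-(u 0)⁻¹) + Polynomial.C (-(u 1)) * Polynomial.X) +
      Polynomial.C e * (Polynomial.C (u 0) * Polynomial.X) + Polynomial.C f := by
  have h0 : res u (X 0) = Polynomial.C (-(u 0)⁻¹) + Polynomial.C (-(u 1)) * Polynomial.X := by
    rw [res, aeval_X]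
    rfl
  have h1 : res u (X 1) = Polynomial.C (u 0) * Polynomial.X := by
    rw [res, aeval_X]
    have e1 : Rb u 1 = 0 := rfl
    have e2 : Jd u 1 = u 0 := rfl
    rw [e1, e2, Polynomial.C_0, zero_add]
  have hC : ∀ r : K, res u (C r) = Polynomial.C r := by
    intro r
    rw [res, aeval_C, Polynomial.algebraMap_eq]
  rw [qd_eq]
  simp only [map_add, map_mul, map_pow, h0, h1, hC]

/-- The discriminant vanishes if there is a double root. -/
theorem disc {K : Type} [Field K] (a b c d e f : K) (u : Fin 2 → K) (hu : u 0 ≠ 0) (τ : K)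
    (h0 : (res u (qd a b c d e f)).eval τ = 0)
    (h1 : (Polynomial.derivative (res u (qd a b c d e f))).eval τ = 0) :
    (4 * c * f - e ^ 2) * u 0 ^ 2 + 2 * (d * e - 2 * b * f) * (u 0 * u 1) +
      (4 * a * f - d ^ 2) * u 1 ^ 2 + 2 * (b * e - 2 * c * d) * u 0 +
      2 * (b * d - 2 * a * e) * u 1 + (4 * a * c - b ^ 2) = 0 := by
  rw [res_qd] at h0 h1
  simp only [Polynomial.derivative_add, Polynomial.derivative_mul, Polynomial.derivative_pow,
    Polynomial.derivative_C, Polynomial.derivative_X, Polynomial.eval_add, Polynomial.eval_mul,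
    Polynomial.eval_pow, Polynomial.eval_C, Polynomial.eval_X, zero_mul, zero_add, mul_one,
    add_zero, Nat.cast_ofNat, Nat.add_one_sub_one, pow_one] at h0 h1
  have h0' : a * (-(u 0)⁻¹ + -(u 1) * τ) ^ 2 + b * ((-(u 0)⁻¹ + -(u 1) * τ) * (u 0 * τ)) +
      c * (u 0 * τ) ^ 2 + d * (-(u 0)⁻¹ + -(u 1) * τ) + e * (u 0 * τ) + f = 0 := by
    linear_combination h0
  have h1' : 2 * a * (-(u 0)⁻¹ + -(u 1) * τ) * (-(u 1)) +
      b * (-(u 1) * (u 0 * τ) + (-(u 0)⁻¹ + -(u 1) * τ) * u 0) + 2 * c * (u 0 * τ) * u 0 +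
      d * (-(u 1)) + e * u 0 = 0 := by
    linear_combination h1
  have key : (4 * c * f - e ^ 2) * u 0 ^ 2 + 2 * (d * e - 2 * b * f) * (u 0 * u 1) +
      (4 * a * f - d ^ 2) * u 1 ^ 2 + 2 * (b * e - 2 * c * d) * u 0 +
      2 * (b * d - 2 * a * e) * u 1 + (4 * a * c - b ^ 2) =
      4 * (a * (-(u 0)⁻¹ + -(u 1) * τ) ^ 2 + b * ((-(u 0)⁻¹ + -(u 1) * τ) * (u 0 * τ)) +
        c * (u 0 * τ) ^ 2 + d * (-(u 0)⁻¹ + -(u 1) * τ) + e * (u 0 * τ) + f) *
        (a * u 1 ^ 2 - b * u 0 * u 1 + c * u 0 ^ 2) -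
      (2 * a * (-(u 0)⁻¹ + -(u 1) * τ) * (-(u 1)) +
        b * (-(u 1) * (u 0 * τ) + (-(u 0)⁻¹ + -(u 1) * τ) * u 0) + 2 * c * (u 0 * τ) * u 0 +
        d * (-(u 1)) + e * u 0) ^ 2 := by
    field_simp
    ring
  rw [key, h0', h1']
  ring

/-- A linear form which is not constant is not a unit. -/
theorem not_unit {K : Type} [Field K] (d e f : K) (h : d ≠ 0 ∨ e ≠ 0) :
    ¬ IsUnit (C d * X 0 + C e * X 1 + C f : Pl K) := by
  intro hu
  obtain ⟨r, -, hr⟩ := isUnit_iff_eq_C_of_isReduced.mp hu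
  have e1 : (C d * X 0 + C e * X 1 + C f : Pl K) = qd 0 0 0 d e f := by
    rw [qd_eq]
    simp
  have e2 : (C r : Pl K) = qd 0 0 0 0 0 r := by
    rw [qd_eq]
    simp
  rw [e1, e2] at hr
  have h1 := congrArg (coeff (ex 1 0)) hr
  have h2 := congrArg (coeff (ex 0 1)) hr
  rw [coeff_qd, coeff_qd] at h1 h2
  simp at h1 h2
  rcases h with h | h
  · exact h h1
  · exact h h2

/-- An irreducible polynomial is not a constant times a square. -/
theorem not_sq {K : Type} [Field K] {g l : Pl K} (hg : Irreducible g) (k : K) (hk : k ≠ 0)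
    (hl : ¬ IsUnit l) (h : C k * g = l * l) : False := by
  have h1 : g = C k⁻¹ * l * l := by
    rw [mul_assoc, ← h, ← mul_assoc, ← C_mul, inv_mul_cancel₀ hk, C_1, one_mul]
  rcases hg.isUnit_or_isUnit h1 with h2 | h2
  · exact hl (isUnit_of_mul_isUnit_right h2)
  · exact hl h2

end Disc_aux

open Disc_aux in
/-- The tangent lines of a conic satisfy a quadratic equation. -/
theorem tDisc : S_Res → S_Disc := by
  intro _ K _ g h2 hg hdeg
  obtain ⟨a, b, c, d, e, f, hq⟩ : ∃ a b c d e f : K, g = qd a b c d e f :=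
    ⟨_, _, _, _, _, _, exists_qd (le_of_eq hdeg)⟩
  subst hq
  refine ⟨qd (4 * c * f - e ^ 2) (2 * (d * e - 2 * b * f)) (4 * a * f - d ^ 2)
    (2 * (b * e - 2 * c * d)) (2 * (b * d - 2 * a * e)) (4 * a * c - b ^ 2), ?_, deg_qd _ _ _ _ _ _,
    ?_⟩
  · intro h0
    have k20 := congrArg (coeff (ex 2 0)) h0
    have k11 := congrArg (coeff (ex 1 1)) h0
    have k02 := congrArg (coeff (ex 0 2)) h0
    have k10 := congrArg (coeff (ex 1 0)) h0
    have k01 := congrArg (coeff (ex 0 1)) h0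
    have k00 := congrArg (coeff (ex 0 0)) h0
    rw [coeff_qd] at k20 k11 k02 k10 k01 k00
    simp only [OfNat.ofNat_ne_zero, OfNat.zero_ne_ofNat, OfNat.ofNat_ne_one, OfNat.one_ne_ofNat,
      one_ne_zero, zero_ne_one, and_self, and_true, and_false, ↓reduceIte,
      add_zero, zero_add, coeff_zero] at k20 k11 k02 k10 k01 k00
    have h4 : (4 : K) ≠ 0 := by
      have e4 : (4 : K) = 2 * 2 := by norm_num
      rw [e4]
      exact mul_ne_zero h2 h2
    have c1 : d * e - 2 * b * f = 0 := (mul_eq_zero.mp k11).resolve_left h2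
    have c2 : b * e - 2 * c * d = 0 := (mul_eq_zero.mp k10).resolve_left h2
    have c3 : b * d - 2 * a * e = 0 := (mul_eq_zero.mp k01).resolve_left h2
    have hC : ∀ r : K, r = 0 → (C r : Pl K) = 0 := fun r hr => by rw [hr, C_0]
    have p1 := hC _ k20
    have p2 := hC _ k02
    have p3 := hC _ k00
    have p4 := hC _ c2
    have p5 := hC _ c3
    simp only [map_sub, map_mul, map_pow, map_ofNat] at p1 p2 p3 p4 p5
    by_cases ha : a = 0
    · have hb : b = 0 := by
        rw [ha] at k00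
        have : b ^ 2 = 0 := by linear_combination -k00
        exact pow_eq_zero_iff (two_ne_zero) |>.mp this
      have hd : d = 0 := by
        rw [ha] at k02
        have : d ^ 2 = 0 := by linear_combination -k02
        exact pow_eq_zero_iff (two_ne_zero) |>.mp this
      by_cases hc : c = 0
      · have he : e = 0 := by
          rw [hc] at k20
          have : e ^ 2 = 0 := by linear_combination -k20
          exact pow_eq_zero_iff (two_ne_zero) |>.mp this
        rw [ha, hb, hc, hd, he, qd_eq] at hdeg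
        simp at hdeg
      · refine not_sq hg (4 * c) (mul_ne_zero h4 hc)
          (not_unit 0 (2 * c) e (Or.inr (mul_ne_zero h2 hc))) ?_
        rw [qd_eq, ha, hb, hd]
        simp only [map_mul, map_ofNat, map_zero]
        linear_combination p1
    · refine not_sq hg (4 * a) (mul_ne_zero h4 ha)
        (not_unit (2 * a) b d (Or.inl (mul_ne_zero h2 ha))) ?_
      rw [qd_eq]
      simp only [map_mul, map_ofNat]
      linear_combination (X 1 ^ 2) * p3 + p2 - 2 * X 1 * p5
  · intro u hu ⟨τ, hτ⟩ hne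
    rw [eval_qd]
    have h3 := (Polynomial.one_lt_rootMultiplicity_iff_isRoot (t := τ) hne).mp hτ
    exact disc a b c d e f u hu τ h3.1 h3.2

end Pool.Agent.Lib.MP_8dbdcc_co.AA
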