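import Pool.Agent.Lib.MP_8dbdcc_co.AA.Spec

/-!
# Almost all large arcs of `𝔽_p²` lie on a conic: divisors of the envelope
-/

set_option autoImplicit false

namespace Pool.Agent.Lib.MP_8dbdcc_co.AA

open MvPolynomial Finset

theorem tDiv : S_Res → S_Div := by
  intro hRes K _ ι I u P t G g hE hg
  obtain ⟨-, hu, hdG, -, h3, hsq, hP, -⟩ := hE
  obtain ⟨b, rfl⟩ := hg
  have hne : ∀ i ∈ I, res (u i) (g * b) ≠ 0 := fun i hi => by
    rw [hsq i hi]
    exact pow_ne_zero 2 (hP i hi).2.1
  have hnd : ∀ i ∈ I, (res (u i) (g * b)).natDegree = 2 * t := fun i hi => by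
    rw [hsq i hi, Polynomial.natDegree_pow, (hP i hi).1]
  obtain ⟨i0, hi0⟩ : I.Nonempty := Finset.card_pos.1 (by omega)
  have hG0 : g * b ≠ 0 := fun h => hne i0 hi0 (by rw [h, map_zero])
  have hg0 : g ≠ 0 := left_ne_zero_of_mul hG0
  have hb0 : b ≠ 0 := right_ne_zero_of_mul hG0
  have hadd : (g * b).totalDegree = g.totalDegree + b.totalDegree :=
    totalDegree_mul_of_isDomain hg0 hb0
  refine ⟨by omega, hG0, ?_⟩
  intro i hi
  have hdeg := (hRes K (u i) (hu i hi)).2.1
  have h1 : (res (u i) g).natDegree ≤ g.totalDegree := hdeg g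
  have h2 : (res (u i) b).natDegree ≤ b.totalDegree := hdeg b
  have hne' := hne i hi
  have hnd' := hnd i hi
  rw [map_mul] at hne' hnd'
  have hg1 : res (u i) g ≠ 0 := left_ne_zero_of_mul hne'
  have hb1 : res (u i) b ≠ 0 := right_ne_zero_of_mul hne'
  rw [Polynomial.natDegree_mul hg1 hb1] at hnd'
  refine ⟨by omega, ?_, ?_⟩
  · intro τ
    have h4 : (res (u i) g).rootMultiplicity τ ≤ (res (u i) g * res (u i) b).rootMultiplicity τ :=
      Polynomial.rootMultiplicity_le_rootMultiplicity_of_dvd hne' (dvd_mul_right _ _) τ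
    have h5 : (res (u i) g * res (u i) b).rootMultiplicity τ
        = 2 * (res (u i) (P i)).rootMultiplicity τ := by
      have h7 := (hP i hi).2.1
      rw [← map_mul, hsq i hi, sq, Polynomial.rootMultiplicity_mul (mul_ne_zero h7 h7), two_mul]
    have h6 := (hP i hi).2.2 τ
    omega
  · intro τ h4
    have h5 : (res (u i) (P i) ^ 2).IsRoot τ := by
      rw [← hsq i hi, map_mul]
      exact h4.dvd (dvd_mul_right _ _)
    rw [Polynomial.IsRoot, Polynomial.eval_pow] at h5
    exact (pow_eq_zero_iff two_ne_zero).1 h5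

end Pool.Agent.Lib.MP_8dbdcc_co.AA
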