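import Pool.Agent.Lib.MP_8dbdcc_co.AA.Spec

/-!
# Almost all large arcs: a factor of degree at least two of the envelope
-/

set_option autoImplicit false

namespace Pool.Agent.Lib.MP_8dbdcc_co.AA

open MvPolynomial Finset

namespace Fac_aux

theorem res_eval {K : Type} [Field K] (u : Fin 2 → K) (f : Pl K) (τ : K) :
    (res u f).eval τ = eval (Rb u + τ • Jd u) f := by
  have h : (Polynomial.evalRingHom τ).comp (res u : Pl K →+* Polynomial K) =
      eval (Rb u + τ • Jd u) := by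
    refine MvPolynomial.ringHom_ext (fun r => ?_) (fun i => ?_)
    · simp [res]
    · simp [res]
      ring
  exact congrArg (fun φ : Pl K →+* K => φ f) h

theorem point {K : Type} [Field K] (u : Fin 2 → K) (hu : u 0 ≠ 0) (Q : Fin 2 → K)
    (hQ : eval Q (LF u) = 0) : ∃ τ : K, Rb u + τ • Jd u = Q := by
  have h1 : u 0 * Q 0 + u 1 * Q 1 + 1 = 0 := by
    simpa [LF] using hQ
  refine ⟨Q 1 / u 0, ?_⟩
  funext i
  fin_cases i
  · simp [Rb, Jd]
    field_simp
    linear_combination -h1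
  · simp [Rb, Jd]
    field_simp

theorem val {K : Type} [Field K] (u : Fin 2 → K) (hu : u 0 ≠ 0) (Q : Fin 2 → K)
    (hQ : eval Q (LF u) = 0) (f g : Pl K) (h : res u f = res u g) : eval Q f = eval Q g := by
  obtain ⟨τ, rfl⟩ := point u hu Q hQ
  rw [← res_eval, ← res_eval, h]

theorem val_neg {K : Type} [Field K] (u : Fin 2 → K) (hu : u 0 ≠ 0) (Q : Fin 2 → K)
    (hQ : eval Q (LF u) = 0) (f g : Pl K) (h : res u f = -res u g) :
    eval Q f = -eval Q g := by
  obtain ⟨τ, rfl⟩ := point u hu Q hQ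
  rw [← res_eval, ← res_eval, h, Polynomial.eval_neg]

/-- The envelope is not a square. -/
theorem not_sq {K : Type} [Field K] {ι : Type} {I : Finset ι} {u : ι → Fin 2 → K}
    {P : ι → Pl K} {t : ℕ} {G : Pl K} (h : Env K ι I u P t G) (F : Pl K) : G ≠ F ^ 2 := by
  classical
  intro hF
  obtain ⟨h2, hu, -, -, h3, hres, -, hnode⟩ := h
  have hs : ∀ i ∈ I, res (u i) F = res (u i) (P i) ∨ res (u i) F = -res (u i) (P i) := by
    intro i hi
    have h4 : res (u i) F ^ 2 = res (u i) (P i) ^ 2 := by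
      rw [← hres i hi, hF, map_pow]
    exact sq_eq_sq_iff_eq_or_eq_neg.1 h4
  have key : ∀ i ∈ I, ∀ j ∈ I, i ≠ j →
      ¬ (res (u i) F = res (u i) (P i) ∧ res (u j) F = res (u j) (P j)) ∧
      ¬ (res (u i) F = -res (u i) (P i) ∧ res (u j) F = -res (u j) (P j)) := by
    intro i hi j hj hij
    obtain ⟨⟨Q, hQi, hQj⟩, hQ⟩ := hnode i hi j hj hij
    obtain ⟨h5, h6⟩ := hQ Q hQi hQj
    refine ⟨?_, ?_⟩
    · rintro ⟨h7, h8⟩
      have h9 := val (u i) (hu i hi) Q hQi _ _ h7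
      have h10 := val (u j) (hu j hj) Q hQj _ _ h8
      have h11 : 2 * eval Q (P i) = 0 := by
        linear_combination h10 - h9 + h5
      exact (mul_ne_zero h2 h6) h11
    · rintro ⟨h7, h8⟩
      have h9 := val_neg (u i) (hu i hi) Q hQi _ _ h7
      have h10 := val_neg (u j) (hu j hj) Q hQj _ _ h8
      have h11 : 2 * eval Q (P i) = 0 := by
        linear_combination h9 - h10 + h5
      exact (mul_ne_zero h2 h6) h11
  obtain ⟨a, ha, b, hb, c, hc, hab, hac, hbc⟩ := Finset.two_lt_card.1 (show 2 < I.card by omega)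
  have k1 := key a ha b hb hab
  have k2 := key a ha c hc hac
  have k3 := key b hb c hc hbc
  rcases hs a ha with sa | sa <;> rcases hs b hb with sb | sb <;> rcases hs c hc with sc | sc
  · exact k1.1 ⟨sa, sb⟩
  · exact k1.1 ⟨sa, sb⟩
  · exact k2.1 ⟨sa, sc⟩
  · exact k3.2 ⟨sb, sc⟩
  · exact k3.1 ⟨sb, sc⟩
  · exact k2.2 ⟨sa, sc⟩
  · exact k1.2 ⟨sa, sb⟩
  · exact k1.2 ⟨sa, sb⟩

theorem deg_pos {K : Type} [Field K] (g : Pl K) (hg : Irreducible g) : 1 ≤ g.totalDegree := by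
  by_contra hlt
  have h0 : g.totalDegree = 0 := by omega
  rw [totalDegree_eq_zero_iff_eq_C] at h0
  have h1 : coeff 0 g ≠ 0 := by
    intro hc
    rw [hc, C_0] at h0
    exact hg.ne_zero h0
  apply hg.not_isUnit
  rw [h0]
  exact (isUnit_iff_ne_zero.2 h1).map C

end Fac_aux

open Fac_aux in
theorem tFac : S_Div → S_Lin → S_Fac := by
  classical
  intro hDiv hLin K _ _ ι I u P t G hE
  obtain ⟨-, hG0, -⟩ := hDiv K ι I u P t G 1 hE (one_dvd G)
  have main : ∃ g : Pl K, Irreducible g ∧ g ∣ G ∧ 2 ≤ g.totalDegree := by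
    by_contra hcon
    have h1 : ∀ g : Pl K, Irreducible g → g ∣ G → g.totalDegree = 1 := by
      intro g hg hgG
      have h2 := deg_pos g hg
      by_contra h3
      exact hcon ⟨g, hg, hgG, by omega⟩
    let s : Set ℕ := {n | ∃ F : Pl K, F ^ 2 ∣ G ∧ F.totalDegree = n}
    have hs : s.Nonempty := ⟨_, 1, by rw [one_pow]; exact one_dvd G, rfl⟩
    have hb : BddAbove s := by
      refine ⟨2 * t, ?_⟩
      rintro n ⟨F, hF, rfl⟩
      exact (hDiv K ι I u P t G F hE (dvd_trans (dvd_pow_self F two_ne_zero) hF)).1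
    obtain ⟨F, ⟨G1, hG1⟩, hd⟩ := Nat.sSup_mem hs hb
    have hmax : ∀ F' : Pl K, F' ^ 2 ∣ G → F'.totalDegree ≤ F.totalDegree := by
      intro F' hF'
      rw [hd]
      exact le_csSup hb ⟨F', hF', rfl⟩
    have hF0 : F ≠ 0 := by
      rintro rfl
      apply hG0
      rw [hG1]
      simp
    have hG10 : G1 ≠ 0 := by
      rintro rfl
      apply hG0
      rw [hG1, mul_zero]
    by_cases hu : IsUnit G1
    · obtain ⟨c, -, hc⟩ := MvPolynomial.isUnit_iff_eq_C_of_isReduced.1 hu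
      obtain ⟨z, hz⟩ := IsAlgClosed.exists_pow_nat_eq c (n := 2) (by norm_num)
      apply not_sq hE (F * C z)
      rw [mul_pow, ← map_pow, hz, hG1, hc]
    · obtain ⟨g, hg, G2, hG2⟩ := WfDvdMonoid.exists_irreducible_factor hu hG10
      have hgG : G = g * (F ^ 2 * G2) := by
        rw [hG1, hG2]
        ring
      have hg1 : g.totalDegree = 1 := h1 g hg ⟨_, hgG⟩
      obtain ⟨h4, h5⟩ := hLin K ι I u P t G g (F ^ 2 * G2) hE hg hg1 hgG
      rcases hg.prime.dvd_or_dvd h4 with h6 | h6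
      · obtain ⟨F1, hF1⟩ := hg.prime.dvd_of_dvd_pow h6
        apply h5
        refine ⟨F1 ^ 2 * G2, ?_⟩
        rw [hgG, hF1]
        ring
      · obtain ⟨G3, hG3⟩ := h6
        have h7 : (F * g) ^ 2 ∣ G := by
          refine ⟨G3, ?_⟩
          rw [hgG, hG3]
          ring
        have h8 := hmax (F * g) h7
        rw [totalDegree_mul_of_isDomain hF0 hg.ne_zero, hg1] at h8
        omega
  obtain ⟨g, hg, hgG, hg2⟩ := main
  obtain ⟨h1, -, h2⟩ := hDiv K ι I u P t G g hE hgG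
  exact ⟨g, hg, hg2, h1, h2⟩

end Pool.Agent.Lib.MP_8dbdcc_co.AA
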