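import Pool.Agent.Lib.MP_8dbdcc_co.AA.Spec

/-!
# `g` does not divide the auxiliary polynomial `FF`
-/

set_option autoImplicit false

namespace Pool.Agent.Lib.MP_8dbdcc_co.AA

open MvPolynomial Finset

namespace Fn_aux

variable {K : Type} [Field K]

theorem Dg_self (g : Pl K) : Dg g g = 0 := by
  rw [Dg_apply]
  ring

theorem dvd_D {g f : Pl K} (h : g ∣ f) : g ∣ Dg g f := by
  obtain ⟨q, rfl⟩ := h
  rw [Derivation.leibniz, Dg_self, smul_zero, add_zero, smul_eq_mul]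
  exact dvd_mul_right _ _

theorem D_mul (g a b : Pl K) : Dg g (a * b) = a * Dg g b + b * Dg g a := by
  rw [Derivation.leibniz, smul_eq_mul, smul_eq_mul]

theorem D_mul_zero {g a b : Pl K} (ha : Dg g a = 0) (hb : Dg g b = 0) : Dg g (a * b) = 0 := by
  rw [D_mul, ha, hb, mul_zero, mul_zero, add_zero]

theorem D_C (g : Pl K) (c : K) : Dg g (C c) = 0 := by
  rw [Dg_apply, pderiv_C, pderiv_C, mul_zero, mul_zero, sub_zero]

theorem D_pow_p (p : ℕ) [CharP K p] (g f : Pl K) : Dg g (f ^ p) = 0 := by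
  have h : (p : Pl K) = 0 := CharP.cast_eq_zero (Pl K) p
  rw [Derivation.leibniz_pow, ← Nat.cast_smul_eq_nsmul (Pl K), h, zero_smul]

theorem D_om (p : ℕ) [CharP K p] (g : Pl K) (β : Fin 2 → K) : Dg g (om p β) = 0 := by
  rw [om, map_add, map_add, D_mul_zero (D_C g _) (D_pow_p p g _), D_mul_zero (D_C g _) (D_pow_p p g _),
    add_zero, add_zero]
  have h : (1 : Pl K) = C 1 := by simp
  rw [h, D_C]

theorem D_pow2p (p : ℕ) [CharP K p] (g f : Pl K) : Dg g (f ^ (2 * p)) = 0 := by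
  rw [pow_mul]
  exact D_pow_p p g _

theorem D_cv (p : ℕ) [CharP K p] (g : Pl K) (β : Fin 2 → K) (j : Fin 6) : Dg g (cv p β j) = 0 := by
  fin_cases j
  · change Dg g (om p β ^ 2) = 0
    rw [pow_two]
    exact D_mul_zero (D_om p g β) (D_om p g β)
  · exact D_mul_zero (D_om p g β) (D_pow_p p g _)
  · exact D_mul_zero (D_om p g β) (D_pow_p p g _)
  · exact D_pow2p p g _
  · exact D_mul_zero (D_pow_p p g _) (D_pow_p p g _)
  · exact D_pow2p p g _

theorem exists_rel {g : Pl K} (hg : Irreducible g) (M : Matrix (Fin 6) (Fin 6) (Pl K)) (h : g ∣ M.det) :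
    ∃ a : Fin 6 → Pl K, (∃ i, ¬ g ∣ a i) ∧ ∀ j, g ∣ ∑ i, a i * M i j := by
  have hpr : Prime g := hg.prime
  haveI : (Ideal.span {g}).IsPrime := (Ideal.span_singleton_prime hpr.ne_zero).mpr hpr
  have hdet : (M.map (Ideal.Quotient.mk (Ideal.span {g}))).det = 0 := by
    have h1 : (M.map (Ideal.Quotient.mk (Ideal.span {g}))).det =
        Ideal.Quotient.mk (Ideal.span {g}) M.det := by
      rw [RingHom.map_det]
      rfl
    rw [h1]
    exact (Ideal.Quotient.eq_zero_iff_dvd _ _).mpr h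
  obtain ⟨v, hv, hv2⟩ := Matrix.exists_vecMul_eq_zero_iff.mpr hdet
  choose a ha using fun i => Ideal.Quotient.mk_surjective (v i)
  refine ⟨a, ?_, ?_⟩
  · by_contra hcon
    push Not at hcon
    apply hv
    funext i
    rw [← ha i]
    exact (Ideal.Quotient.eq_zero_iff_dvd _ _).mpr (hcon i)
  · intro j
    rw [← Ideal.Quotient.eq_zero_iff_dvd, map_sum]
    have h2 := congrFun hv2 j
    rw [Matrix.vecMul, dotProduct] at h2
    refine Eq.trans (Finset.sum_congr rfl fun i _ => ?_) h2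
    rw [map_mul, ha i]
    rfl

/-- The exponents of the six monomials. -/
noncomputable def ex : Fin 6 → (Fin 2 →₀ ℕ) :=
  ![0, Finsupp.single 0 1, Finsupp.single 1 1, Finsupp.single 0 2,
    Finsupp.single 0 1 + Finsupp.single 1 1, Finsupp.single 1 2]

/-- The exponents as pairs. -/
def tx : Fin 6 → ℕ × ℕ := ![(0, 0), (1, 0), (0, 1), (2, 0), (1, 1), (0, 2)]

theorem tx_inj : Function.Injective tx := by decide

theorem ex_tx (j : Fin 6) : (ex j 0, ex j 1) = tx j := by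
  fin_cases j <;> simp [ex, tx]

theorem ex_inj : Function.Injective ex := by
  intro i j h
  apply tx_inj
  rw [← ex_tx, ← ex_tx, h]

theorem mv_eq (j : Fin 6) : mv K j = monomial (ex j) (1 : K) := by
  fin_cases j
  · rfl
  · rfl
  · rfl
  · change (X 0 ^ 2 : Pl K) = monomial (Finsupp.single 0 2) 1
    rw [X_pow_eq_monomial]
  · change (X 0 * X 1 : Pl K) = monomial (Finsupp.single 0 1 + Finsupp.single 1 1) 1
    rw [X, X, monomial_mul, mul_one]
  · change (X 1 ^ 2 : Pl K) = monomial (Finsupp.single 1 2) 1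
    rw [X_pow_eq_monomial]

theorem mv_li : LinearIndependent K (mv K) := by
  have h := (basisMonomials (Fin 2) K).linearIndependent.comp ex ex_inj
  have h2 : (basisMonomials (Fin 2) K) ∘ ex = mv K := by
    funext j
    rw [mv_eq]
    simp
  rwa [h2] at h

theorem mv_deg (j : Fin 6) : (mv K j).totalDegree ≤ 2 := by
  rw [mv_eq, totalDegree_monomial _ one_ne_zero]
  fin_cases j <;> simp [ex, Finsupp.sum_add_index']

theorem FF_eq (p : ℕ) (β : Fin 2 → K) (g : Pl K) :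
    FF p β g = ((Wm g).updateRow 5 (cv p β)).det := by
  rw [Matrix.det_eq_sum_mul_adjugate_row _ 5, FF]
  refine Finset.sum_congr rfl fun j _ => ?_
  rw [Matrix.updateRow_self, Matrix.adjugate_apply, Matrix.adjugate_apply, Matrix.updateRow_idem]

end Fn_aux

open Fn_aux in
/-- `g` does not divide `FF`. -/
theorem tFn : S_Ind → S_Fn := by
  intro hInd K _ _ p _ _ g β hg h3 hp hdvd
  have hpr : Prime g := hg.prime
  have hI : ∀ a : Fin 6 → Pl K, (∀ j, g ∣ ∑ i : Fin 6, a i * (Dg g)^[(i : ℕ)] (mv K j)) →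
      ∀ i, g ∣ a i := fun a =>
    hInd K p g 2 6 (mv K) a hg (by omega) hp mv_deg mv_li
  rw [FF_eq] at hdvd
  obtain ⟨a, hne, ha⟩ := exists_rel hg _ hdvd
  -- the relation
  have hrel : ∀ j, g ∣ a 0 * mv K j + a 1 * Dg g (mv K j) + a 2 * Dg g (Dg g (mv K j)) +
      a 3 * Dg g (Dg g (Dg g (mv K j))) + a 4 * Dg g (Dg g (Dg g (Dg g (mv K j)))) +
        a 5 * cv p β j := by
    intro j
    have h := ha j
    rw [Fin.sum_univ_six] at h
    have e0 : (Wm g).updateRow 5 (cv p β) 0 j = mv K j := rfl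
    have e1 : (Wm g).updateRow 5 (cv p β) 1 j = Dg g (mv K j) := rfl
    have e2 : (Wm g).updateRow 5 (cv p β) 2 j = Dg g (Dg g (mv K j)) := rfl
    have e3 : (Wm g).updateRow 5 (cv p β) 3 j = Dg g (Dg g (Dg g (mv K j))) := rfl
    have e4 : (Wm g).updateRow 5 (cv p β) 4 j = Dg g (Dg g (Dg g (Dg g (mv K j)))) := rfl
    have e5 : (Wm g).updateRow 5 (cv p β) 5 j = cv p β j := rfl
    rw [e0, e1, e2, e3, e4, e5] at h
    exact h
  have hI' : ∀ b : Fin 6 → Pl K, (∀ j, g ∣ b 0 * mv K j + b 1 * Dg g (mv K j) +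
      b 2 * Dg g (Dg g (mv K j)) + b 3 * Dg g (Dg g (Dg g (mv K j))) +
        b 4 * Dg g (Dg g (Dg g (Dg g (mv K j)))) +
          b 5 * Dg g (Dg g (Dg g (Dg g (Dg g (mv K j)))))) → ∀ i, g ∣ b i := by
    intro b hb
    apply hI
    intro j
    rw [Fin.sum_univ_six]
    exact hb j
  -- `g` does not divide `a 5`
  have h5 : ¬ g ∣ a 5 := by
    intro h5
    obtain ⟨i, hi⟩ := hne
    have h := hI' ![a 0, a 1, a 2, a 3, a 4, 0] (by
      intro j
      have h1 := hrel j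
      have h2 : g ∣ a 5 * cv p β j := dvd_mul_of_dvd_left h5 _
      have h3 := (dvd_add_left h2).mp h1
      change g ∣ a 0 * mv K j + a 1 * Dg g (mv K j) + a 2 * Dg g (Dg g (mv K j)) +
        a 3 * Dg g (Dg g (Dg g (mv K j))) + a 4 * Dg g (Dg g (Dg g (Dg g (mv K j)))) +
          0 * Dg g (Dg g (Dg g (Dg g (Dg g (mv K j)))))
      rw [zero_mul, add_zero]
      exact h3)
    apply hi
    have h0 := h 0
    have h1 := h 1
    have h2 := h 2
    have h3 := h 3
    have h4 := h 4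
    fin_cases i
    · exact h0
    · exact h1
    · exact h2
    · exact h3
    · exact h4
    · exact h5
  -- the differentiated relation
  have hE := hI' ![a 5 * Dg g (a 0) - a 0 * Dg g (a 5),
    a 5 * Dg g (a 1) - a 1 * Dg g (a 5) + a 5 * a 0,
    a 5 * Dg g (a 2) - a 2 * Dg g (a 5) + a 5 * a 1,
    a 5 * Dg g (a 3) - a 3 * Dg g (a 5) + a 5 * a 2,
    a 5 * Dg g (a 4) - a 4 * Dg g (a 5) + a 5 * a 3,
    a 5 * a 4] (by
      intro j
      have h1 := hrel j
      have h2 := dvd_D h1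
      have h3 : g ∣ a 5 * Dg g (a 0 * mv K j + a 1 * Dg g (mv K j) + a 2 * Dg g (Dg g (mv K j)) +
        a 3 * Dg g (Dg g (Dg g (mv K j))) + a 4 * Dg g (Dg g (Dg g (Dg g (mv K j)))) +
          a 5 * cv p β j) - Dg g (a 5) * (a 0 * mv K j + a 1 * Dg g (mv K j) +
          a 2 * Dg g (Dg g (mv K j)) +
        a 3 * Dg g (Dg g (Dg g (mv K j))) + a 4 * Dg g (Dg g (Dg g (Dg g (mv K j)))) +
          a 5 * cv p β j) := dvd_sub (dvd_mul_of_dvd_right h2 _) (dvd_mul_of_dvd_right h1 _)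
      rw [map_add, map_add, map_add, map_add, map_add, D_mul, D_mul, D_mul, D_mul, D_mul, D_mul,
        D_cv] at h3
      change g ∣ (a 5 * Dg g (a 0) - a 0 * Dg g (a 5)) * mv K j +
        (a 5 * Dg g (a 1) - a 1 * Dg g (a 5) + a 5 * a 0) * Dg g (mv K j) +
        (a 5 * Dg g (a 2) - a 2 * Dg g (a 5) + a 5 * a 1) * Dg g (Dg g (mv K j)) +
        (a 5 * Dg g (a 3) - a 3 * Dg g (a 5) + a 5 * a 2) * Dg g (Dg g (Dg g (mv K j))) +
        (a 5 * Dg g (a 4) - a 4 * Dg g (a 5) + a 5 * a 3) * Dg g (Dg g (Dg g (Dg g (mv K j)))) +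
        (a 5 * a 4) * Dg g (Dg g (Dg g (Dg g (Dg g (mv K j)))))
      refine h3.trans (dvd_of_eq ?_)
      ring)
  have stp : ∀ b : Pl K, g ∣ a 5 * b → g ∣ b := fun b hb => (hpr.dvd_or_dvd hb).resolve_left h5
  have stp2 : ∀ b c : Pl K, g ∣ b → g ∣ a 5 * Dg g b - b * Dg g (a 5) + a 5 * c → g ∣ c := by
    intro b c hb hbc
    apply stp
    have h1 : g ∣ a 5 * Dg g b - b * Dg g (a 5) :=
      dvd_sub (dvd_mul_of_dvd_right (dvd_D hb) _) (dvd_mul_of_dvd_left hb _)
    exact (dvd_add_right h1).mp hbc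
  have h4 : g ∣ a 4 := stp _ (hE 5)
  have h3' : g ∣ a 3 := stp2 _ _ h4 (hE 4)
  have h2' : g ∣ a 2 := stp2 _ _ h3' (hE 3)
  have h1' : g ∣ a 1 := stp2 _ _ h2' (hE 2)
  have h0' : g ∣ a 0 := stp2 _ _ h1' (hE 1)
  have hc : g ∣ cv p β 3 := by
    apply stp
    have h := hrel 3
    have h6 : g ∣ a 0 * mv K 3 + a 1 * Dg g (mv K 3) + a 2 * Dg g (Dg g (mv K 3)) +
        a 3 * Dg g (Dg g (Dg g (mv K 3))) + a 4 * Dg g (Dg g (Dg g (Dg g (mv K 3)))) :=
      dvd_add (dvd_add (dvd_add (dvd_add (dvd_mul_of_dvd_left h0' _) (dvd_mul_of_dvd_left h1' _))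
        (dvd_mul_of_dvd_left h2' _)) (dvd_mul_of_dvd_left h3' _)) (dvd_mul_of_dvd_left h4 _)
    exact (dvd_add_right h6).mp h
  have hX : g ∣ X 0 := hpr.dvd_of_dvd_pow (show g ∣ X 0 ^ (2 * p) from hc)
  have hdeg : g.totalDegree ≤ (X 0 : Pl K).totalDegree := by
    obtain ⟨q, hq⟩ := hX
    have hq0 : q ≠ 0 := by
      rintro rfl
      rw [mul_zero] at hq
      exact X_ne_zero 0 hq
    rw [hq, totalDegree_mul_of_isDomain hpr.ne_zero hq0]
    exact Nat.le_add_right _ _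
  rw [totalDegree_X] at hdeg
  omega

end Pool.Agent.Lib.MP_8dbdcc_co.AA
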