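import Pool.Agent.Lib.MP_8dbdcc_co.AA.Spec

/-!
# Degree of the auxiliary polynomial
-/

set_option autoImplicit false

namespace Pool.Agent.Lib.MP_8dbdcc_co.AA

open MvPolynomial Finset

namespace FvD_aux

theorem deg_pderiv {K : Type} [Field K] (P : Pl K) (j : Fin 2) :
    (pderiv j P).totalDegree ≤ P.totalDegree - 1 := by
  rw [totalDegree]
  refine Finset.sup_le fun e he => ?_
  rw [mem_support_iff, coeff_pderiv] at he
  have h1 : e + Finsupp.single j 1 ∈ P.support := by
    rw [mem_support_iff]
    exact left_ne_zero_of_mul he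
  have h2 := le_totalDegree h1
  rw [Finsupp.sum_add_index' (by simp) (by simp), Finsupp.sum_single_index rfl] at h2
  omega

theorem deg_Dg {K : Type} [Field K] (g f : Pl K) :
    (Dg g f).totalDegree ≤ f.totalDegree + (g.totalDegree - 1) := by
  rw [Dg_apply]
  refine (totalDegree_sub _ _).trans (max_le ?_ ?_)
  · refine (totalDegree_mul _ _).trans ?_
    have h1 := deg_pderiv g 1
    have h2 := deg_pderiv f 0
    omega
  · refine (totalDegree_mul _ _).trans ?_
    have h1 := deg_pderiv g 0
    have h2 := deg_pderiv f 1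
    omega

theorem deg_iter {K : Type} [Field K] (g f : Pl K) (i : ℕ) :
    ((Dg g)^[i] f).totalDegree ≤ f.totalDegree + i * (g.totalDegree - 1) := by
  induction i with
  | zero => simp
  | succ i ih =>
    rw [Function.iterate_succ_apply']
    refine (deg_Dg g _).trans ?_
    rw [add_mul, one_mul]
    omega

theorem deg_mv (K : Type) [Field K] (j : Fin 6) : (mv K j).totalDegree ≤ 2 := by
  fin_cases j
  · simp [mv]
  · simp [mv]
  · simp [mv]
  · simp [mv]
  · change (X 0 * X 1 : Pl K).totalDegree ≤ 2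
    refine (totalDegree_mul _ _).trans ?_
    rw [totalDegree_X, totalDegree_X]
  · simp [mv]

theorem deg_om {K : Type} [Field K] (p : ℕ) (β : Fin 2 → K) : (om p β).totalDegree ≤ p := by
  rw [om]
  have h : ∀ i : Fin 2, (C (β i) * X i ^ p : Pl K).totalDegree ≤ p := by
    intro i
    refine (totalDegree_mul _ _).trans ?_
    rw [totalDegree_C, totalDegree_X_pow, zero_add]
  refine (totalDegree_add _ _).trans (max_le ((totalDegree_add _ _).trans (max_le ?_ (h 0))) (h 1))
  rw [totalDegree_one]
  exact Nat.zero_le _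

theorem deg_cv {K : Type} [Field K] (p : ℕ) (β : Fin 2 → K) (j : Fin 6) :
    (cv p β j).totalDegree ≤ 2 * p := by
  have ho := deg_om p β
  fin_cases j
  · change (om p β ^ 2).totalDegree ≤ 2 * p
    refine (totalDegree_pow _ _).trans ?_
    omega
  · change (om p β * X 0 ^ p).totalDegree ≤ 2 * p
    refine (totalDegree_mul _ _).trans ?_
    rw [totalDegree_X_pow]
    omega
  · change (om p β * X 1 ^ p).totalDegree ≤ 2 * p
    refine (totalDegree_mul _ _).trans ?_
    rw [totalDegree_X_pow]
    omega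
  · change (X 0 ^ (2 * p) : Pl K).totalDegree ≤ 2 * p
    rw [totalDegree_X_pow]
  · change (X 0 ^ p * X 1 ^ p : Pl K).totalDegree ≤ 2 * p
    refine (totalDegree_mul _ _).trans ?_
    rw [totalDegree_X_pow, totalDegree_X_pow]
    omega
  · change (X 1 ^ (2 * p) : Pl K).totalDegree ≤ 2 * p
    rw [totalDegree_X_pow]

theorem deg_det {K : Type} [Field K] (M : Matrix (Fin 6) (Fin 6) (Pl K)) (d : Fin 6 → ℕ)
    (h : ∀ a b, (M a b).totalDegree ≤ d a) : M.det.totalDegree ≤ ∑ a, d a := by
  rw [Matrix.det_apply]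
  refine totalDegree_finsetSum_le fun σ _ => ?_
  refine (totalDegree_smul_le _ _).trans ?_
  refine (totalDegree_finsetProd _ _).trans ?_
  calc ∑ i, (M (σ i) i).totalDegree ≤ ∑ i, d (σ i) := Finset.sum_le_sum fun i _ => h _ _
    _ = ∑ a, d a := Equiv.sum_comp σ d

theorem deg_adj {K : Type} [Field K] (g : Pl K) (hg : 1 ≤ g.totalDegree) (j : Fin 6) :
    ((Wm g).adjugate j 5).totalDegree ≤ 10 * g.totalDegree := by
  rw [Matrix.adjugate_apply]
  refine (deg_det _ (fun a => if a = 5 then 0 else 2 + (a : ℕ) * (g.totalDegree - 1)) ?_).trans ?_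
  · intro a b
    by_cases ha : a = 5
    · rw [if_pos ha, ha, Matrix.updateRow_self, Pi.single_apply]
      split_ifs
      · rw [totalDegree_one]
      · rw [totalDegree_zero]
    · rw [if_neg ha, Matrix.updateRow_ne ha, Wm, Matrix.of_apply]
      exact (deg_iter g _ _).trans (Nat.add_le_add_right (deg_mv K b) _)
  · simp only [Fin.sum_univ_succ, Fin.ext_iff]
    simp
    omega

end FvD_aux

theorem tFvD : S_FvD := by
  intro K _ p g β hg
  rw [FF]
  refine totalDegree_finsetSum_le fun j _ => ?_
  refine (totalDegree_mul _ _).trans ?_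
  exact Nat.add_le_add (FvD_aux.deg_cv p β j) (FvD_aux.deg_adj g hg j)

end Pool.Agent.Lib.MP_8dbdcc_co.AA
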