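import Pool.Agent.Lib.MP_8dbdcc_co.AA.Spec

/-!
# Vanishing of the auxiliary polynomial
-/

set_option autoImplicit false

namespace Pool.Agent.Lib.MP_8dbdcc_co.AA

open MvPolynomial Finset

namespace FvV_aux

variable {K : Type} [Field K]

/-- Iterated derivation of a product with a constant. -/
lemma iter_mul (D : Derivation K (Pl K) (Pl K)) {ι : Type} (s : Finset ι) (c x : ι → Pl K)
    (hc : ∀ j ∈ s, D (c j) = 0) (i : ℕ) : D^[i] (∑ j ∈ s, c j * x j) = ∑ j ∈ s, c j * D^[i] (x j) := by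
  induction i with
  | zero => rfl
  | succ i ih =>
    rw [Function.iterate_succ_apply', ih, map_sum]
    refine Finset.sum_congr rfl fun j hj => ?_
    rw [Derivation.leibniz, hc j hj, Function.iterate_succ_apply', smul_eq_mul, smul_zero, add_zero]

/-- The relations. -/
lemma rel (D : Derivation K (Pl K) (Pl K)) (m A : Fin 6 → Pl K)
    (h0 : ∀ l < 5, ∑ j, D^[l] (m j) * A j = 0) (i : ℕ) :
    ∀ l, l + i < 5 → ∑ j, D^[l] (m j) * D^[i] (A j) = 0 := by
  induction i with
  | zero => exact fun l hl => h0 l hl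
  | succ i ih =>
    intro l hl
    have h1 := congrArg D (ih l (by omega))
    have h2 := ih (l + 1) (by omega)
    rw [map_zero, map_sum] at h1
    have h3 : ∀ j, D (D^[l] (m j) * D^[i] (A j)) =
        D^[l] (m j) * D^[i + 1] (A j) + D^[l + 1] (m j) * D^[i] (A j) := by
      intro j
      rw [Derivation.leibniz, Function.iterate_succ_apply', Function.iterate_succ_apply',
        smul_eq_mul, smul_eq_mul]
      ring
    simp only [h3] at h1
    rw [Finset.sum_add_distrib, h2, add_zero] at h1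
    exact h1

lemma D_pow (p : ℕ) [CharP K p] (D : Derivation K (Pl K) (Pl K)) (x : Pl K) : D (x ^ p) = 0 := by
  rw [Derivation.leibniz_pow]
  have h : (p : Pl K) = 0 := CharP.cast_eq_zero (Pl K) p
  rw [← Nat.cast_smul_eq_nsmul (Pl K), h, zero_smul]

lemma D_cv (p : ℕ) [CharP K p] (D : Derivation K (Pl K) (Pl K)) (β : Fin 2 → K) (j : Fin 6) :
    D (cv p β j) = 0 := by
  have hX : ∀ i : Fin 2, D (X i ^ p) = 0 := fun i => D_pow p D (X i)
  have hC : ∀ (c : K) (x : Pl K), D x = 0 → D (C c * x) = 0 := by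
    intro c x hx
    rw [← MvPolynomial.smul_eq_C_mul, Derivation.map_smul, hx, smul_zero]
  have hm : ∀ x y : Pl K, D x = 0 → D y = 0 → D (x * y) = 0 := by
    intro x y hx hy
    rw [Derivation.leibniz, hx, hy, smul_zero, smul_zero, add_zero]
  have hom : D (om p β) = 0 := by
    unfold om
    rw [map_add, map_add, hC _ _ (hX 0), hC _ _ (hX 1), Derivation.map_one_eq_zero, add_zero,
      add_zero]
  fin_cases j
  · change D (om p β ^ 2) = 0
    rw [pow_two]
    exact hm _ _ hom hom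
  · exact hm _ _ hom (hX 0)
  · exact hm _ _ hom (hX 1)
  · change D (X 0 ^ (2 * p)) = 0
    rw [mul_comm 2 p, pow_mul, pow_two]
    exact hm _ _ (hX 0) (hX 0)
  · exact hm _ _ (hX 0) (hX 1)
  · change D (X 1 ^ (2 * p)) = 0
    rw [mul_comm 2 p, pow_mul, pow_two]
    exact hm _ _ (hX 1) (hX 1)

lemma eval_cv (p : ℕ) (β Q : Fin 2 → K) (hQ : Special p β Q) (j : Fin 6) :
    eval Q (cv p β j) = (eval Q (om p β)) ^ 2 * eval Q (mv K j) := by
  have hom : eval Q (om p β) = 1 + β 0 * (Q 0) ^ p + β 1 * (Q 1) ^ p := by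
    simp [om]
  have h0 : (Q 0) ^ p = eval Q (om p β) * Q 0 := by rw [hom]; exact hQ 0
  have h1 : (Q 1) ^ p = eval Q (om p β) * Q 1 := by rw [hom]; exact hQ 1
  fin_cases j
  · change eval Q (om p β ^ 2) = _ * eval Q (1 : Pl K)
    simp
  · change eval Q (om p β * X 0 ^ p) = _ * eval Q (X 0 : Pl K)
    simp only [map_mul, map_pow, eval_X, h0]
    ring
  · change eval Q (om p β * X 1 ^ p) = _ * eval Q (X 1 : Pl K)
    simp only [map_mul, map_pow, eval_X, h1]
    ring
  · change eval Q (X 0 ^ (2 * p)) = _ * eval Q (X 0 ^ 2 : Pl K)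
    rw [mul_comm 2 p, pow_mul]
    simp only [map_pow, eval_X, h0]
    ring
  · change eval Q (X 0 ^ p * X 1 ^ p) = _ * eval Q (X 0 * X 1 : Pl K)
    simp only [map_mul, map_pow, eval_X, h0, h1]
    ring
  · change eval Q (X 1 ^ (2 * p)) = _ * eval Q (X 1 ^ 2 : Pl K)
    rw [mul_comm 2 p, pow_mul]
    simp only [map_pow, eval_X, h1]
    ring

end FvV_aux

open FvV_aux in
theorem tFvV : S_FvV := by
  intro K _ p _ _ g β Q hQ i hi
  have h0 : ∀ l < 5, ∑ j, (Dg g)^[l] (mv K j) * (Wm g).adjugate j 5 = 0 := by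
    intro l hl
    have h1 := congrFun (congrFun (Matrix.mul_adjugate (Wm g)) ⟨l, by omega⟩) 5
    rw [Matrix.mul_apply, Matrix.smul_apply, Matrix.one_apply_ne, smul_zero] at h1
    · exact h1
    · intro h
      have h2 := congrArg Fin.val h
      change l = 5 at h2
      omega
  have h1 := rel (Dg g) (mv K) (fun j => (Wm g).adjugate j 5) h0 i 0 (by omega)
  unfold FF
  rw [iter_mul (Dg g) Finset.univ (cv p β) (fun j => (Wm g).adjugate j 5)
    (fun j _ => D_cv p (Dg g) β j) i, map_sum]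
  have h2 := congrArg (eval Q) h1
  rw [map_sum, map_zero] at h2
  have h3 : ∀ j, eval Q (cv p β j * (Dg g)^[i] ((Wm g).adjugate j 5)) =
      (eval Q (om p β)) ^ 2 * eval Q ((Dg g)^[0] (mv K j) *
        (Dg g)^[i] ((Wm g).adjugate j 5)) := by
    intro j
    rw [map_mul, map_mul, eval_cv p β Q hQ j, Function.iterate_zero_apply, mul_assoc]
  rw [Finset.sum_congr rfl fun j _ => h3 j, ← Finset.mul_sum, h2, mul_zero]

end Pool.Agent.Lib.MP_8dbdcc_co.AA
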