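import Pool.Agent.Lib.MP_8dbdcc_co.AA.Spec

/-!
# Generating functions
-/

set_option autoImplicit false

namespace Pool.Agent.Lib.MP_8dbdcc_co.AA

open MvPolynomial Finset

namespace Gen_aux

theorem sum_pow {V : Type} [DecidableEq V] (t : Finset V) (z : ℝ) :
    ∑ B ∈ t.powerset, z ^ B.card = (1 + z) ^ t.card := by
  have h := Finset.sum_pow_mul_eq_add_pow z 1 t
  simp only [one_pow, mul_one] at h
  rw [h, add_comm]

theorem step {V : Type} [DecidableEq V] (X t : Finset V) (τ : Finset (Finset V)) (z : ℝ)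
    (htX : t ⊆ X) (hτ : ∀ t' ∈ τ, t' ⊆ X ∧ Disjoint t t') :
    ∑ A ∈ X.powerset.filter (fun A => ∀ t' ∈ insert t τ, ¬ t' ⊆ A), z ^ A.card =
      (∑ B ∈ t.powerset.erase t, z ^ B.card) *
        ∑ A ∈ (X \ t).powerset.filter (fun A => ∀ t' ∈ τ, ¬ t' ⊆ A), z ^ A.card := by
  rw [Finset.sum_mul_sum, ← Finset.sum_product']
  refine Finset.sum_nbij' (fun A => (A ∩ t, A \ t)) (fun q => q.1 ∪ q.2) ?_ ?_ ?_ ?_ ?_
  · intro A hA
    rw [mem_filter, mem_powerset] at hA
    obtain ⟨hAX, hA⟩ := hA
    rw [mem_product, mem_erase, mem_powerset, mem_filter, mem_powerset]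
    refine ⟨⟨?_, inter_subset_right⟩, sdiff_subset_sdiff hAX (Subset.refl _), ?_⟩
    · intro h
      refine hA t (mem_insert_self _ _) ?_
      intro x hx
      rw [← h] at hx
      exact (mem_inter.1 hx).1
    · intro t' ht' h
      exact hA t' (mem_insert_of_mem ht') (h.trans sdiff_subset)
  · rintro ⟨B, A⟩ hq
    rw [mem_product, mem_erase, mem_powerset, mem_filter, mem_powerset] at hq
    obtain ⟨⟨hBt, hB⟩, hA, hA'⟩ := hq
    simp only at hBt hB hA hA'
    have hdis : ∀ x ∈ A, x ∉ t := fun x hx => (mem_sdiff.1 (hA hx)).2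
    rw [mem_filter, mem_powerset]
    refine ⟨union_subset (hB.trans htX) (hA.trans sdiff_subset), ?_⟩
    intro t' ht' h
    rcases mem_insert.1 ht' with rfl | ht'
    · refine hBt (Subset.antisymm hB ?_)
      intro x hx
      rcases mem_union.1 (h hx) with hx' | hx'
      · exact hx'
      · exact absurd hx (hdis x hx')
    · refine hA' t' ht' ?_
      intro x hx
      rcases mem_union.1 (h hx) with hx' | hx'
      · exact absurd hx (Finset.disjoint_left.1 (hτ t' ht').2 (hB hx'))
      · exact hx'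
  · intro A _
    simp only
    rw [union_comm]
    exact sdiff_union_inter A t
  · rintro ⟨B, A⟩ hq
    rw [mem_product, mem_erase, mem_powerset, mem_filter, mem_powerset] at hq
    obtain ⟨⟨hBt, hB⟩, hA, hA'⟩ := hq
    simp only at hBt hB hA hA'
    have hdis : ∀ x ∈ A, x ∉ t := fun x hx => (mem_sdiff.1 (hA hx)).2
    simp only [Prod.mk.injEq]
    constructor
    · ext x
      simp only [mem_inter, mem_union]
      constructor
      · rintro ⟨h1 | h1, h2⟩
        · exact h1
        · exact absurd h2 (hdis x h1)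
      · intro h
        exact ⟨Or.inl h, hB h⟩
    · ext x
      simp only [mem_sdiff, mem_union]
      constructor
      · rintro ⟨h1 | h1, h2⟩
        · exact absurd (hB h1) h2
        · exact h1
      · intro h
        exact ⟨Or.inr h, hdis x h⟩
  · intro A _
    simp only
    rw [← pow_add, card_inter_add_card_sdiff]

theorem eqn {V : Type} [DecidableEq V] (e : ℕ) (z : ℝ) (hz : 0 < z) (τ : Finset (Finset V)) :
    ∀ X : Finset V, (∀ t ∈ τ, t ⊆ X ∧ t.card = e) →
      (∀ t ∈ τ, ∀ t' ∈ τ, t ≠ t' → Disjoint t t') →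
      ∑ A ∈ X.powerset.filter (fun A => ∀ t ∈ τ, ¬ t ⊆ A), z ^ A.card =
        (1 + z) ^ X.card * (1 - (z / (1 + z)) ^ e) ^ τ.card := by
  induction τ using Finset.induction_on with
  | empty =>
    intro X _ _
    have h : X.powerset.filter (fun A => ∀ t ∈ (∅ : Finset (Finset V)), ¬ t ⊆ A) = X.powerset := by
      apply Finset.filter_true_of_mem
      intro A _ t ht
      exact absurd ht (Finset.notMem_empty t)
    rw [h, sum_pow, card_empty, pow_zero, mul_one]
  | insert t τ ht ih =>
    intro X h1 h2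
    have htX := (h1 t (mem_insert_self _ _)).1
    have hte := (h1 t (mem_insert_self _ _)).2
    have hdis : ∀ t' ∈ τ, Disjoint t t' := by
      intro t' ht'
      refine h2 t (mem_insert_self _ _) t' (mem_insert_of_mem ht') ?_
      rintro rfl
      exact ht ht'
    rw [step X t τ z htX fun t' ht' => ⟨(h1 t' (mem_insert_of_mem ht')).1, hdis t' ht'⟩,
      ih (X \ t) ?_ ?_, card_insert_of_notMem ht, card_sdiff_of_subset htX, hte]
    · have hle : e ≤ X.card := by
        rw [← hte]
        exact card_le_card htX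
      have hsum : ∑ B ∈ t.powerset.erase t, z ^ B.card = (1 + z) ^ e - z ^ e := by
        have h := Finset.sum_erase_add t.powerset (fun B => z ^ B.card)
          (mem_powerset.2 (Subset.refl t))
        rw [sum_pow, hte] at h
        linarith
      have hpos : (1 + z) ≠ 0 := by linarith
      have h3 : (1 + z) ^ e * (1 - (z / (1 + z)) ^ e) = (1 + z) ^ e - z ^ e := by
        rw [div_pow, mul_sub, mul_one, mul_div_cancel₀ _ (pow_ne_zero e hpos)]
      have h4 : (1 + z) ^ X.card = (1 + z) ^ e * (1 + z) ^ (X.card - e) := by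
        rw [← pow_add, Nat.add_sub_cancel' hle]
      rw [hsum, h4, pow_succ, ← h3]
      ring
    · intro t' ht'
      refine ⟨?_, (h1 t' (mem_insert_of_mem ht')).2⟩
      intro x hx
      rw [mem_sdiff]
      exact ⟨(h1 t' (mem_insert_of_mem ht')).1 hx, fun hxt =>
        Finset.disjoint_left.1 (hdis t' ht') hxt hx⟩
    · intro a ha b hb hab
      exact h2 a (mem_insert_of_mem ha) b (mem_insert_of_mem hb) hab

end Gen_aux

theorem tGen : S_Gen := by
  intro V _ X τ e z hz h1 h2 _
  exact (Gen_aux.eqn e z hz τ X h1 h2).le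

end Pool.Agent.Lib.MP_8dbdcc_co.AA
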