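import Pool.Agent.Lib.MP_8dbdcc_co.AA.Spec

/-!
# Almost all large arcs of `𝔽_p²` lie on a conic: nonsingular Wronskian modulo `g`
-/

set_option autoImplicit false

namespace Pool.Agent.Lib.MP_8dbdcc_co.AA

open MvPolynomial Finset

namespace Ind_aux

theorem iter_sum {K : Type} [Field K] (D : Derivation K (Pl K) (Pl K)) {N : ℕ} (c : Fin N → K)
    (m : Fin N → Pl K) (i : ℕ) :
    D^[i] (∑ j, C (c j) * m j) = ∑ j, C (c j) * D^[i] (m j) := by
  induction i with
  | zero => rfl
  | succ i ih =>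
    rw [Function.iterate_succ_apply', ih, map_sum]
    refine Finset.sum_congr rfl fun j _ => ?_
    rw [Function.iterate_succ_apply', C_mul', C_mul', Derivation.map_smul]

theorem deg_le {K : Type} [Field K] {N s : ℕ} (c : Fin N → K) (m : Fin N → Pl K)
    (hm : ∀ j, (m j).totalDegree ≤ s) : (∑ j, C (c j) * m j).totalDegree ≤ s := by
  refine totalDegree_finsetSum_le fun j _ => ?_
  refine (totalDegree_mul _ _).trans ?_
  rw [totalDegree_C, zero_add]
  exact hm j

theorem ne_zero {K : Type} [Field K] {N : ℕ} (c : Fin N → K) (m : Fin N → Pl K)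
    (hm : LinearIndependent K m) (j0 : Fin N) (hc : c j0 ≠ 0) : ∑ j, C (c j) * m j ≠ 0 := by
  intro h
  apply hc
  refine Fintype.linearIndependent_iff.1 hm c ?_ j0
  rw [← h]
  refine Finset.sum_congr rfl fun j _ => ?_
  rw [C_mul']

theorem eval_zero {K : Type} [Field K] (g : Pl K) {N : ℕ} (m b : Fin N → Pl K) (P : Fin 2 → K)
    (hP : eval P g = 0) (i : ℕ) (h : g ∣ ∑ j : Fin N, b j * (Dg g)^[i] (m j)) :
    eval P ((Dg g)^[i] (∑ j, C (eval P (b j)) * m j)) = 0 := by
  rw [iter_sum, map_sum]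
  obtain ⟨e, he⟩ := h
  have h1 := congrArg (eval P) he
  rw [map_mul, hP, zero_mul, map_sum] at h1
  rw [← h1]
  refine Finset.sum_congr rfl fun j _ => ?_
  rw [map_mul, map_mul, eval_C]

end Ind_aux

open Ind_aux in
theorem tInd : S_Null → S_MinB → S_CntD → S_Ind := by
  intro hNull hMinB hCntD K _ _ p _ _ g s N m a hg hs hp hdeg hli hrel
  by_contra hcon
  push Not at hcon
  obtain ⟨b, j0, hb, hbr⟩ := hMinB K g N m a hg hrel hcon
  obtain ⟨hN1, hN2⟩ := hNull K p g hg
  rcases Nat.eq_zero_or_pos s with h0 | hpos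
  · obtain ⟨P, hPg, hPb⟩ := hN1 (b j0) hb
    have hq := ne_zero (fun j => eval P (b j)) m hli j0 hPb
    have hqd := deg_le (fun j => eval P (b j)) m hdeg
    rw [h0] at hqd
    have hq0 := eval_zero g m b P hPg 0 (hbr 0)
    simp only [Function.iterate_zero, id_eq] at hq0
    have hqC := totalDegree_eq_zero_iff_eq_C.1 (Nat.le_zero.1 hqd)
    apply hq
    rw [hqC, eval_C] at hq0
    rw [hqC, hq0, C_0]
  · have hgp : g.totalDegree < p := by
      have : g.totalDegree ≤ s * g.totalDegree := Nat.le_mul_of_pos_left _ hpos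
      omega
    obtain ⟨e, he, hes⟩ : ∃ e : Pl K, ¬ g ∣ e ∧ ∀ P : Fin 2 → K, eval P g = 0 → eval P e ≠ 0 →
        Smooth g P := by
      rcases hN2 hgp with h | h
      · exact ⟨_, h, fun P hP hPe => ⟨hP, Or.inl hPe⟩⟩
      · exact ⟨_, h, fun P hP hPe => ⟨hP, Or.inr hPe⟩⟩
    have hbe : ¬ g ∣ b j0 * e := by
      intro h
      rcases hg.prime.dvd_or_dvd h with h | h
      · exact hb h
      · exact he h
    obtain ⟨P, hPg, hPbe⟩ := hN1 (b j0 * e) hbe
    rw [map_mul] at hPbe
    have hPb := left_ne_zero_of_mul hPbe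
    have hPe := right_ne_zero_of_mul hPbe
    have hq := ne_zero (fun j => eval P (b j)) m hli j0 hPb
    have hqd := deg_le (fun j => eval P (b j)) m hdeg
    have hgq : ¬ g ∣ ∑ j, C (eval P (b j)) * m j := by
      rintro ⟨c, hc⟩
      have hc0 : c ≠ 0 := by
        rintro rfl
        rw [mul_zero] at hc
        exact hq hc
      have h1 := totalDegree_mul_of_isDomain hg.ne_zero hc0
      rw [← hc] at h1
      omega
    have h2 := hCntD K p g (∑ j, C (eval P (b j)) * m j) {P} (s * g.totalDegree + 1) hp hg hgq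
      (fun Q hQ => by
        rw [Finset.mem_singleton] at hQ
        subst hQ
        exact hes _ hPg hPe)
      (fun Q hQ i _ => by
        rw [Finset.mem_singleton] at hQ
        subst hQ
        exact eval_zero g m b Q hPg i (hbr i))
    rw [Finset.card_singleton, mul_one] at h2
    have h3 : g.totalDegree * (∑ j, C (eval P (b j)) * m j).totalDegree ≤ g.totalDegree * s :=
      Nat.mul_le_mul_left _ hqd
    rw [mul_comm g.totalDegree s] at h3
    omega

end Pool.Agent.Lib.MP_8dbdcc_co.AA
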