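import Pool.Agent.Lib.MP_8dbdcc_co.AA.Spec

/-!
# Zero sets of conics with five points of an arc are arcs (helper76)
-/

set_option autoImplicit false

namespace Pool.Agent.Lib.MP_8dbdcc_co.AA

open MvPolynomial Finset

namespace IrrA_aux

variable {F : Type} [Field F]

/-- The coordinates of a polynomial of degree at most two. -/
theorem quad (q : MvPolynomial (Fin 2) F) (h : q.totalDegree ≤ 2) :
    ∃ A B C D E G : F, ∀ x y : F,
      eval ![x, y] q = A + B * x + C * y + D * x ^ 2 + E * (x * y) + G * y ^ 2 := by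
  let P : MvPolynomial (Fin 2) F → Prop := fun q => ∃ A B C D E G : F, ∀ x y : F,
      eval ![x, y] q = A + B * x + C * y + D * x ^ 2 + E * (x * y) + G * y ^ 2
  have hadd : ∀ q r, P q → P r → P (q + r) := by
    rintro q r ⟨A, B, C, D, E, G, h1⟩ ⟨A', B', C', D', E', G', h2⟩
    refine ⟨A + A', B + B', C + C', D + D', E + E', G + G', fun x y => ?_⟩
    rw [map_add, h1, h2]
    ring
  have h0 : P 0 := ⟨0, 0, 0, 0, 0, 0, fun x y => by rw [map_zero]; ring⟩
  have key : P (∑ s ∈ q.support, monomial s (coeff s q)) := by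
    refine Finset.sum_induction _ P hadd h0 fun s hs => ?_
    have hd := (MvPolynomial.le_totalDegree hs).trans h
    rw [Finsupp.sum_fintype _ _ (fun _ => rfl), Fin.sum_univ_two] at hd
    have he : ∀ x y : F, eval ![x, y] (monomial s (coeff s q)) =
        coeff s q * (x ^ s 0 * y ^ s 1) := by
      intro x y
      rw [eval_monomial, Finsupp.prod_fintype _ _ (fun _ => pow_zero _), Fin.prod_univ_two]
      rfl
    have h01 : (s 0 = 0 ∧ s 1 = 0) ∨ (s 0 = 1 ∧ s 1 = 0) ∨ (s 0 = 0 ∧ s 1 = 1) ∨
        (s 0 = 2 ∧ s 1 = 0) ∨ (s 0 = 1 ∧ s 1 = 1) ∨ (s 0 = 0 ∧ s 1 = 2) := by omega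
    rcases h01 with h | h | h | h | h | h
    · exact ⟨coeff s q, 0, 0, 0, 0, 0, fun x y => by rw [he, h.1, h.2]; ring⟩
    · exact ⟨0, coeff s q, 0, 0, 0, 0, fun x y => by rw [he, h.1, h.2]; ring⟩
    · exact ⟨0, 0, coeff s q, 0, 0, 0, fun x y => by rw [he, h.1, h.2]; ring⟩
    · exact ⟨0, 0, 0, coeff s q, 0, 0, fun x y => by rw [he, h.1, h.2]; ring⟩
    · exact ⟨0, 0, 0, 0, coeff s q, 0, fun x y => by rw [he, h.1, h.2]; ring⟩
    · exact ⟨0, 0, 0, 0, 0, coeff s q, fun x y => by rw [he, h.1, h.2]; ring⟩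
  rw [MvPolynomial.support_sum_monomial_coeff] at key
  exact key

/-- A quadratic polynomial with three roots is zero. -/
theorem three (c0 c1 c2 x y z : F) (hxy : x ≠ y) (hxz : x ≠ z) (hyz : y ≠ z)
    (h1 : c0 + c1 * x + c2 * x ^ 2 = 0) (h2 : c0 + c1 * y + c2 * y ^ 2 = 0)
    (h3 : c0 + c1 * z + c2 * z ^ 2 = 0) : c0 = 0 ∧ c1 = 0 ∧ c2 = 0 := by
  have e1 : (x - y) * (c1 + c2 * (x + y)) = 0 := by linear_combination h1 - h2
  have e2 : (x - z) * (c1 + c2 * (x + z)) = 0 := by linear_combination h1 - h3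
  have f1 : c1 + c2 * (x + y) = 0 := (mul_eq_zero.mp e1).resolve_left (sub_ne_zero.mpr hxy)
  have f2 : c1 + c2 * (x + z) = 0 := (mul_eq_zero.mp e2).resolve_left (sub_ne_zero.mpr hxz)
  have e3 : (y - z) * c2 = 0 := by linear_combination f1 - f2
  have g2 : c2 = 0 := (mul_eq_zero.mp e3).resolve_left (sub_ne_zero.mpr hyz)
  have g1 : c1 = 0 := by rw [g2] at f1; linear_combination f1
  have g0 : c0 = 0 := by rw [g1, g2] at h1; linear_combination h1
  exact ⟨g0, g1, g2⟩

/-- A product of the equation of a line and of a polynomial of degree at most one. -/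
theorem fac {A B C D E G : F} {a b c : F} (hab : (a, b) ≠ (0, 0)) {u v w : F × F}
    (huv : u ≠ v) (huw : u ≠ w) (hvw : v ≠ w)
    (hu : a * u.1 + b * u.2 = c) (hv : a * v.1 + b * v.2 = c) (hw : a * w.1 + b * w.2 = c)
    (qu : A + B * u.1 + C * u.2 + D * u.1 ^ 2 + E * (u.1 * u.2) + G * u.2 ^ 2 = 0)
    (qv : A + B * v.1 + C * v.2 + D * v.1 ^ 2 + E * (v.1 * v.2) + G * v.2 ^ 2 = 0)
    (qw : A + B * w.1 + C * w.2 + D * w.1 ^ 2 + E * (w.1 * w.2) + G * w.2 ^ 2 = 0) :
    ∃ k α β γ : F, k ≠ 0 ∧ ∀ x y : F,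
      A + B * x + C * y + D * x ^ 2 + E * (x * y) + G * y ^ 2 =
        k * (a * x + b * y - c) * (α * x + β * y + γ) := by
  by_cases hb : b = 0
  · have ha : a ≠ 0 := by
      rintro rfl
      exact hab (by rw [hb])
    have fst : ∀ t : F × F, a * t.1 + b * t.2 = c → t.1 = c / a := by
      intro t ht
      rw [hb, zero_mul, add_zero] at ht
      rw [eq_div_iff ha, mul_comm]
      exact ht
    have inj : ∀ t t' : F × F, a * t.1 + b * t.2 = c → a * t'.1 + b * t'.2 = c → t ≠ t' →
        t.2 ≠ t'.2 := by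
      intro t t' ht ht' hne h
      exact hne (Prod.ext ((fst t ht).trans (fst t' ht').symm) h)
    set s := c / a with hs
    have hc : c = a * s := by rw [hs, mul_div_cancel₀ _ ha]
    obtain ⟨h0, h1, h2⟩ := three (A + B * s + D * s ^ 2) (C + E * s) G u.2 v.2 w.2
      (inj u v hu hv huv) (inj u w hu hw huw) (inj v w hv hw hvw)
      (by have := fst u hu; rw [this] at qu; linear_combination qu)
      (by have := fst v hv; rw [this] at qv; linear_combination qv)
      (by have := fst w hw; rw [this] at qw; linear_combination qw)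
    refine ⟨a⁻¹, D, E, B + D * s, inv_ne_zero ha, fun x y => ?_⟩
    have e : a⁻¹ * (a * x + b * y - c) = x - s := by
      rw [hb, hc]; field_simp; ring
    rw [e]
    linear_combination h0 + y * h1 + y ^ 2 * h2
  · have snd : ∀ t : F × F, a * t.1 + b * t.2 = c → t.2 = c / b + (-a / b) * t.1 := by
      intro t ht
      field_simp
      linear_combination ht
    have inj : ∀ t t' : F × F, a * t.1 + b * t.2 = c → a * t'.1 + b * t'.2 = c → t ≠ t' →
        t.1 ≠ t'.1 := by
      intro t t' ht ht' hne h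
      exact hne (Prod.ext h (by rw [snd t ht, snd t' ht', h]))
    set s := c / b with hs
    set r := -a / b with hr
    have hc : c = b * s := by rw [hs, mul_div_cancel₀ _ hb]
    have ha : a = -(b * r) := by rw [hr, mul_div_cancel₀ _ hb, neg_neg]
    obtain ⟨h0, h1, h2⟩ := three (A + C * s + G * s ^ 2) (B + C * r + E * s + 2 * G * s * r)
      (D + E * r + G * r ^ 2) u.1 v.1 w.1
      (inj u v hu hv huv) (inj u w hu hw huw) (inj v w hv hw hvw)
      (by have := snd u hu; rw [this] at qu; linear_combination qu)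
      (by have := snd v hv; rw [this] at qv; linear_combination qv)
      (by have := snd w hw; rw [this] at qw; linear_combination qw)
    refine ⟨b⁻¹, E + G * r, G, C + G * s, inv_ne_zero hb, fun x y => ?_⟩
    have e : b⁻¹ * (a * x + b * y - c) = y - s - r * x := by
      rw [hc, ha]; field_simp; ring
    rw [e]
    linear_combination h0 + x * h1 + x ^ 2 * h2

end IrrA_aux

open IrrA_aux in
/-- **IrrA**: the zero set of a conic which contains five points of an arc is an arc. -/
theorem tIrrA : S_IrrA := by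
  intro p _ q B Z hq hdeg hZ hB hBZ h5
  have hp3 : 3 ≤ p := by
    by_contra hlt
    have h2 : p = 2 := le_antisymm (by omega) (Fact.out : p.Prime).two_le
    have hc : B.card ≤ Fintype.card (Pt p) := Finset.card_le_univ B
    rw [Fintype.card_prod, ZMod.card] at hc
    have hpp : p * p = 4 := by rw [h2]
    omega
  obtain ⟨A, B', C, D, E, G, hev⟩ := quad q hdeg
  have hz : ∀ x ∈ Z, A + B' * x.1 + C * x.2 + D * x.1 ^ 2 + E * (x.1 * x.2) + G * x.2 ^ 2 = 0 := by
    intro x hx
    rw [← hev]
    exact (hZ x).mp hx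
  intro a b c hab
  by_contra hlt
  rw [not_le, Finset.two_lt_card] at hlt
  obtain ⟨u, hu, v, hv, w, hw, huv, huw, hvw⟩ := hlt
  rw [Finset.mem_filter] at hu hv hw
  obtain ⟨k, α, β, γ, hk, hfac⟩ := fac hab huv huw hvw hu.2 hv.2 hw.2 (hz u hu.1) (hz v hv.1)
    (hz w hw.1)
  -- the second factor is not zero
  have hne : ¬ (α = 0 ∧ β = 0 ∧ γ = 0) := by
    rintro ⟨rfl, rfl, rfl⟩
    apply hq
    refine MvPolynomial.eq_zero_of_eval_eq_zero (Fin 2) (ZMod p) q (fun t => ?_) ?_
    · have ht : t = ![t 0, t 1] := by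
        funext i
        fin_cases i <;> rfl
      rw [ht, hev, hfac]
      ring
    · rw [MvPolynomial.mem_restrictDegree, ZMod.card]
      intro s hs i
      have hd := (MvPolynomial.le_totalDegree hs).trans hdeg
      rw [Finsupp.sum_fintype _ _ (fun _ => rfl), Fin.sum_univ_two] at hd
      fin_cases i
      · show s 0 ≤ p - 1
        omega
      · show s 1 ≤ p - 1
        omega
  have hsub : B ⊆ B.filter (fun x => a * x.1 + b * x.2 = c) ∪
      B.filter (fun x => α * x.1 + β * x.2 = -γ) := by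
    intro x hx
    have h1 := hz x (hBZ hx)
    rw [hfac] at h1
    rw [Finset.mem_union, Finset.mem_filter, Finset.mem_filter]
    rcases mul_eq_zero.mp h1 with h | h
    · left
      refine ⟨hx, ?_⟩
      have := (mul_eq_zero.mp h).resolve_left hk
      linear_combination this
    · right
      exact ⟨hx, by linear_combination h⟩
  have hc1 := hB a b c hab
  have hc2 : (B.filter (fun x => α * x.1 + β * x.2 = -γ)).card ≤ 2 := by
    by_cases h0 : (α, β) = (0, 0)
    · have hα : α = 0 := congrArg Prod.fst h0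
      have hβ : β = 0 := congrArg Prod.snd h0
      have hγ : γ ≠ 0 := fun h => hne ⟨hα, hβ, h⟩
      have : B.filter (fun x => α * x.1 + β * x.2 = -γ) = ∅ := by
        rw [Finset.filter_eq_empty_iff]
        intro x _ h
        apply hγ
        rw [hα, hβ] at h
        linear_combination h
      rw [this, Finset.card_empty]
      exact Nat.zero_le _
    · exact hB α β (-γ) h0
  have hc3 := (Finset.card_le_card hsub).trans (Finset.card_union_le _ _)
  omega

end Pool.Agent.Lib.MP_8dbdcc_co.AA
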