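import Pool.Agent.Lib.MP_8dbdcc_co.AA.Spec

/-!
# ARC, IrrB: the size of an arc
-/

set_option autoImplicit false

namespace Pool.Agent.Lib.MP_8dbdcc_co.AA

open MvPolynomial Finset

private theorem IrrB_three {p : ℕ} (A : Finset (Pt p)) (hA : Arc p A) {x y z : Pt p} (hx : x ∈ A)
    (hy : y ∈ A) (hz : z ∈ A) (hxy : x ≠ y) (hxz : x ≠ z) (hyz : y ≠ z) (a b c : ZMod p)
    (hab : (a, b) ≠ (0, 0)) (h1 : a * x.1 + b * x.2 = c) (h2 : a * y.1 + b * y.2 = c)
    (h3 : a * z.1 + b * z.2 = c) : False := by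
  classical
  have h4 : ({x, y, z} : Finset (Pt p)) ⊆ A.filter (fun q => a * q.1 + b * q.2 = c) := by
    intro q hq
    rw [mem_insert, mem_insert, mem_singleton] at hq
    rw [mem_filter]
    rcases hq with rfl | rfl | rfl
    · exact ⟨hx, h1⟩
    · exact ⟨hy, h2⟩
    · exact ⟨hz, h3⟩
  have h5 := card_le_card h4
  rw [card_eq_three.2 ⟨x, y, z, hxy, hxz, hyz, rfl⟩] at h5
  have h6 := hA a b c hab
  omega

theorem tIrrB : S_IrrB := by
  classical
  intro p _ A hA
  rcases A.eq_empty_or_nonempty with h0 | ⟨x, hx⟩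
  · rw [h0, card_empty]
    exact Nat.zero_le _
  · have h1 : (A.erase x).card ≤ (univ : Finset (Option (ZMod p))).card := by
      refine card_le_card_of_injOn (fun y => if y.1 = x.1 then none
        else some ((y.2 - x.2) / (y.1 - x.1))) (fun _ _ => mem_coe.2 (mem_univ _)) ?_
      intro y hy z hz hyz
      obtain ⟨hy1, hy2⟩ := mem_erase.1 (mem_coe.1 hy)
      obtain ⟨hz1, hz2⟩ := mem_erase.1 (mem_coe.1 hz)
      by_contra hne
      simp only at hyz
      by_cases hyx : y.1 = x.1
      · by_cases hzx : z.1 = x.1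
        · exact IrrB_three A hA hx hy2 hz2 (Ne.symm hy1) (Ne.symm hz1) hne 1 0 x.1
            (fun h => one_ne_zero (congrArg Prod.fst h)) (by ring) (by rw [hyx]; ring)
            (by rw [hzx]; ring)
        · rw [if_pos hyx, if_neg hzx] at hyz
          exact absurd hyz (by simp)
      · by_cases hzx : z.1 = x.1
        · rw [if_neg hyx, if_pos hzx] at hyz
          exact absurd hyz (by simp)
        · rw [if_neg hyx, if_neg hzx, Option.some.injEq] at hyz
          obtain ⟨s, hs⟩ : ∃ s, s = (y.2 - x.2) / (y.1 - x.1) := ⟨_, rfl⟩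
          have e1 : s * (y.1 - x.1) = y.2 - x.2 := by
            rw [hs, div_mul_cancel₀ _ (sub_ne_zero.2 hyx)]
          have e2 : s * (z.1 - x.1) = z.2 - x.2 := by
            rw [hs, hyz, div_mul_cancel₀ _ (sub_ne_zero.2 hzx)]
          refine IrrB_three A hA hx hy2 hz2 (Ne.symm hy1) (Ne.symm hz1) hne s (-1)
            (s * x.1 - x.2) (fun h => ?_) (by ring) ?_ ?_
          · have h2 : (-1 : ZMod p) = 0 := congrArg Prod.snd h
            exact one_ne_zero (neg_eq_zero.1 h2)
          · linear_combination e1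
          · linear_combination e2
    rw [card_erase_of_mem hx, card_univ, Fintype.card_option, ZMod.card] at h1
    omega

end Pool.Agent.Lib.MP_8dbdcc_co.AA
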