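import Pool.Agent.Lib.MP_8dbdcc_co.AA.Spec

/-!
# Almost all large arcs of `𝔽_p²` lie on a conic: the Kleitman-Winston algorithm
-/

set_option autoImplicit false

namespace Pool.Agent.Lib.MP_8dbdcc_co.AA

open MvPolynomial Finset

theorem tKW : S_KW := by
  intro V _ N W δ b hb hW hδ hδ1 U
  induction U using Finset.strongInduction with
  | H U ih =>
    intro hU
    have hδ0 : 0 < 1 - δ := by linarith
    by_cases hsmall : (U.card : ℝ) ≤ b + W
    · refine ⟨fun _ => U, fun T => ⟨subset_rfl, hsmall⟩, ?_⟩
      intro I hI _ j _
      exact ⟨∅, empty_subset _, by simp, fun x hx => mem_union_right _ (hI hx)⟩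
    · push Not at hsmall
      obtain ⟨v, hv, hdeg⟩ := hU U subset_rfl hsmall
      have hs2 : U.erase v ⊂ U := erase_ssubset hv
      have hs1 : (U.erase v) \ N v ⊂ U := lt_of_le_of_lt sdiff_subset hs2
      obtain ⟨F1, hF1, hG1⟩ := ih _ hs1 fun U' hU' h => hU U' (hU'.trans hs1.subset) h
      obtain ⟨F2, hF2, hG2⟩ := ih _ hs2 fun U' hU' h => hU U' (hU'.trans hs2.subset) h
      refine ⟨fun T => if v ∈ T then F1 (T.erase v) else F2 T, ?_, ?_⟩
      · intro T
        by_cases hvT : v ∈ T
        · simp only [hvT, if_true]
          exact ⟨(hF1 _).1.trans hs1.subset, (hF1 _).2⟩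
        · simp only [hvT, if_false]
          exact ⟨(hF2 _).1.trans hs2.subset, (hF2 _).2⟩
      · intro I hI hind j hj
        by_cases hvI : v ∈ I
        · -- the vertex is chosen
          have hIe : I.erase v ⊆ (U.erase v) \ N v := by
            intro w hw
            rw [mem_erase] at hw
            rw [mem_sdiff, mem_erase]
            exact ⟨⟨hw.1, hI hw.2⟩, hind v hvI w hw.2⟩
          obtain _ | j := j
          · exfalso
            rw [pow_zero, div_one] at hj
            linarith
          · have hc : (((U.erase v) \ N v).card : ℝ) - b ≤ W / (1 - δ) ^ j := by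
              have h1 : ((U.erase v) \ N v).card ≤ (U \ N v).card :=
                card_le_card (sdiff_subset_sdiff (erase_subset v U) subset_rfl)
              have h2 : (U \ N v).card + (U ∩ N v).card = U.card :=
                card_sdiff_add_card_inter U (N v)
              have h3 : (((U.erase v) \ N v).card : ℝ) ≤ (U.card : ℝ) - ((U ∩ N v).card : ℝ) := by
                have h4 : (((U.erase v) \ N v).card : ℝ) ≤ ((U \ N v).card : ℝ) := by
                  exact_mod_cast h1
                have h5 : ((U \ N v).card : ℝ) + ((U ∩ N v).card : ℝ) = (U.card : ℝ) := by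
                  exact_mod_cast h2
                linarith
              have h6 : (1 - δ) * ((U.card : ℝ) - b) ≤ (1 - δ) * (W / (1 - δ) ^ (j + 1)) :=
                mul_le_mul_of_nonneg_left hj hδ0.le
              have h7 : (1 - δ) * (W / (1 - δ) ^ (j + 1)) = W / (1 - δ) ^ j := by
                rw [pow_succ]
                field_simp
              rw [h7] at h6
              linarith
            obtain ⟨T1, hT1, hcard, hcov⟩ := hG1 (I.erase v) hIe
              (fun x hx w hw => hind x (mem_of_mem_erase hx) w (mem_of_mem_erase hw)) j hc
            have hvT1 : v ∉ T1 := fun h => (mem_erase.mp (hT1 h)).1 rfl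
            refine ⟨insert v T1, ?_, ?_, ?_⟩
            · intro x hx
              rcases mem_insert.mp hx with rfl | hx
              · exact hvI
              · exact mem_of_mem_erase (hT1 hx)
            · rw [card_insert_of_notMem hvT1]
              omega
            · simp only [mem_insert_self, if_true, erase_insert hvT1]
              intro x hx
              by_cases hxv : x = v
              · exact mem_union_left _ (hxv ▸ mem_insert_self v T1)
              · rcases mem_union.mp (hcov (mem_erase.mpr ⟨hxv, hx⟩)) with h | h
                · exact mem_union_left _ (mem_insert_of_mem h)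
                · exact mem_union_right _ h
        · -- the vertex is not chosen
          have hIe : I ⊆ U.erase v := fun w hw => mem_erase.mpr ⟨fun h => hvI (h ▸ hw), hI hw⟩
          have hc : ((U.erase v).card : ℝ) - b ≤ W / (1 - δ) ^ j := by
            have h1 : ((U.erase v).card : ℝ) ≤ (U.card : ℝ) := by
              exact_mod_cast card_le_card (erase_subset v U)
            linarith
          obtain ⟨T, hT, hcard, hcov⟩ := hG2 I hIe hind j hc
          have hvT : v ∉ T := fun h => hvI (hT h)
          refine ⟨T, hT, hcard, ?_⟩
          simp only [hvT, if_false]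
          exact hcov

end Pool.Agent.Lib.MP_8dbdcc_co.AA
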