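import Pool.Agent.Lib.MP_8dbdcc_co.AA.Spec
import Pool.Agent.Lib.MP_214199_co.Eff.Bezout

/-! # Project ARC, module Lin: linear factors of the envelope are double (helper36) -/

set_option autoImplicit false

namespace Pool.Agent.Lib.MP_8dbdcc_co.AA

open MvPolynomial Finset

theorem tLin : S_Res → S_Div → S_Lin := by
  intro hRes hDiv K _ ι I u P t G g G' hE hg hg1 hG
  classical
  obtain ⟨-, hu, -, hI, hI3, hGP, hP, hij⟩ := id hE
  obtain ⟨-, hG0, hdg⟩ := hDiv K ι I u P t G g hE ⟨G', hG⟩
  obtain ⟨hG't, -, -⟩ := hDiv K ι I u P t G G' hE ⟨g, by rw [hG, mul_comm]⟩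
  -- the root of `res (u i) g`
  have hroot : ∀ i ∈ I, ∃ τ, (res (u i) g).IsRoot τ := by
    intro i hi
    have h1 : (res (u i) g).natDegree = 1 := by rw [(hdg i hi).1, hg1]
    have h2 : (res (u i) g).degree = 1 := by
      have h3 := (Polynomial.degree_eq_iff_natDegree_eq_of_pos (p := res (u i) g) one_pos).mpr h1
      simpa using h3
    exact Polynomial.exists_root_of_degree_eq_one h2
  choose! τ hτ using hroot
  have hPr : ∀ i ∈ I, (res (u i) (P i)).IsRoot (τ i) := fun i hi =>
    (hdg i hi).2.2 _ (hτ i hi)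
  have hG0' : ∀ i ∈ I, res (u i) G ≠ 0 := by
    intro i hi
    rw [hGP i hi]
    exact pow_ne_zero 2 (hP i hi).2.1
  have hg0' : ∀ i ∈ I, res (u i) g ≠ 0 := by
    intro i hi h
    refine hG0' i hi ?_
    rw [hG, map_mul, h, zero_mul]
  have hmul : ∀ i ∈ I, (res (u i) G).rootMultiplicity (τ i) = 2 := by
    intro i hi
    have h1 : (res (u i) (P i)).rootMultiplicity (τ i) = 1 := by
      have h2 := (hP i hi).2.2 (τ i)
      have h3 := (Polynomial.rootMultiplicity_pos (hP i hi).2.1).mpr (hPr i hi)
      omega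
    rw [hGP i hi, sq, Polynomial.rootMultiplicity_mul
      (mul_ne_zero (hP i hi).2.1 (hP i hi).2.1), h1]
  constructor
  · -- the points
    by_contra hnd
    let Q : ι → Fin 2 → K := fun i => Rb (u i) + τ i • Jd (u i)
    have hQg : ∀ i ∈ I, eval (Q i) g = 0 := by
      intro i hi
      have h1 := (hRes K (u i) (hu i hi)).2.2.1 g (τ i)
      rw [hτ i hi] at h1
      exact h1.symm
    have hQG : ∀ i ∈ I, eval (Q i) G' = 0 := by
      intro i hi
      have h0 : res (u i) G = res (u i) g * res (u i) G' := by rw [hG, map_mul]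
      have h1 : (res (u i) g).rootMultiplicity (τ i) ≤ 1 := by
        rw [← Polynomial.count_roots]
        refine ((Multiset.count_le_card _ _).trans (Polynomial.card_roots' _)).trans ?_
        rw [(hdg i hi).1, hg1]
      have h2 := hmul i hi
      rw [h0, Polynomial.rootMultiplicity_mul (by rw [← h0]; exact hG0' i hi)] at h2
      have h3 : 0 < (res (u i) G').rootMultiplicity (τ i) := by omega
      have h4 : res (u i) G' ≠ 0 := by
        intro h
        refine hG0' i hi ?_
        rw [h0, h, mul_zero]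
      have h5 := (Polynomial.rootMultiplicity_pos h4).mp h3
      have h6 := (hRes K (u i) (hu i hi)).2.2.1 G' (τ i)
      rw [h5] at h6
      exact h6.symm
    have hinj : Set.InjOn Q I := by
      intro i hi j hj h
      by_contra hne
      have h1 := (hRes K (u i) (hu i hi)).2.2.2.1 (τ i)
      have h2 := (hRes K (u j) (hu j hj)).2.2.2.1 (τ j)
      change eval (Q i) (LF (u i)) = 0 at h1
      change eval (Q j) (LF (u j)) = 0 at h2
      rw [← h] at h2
      have h3 := (((hij i hi j hj hne).2 (Q i) h1 h2)).2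
      refine h3 ?_
      have h4 := (hRes K (u i) (hu i hi)).2.2.1 (P i) (τ i)
      rw [hPr i hi] at h4
      exact h4.symm
    have h1 := Pool.Agent.Lib.MP_214199_co.Eff.bezout g G' hg hnd (I.image Q) (by
      intro a ha
      obtain ⟨i, hi, rfl⟩ := Finset.mem_image.mp ha
      exact ⟨hQg i hi, hQG i hi⟩)
    rw [Finset.card_image_of_injOn hinj, hg1, one_mul] at h1
    omega
  · rintro ⟨H, hH⟩
    obtain ⟨i, hi⟩ : I.Nonempty := Finset.card_pos.mp (by omega)
    have h1 : res (u i) G = res (u i) g ^ 3 * res (u i) H := by rw [hH, map_mul, map_pow]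
    have h2 : (Polynomial.X - Polynomial.C (τ i)) ^ 3 ∣ res (u i) G := by
      rw [h1]
      exact (pow_dvd_pow_of_dvd (Polynomial.dvd_iff_isRoot.mpr (hτ i hi)) 3).mul_right _
    have h3 := (Polynomial.le_rootMultiplicity_iff (hG0' i hi)).mpr h2
    rw [hmul i hi] at h3
    omega

end Pool.Agent.Lib.MP_8dbdcc_co.AA
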