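import Pool.Agent.Lib.MP_8dbdcc_co.AA.Spec

/-!
# The lower bound: subsets of the parabola (statement `S_LowA`)
-/

set_option autoImplicit false

namespace Pool.Agent.Lib.MP_8dbdcc_co.AA

open MvPolynomial Finset

namespace LowA_aux

/-- The parametrization of the parabola. -/
def f (p : ℕ) (s : ZMod p) : Pt p := (s, s ^ 2)

theorem f_inj (p : ℕ) : Function.Injective (f p) := fun _ _ h => (Prod.ext_iff.1 h).1

theorem arc_image (p : ℕ) [Fact p.Prime] (S : Finset (ZMod p)) : Arc p (S.image (f p)) := by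
  intro a b c hab
  by_contra hcon
  rw [not_le] at hcon
  obtain ⟨x, hx, y, hy, z, hz, hxy, hxz, hyz⟩ := Finset.two_lt_card.1 hcon
  rw [Finset.mem_filter, Finset.mem_image] at hx hy hz
  obtain ⟨⟨s, -, rfl⟩, hs⟩ := hx
  obtain ⟨⟨t, -, rfl⟩, ht⟩ := hy
  obtain ⟨⟨u, -, rfl⟩, hu⟩ := hz
  simp only [f] at hs ht hu
  have h1 : s ≠ t := fun h => hxy (by rw [h])
  have h2 : s ≠ u := fun h => hxz (by rw [h])
  have h3 : t ≠ u := fun h => hyz (by rw [h])
  have e1 : (s - t) * (a + b * (s + t)) = 0 := by linear_combination hs - ht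
  have e2 : (s - u) * (a + b * (s + u)) = 0 := by linear_combination hs - hu
  have e3 := (mul_eq_zero.1 e1).resolve_left (sub_ne_zero.2 h1)
  have e4 := (mul_eq_zero.1 e2).resolve_left (sub_ne_zero.2 h2)
  have e5 : b * (t - u) = 0 := by linear_combination e3 - e4
  have hb : b = 0 := (mul_eq_zero.1 e5).resolve_right (sub_ne_zero.2 h3)
  have ha : a = 0 := by
    rw [hb, zero_mul, add_zero] at e3
    exact e3
  exact hab (by rw [ha, hb])

end LowA_aux

open LowA_aux in
theorem tLowA : S_LowA := by
  intro p _ m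
  have hsub : (((powersetCard m (univ : Finset (ZMod p))).image fun S => S.image (f p) :
      Finset (Finset (Pt p))) : Set (Finset (Pt p))) ⊆ {A | A.card = m ∧ Arc p A} := by
    intro A hA
    rw [Finset.mem_coe, Finset.mem_image] at hA
    obtain ⟨S, hS, rfl⟩ := hA
    rw [Finset.mem_powersetCard] at hS
    exact ⟨by rw [Finset.card_image_of_injective _ (f_inj p), hS.2], arc_image p S⟩
  have h := Set.ncard_le_ncard hsub (Set.toFinite _)
  rw [Set.ncard_coe_finset,
    Finset.card_image_of_injective _ (Finset.image_injective (f_inj p)),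
    Finset.card_powersetCard, Finset.card_univ, ZMod.card] at h
  exact_mod_cast h

end Pool.Agent.Lib.MP_8dbdcc_co.AA
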