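import Pool.Agent.Lib.MP_8dbdcc_co.AA.Spec

set_option autoImplicit false

namespace Pool.Agent.Lib.MP_8dbdcc_co.AA

open MvPolynomial Finset

namespace LowB_aux

/-- The terms. -/
noncomputable def tm (p m i : ℕ) : ℝ := (p.choose i : ℝ) * ((m : ℝ) / (p - m)) ^ i

theorem rel {p m i : ℕ} (hmp : m < p) (hi : i ≤ p) :
    tm p m (i + 1) * (((i : ℝ) + 1) * ((p : ℝ) - m)) = tm p m i * (((p : ℝ) - i) * m) := by
  have h1 : ((p.choose (i + 1) : ℕ) : ℝ) * ((i : ℝ) + 1) = (p.choose i : ℝ) * ((p : ℝ) - i) := by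
    have := Nat.choose_succ_right_eq p i
    have h2 : ((p.choose (i + 1) * (i + 1) : ℕ) : ℝ) = ((p.choose i * (p - i) : ℕ) : ℝ) := by
      rw [this]
    rw [Nat.cast_mul, Nat.cast_mul, Nat.cast_sub hi] at h2
    push_cast at h2
    exact h2
  have h3 : (p : ℝ) - m ≠ 0 := by
    have : (m : ℝ) < p := by exact_mod_cast hmp
    linarith
  have h4 : ((m : ℝ) / (p - m)) * ((p : ℝ) - m) = m := div_mul_cancel₀ _ h3
  unfold tm
  rw [pow_succ]
  calc (p.choose (i + 1) : ℝ) * (((m : ℝ) / (p - m)) ^ i * ((m : ℝ) / (p - m))) *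
        (((i : ℝ) + 1) * ((p : ℝ) - m))
      = ((p.choose (i + 1) : ℝ) * ((i : ℝ) + 1)) * ((m : ℝ) / (p - m)) ^ i *
        (((m : ℝ) / (p - m)) * ((p : ℝ) - m)) := by ring
    _ = (p.choose i : ℝ) * ((m : ℝ) / (p - m)) ^ i * (((p : ℝ) - i) * m) := by
        rw [h1, h4]; ring

theorem tm_nonneg {p m : ℕ} (hmp : m < p) (i : ℕ) : 0 ≤ tm p m i := by
  have : (m : ℝ) < p := by exact_mod_cast hmp
  have h : 0 ≤ (m : ℝ) / (p - m) := div_nonneg (Nat.cast_nonneg _) (by linarith)
  exact mul_nonneg (Nat.cast_nonneg _) (pow_nonneg h _)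

theorem up {p m i : ℕ} (hmp : m < p) (hi : i + 1 ≤ m) : tm p m i ≤ tm p m (i + 1) := by
  have hr := rel hmp (i := i) (by omega)
  have h1 : (m : ℝ) < p := by exact_mod_cast hmp
  have h2 : (i : ℝ) + 1 ≤ m := by exact_mod_cast hi
  have h0 : (0 : ℝ) ≤ i := Nat.cast_nonneg _
  have hA : 0 < ((i : ℝ) + 1) * ((p : ℝ) - m) := by
    apply mul_pos <;> linarith
  have hB : ((i : ℝ) + 1) * ((p : ℝ) - m) ≤ ((p : ℝ) - i) * m := by nlinarith
  have hn := tm_nonneg hmp i
  by_contra hc
  rw [not_le] at hc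
  have := mul_lt_mul_of_pos_right hc hA
  rw [hr] at this
  nlinarith [mul_le_mul_of_nonneg_left hB hn]

theorem down {p m i : ℕ} (hm : 0 < m) (hmp : m < p) (hi : m ≤ i) (hip : i ≤ p) :
    tm p m (i + 1) ≤ tm p m i := by
  have hr := rel hmp (i := i) hip
  have h1 : (m : ℝ) < p := by exact_mod_cast hmp
  have h2 : (m : ℝ) ≤ i := by exact_mod_cast hi
  have h3 : (0 : ℝ) < m := by exact_mod_cast hm
  have hA : 0 < ((i : ℝ) + 1) * ((p : ℝ) - m) := by
    apply mul_pos <;> linarith
  have hB : ((p : ℝ) - i) * m ≤ ((i : ℝ) + 1) * ((p : ℝ) - m) := by nlinarith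
  have hn := tm_nonneg hmp i
  by_contra hc
  rw [not_le] at hc
  have := mul_lt_mul_of_pos_right hc hA
  rw [hr] at this
  nlinarith [mul_le_mul_of_nonneg_left hB hn]

theorem le_max {p m : ℕ} (hm : 0 < m) (hmp : m < p) (i : ℕ) (hi : i ≤ p) :
    tm p m i ≤ tm p m m := by
  rcases le_total i m with h | h
  · have : ∀ d : ℕ, d ≤ m → tm p m (m - d) ≤ tm p m m := by
      intro d
      induction d with
      | zero => intro _; exact le_refl _
      | succ d ih =>
        intro hd
        have h1 := up hmp (i := m - (d + 1)) (by omega)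
        have h2 : m - (d + 1) + 1 = m - d := by omega
        rw [h2] at h1
        exact le_trans h1 (ih (by omega))
    have := this (m - i) (by omega)
    rwa [Nat.sub_sub_self h] at this
  · have : ∀ d : ℕ, m + d ≤ p → tm p m (m + d) ≤ tm p m m := by
      intro d
      induction d with
      | zero => intro _; exact le_refl _
      | succ d ih =>
        intro hd
        exact le_trans (down hm hmp (i := m + d) (by omega) (by omega)) (ih (by omega))
    have := this (i - m) (by omega)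
    rwa [Nat.add_sub_cancel' h] at this

end LowB_aux

open LowB_aux in
theorem tLowB : S_LowB := by
  intro p m hm hmp
  rw [add_comm, add_pow]
  calc ∑ i ∈ range (p + 1), ((m : ℝ) / (p - m)) ^ i * 1 ^ (p - i) * (p.choose i : ℝ)
      ≤ ∑ _i ∈ range (p + 1), tm p m m := by
        apply Finset.sum_le_sum
        intro i hi
        rw [one_pow, mul_one, mul_comm]
        exact le_max hm hmp i (Nat.lt_succ_iff.mp (Finset.mem_range.mp hi))
    _ = (p + 1) * tm p m m := by
        rw [Finset.sum_const, Finset.card_range, nsmul_eq_mul]; push_cast; ring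

end Pool.Agent.Lib.MP_8dbdcc_co.AA
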