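import Pool.Agent.Lib.MP_8dbdcc_co.AA.Spec

/-!
# Almost all large arcs of `𝔽_p²` lie on a conic: assembly
-/

set_option autoImplicit false

namespace Pool.Agent.Lib.MP_8dbdcc_co.AA

open MvPolynomial Finset

namespace Main_aux

/-- The bad arcs in a container. -/
def badIn (p m : ℕ) (X : Finset (Pt p)) : Set (Finset (Pt p)) :=
  {A : Finset (Pt p) | A ⊆ X ∧ A.card = m ∧ Arc p A ∧ ¬ InConic p A}

/-- The bound for one container. -/
theorem one_container (hCI : S_CI) (hCII : S_CII) (p : ℕ) [Fact p.Prime] (m : ℕ) (z a : ℝ)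
    (h400 : 400 ≤ p) (hz : 0 < z) (ha : z / (1 + z) = a) (ha0 : 0 ≤ a) (ha1 : a ≤ 1)
    (X : Finset (Pt p)) (hX : p + 1 ≤ X.card) :
    ((badIn p m X).ncard : ℝ) * z ^ m ≤
      (1 + z) ^ X.card * ((1 - a ^ 3) ^ (p / 300) + (X.card : ℝ) * (1 - a ^ 2) ^ (p / 3)) := by
  have h3 : 0 ≤ 1 - a ^ 3 := sub_nonneg.2 (pow_le_one₀ ha0 ha1)
  have h2 : 0 ≤ 1 - a ^ 2 := sub_nonneg.2 (pow_le_one₀ ha0 ha1)
  have hz1 : 0 ≤ (1 + z) ^ X.card := pow_nonneg (by linarith) _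
  have hc : (0 : ℝ) ≤ X.card := Nat.cast_nonneg _
  by_cases hK : ∃ K ⊆ X, Arc p K ∧ 99 * p ≤ 100 * K.card
  · obtain ⟨K, hKX, hKA, hKc⟩ := hK
    have h := hCII p X K m z h400 hz hKX hKA hKc
    rw [ha] at h
    refine h.trans ?_
    have h5 : 0 ≤ (1 + z) ^ X.card * (1 - a ^ 3) ^ (p / 300) := mul_nonneg hz1 (pow_nonneg h3 _)
    calc (X.card : ℝ) * ((1 + z) ^ X.card * (1 - a ^ 2) ^ (p / 3))
        = (1 + z) ^ X.card * ((X.card : ℝ) * (1 - a ^ 2) ^ (p / 3)) := by ring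
      _ ≤ (1 + z) ^ X.card * (1 - a ^ 3) ^ (p / 300) +
          (1 + z) ^ X.card * ((X.card : ℝ) * (1 - a ^ 2) ^ (p / 3)) := le_add_of_nonneg_left h5
      _ = _ := by ring
  · push Not at hK
    have h := hCI p X m z hz hX (fun A hA hAA => by
      have := hK A hA hAA
      omega)
    rw [ha] at h
    have hsub : ((badIn p m X).ncard : ℝ) ≤
        ({A : Finset (Pt p) | A ⊆ X ∧ A.card = m ∧ Arc p A}.ncard : ℝ) := by
      have : (badIn p m X).ncard ≤ {A : Finset (Pt p) | A ⊆ X ∧ A.card = m ∧ Arc p A}.ncard := by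
        apply Set.ncard_le_ncard _ (Set.toFinite _)
        rintro A ⟨h1, h2, h3, -⟩
        exact ⟨h1, h2, h3⟩
      exact_mod_cast this
    have h5 : 0 ≤ (1 + z) ^ X.card * ((X.card : ℝ) * (1 - a ^ 2) ^ (p / 3)) :=
      mul_nonneg hz1 (mul_nonneg hc (pow_nonneg h2 _))
    calc ((badIn p m X).ncard : ℝ) * z ^ m
        ≤ ({A : Finset (Pt p) | A ⊆ X ∧ A.card = m ∧ Arc p A}.ncard : ℝ) * z ^ m :=
          mul_le_mul_of_nonneg_right hsub (pow_nonneg hz.le _)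
      _ ≤ (1 + z) ^ X.card * (1 - a ^ 3) ^ (p / 300) := h
      _ ≤ (1 + z) ^ X.card * (1 - a ^ 3) ^ (p / 300) +
          (1 + z) ^ X.card * ((X.card : ℝ) * (1 - a ^ 2) ^ (p / 3)) := le_add_of_nonneg_right h5
      _ = _ := by ring

/-- Real arithmetic of the last step. -/
theorem final (E B c P Q T R L z p1 : ℝ) (hE : 0 < E) (hz : 0 < z) (hT : 0 ≤ T) (hR : 0 ≤ R)
    (hP : 0 ≤ P) (h1 : B * z ≤ P * (Q * T * R)) (h2 : Q ≤ p1 * (c * z))
    (h3 : E * p1 * P * T * R ≤ 1) (h4 : c ≤ L) (hc : 0 ≤ c) : E * B ≤ L := by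
  have h5 : E * B * z ≤ L * z := by
    calc E * B * z = E * (B * z) := by ring
      _ ≤ E * (P * (Q * T * R)) := mul_le_mul_of_nonneg_left h1 hE.le
      _ = (E * P * T * R) * Q := by ring
      _ ≤ (E * P * T * R) * (p1 * (c * z)) :=
        mul_le_mul_of_nonneg_left h2 (mul_nonneg (mul_nonneg (mul_nonneg hE.le hP) hT) hR)
      _ = (E * p1 * P * T * R) * (c * z) := by ring
      _ ≤ 1 * (c * z) := mul_le_mul_of_nonneg_right h3 (mul_nonneg hc hz.le)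
      _ = c * z := one_mul _
      _ ≤ L * z := mul_le_mul_of_nonneg_right h4 hz.le
  exact le_of_mul_le_mul_right h5 hz

end Main_aux

open Main_aux

/-- The theorem. -/
theorem tMain : S_Big → S_NumA → S_NumB → S_Cont → S_CI → S_CII → S_LowA → S_LowB → S_Main := by
  intro hBig hNumA hNumB hCont hCI hCII hLowA hLowB
  obtain ⟨pA, hpA⟩ := hNumA
  obtain ⟨pB, hpB⟩ := hNumB
  refine ⟨400 + pA + pB, fun p hp hp0 m hm => ?_⟩
  have : Fact p.Prime := ⟨hp⟩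
  by_cases hlarge : 99 * p < 100 * m
  · have hemp : {A : Finset (Pt p) | A.card = m ∧ Arc p A ∧ ¬ InConic p A} = ∅ := by
      rw [Set.eq_empty_iff_forall_notMem]
      rintro A ⟨h1, h2, h3⟩
      apply h3
      apply hBig p A (by omega) h2
      rw [h1]
      omega
    rw [hemp, Set.ncard_empty, Nat.cast_zero, mul_zero]
    exact Nat.cast_nonneg _
  push Not at hlarge
  have hp1 : 1 ≤ p := hp.one_lt.le
  have hpR : (1 : ℝ) ≤ p := by exact_mod_cast hp1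
  have hm0R : (0 : ℝ) < m := lt_of_lt_of_le (Real.rpow_pos_of_pos (by linarith) _) hm
  have hm0 : 0 < m := by exact_mod_cast hm0R
  have hmp : m < p := by omega
  have hmpR : (m : ℝ) < p := by exact_mod_cast hmp
  have hd : (0 : ℝ) < (p : ℝ) - m := by linarith
  obtain ⟨z, hzd⟩ : ∃ z : ℝ, z = (m : ℝ) / (p - m) := ⟨_, rfl⟩
  have hz : 0 < z := by rw [hzd]; exact div_pos hm0R hd
  have ha : z / (1 + z) = (m : ℝ) / p := by
    rw [hzd]
    field_simp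
    ring
  have ha0 : 0 ≤ (m : ℝ) / p := div_nonneg hm0R.le (by linarith)
  have ha1 : (m : ℝ) / p ≤ 1 := (div_le_one (by linarith)).2 hmpR.le
  obtain ⟨r, hr⟩ : ∃ r : ℕ, r = Nat.sqrt p + 1 := ⟨_, rfl⟩
  obtain ⟨j, hj⟩ : ∃ j : ℕ, j = ⌈5 * Real.sqrt p * Real.log p⌉₊ := ⟨_, rfl⟩
  have hA := hpA p (by omega) m hm
  have hB := hpB p (by omega) m hm (by omega)
  rw [← hr, ← hj] at hA hB
  rw [← hzd] at hB
  obtain ⟨hA1, hA2, hA3, hA4⟩ := hA
  obtain ⟨𝒞, hC1, hC2, hC3⟩ := hCont p r j (by omega) hA2 hA3 hA4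
  obtain ⟨N, hN⟩ : ∃ N : ℕ, N = p + 2 + r + j := ⟨_, rfl⟩
  rw [← hN] at hB
  obtain ⟨R, hR⟩ : ∃ R : ℝ, R = (1 - ((m : ℝ) / p) ^ 3) ^ (p / 300) +
    (N : ℝ) * (1 - ((m : ℝ) / p) ^ 2) ^ (p / 3) := ⟨_, rfl⟩
  have hR0 : 0 ≤ R := by
    rw [hR]
    exact add_nonneg (pow_nonneg (sub_nonneg.2 (pow_le_one₀ ha0 ha1)) _)
      (mul_nonneg (Nat.cast_nonneg _) (pow_nonneg (sub_nonneg.2 (pow_le_one₀ ha0 ha1)) _))
  have hcont : ∀ X ∈ 𝒞, ((badIn p m X).ncard : ℝ) * z ^ m ≤ (1 + z) ^ N * R := by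
    intro X hX
    have h1 := one_container hCI hCII p m z _ (by omega) hz ha ha0 ha1 X (by
      rw [hC2 X hX]
      omega)
    rw [hC2 X hX, ← hN, ← hR] at h1
    exact h1
  have hbad : ({A : Finset (Pt p) | A.card = m ∧ Arc p A ∧ ¬ InConic p A}.ncard : ℝ) ≤
      ∑ X ∈ 𝒞, ((badIn p m X).ncard : ℝ) := by
    have h1 : {A : Finset (Pt p) | A.card = m ∧ Arc p A ∧ ¬ InConic p A}.ncard ≤
        ∑ X ∈ 𝒞, (badIn p m X).ncard := by
      refine le_trans (Set.ncard_le_ncard (t := ⋃ X ∈ 𝒞, badIn p m X) ?_ (Set.toFinite _)) ?_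
      · rintro A ⟨h1, h2, h3⟩
        obtain ⟨X, hX, hAX⟩ := hC3 A h2 (by omega)
        exact Set.mem_biUnion hX ⟨hAX, h1, h2, h3⟩
      · exact Finset.set_ncard_biUnion_le 𝒞 _
    exact_mod_cast h1
  have hmain : ({A : Finset (Pt p) | A.card = m ∧ Arc p A ∧ ¬ InConic p A}.ncard : ℝ) * z ^ m ≤
      ((p : ℝ) ^ 2 + 1) ^ (r + j) * ((1 + z) ^ p * (1 + z) ^ (2 + r + j) * R) := by
    calc ({A : Finset (Pt p) | A.card = m ∧ Arc p A ∧ ¬ InConic p A}.ncard : ℝ) * z ^ m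
        ≤ (∑ X ∈ 𝒞, ((badIn p m X).ncard : ℝ)) * z ^ m :=
          mul_le_mul_of_nonneg_right hbad (pow_nonneg hz.le _)
      _ = ∑ X ∈ 𝒞, ((badIn p m X).ncard : ℝ) * z ^ m := Finset.sum_mul _ _ _
      _ ≤ ∑ _X ∈ 𝒞, (1 + z) ^ N * R := Finset.sum_le_sum hcont
      _ = (𝒞.card : ℝ) * ((1 + z) ^ N * R) := by rw [Finset.sum_const, nsmul_eq_mul]
      _ ≤ ((p : ℝ) ^ 2 + 1) ^ (r + j) * ((1 + z) ^ N * R) := by
          apply mul_le_mul_of_nonneg_right _ (mul_nonneg (pow_nonneg (by linarith) _) hR0)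
          exact_mod_cast hC1
      _ = ((p : ℝ) ^ 2 + 1) ^ (r + j) * ((1 + z) ^ p * (1 + z) ^ (2 + r + j) * R) := by
          have h6 : N = p + (2 + r + j) := by omega
          rw [h6, pow_add (1 + z) p (2 + r + j)]
  have hLB := hLowB p m hm0 hmp
  rw [← hzd] at hLB
  have hLA := hLowA p m
  rw [← hR] at hB
  have hexp : 0 < Real.exp ((m : ℝ) ^ 3 / (400 * p ^ 2)) := Real.exp_pos _
  exact final (Real.exp ((m : ℝ) ^ 3 / (400 * p ^ 2))) _ (p.choose m : ℝ)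
    (((p : ℝ) ^ 2 + 1) ^ (r + j)) ((1 + z) ^ p) ((1 + z) ^ (2 + r + j)) R _ (z ^ m)
    ((p : ℝ) + 1) hexp (pow_pos hz m) (pow_nonneg (by linarith) _) hR0
    (pow_nonneg (by positivity) _) hmain hLB hB hLA (Nat.cast_nonneg _)

end Pool.Agent.Lib.MP_8dbdcc_co.AA
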