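import Pool.Agent.Lib.MP_8dbdcc_co.AA.Spec

set_option autoImplicit false

namespace Pool.Agent.Lib.MP_8dbdcc_co.AA

open MvPolynomial Finset

namespace Match_aux

/-- Admissible families. -/
def Adm {p : ℕ} (X : Finset (Pt p)) (τ : Finset (Finset (Pt p))) : Prop :=
  (∀ t ∈ τ, t ⊆ X ∧ t.card = 3 ∧ ∀ A, Arc p A → ¬ t ⊆ A) ∧
    ∀ t ∈ τ, ∀ t' ∈ τ, t ≠ t' → Disjoint t t'

theorem no_arc {p : ℕ} {t : Finset (Pt p)} (h3 : t.card = 3) {a b c : ZMod p}
    (hab : (a, b) ≠ (0, 0)) (ht : ∀ q ∈ t, a * q.1 + b * q.2 = c) (A : Finset (Pt p))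
    (hA : Arc p A) : ¬ t ⊆ A := by
  intro hs
  have h1 := hA a b c hab
  have h2 : t ⊆ A.filter (fun q => a * q.1 + b * q.2 = c) := fun q hq =>
    Finset.mem_filter.mpr ⟨hs hq, ht q hq⟩
  have h4 := Finset.card_le_card h2
  omega

end Match_aux

open Match_aux in
theorem tMatch : S_Match := by
  classical
  intro p _ X s hs
  -- a maximal admissible family
  have hne : (X.powerset.powerset.filter fun τ => Adm X τ).Nonempty :=
    ⟨∅, by
      rw [Finset.mem_filter]
      exact ⟨Finset.empty_mem_powerset _, by constructor <;> simp⟩⟩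
  obtain ⟨τ, hτ, hmax⟩ := Finset.exists_max_image _ (fun τ : Finset (Finset (Pt p)) => τ.card) hne
  rw [Finset.mem_filter] at hτ
  obtain ⟨hτX, hAdm⟩ := hτ
  set Y := X \ τ.biUnion id with hY
  have hYarc : Arc p Y := by
    intro a b c hab
    by_contra hc
    rw [not_le] at hc
    obtain ⟨t, htY, ht3⟩ := Finset.exists_subset_card_eq (show 3 ≤ (Y.filter (fun q => a * q.1 + b * q.2 = c)).card from hc)
    have htY' : t ⊆ Y := fun q hq => (Finset.mem_filter.mp (htY hq)).1
    have htl : ∀ q ∈ t, a * q.1 + b * q.2 = c := fun q hq => (Finset.mem_filter.mp (htY hq)).2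
    have htX : t ⊆ X := fun q hq => (Finset.mem_sdiff.mp (htY' hq)).1
    have hdis : ∀ t' ∈ τ, Disjoint t t' := by
      intro t' ht'
      rw [Finset.disjoint_left]
      intro q hq hq'
      exact (Finset.mem_sdiff.mp (htY' hq)).2 (Finset.mem_biUnion.mpr ⟨t', ht', hq'⟩)
    have htn : t ∉ τ := by
      intro h
      have := hdis t h
      rw [Finset.disjoint_self_iff_empty] at this
      rw [this] at ht3
      simp at ht3
    have hA2 : Adm X (insert t τ) := by
      constructor
      · intro u hu
        rcases Finset.mem_insert.mp hu with rfl | hu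
        · exact ⟨htX, ht3, fun A hA => no_arc ht3 hab htl A hA⟩
        · exact hAdm.1 u hu
      · intro u hu u' hu' hne'
        rcases Finset.mem_insert.mp hu with h | h
        · rcases Finset.mem_insert.mp hu' with h' | h'
          · exact absurd (h.trans h'.symm) hne'
          · rw [h]; exact hdis u' h'
        · rcases Finset.mem_insert.mp hu' with h' | h'
          · rw [h']; exact (hdis u h).symm
          · exact hAdm.2 u h u' h' hne'
    have hmem : insert t τ ∈ X.powerset.powerset.filter fun τ => Adm X τ := by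
      rw [Finset.mem_filter, Finset.mem_powerset]
      refine ⟨?_, hA2⟩
      intro u hu
      rw [Finset.mem_powerset]
      exact (hA2.1 u hu).1
    have := hmax _ hmem
    rw [Finset.card_insert_of_notMem htn] at this
    omega
  refine ⟨τ, hAdm.1, hAdm.2, ?_⟩
  have h1 := hs Y Finset.sdiff_subset hYarc
  have h2 : (τ.biUnion id).card ≤ 3 * τ.card := by
    rw [mul_comm]
    apply Finset.card_biUnion_le_card_mul
    intro t ht
    exact le_of_eq (hAdm.1 t ht).2.1
  have h3 : X.card ≤ Y.card + (τ.biUnion id).card := by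
    have : X ⊆ Y ∪ τ.biUnion id := by
      intro q hq
      by_cases hq' : q ∈ τ.biUnion id
      · exact Finset.mem_union_right _ hq'
      · exact Finset.mem_union_left _ (Finset.mem_sdiff.mpr ⟨hq, hq'⟩)
    exact le_trans (Finset.card_le_card this) (Finset.card_union_le _ _)
  omega

end Pool.Agent.Lib.MP_8dbdcc_co.AA
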