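import Pool.Agent.Lib.MP_8dbdcc_co.AA.Spec

/-!
# A Wronskian argument modulo `g` (module MinB, helper13)
-/

set_option autoImplicit false

namespace Pool.Agent.Lib.MP_8dbdcc_co.AA

open MvPolynomial Finset

namespace MinB_aux

variable {K : Type} [Field K]

/-- `D g = 0`, so `D` respects divisibility by `g`. -/
theorem dvd_D (g f : Pl K) (h : g ∣ f) : g ∣ Dg g f := by
  obtain ⟨e, rfl⟩ := h
  have h0 : Dg g g = 0 := by
    rw [Dg_apply]
    ring
  rw [Derivation.leibniz, h0, smul_zero, add_zero, smul_eq_mul]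
  exact Dvd.intro _ rfl

/-- The derivative of a combination. -/
theorem D_sum (g : Pl K) {N : ℕ} (m b : Fin N → Pl K) (i : ℕ) :
    Dg g (∑ j, b j * (Dg g)^[i] (m j)) =
      ∑ j, Dg g (b j) * (Dg g)^[i] (m j) + ∑ j, b j * (Dg g)^[i + 1] (m j) := by
  rw [map_sum, ← Finset.sum_add_distrib]
  refine Finset.sum_congr rfl fun j _ => ?_
  rw [Derivation.leibniz, Function.iterate_succ_apply', smul_eq_mul, smul_eq_mul]
  ring

open scoped Classical in
theorem main (g : Pl K) (hg : Irreducible g) {N : ℕ} (m : Fin N → Pl K) :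
    ∀ (s : ℕ) (b : Fin N → Pl K), (univ.filter fun j => ¬ g ∣ b j).card = s →
    (∃ j, ¬ g ∣ b j) → (∀ i < s, g ∣ ∑ j : Fin N, b j * (Dg g)^[i] (m j)) →
    ∃ b : Fin N → Pl K, ∃ j0, ¬ g ∣ b j0 ∧
      ∀ i : ℕ, g ∣ ∑ j : Fin N, b j * (Dg g)^[i] (m j) := by
  intro s
  induction s using Nat.strong_induction_on with
  | _ s ih =>
    rintro b hs ⟨j0, hj0⟩ hrel
    have hs1 : 1 ≤ s := by
      rw [← hs]
      exact Finset.card_pos.2 ⟨j0, Finset.mem_filter.2 ⟨mem_univ _, hj0⟩⟩
    by_cases hc : ∀ j, g ∣ b j0 * Dg g (b j) - Dg g (b j0) * b j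
    · refine ⟨b, j0, hj0, fun i => ?_⟩
      induction i with
      | zero => exact hrel 0 (by omega)
      | succ i hi =>
        have h1 := dvd_D g _ hi
        rw [D_sum] at h1
        have h2 : g ∣ ∑ j, (b j0 * Dg g (b j) - Dg g (b j0) * b j) * (Dg g)^[i] (m j) :=
          Finset.dvd_sum fun j _ => Dvd.dvd.mul_right (hc j) _
        have h3 : b j0 * ∑ j, b j * (Dg g)^[i + 1] (m j) =
            b j0 * (∑ j, Dg g (b j) * (Dg g)^[i] (m j) + ∑ j, b j * (Dg g)^[i + 1] (m j)) -
            ∑ j, (b j0 * Dg g (b j) - Dg g (b j0) * b j) * (Dg g)^[i] (m j) -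
            Dg g (b j0) * ∑ j, b j * (Dg g)^[i] (m j) := by
          have h4 : ∑ j, (b j0 * Dg g (b j) - Dg g (b j0) * b j) * (Dg g)^[i] (m j) =
              b j0 * ∑ j, Dg g (b j) * (Dg g)^[i] (m j) -
              Dg g (b j0) * ∑ j, b j * (Dg g)^[i] (m j) := by
            rw [Finset.mul_sum, Finset.mul_sum, ← Finset.sum_sub_distrib]
            refine Finset.sum_congr rfl fun j _ => ?_
            ring
          rw [h4]
          ring
        have h5 : g ∣ b j0 * ∑ j, b j * (Dg g)^[i + 1] (m j) := by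
          rw [h3]
          exact dvd_sub (dvd_sub (Dvd.dvd.mul_left h1 _) h2) (Dvd.dvd.mul_left hi _)
        exact (hg.prime.dvd_or_dvd h5).resolve_left hj0
    · rw [not_forall] at hc
      set c : Fin N → Pl K := fun j => b j0 * Dg g (b j) - Dg g (b j0) * b j with hcd
      have hsub : (univ.filter fun j => ¬ g ∣ c j) ⊂ univ.filter fun j => ¬ g ∣ b j := by
        rw [Finset.ssubset_iff_of_subset]
        · refine ⟨j0, Finset.mem_filter.2 ⟨mem_univ _, hj0⟩, ?_⟩
          rw [Finset.mem_filter, not_and, not_not]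
          intro _
          rw [hcd]
          have : b j0 * Dg g (b j0) - Dg g (b j0) * b j0 = 0 := by ring
          show g ∣ b j0 * Dg g (b j0) - Dg g (b j0) * b j0
          rw [this]
          exact dvd_zero g
        · intro j hj
          rw [Finset.mem_filter] at hj ⊢
          refine ⟨hj.1, fun h => hj.2 ?_⟩
          exact dvd_sub (Dvd.dvd.mul_left (dvd_D g _ h) _) (Dvd.dvd.mul_left h _)
      have hlt : (univ.filter fun j => ¬ g ∣ c j).card < s := by
        rw [← hs]
        exact Finset.card_lt_card hsub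
      refine ih _ hlt c rfl hc fun i hi => ?_
      have h1 := dvd_D g _ (hrel i (by omega))
      rw [D_sum] at h1
      have h2 : g ∣ ∑ j, Dg g (b j) * (Dg g)^[i] (m j) :=
        (dvd_add_left (hrel (i + 1) (by omega))).1 h1
      have h4 : ∑ j, c j * (Dg g)^[i] (m j) =
          b j0 * ∑ j, Dg g (b j) * (Dg g)^[i] (m j) -
          Dg g (b j0) * ∑ j, b j * (Dg g)^[i] (m j) := by
        rw [Finset.mul_sum, Finset.mul_sum, ← Finset.sum_sub_distrib]
        refine Finset.sum_congr rfl fun j _ => ?_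
        rw [hcd]
        ring
      rw [h4]
      exact dvd_sub (Dvd.dvd.mul_left h2 _) (Dvd.dvd.mul_left (hrel i (by omega)) _)

end MinB_aux

open MinB_aux in
theorem tMinB : S_MinB := by
  classical
  intro K _ g N m a hg ha hne
  let R := Pl K ⧸ Ideal.span {g}
  have hprime : (Ideal.span {g}).IsPrime := (Ideal.span_singleton_prime hg.ne_zero).2 hg.prime
  let π : Pl K →+* R := Ideal.Quotient.mk (Ideal.span {g})
  have hπ : ∀ f, π f = 0 ↔ g ∣ f := fun f => by
    rw [Ideal.Quotient.eq_zero_iff_mem, Ideal.mem_span_singleton]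
  let M : Matrix (Fin N) (Fin N) R := Matrix.of fun i j => π ((Dg g)^[(i : ℕ)] (m j))
  have hdet : M.det = 0 := by
    refine Matrix.exists_vecMul_eq_zero_iff.1 ⟨fun i => π (a i), ?_, ?_⟩
    · intro h
      obtain ⟨i, hi⟩ := hne
      exact hi ((hπ _).1 (congrFun h i))
    · funext j
      have h1 := (hπ _).2 (ha j)
      rw [map_sum] at h1
      rw [Matrix.vecMul, dotProduct, Pi.zero_apply, ← h1]
      refine Finset.sum_congr rfl fun i _ => ?_
      rw [map_mul]
      rfl
  obtain ⟨v, hv, hMv⟩ := Matrix.exists_mulVec_eq_zero_iff.2 hdet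
  choose b hb using fun j => Ideal.Quotient.mk_surjective (v j)
  have hex : ∃ j, ¬ g ∣ b j := by
    by_contra hcon
    push Not at hcon
    apply hv
    funext j
    rw [← hb j]
    exact (hπ _).2 (hcon j)
  refine main g hg m _ b rfl hex fun i hi => ?_
  have hiN : i < N := lt_of_lt_of_le hi (by
    refine (Finset.card_le_univ _).trans ?_
    rw [Fintype.card_fin])
  rw [← hπ, map_sum]
  have h2 := congrFun hMv ⟨i, hiN⟩
  rw [Matrix.mulVec, dotProduct, Pi.zero_apply] at h2
  rw [← h2]
  refine Finset.sum_congr rfl fun j _ => ?_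
  rw [map_mul, mul_comm, ← hb j]
  rfl

end Pool.Agent.Lib.MP_8dbdcc_co.AA
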