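import Pool.Agent.Lib.MP_8dbdcc_co.AA.Spec

/-!
# Almost all large arcs of `𝔽_p²` lie on a conic: curves of degree at least three
-/

set_option autoImplicit false

namespace Pool.Agent.Lib.MP_8dbdcc_co.AA

open MvPolynomial Finset

namespace N3_aux

theorem roots_card {K : Type} [Field K] [IsAlgClosed K] [DecidableEq K] (q : Polynomial K)
    (h : ∀ τ, q.rootMultiplicity τ ≤ 2) : q.natDegree ≤ 2 * q.roots.toFinset.card := by
  have h1 : Multiset.card q.roots = q.natDegree :=
    (IsAlgClosed.splits q).natDegree_eq_card_roots.symm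
  rw [← h1, ← Multiset.toFinset_sum_count_eq]
  calc ∑ a ∈ q.roots.toFinset, Multiset.count a q.roots ≤ ∑ _a ∈ q.roots.toFinset, 2 :=
        Finset.sum_le_sum fun a _ => by
          rw [Polynomial.count_roots]
          exact h a
    _ = 2 * q.roots.toFinset.card := by
        rw [Finset.sum_const, smul_eq_mul, mul_comm]

end N3_aux

/-- Curves of degree `n ≥ 3` with many special points. -/
theorem tN3 : S_Res → S_Sg → S_SV → S_N3 := by
  intro hRes hSg hSV K _ _ p _ _ g β ι I u hg h3 hp hu hdeg hmul hsp hcom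
  classical
  set S : ι → Finset (Fin 2 → K) := fun i =>
    (res (u i) g).roots.toFinset.image (fun τ => Rb (u i) + τ • Jd (u i)) with hS
  have hmem : ∀ i ∈ I, ∀ Q ∈ S i, ∃ τ, (res (u i) g).IsRoot τ ∧ Q = Rb (u i) + τ • Jd (u i) := by
    intro i _ Q hQ
    rw [hS] at hQ
    obtain ⟨τ, hτ, rfl⟩ := Finset.mem_image.1 hQ
    exact ⟨τ, (Polynomial.mem_roots'.1 (Multiset.mem_toFinset.1 hτ)).2, rfl⟩
  have hval : ∀ i ∈ I, ∀ Q ∈ S i, eval Q g = 0 ∧ eval Q (LF (u i)) = 0 ∧ Special p β Q := by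
    intro i hi Q hQ
    obtain ⟨τ, hτ, rfl⟩ := hmem i hi Q hQ
    obtain ⟨-, -, r3, r4, -, -, -⟩ := hRes K (u i) (hu i hi)
    exact ⟨by rw [← r3]; exact hτ, r4 τ, hsp i hi τ hτ⟩
  have hcard : ∀ i ∈ I, g.totalDegree ≤ 2 * (S i).card := by
    intro i hi
    obtain ⟨-, -, -, -, -, r6, -⟩ := hRes K (u i) (hu i hi)
    have h1 : (S i).card = (res (u i) g).roots.toFinset.card :=
      Finset.card_image_of_injective _ fun τ τ' h => r6 τ τ' h
    rw [h1, ← hdeg i hi]
    exact N3_aux.roots_card _ (hmul i hi)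
  have hdis : Set.PairwiseDisjoint (I : Set ι) S := by
    intro i hi j hj hij
    rw [Function.onFun, Finset.disjoint_left]
    intro Q hQi hQj
    exact hcom i hi j hj hij Q (hval i hi Q hQi).2.1 (hval j hj Q hQj).2.1 (hval i hi Q hQi).1
  set T := I.biUnion S with hT
  have hTc : T.card = ∑ i ∈ I, (S i).card := Finset.card_biUnion hdis
  have hN : I.card * g.totalDegree ≤ 2 * T.card := by
    rw [hTc, Finset.mul_sum]
    calc I.card * g.totalDegree = ∑ _i ∈ I, g.totalDegree := by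
          rw [Finset.sum_const, smul_eq_mul]
      _ ≤ ∑ i ∈ I, 2 * (S i).card := Finset.sum_le_sum hcard
  have hTv : ∀ Q ∈ T, eval Q g = 0 ∧ Special p β Q := by
    intro Q hQ
    obtain ⟨i, hi, hQi⟩ := Finset.mem_biUnion.1 hQ
    exact ⟨(hval i hi Q hQi).1, (hval i hi Q hQi).2.2⟩
  have h5 := hSg K p g (T.filter fun Q => ¬ Smooth g Q) hg (by omega) fun Q hQ =>
    ⟨(hTv Q (Finset.mem_filter.1 hQ).1).1, (Finset.mem_filter.1 hQ).2⟩
  have h6 := hSV K p g β (T.filter fun Q => Smooth g Q) hg h3 hp fun Q hQ =>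
    ⟨(Finset.mem_filter.1 hQ).2, (hTv Q (Finset.mem_filter.1 hQ).1).2⟩
  have h7 : (T.filter fun Q => Smooth g Q).card + (T.filter fun Q => ¬ Smooth g Q).card =
      T.card := Finset.card_filter_add_card_filter_not _
  have h8 : 5 * I.card * g.totalDegree ≤ (4 * p + 30 * g.totalDegree) * g.totalDegree := by
    nlinarith
  exact Nat.le_of_mul_le_mul_right h8 (by omega)

end Pool.Agent.Lib.MP_8dbdcc_co.AA
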