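import Pool.Agent.Lib.MP_8dbdcc_co.AA.Spec

/-!
# Nullstellensatz and a nonzero first derivative
-/

set_option autoImplicit false

namespace Pool.Agent.Lib.MP_8dbdcc_co.AA

open MvPolynomial Finset

namespace Null_aux

/-- A first derivative has smaller degree. -/
theorem totalDegree_pderiv {K : Type} [Field K] (p : Pl K) (i : Fin 2)
    (h : pderiv i p ≠ 0) : (pderiv i p).totalDegree < p.totalDegree := by
  have key : ∀ m ∈ (pderiv i p).support, (m.sum fun _ e => e) + 1 ≤ p.totalDegree := by
    intro m hm
    rw [mem_support_iff, coeff_pderiv] at hm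
    have h1 : coeff (m + Finsupp.single i 1) p ≠ 0 := left_ne_zero_of_mul hm
    have h2 := le_totalDegree (mem_support_iff.2 h1)
    rw [Finsupp.sum_add_index' (fun _ => rfl) (fun _ _ _ => rfl),
      Finsupp.sum_single_index rfl] at h2
    exact h2
  obtain ⟨m, hm⟩ : (pderiv i p).support.Nonempty :=
    Finset.nonempty_iff_ne_empty.2 fun h' => h (MvPolynomial.support_eq_empty.1 h')
  have h0 : 0 < p.totalDegree := by
    have := key m hm
    omega
  unfold totalDegree at h0 ⊢
  rw [Finset.sup_lt_iff h0]
  intro m hm
  exact key m hm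

/-- A nonconstant polynomial of small degree has a nonzero first derivative. -/
theorem exists_pderiv {K : Type} [Field K] (p : ℕ) [CharP K p] (g : Pl K)
    (h : g.totalDegree ≠ 0) (hp : g.totalDegree < p) : ∃ i, pderiv i g ≠ 0 := by
  by_contra hn
  push Not at hn
  apply h
  rw [totalDegree_eq_zero_iff_eq_C]
  ext m
  rw [coeff_C]
  split_ifs with hm
  · rw [← hm]
  · obtain ⟨i, hi⟩ : ∃ i, m i ≠ 0 := by
      by_contra hc
      push Not at hc
      exact hm (Finsupp.ext fun i => (hc i).symm)
    have h1 := coeff_pderiv (i := i) g (m - Finsupp.single i 1)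
    rw [hn i, coeff_zero, Finsupp.sub_add_single_one_cancel hi] at h1
    rcases mul_eq_zero.1 h1.symm with h2 | h2
    · exact h2
    · by_contra hne
      have h3 : (m - Finsupp.single i 1 : Fin 2 →₀ ℕ) i + 1 = m i := by
        rw [Finsupp.tsub_apply, Finsupp.single_eq_same]
        omega
      have h4 : ((m i : ℕ) : K) = 0 := by
        rw [← h3]
        push_cast
        exact h2
      have h5 : p ∣ m i := (CharP.cast_eq_zero_iff K p (m i)).1 h4
      have h6 : p ≤ m i := Nat.le_of_dvd (Nat.pos_of_ne_zero hi) h5
      have h7 : m i ≤ m.sum fun _ e => e := by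
        rw [Finsupp.sum]
        exact Finset.single_le_sum (f := fun a => m a) (fun _ _ => Nat.zero_le _)
          (Finsupp.mem_support_iff.2 hi)
      have h8 := le_totalDegree (mem_support_iff.2 hne)
      omega

end Null_aux

theorem tNull : S_Null := by
  intro K _ _ p _ _ g hg
  constructor
  · intro e he
    have hP : (Ideal.span {g} : Ideal (Pl K)).IsPrime :=
      (Ideal.span_singleton_prime hg.ne_zero).2 hg.prime
    have h1 : e ∉ vanishingIdeal K (zeroLocus K (Ideal.span {g} : Ideal (Pl K))) := by
      rw [vanishingIdeal_zeroLocus_eq_radical, hP.isRadical.radical]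
      rw [Ideal.mem_span_singleton]
      exact he
    rw [mem_vanishingIdeal_iff] at h1
    push Not at h1
    obtain ⟨Q, hQ, hQe⟩ := h1
    refine ⟨Q, ?_, ?_⟩
    · have := hQ g (Ideal.mem_span_singleton_self g)
      rwa [MvPolynomial.aeval_eq_eval] at this
    · rwa [MvPolynomial.aeval_eq_eval] at hQe
  · intro hp
    have h0 : g.totalDegree ≠ 0 := by
      intro h
      have hC := totalDegree_eq_zero_iff_eq_C.1 h
      apply hg.not_isUnit
      rw [hC]
      have hc : coeff 0 g ≠ 0 := by
        intro hc
        rw [hc, map_zero] at hC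
        exact hg.ne_zero hC
      exact (isUnit_iff_ne_zero.2 hc).map C
    obtain ⟨i, hi⟩ := Null_aux.exists_pderiv p g h0 hp
    have h1 : ¬ g ∣ pderiv i g := by
      intro hd
      have h2 := totalDegree_le_of_dvd_of_isDomain hd hi
      have h3 := Null_aux.totalDegree_pderiv g i hi
      omega
    fin_cases i
    · exact Or.inl h1
    · exact Or.inr h1

end Pool.Agent.Lib.MP_8dbdcc_co.AA
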