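import Pool.Agent.Lib.MP_8dbdcc_co.AA.Spec

/-!
# Numerical facts for large `p`
-/

set_option autoImplicit false

namespace Pool.Agent.Lib.MP_8dbdcc_co.AA

open MvPolynomial Finset

namespace NumA_aux

/-- `√p log p ≤ 2 p`. -/
theorem log_le (p : ℕ) (hp : 1 ≤ p) : 5 * Real.sqrt p * Real.log p ≤ ((10 * p : ℕ) : ℝ) := by
  have h0 : (0 : ℝ) < p := by exact_mod_cast hp
  have hs : 0 < Real.sqrt p := Real.sqrt_pos.2 h0
  have h1 : Real.log p = 2 * Real.log (Real.sqrt p) := by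
    conv_lhs => rw [← Real.sq_sqrt h0.le]
    rw [Real.log_pow]
    norm_num
  have h2 : Real.log (Real.sqrt p) ≤ Real.sqrt p := by
    linarith [Real.log_le_sub_one_of_pos hs]
  have h3 : Real.sqrt p * Real.sqrt p = p := Real.mul_self_sqrt h0.le
  push_cast
  rw [h1]
  nlinarith [mul_le_mul_of_nonneg_left h2 hs.le]

/-- `⌈5 √p log p⌉₊ ≤ 10 p`. -/
theorem ceil_le (p : ℕ) (hp : 1 ≤ p) : ⌈5 * Real.sqrt p * Real.log p⌉₊ ≤ 10 * p :=
  Nat.ceil_le.2 (log_le p hp)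

/-- `√p + 1 ≤ p ^ (6 / 7)`. -/
theorem sqrt_le (p : ℕ) (hp : 16 ≤ p) : Real.sqrt p + 1 ≤ (p : ℝ) ^ (6 / 7 : ℝ) := by
  have h16 : (16 : ℝ) ≤ p := by exact_mod_cast hp
  have h0 : (0 : ℝ) < p := by linarith
  have h1 : (p : ℝ) ^ (3 / 4 : ℝ) ≤ (p : ℝ) ^ (6 / 7 : ℝ) :=
    Real.rpow_le_rpow_of_exponent_le (by linarith) (by norm_num)
  have h2 : (p : ℝ) ^ (3 / 4 : ℝ) = Real.sqrt p * (p : ℝ) ^ (1 / 4 : ℝ) := by
    rw [Real.sqrt_eq_rpow, ← Real.rpow_add h0]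
    norm_num
  have h3 : (2 : ℝ) ≤ (p : ℝ) ^ (1 / 4 : ℝ) := by
    have h4 : (16 : ℝ) ^ (1 / 4 : ℝ) = 2 := by
      rw [show (16 : ℝ) = (2 : ℝ) ^ (4 : ℝ) by norm_num, ← Real.rpow_mul (by norm_num)]
      norm_num
    rw [← h4]
    exact Real.rpow_le_rpow (by norm_num) h16 (by norm_num)
  have h5 : 1 ≤ Real.sqrt p := by
    rw [Real.one_le_sqrt]
    linarith
  rw [h2] at h1
  nlinarith [mul_le_mul_of_nonneg_left h3 (by linarith : (0 : ℝ) ≤ Real.sqrt p)]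

/-- The last fact. -/
theorem pow_le (p : ℕ) (hp : 16 ≤ p) (r j : ℕ) (hr : Real.sqrt p ≤ r) (hr1 : r ≤ p)
    (hj : 5 * Real.sqrt p * Real.log p ≤ j) :
    (p : ℝ) ^ 2 ≤ 1 / (1 - (r : ℝ) / (2 * (p + 1))) ^ j := by
  have h16 : (16 : ℝ) ≤ p := by exact_mod_cast hp
  have h0 : (0 : ℝ) < p := by linarith
  have hr1' : (r : ℝ) ≤ p := by exact_mod_cast hr1
  have hd : 0 < 1 - (r : ℝ) / (2 * (p + 1)) := by
    rw [sub_pos, div_lt_one (by linarith)]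
    linarith
  have hl : 0 ≤ Real.log p := Real.log_nonneg (by linarith)
  have hs : 0 ≤ Real.sqrt p := Real.sqrt_nonneg _
  have h3 : Real.sqrt p * Real.sqrt p = p := Real.mul_self_sqrt h0.le
  have h1 : (1 - (r : ℝ) / (2 * (p + 1))) ^ j ≤ Real.exp (-((r : ℝ) / (2 * (p + 1)) * j)) := by
    have h2 : 1 - (r : ℝ) / (2 * (p + 1)) ≤ Real.exp (-((r : ℝ) / (2 * (p + 1)))) := by
      have := Real.add_one_le_exp (-((r : ℝ) / (2 * (p + 1))))
      linarith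
    calc (1 - (r : ℝ) / (2 * (p + 1))) ^ j
        ≤ Real.exp (-((r : ℝ) / (2 * (p + 1)))) ^ j := pow_le_pow_left₀ hd.le h2 j
      _ = Real.exp (-((r : ℝ) / (2 * (p + 1)) * j)) := by
          rw [← Real.exp_nat_mul]
          ring_nf
  have h4 : 2 * Real.log p ≤ (r : ℝ) / (2 * (p + 1)) * j := by
    rw [div_mul_eq_mul_div, le_div_iff₀ (by linarith)]
    have h5 : Real.sqrt p * (5 * Real.sqrt p * Real.log p) ≤ (r : ℝ) * j :=
      mul_le_mul hr hj (by positivity) (by linarith)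
    have h6 : Real.sqrt p * (5 * Real.sqrt p * Real.log p) =
        5 * (Real.sqrt p * Real.sqrt p) * Real.log p := by ring
    rw [h3] at h6
    rw [h6] at h5
    nlinarith [mul_nonneg hl (by linarith : (0 : ℝ) ≤ p - 4)]
  have h7 : (p : ℝ) ^ 2 ≤ Real.exp ((r : ℝ) / (2 * (p + 1)) * j) := by
    calc (p : ℝ) ^ 2 = Real.exp (2 * Real.log p) := by
          rw [mul_comm, Real.exp_mul, Real.exp_log h0]
          norm_num
      _ ≤ _ := Real.exp_le_exp.2 h4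
  rw [le_div_iff₀ (pow_pos hd j)]
  calc (p : ℝ) ^ 2 * (1 - (r : ℝ) / (2 * (p + 1))) ^ j
      ≤ Real.exp ((r : ℝ) / (2 * (p + 1)) * j) * Real.exp (-((r : ℝ) / (2 * (p + 1)) * j)) :=
        mul_le_mul h7 h1 (pow_nonneg hd.le _) (Real.exp_pos _).le
    _ = 1 := by rw [← Real.exp_add, add_neg_cancel, Real.exp_zero]

end NumA_aux

/-- Numerical facts. -/
theorem tNumA : S_NumA := by
  refine ⟨16, fun p hp m hm => ?_⟩
  have hq : Nat.sqrt p + 1 ≤ p := Nat.sqrt_lt_self (by omega)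
  refine ⟨?_, hq, ?_, ?_⟩
  · have h1 : ((Nat.sqrt p : ℕ) : ℝ) ≤ Real.sqrt p := Real.nat_sqrt_le_real_sqrt
    have h2 := NumA_aux.sqrt_le p hp
    have h3 : ((Nat.sqrt p + 1 : ℕ) : ℝ) ≤ m := by
      push_cast
      linarith
    exact_mod_cast h3
  · have h1 := NumA_aux.ceil_le p (by omega)
    nlinarith
  · refine NumA_aux.pow_le p hp _ _ ?_ hq (Nat.le_ceil _)
    push_cast
    exact Real.real_sqrt_le_nat_sqrt_succ

end Pool.Agent.Lib.MP_8dbdcc_co.AA
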