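import Pool.Agent.Lib.MP_8dbdcc_co.AA.Spec

/-!
The numerical inequality `S_NumB` of the project on large arcs of the affine plane over a finite field.
-/

set_option autoImplicit false

namespace Pool.Agent.Lib.MP_8dbdcc_co.AA

open MvPolynomial Finset

namespace NumB_aux

/-- The growth estimate: the square root times the square of the logarithm is below the power `4/7`. -/
theorem growth : ∀ᶠ x : ℝ in Filter.atTop,
    31200 * Real.sqrt x * Real.log x ^ 2 ≤ x ^ (4 / 7 : ℝ) := by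
  have h := (isLittleO_log_rpow_atTop (show (0 : ℝ) < 1 / 28 by norm_num)).bound
    (show (0 : ℝ) < 1 / 200 by norm_num)
  filter_upwards [h, Filter.eventually_ge_atTop (1 : ℝ)] with x hx h1
  have h0 : (0 : ℝ) ≤ x := by linarith
  have hL : 0 ≤ Real.log x := Real.log_nonneg h1
  have hp : (0 : ℝ) ≤ x ^ (1 / 28 : ℝ) := Real.rpow_nonneg h0 _
  rw [Real.norm_of_nonneg hL, Real.norm_of_nonneg hp] at hx
  have h2 : Real.log x ^ 2 ≤ (1 / 200 * x ^ (1 / 28 : ℝ)) ^ 2 := pow_le_pow_left₀ hL hx 2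
  have h3 : (x ^ (1 / 28 : ℝ)) ^ 2 = x ^ (1 / 14 : ℝ) := by
    rw [← Real.rpow_natCast, ← Real.rpow_mul h0]; norm_num
  have h4 : Real.sqrt x * x ^ (1 / 14 : ℝ) = x ^ (4 / 7 : ℝ) := by
    rw [Real.sqrt_eq_rpow, ← Real.rpow_add (by linarith)]; norm_num
  have h5 : Real.log x ^ 2 ≤ 1 / 40000 * x ^ (1 / 14 : ℝ) := by
    calc Real.log x ^ 2 ≤ (1 / 200 * x ^ (1 / 28 : ℝ)) ^ 2 := h2
      _ = 1 / 40000 * (x ^ (1 / 28 : ℝ)) ^ 2 := by ring
      _ = _ := by rw [h3]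
  have hs : 0 ≤ Real.sqrt x := Real.sqrt_nonneg x
  have h6 : Real.sqrt x * Real.log x ^ 2 ≤ Real.sqrt x * (1 / 40000 * x ^ (1 / 14 : ℝ)) :=
    mul_le_mul_of_nonneg_left h5 hs
  have h7 : Real.sqrt x * (1 / 40000 * x ^ (1 / 14 : ℝ)) = 1 / 40000 * x ^ (4 / 7 : ℝ) := by
    rw [← h4]; ring
  have h8 : (0 : ℝ) ≤ x ^ (4 / 7 : ℝ) := Real.rpow_nonneg h0 _
  nlinarith

/-- A power of `1 - t` is at most an exponential. -/
theorem pow_exp (t : ℝ) (ht : t ≤ 1) (n : ℕ) : (1 - t) ^ n ≤ Real.exp (-(n * t)) := by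
  have h1 : 1 - t ≤ Real.exp (-t) := Real.one_sub_le_exp_neg t
  calc (1 - t) ^ n ≤ Real.exp (-t) ^ n := pow_le_pow_left₀ (by linarith) h1 n
    _ = Real.exp (-(n * t)) := by rw [← Real.exp_nat_mul]; congr 1; ring

/-- The two small terms together. -/
theorem small (P M a b : ℝ) (n1 n2 : ℕ) (hP : 0 < P) (hM : 0 ≤ M) (hMP : M ≤ P)
    (ha : a = M / P) (hb : 0 ≤ b) (h1 : P ≤ 300 * n1 + 300) (h2 : P ≤ 3 * n2 + 3) :
    (1 - a ^ 3) ^ n1 + b * (1 - a ^ 2) ^ n2 ≤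
      (1 + b) * Real.exp (-(M ^ 3 / P ^ 2 / 300 - 1)) := by
  have ha0 : 0 ≤ a := by rw [ha]; positivity
  have ha1 : a ≤ 1 := by rw [ha]; exact (div_le_one hP).2 hMP
  have ha2 : a ^ 2 ≤ 1 := pow_le_one₀ ha0 ha1
  have ha3 : a ^ 3 ≤ 1 := pow_le_one₀ ha0 ha1
  have h32 : a ^ 3 ≤ a ^ 2 := pow_le_pow_of_le_one ha0 ha1 (by norm_num)
  have h30 : 0 ≤ a ^ 3 := by positivity
  have h20 : 0 ≤ a ^ 2 := by positivity
  have hX : M ^ 3 / P ^ 2 = a ^ 3 * P := by rw [ha]; field_simp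
  have e1 : (1 - a ^ 3) ^ n1 ≤ Real.exp (-(M ^ 3 / P ^ 2 / 300 - 1)) := by
    refine (pow_exp (a ^ 3) ha3 n1).trans (Real.exp_le_exp.2 ?_)
    rw [hX]
    nlinarith [mul_le_mul_of_nonneg_left h1 h30]
  have e2 : (1 - a ^ 2) ^ n2 ≤ Real.exp (-(M ^ 3 / P ^ 2 / 300 - 1)) := by
    refine (pow_exp (a ^ 2) ha2 n2).trans (Real.exp_le_exp.2 ?_)
    rw [hX]
    have q1 := mul_le_mul_of_nonneg_left h2 h20
    have q2 : a ^ 3 * P ≤ a ^ 2 * P := mul_le_mul_of_nonneg_right h32 hP.le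
    have q3 : 0 ≤ a ^ 2 * P := by positivity
    nlinarith
  have e3 := mul_le_mul_of_nonneg_left e2 hb
  linarith

/-- The inequality with real variables. -/
theorem core (P M s L : ℝ) (N n1 n2 : ℕ) (hP : 100 ≤ P) (hs : 2 ≤ s) (hsP : s ^ 2 = P) (hL : 2 ≤ L)
    (hLP : Real.exp L = P) (hM : 0 ≤ M) (hMP : 100 * M ≤ 99 * P)
    (hN : (N : ℝ) ≤ s + 5 * s * L + 2) (h1 : P ≤ 300 * n1 + 300) (h2 : P ≤ 3 * n2 + 3)
    (hX : 31200 * s * L ^ 2 ≤ M ^ 3 / P ^ 2) (hXP : 31200 * s * L ^ 2 ≤ P) :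
    Real.exp (M ^ 3 / (400 * P ^ 2)) * (P + 1) * (P ^ 2 + 1) ^ N *
      (1 + M / (P - M)) ^ (2 + N) *
      ((1 - (M / P) ^ 3) ^ n1 + (P + 2 + N) * (1 - (M / P) ^ 2) ^ n2) ≤ 1 := by
  have hP0 : 0 < P := by linarith
  have hMP' : M ≤ P := by linarith
  have hsL : 4 ≤ s * L := by nlinarith
  have hN6 : (N : ℝ) ≤ 6 * (s * L) := by nlinarith
  have hsL2 : 2 * (s * L) ≤ s * L ^ 2 := by nlinarith
  have hNP : (N : ℝ) ≤ P := by nlinarith
  have b1 : P + 1 ≤ Real.exp (2 * L) := by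
    have : Real.exp (2 * L) = P ^ 2 := by
      rw [← hLP, ← Real.exp_nat_mul]; norm_num
    rw [this]; nlinarith
  have e3 : Real.exp (3 * L) = P ^ 3 := by
    rw [← hLP, ← Real.exp_nat_mul]; norm_num
  have b2 : P ^ 2 + 1 ≤ Real.exp (3 * L) := by
    rw [e3]; nlinarith [sq_nonneg P]
  have b2' : (P ^ 2 + 1) ^ N ≤ Real.exp (18 * (s * L ^ 2)) := by
    calc (P ^ 2 + 1) ^ N ≤ Real.exp (3 * L) ^ N := pow_le_pow_left₀ (by positivity) b2 N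
      _ = Real.exp (N * (3 * L)) := by rw [← Real.exp_nat_mul]
      _ ≤ _ := Real.exp_le_exp.2 (by nlinarith [mul_le_mul_of_nonneg_right hN6 (by linarith : (0 : ℝ) ≤ 3 * L)])
  have hPM : 0 < P - M := by linarith
  have b3 : 1 + M / (P - M) ≤ Real.exp L := by
    rw [hLP]
    have : M / (P - M) ≤ 99 := by
      rw [div_le_iff₀ hPM]; linarith
    linarith
  have b30 : 0 ≤ 1 + M / (P - M) := by positivity
  have b3' : (1 + M / (P - M)) ^ (2 + N) ≤ Real.exp (7 * (s * L ^ 2)) := by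
    calc (1 + M / (P - M)) ^ (2 + N) ≤ Real.exp L ^ (2 + N) := pow_le_pow_left₀ b30 b3 _
      _ = Real.exp ((2 + N : ℕ) * L) := by rw [← Real.exp_nat_mul]
      _ ≤ _ := Real.exp_le_exp.2 (by
        push_cast
        have q : (2 + (N : ℝ)) ≤ 7 * (s * L) := by linarith
        nlinarith [mul_le_mul_of_nonneg_right q (by linarith : (0 : ℝ) ≤ L)])
  have b4 := small P M (M / P) (P + 2 + N) n1 n2 hP0 hM hMP' rfl (by positivity) h1 h2
  have b5 : 1 + (P + 2 + N) ≤ Real.exp (3 * L) := by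
    rw [e3]; nlinarith [sq_nonneg P]
  have b4' : (1 - (M / P) ^ 3) ^ n1 + (P + 2 + N) * (1 - (M / P) ^ 2) ^ n2 ≤
      Real.exp (3 * L) * Real.exp (-(M ^ 3 / P ^ 2 / 300 - 1)) :=
    b4.trans (mul_le_mul_of_nonneg_right b5 (Real.exp_pos _).le)
  have ha1 : M / P ≤ 1 := (div_le_one hP0).2 hMP'
  have ha0 : 0 ≤ M / P := by positivity
  have p1 : 0 ≤ 1 - (M / P) ^ 3 := by linarith [pow_le_one₀ (n := 3) ha0 ha1]
  have p2 : 0 ≤ 1 - (M / P) ^ 2 := by linarith [pow_le_one₀ (n := 2) ha0 ha1]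
  have p3 : 0 ≤ (1 - (M / P) ^ 3) ^ n1 + (P + 2 + N) * (1 - (M / P) ^ 2) ^ n2 := by positivity
  have hE : M ^ 3 / (400 * P ^ 2) = M ^ 3 / P ^ 2 / 400 := by
    rw [div_div]; ring_nf
  set X := M ^ 3 / P ^ 2 with hXd
  rw [hE]
  calc Real.exp (X / 400) * (P + 1) * (P ^ 2 + 1) ^ N * (1 + M / (P - M)) ^ (2 + N) *
      ((1 - (M / P) ^ 3) ^ n1 + (P + 2 + N) * (1 - (M / P) ^ 2) ^ n2)
      ≤ Real.exp (X / 400) * Real.exp (2 * L) * Real.exp (18 * (s * L ^ 2)) *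
        Real.exp (7 * (s * L ^ 2)) * (Real.exp (3 * L) * Real.exp (-(X / 300 - 1))) := by
        refine mul_le_mul ?_ b4' p3 (by positivity)
        refine mul_le_mul ?_ b3' (pow_nonneg b30 _) (by positivity)
        refine mul_le_mul ?_ b2' (by positivity) (by positivity)
        exact mul_le_mul_of_nonneg_left b1 (Real.exp_pos _).le
    _ = Real.exp (X / 400 + 2 * L + 18 * (s * L ^ 2) + 7 * (s * L ^ 2) +
        (3 * L + -(X / 300 - 1))) := by simp only [Real.exp_add]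
    _ ≤ 1 := by
        rw [Real.exp_le_one_iff]
        have hX' : 31200 * (s * L ^ 2) ≤ X := by linarith
        have q1 : 4 * L ≤ s * L ^ 2 := by nlinarith
        nlinarith

end NumB_aux

open NumB_aux in
/-- The numerical inequality. -/
theorem tNumB : S_NumB := by
  obtain ⟨x0, hx0⟩ := Filter.eventually_atTop.1 growth
  refine ⟨max 100 ⌈x0⌉₊, fun p hp m hm hmp => ?_⟩
  have hp100 : 100 ≤ p := le_trans (le_max_left _ _) hp
  have hpx : x0 ≤ (p : ℝ) := Nat.ceil_le.1 (le_trans (le_max_right _ _) hp)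
  have hP : (100 : ℝ) ≤ (p : ℝ) := by exact_mod_cast hp100
  have hP0 : (0 : ℝ) < (p : ℝ) := by linarith
  have hg := hx0 (p : ℝ) hpx
  set L := Real.log (p : ℝ) with hLd
  set s := Real.sqrt (p : ℝ) with hsd
  have hsP : s ^ 2 = p := Real.sq_sqrt hP0.le
  have hs : 2 ≤ s := by
    rw [hsd]; exact Real.le_sqrt_of_sq_le (by linarith)
  have hLP : Real.exp L = p := Real.exp_log hP0
  have hL : 2 ≤ L := by
    rw [hLd, Real.le_log_iff_exp_le hP0]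
    have e1 := Real.exp_one_lt_d9
    have e2 : Real.exp 2 = Real.exp 1 ^ 2 := by rw [← Real.exp_nat_mul]; norm_num
    have e3 := Real.exp_pos 1
    rw [e2]; nlinarith
  have hX : (p : ℝ) ^ (4 / 7 : ℝ) ≤ (m : ℝ) ^ 3 / (p : ℝ) ^ 2 := by
    rw [le_div_iff₀ (by positivity)]
    have q1 : ((p : ℝ) ^ (6 / 7 : ℝ)) ^ 3 ≤ (m : ℝ) ^ 3 :=
      pow_le_pow_left₀ (Real.rpow_nonneg hP0.le _) hm 3
    refine le_trans (le_of_eq ?_) q1
    rw [← Real.rpow_natCast ((p : ℝ) ^ (6 / 7 : ℝ)) 3, ← Real.rpow_mul hP0.le,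
      ← Real.rpow_natCast (p : ℝ) 2, ← Real.rpow_add hP0]
    norm_num
  have hXP : (p : ℝ) ^ (4 / 7 : ℝ) ≤ p := by
    calc (p : ℝ) ^ (4 / 7 : ℝ) ≤ (p : ℝ) ^ (1 : ℝ) :=
          Real.rpow_le_rpow_of_exponent_le (by linarith) (by norm_num)
      _ = p := Real.rpow_one _
  have hr : ((Nat.sqrt p : ℕ) : ℝ) ≤ s := by
    rw [hsd]; exact Real.nat_sqrt_le_real_sqrt
  have hj0 : 0 ≤ 5 * s * L := by positivity
  have hj : ((⌈5 * s * L⌉₊ : ℕ) : ℝ) ≤ 5 * s * L + 1 := (Nat.ceil_lt_add_one hj0).le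
  have hN : (((Nat.sqrt p + 1) + ⌈5 * s * L⌉₊ : ℕ) : ℝ) ≤ s + 5 * s * L + 2 := by
    push_cast; linarith
  have hmP : 100 * (m : ℝ) ≤ 99 * p := by exact_mod_cast hmp
  have h1 : (p : ℝ) ≤ 300 * ((p / 300 : ℕ) : ℝ) + 300 := by
    have : p ≤ 300 * (p / 300) + 300 := by omega
    exact_mod_cast this
  have h2 : (p : ℝ) ≤ 3 * ((p / 3 : ℕ) : ℝ) + 3 := by
    have : p ≤ 3 * (p / 3) + 3 := by omega
    exact_mod_cast this
  have key := core (p : ℝ) m s L ((Nat.sqrt p + 1) + ⌈5 * s * L⌉₊) (p / 300) (p / 3) hP hs hsP hL hLP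
    (Nat.cast_nonneg m) hmP hN h1 h2 (hg.trans hX) (hg.trans hXP)
  have c1 : ((p + 2 + (Nat.sqrt p + 1) + ⌈5 * s * L⌉₊ : ℕ) : ℝ) =
      (p : ℝ) + 2 + (((Nat.sqrt p + 1) + ⌈5 * s * L⌉₊ : ℕ) : ℝ) := by
    push_cast; ring
  rw [c1, show 2 + (Nat.sqrt p + 1) + ⌈5 * s * L⌉₊ = 2 + ((Nat.sqrt p + 1) + ⌈5 * s * L⌉₊) from
    Nat.add_assoc _ _ _]
  exact key

end Pool.Agent.Lib.MP_8dbdcc_co.AA
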