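import Pool.Agent.Lib.MP_8dbdcc_co.AA.Spec

/-!
# The product over the lines through a point
-/

set_option autoImplicit false

namespace Pool.Agent.Lib.MP_8dbdcc_co.AA

open MvPolynomial Finset

namespace One_aux

variable {p : ℕ} [Fact p.Prime]

/-- The normal vector in `dirs p` of a vector. -/
def nrm (v : Pt p) : Pt p := if v.2 = 0 then (0, 1) else (1, -(v.1 * v.2⁻¹))

/-- The factor between the normal vector and the rotated vector. -/
def kp (v : Pt p) : ZMod p := if v.2 = 0 then v.1 else -v.2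

theorem mem_dirs (a : Pt p) : a ∈ dirs p ↔ (∃ s : ZMod p, a = (1, s)) ∨ a = (0, 1) := by
  unfold dirs
  rw [Finset.mem_union, Finset.mem_image, Finset.mem_singleton]
  constructor
  · rintro (⟨s, _, h⟩ | h)
    · exact Or.inl ⟨s, h.symm⟩
    · exact Or.inr h
  · rintro (⟨s, h⟩ | h)
    · exact Or.inl ⟨s, Finset.mem_univ _, h.symm⟩
    · exact Or.inr h

theorem nrm_mem (v : Pt p) : nrm v ∈ dirs p := by
  rw [mem_dirs]
  unfold nrm
  split_ifs
  · exact Or.inr rfl
  · exact Or.inl ⟨_, rfl⟩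

theorem kp_fst (v : Pt p) : kp v * (nrm v).1 = -v.2 := by
  unfold kp nrm
  split_ifs with h
  · simp [h]
  · simp

theorem kp_snd (v : Pt p) : kp v * (nrm v).2 = v.1 := by
  unfold kp nrm
  split_ifs with h
  · simp
  · simp only
    rw [neg_mul_neg, mul_comm v.1, ← mul_assoc, mul_inv_cancel₀ h, one_mul]

theorem kp_ne (v : Pt p) (hv : v ≠ 0) : kp v ≠ 0 := by
  intro h
  apply hv
  have h1 := kp_fst v
  have h2 := kp_snd v
  rw [h, zero_mul] at h1 h2
  exact Prod.ext h2.symm (neg_eq_zero.1 h1.symm)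

theorem cross_dirs {a b : Pt p} (ha : a ∈ dirs p) (hb : b ∈ dirs p)
    (h : a.1 * b.2 = a.2 * b.1) : a = b := by
  rw [mem_dirs] at ha hb
  rcases ha with ⟨s, rfl⟩ | rfl <;> rcases hb with ⟨t, rfl⟩ | rfl
  · simp only [one_mul, mul_one] at h
    rw [h]
  · simp at h
  · simp at h
  · rfl

theorem uniq {a : Pt p} (ha : a ∈ dirs p) (v : Pt p) (hv : v ≠ 0) :
    a.1 * v.1 + a.2 * v.2 = 0 ↔ a = nrm v := by
  have h0 : (nrm v).1 * v.1 + (nrm v).2 * v.2 = 0 := by
    have h1 : kp v * ((nrm v).1 * v.1 + (nrm v).2 * v.2) = 0 := by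
      have : kp v * ((nrm v).1 * v.1 + (nrm v).2 * v.2) =
        (kp v * (nrm v).1) * v.1 + (kp v * (nrm v).2) * v.2 := by ring
      rw [this, kp_fst, kp_snd]
      ring
    exact (mul_eq_zero.1 h1).resolve_left (kp_ne v hv)
  constructor
  · intro h
    refine cross_dirs ha (nrm_mem v) ?_
    by_contra hne
    have hne' : a.1 * (nrm v).2 - a.2 * (nrm v).1 ≠ 0 := sub_ne_zero.2 hne
    have e1 : (a.1 * (nrm v).2 - a.2 * (nrm v).1) * v.1 = 0 := by
      linear_combination (nrm v).2 * h - a.2 * h0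
    have e2 : (a.1 * (nrm v).2 - a.2 * (nrm v).1) * v.2 = 0 := by
      linear_combination a.1 * h0 - (nrm v).1 * h
    exact hv (Prod.ext ((mul_eq_zero.1 e1).resolve_left hne')
      ((mul_eq_zero.1 e2).resolve_left hne'))
  · rintro rfl
    exact h0

theorem card_dirs : (dirs p).card = p + 1 := by
  unfold dirs
  rw [Finset.card_union_of_disjoint, Finset.card_image_of_injective, Finset.card_univ,
    ZMod.card, Finset.card_singleton]
  · intro s t h
    exact (Prod.mk.inj h).2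
  · rw [Finset.disjoint_singleton_right, Finset.mem_image]
    rintro ⟨s, _, h⟩
    have := (Prod.mk.inj h).1
    exact one_ne_zero this

theorem prod_ne : ∏ t ∈ (univ : Finset (ZMod p)).erase 0, t = -1 := by
  have h1 : ∏ t ∈ (univ : Finset (ZMod p)).erase 0, t = ∏ u : (ZMod p)ˣ, (u : ZMod p) := by
    refine (Finset.prod_bij (fun (u : (ZMod p)ˣ) _ => (u : ZMod p)) ?_ ?_ ?_ ?_).symm
    · intro u _
      exact Finset.mem_erase.2 ⟨u.ne_zero, Finset.mem_univ _⟩
    · intro u _ v _ h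
      exact Units.ext h
    · intro t ht
      exact ⟨Units.mk0 t (Finset.ne_of_mem_erase ht), Finset.mem_univ _, rfl⟩
    · intro u _
      rfl
  rw [h1, ← Units.coe_prod, FiniteField.prod_univ_units_id_eq_neg_one]
  rfl

/-- No three points of an arc are collinear. -/
theorem dt_ne {A : Finset (Pt p)} {x y z : Pt p} (hA : Arc p A) (hx : x ∈ A) (hy : y ∈ A)
    (hz : z ∈ A) (hxy : x ≠ y) (hxz : x ≠ z) (hyz : y ≠ z) : dt x y z ≠ 0 := by
  intro h
  have hab : ((-(y.2 - x.2), y.1 - x.1) : ZMod p × ZMod p) ≠ (0, 0) := by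
    intro h1
    have h2 := Prod.mk.inj h1
    apply hxy
    exact Prod.ext (sub_eq_zero.1 h2.2).symm (sub_eq_zero.1 (neg_eq_zero.1 h2.1)).symm
  have h3 := hA (-(y.2 - x.2)) (y.1 - x.1) (-(y.2 - x.2) * x.1 + (y.1 - x.1) * x.2) hab
  have h4 : ({x, y, z} : Finset (Pt p)) ⊆ A.filter (fun q => -(y.2 - x.2) * q.1 +
      (y.1 - x.1) * q.2 = -(y.2 - x.2) * x.1 + (y.1 - x.1) * x.2) := by
    intro q hq
    rw [Finset.mem_insert, Finset.mem_insert, Finset.mem_singleton] at hq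
    rw [Finset.mem_filter]
    rcases hq with rfl | rfl | rfl
    · exact ⟨hx, rfl⟩
    · exact ⟨hy, by ring⟩
    · refine ⟨hz, ?_⟩
      unfold dt at h
      linear_combination h
  have h5 : ({x, y, z} : Finset (Pt p)).card = 3 := by
    rw [Finset.card_insert_of_notMem, Finset.card_insert_of_notMem, Finset.card_singleton]
    · rwa [Finset.mem_singleton]
    · rw [Finset.mem_insert, Finset.mem_singleton]
      rintro (h | h)
      · exact hxy h
      · exact hxz h
  have h6 := Finset.card_le_card h4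
  omega

theorem main (Y Z : Pt p) (hY : Y ≠ 0) (hZ : Z ≠ 0) (hd : Y.1 * Z.2 - Y.2 * Z.1 ≠ 0) :
    ∏ a ∈ ((dirs p).erase (nrm Y)).erase (nrm Z), (a.1 * Y.1 + a.2 * Y.2) =
      -∏ a ∈ ((dirs p).erase (nrm Y)).erase (nrm Z), (a.1 * Z.1 + a.2 * Z.2) := by
  set S := ((dirs p).erase (nrm Y)).erase (nrm Z) with hS
  have hSd : ∀ a ∈ S, a ∈ dirs p ∧ a ≠ nrm Y ∧ a ≠ nrm Z := by
    intro a ha
    rw [hS, Finset.mem_erase, Finset.mem_erase] at ha
    exact ⟨ha.2.2, ha.2.1, ha.1⟩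
  have hy0 : ∀ a ∈ S, a.1 * Y.1 + a.2 * Y.2 ≠ 0 := fun a ha h =>
    (hSd a ha).2.1 ((uniq (hSd a ha).1 Y hY).1 h)
  have hz0 : ∀ a ∈ S, a.1 * Z.1 + a.2 * Z.2 ≠ 0 := fun a ha h =>
    (hSd a ha).2.2 ((uniq (hSd a ha).1 Z hZ).1 h)
  have hYZ : nrm Y ≠ nrm Z := by
    intro h
    have h1 := (uniq (nrm_mem Y) Y hY).2 rfl
    have h2 := (uniq (nrm_mem Z) Z hZ).2 rfl
    rw [← h] at h2
    have ha : nrm Y ≠ 0 := by
      intro h0
      have := kp_fst Y
      have h3 := kp_snd Y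
      rw [h0] at this h3
      simp only [Prod.fst_zero, Prod.snd_zero, mul_zero] at this h3
      exact hY (Prod.ext h3.symm (neg_eq_zero.1 this.symm))
    apply ha
    have e1 : (nrm Y).1 * (Y.1 * Z.2 - Y.2 * Z.1) = 0 := by
      linear_combination Z.2 * h1 - Y.2 * h2
    have e2 : (nrm Y).2 * (Y.1 * Z.2 - Y.2 * Z.1) = 0 := by
      linear_combination Y.1 * h2 - Z.1 * h1
    exact Prod.ext ((mul_eq_zero.1 e1).resolve_right hd) ((mul_eq_zero.1 e2).resolve_right hd)
  have hcard : S.card = p - 1 := by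
    rw [hS, Finset.card_erase_of_mem, Finset.card_erase_of_mem (nrm_mem Y), card_dirs]
    · rfl
    · exact Finset.mem_erase.2 ⟨hYZ.symm, nrm_mem Z⟩
  let r : Pt p → ZMod p := fun a => (a.1 * Y.1 + a.2 * Y.2) * (a.1 * Z.1 + a.2 * Z.2)⁻¹
  have hrinj : Set.InjOn r (S : Set (Pt p)) := by
    intro a ha b hb hab
    have ha' : a ∈ S := ha
    have hb' : b ∈ S := hb
    have h1 : (a.1 * Y.1 + a.2 * Y.2) * (b.1 * Z.1 + b.2 * Z.2) =
        (b.1 * Y.1 + b.2 * Y.2) * (a.1 * Z.1 + a.2 * Z.2) := by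
      have h2 : (a.1 * Y.1 + a.2 * Y.2) * (a.1 * Z.1 + a.2 * Z.2)⁻¹ =
        (b.1 * Y.1 + b.2 * Y.2) * (b.1 * Z.1 + b.2 * Z.2)⁻¹ := hab
      have h3 := hz0 a ha'
      have h4 := hz0 b hb'
      rw [← div_eq_mul_inv, ← div_eq_mul_inv, div_eq_div_iff h3 h4] at h2
      exact h2
    have h5 : (a.1 * b.2 - a.2 * b.1) * (Y.1 * Z.2 - Y.2 * Z.1) = 0 := by
      linear_combination h1
    exact cross_dirs (hSd a ha').1 (hSd b hb').1
      (sub_eq_zero.1 ((mul_eq_zero.1 h5).resolve_right hd))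
  have himg : S.image r = (univ : Finset (ZMod p)).erase 0 := by
    apply Finset.eq_of_subset_of_card_le
    · intro t ht
      rw [Finset.mem_image] at ht
      obtain ⟨a, ha, rfl⟩ := ht
      exact Finset.mem_erase.2 ⟨mul_ne_zero (hy0 a ha) (inv_ne_zero (hz0 a ha)),
        Finset.mem_univ _⟩
    · rw [Finset.card_image_of_injOn hrinj, hcard, Finset.card_erase_of_mem (Finset.mem_univ _),
        Finset.card_univ, ZMod.card]
  have hprod : ∏ a ∈ S, r a = -1 := by
    rw [← prod_ne (p := p), ← himg, Finset.prod_image hrinj]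
  have hfin : ∏ a ∈ S, (a.1 * Y.1 + a.2 * Y.2) =
      (∏ a ∈ S, r a) * ∏ a ∈ S, (a.1 * Z.1 + a.2 * Z.2) := by
    rw [← Finset.prod_mul_distrib]
    refine Finset.prod_congr rfl fun a ha => ?_
    show _ = (a.1 * Y.1 + a.2 * Y.2) * (a.1 * Z.1 + a.2 * Z.2)⁻¹ * (a.1 * Z.1 + a.2 * Z.2)
    rw [mul_assoc, inv_mul_cancel₀ (hz0 a ha), mul_one]
  rw [hfin, hprod, neg_one_mul]

end One_aux

open One_aux in
/-- The product over the lines through `x`. -/
theorem tOne : S_One := by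
  intro p _ A x y z hA hx hy hz hxy hxz hyz
  have hv : ∀ w : Pt p, w ≠ x → w - x ≠ 0 := fun w h => sub_ne_zero.2 h
  -- injectivity of the normal vectors
  have hinj : ∀ w ∈ A, ∀ w' ∈ A, w ≠ x → w' ≠ x → nrm (w - x) = nrm (w' - x) → w = w' := by
    intro w hw w' hw' h h' he
    by_contra hne
    apply dt_ne hA hx hw hw' h.symm h'.symm hne
    have e1 := kp_fst (w - x)
    have e2 := kp_snd (w - x)
    have e3 := (uniq (nrm_mem (w' - x)) (w' - x) (hv w' h')).2 rfl
    rw [← he] at e3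
    simp only [Prod.fst_sub, Prod.snd_sub] at e1 e2 e3
    unfold dt
    linear_combination kp (w - x) * e3 - (w'.1 - x.1) * e1 - (w'.2 - x.2) * e2
  have hdt : ∀ w v : Pt p, dt x w v = kp (w - x) *
      ((nrm (w - x)).1 * (v.1 - x.1) + (nrm (w - x)).2 * (v.2 - x.2)) := by
    intro w v
    have e1 := kp_fst (w - x)
    have e2 := kp_snd (w - x)
    simp only [Prod.fst_sub, Prod.snd_sub] at e1 e2
    unfold dt
    linear_combination -(v.1 - x.1) * e1 - (v.2 - x.2) * e2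
  set B := ((A.erase x).erase y).erase z with hB
  have hBm : ∀ w, w ∈ B ↔ w ∈ A ∧ w ≠ x ∧ w ≠ y ∧ w ≠ z := by
    intro w
    rw [hB, Finset.mem_erase, Finset.mem_erase, Finset.mem_erase]
    tauto
  have htm : ∀ a, a ∈ tang A x ↔ a ∈ dirs p ∧ ∀ w ∈ A, w ≠ x → a ≠ nrm (w - x) := by
    intro a
    unfold tang
    rw [Finset.mem_filter]
    constructor
    · rintro ⟨h1, h2⟩
      refine ⟨h1, fun w hw hne he => hne (h2 w hw ?_)⟩
      have := (uniq h1 (w - x) (hv w hne)).2 he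
      simpa only [Prod.fst_sub, Prod.snd_sub] using this
    · rintro ⟨h1, h2⟩
      refine ⟨h1, fun w hw he => ?_⟩
      by_contra hne
      exact h2 w hw hne ((uniq h1 (w - x) (hv w hne)).1 (by
        simpa only [Prod.fst_sub, Prod.snd_sub] using he))
  have hunion : tang A x ∪ B.image (fun w => nrm (w - x)) =
      ((dirs p).erase (nrm (y - x))).erase (nrm (z - x)) := by
    ext a
    rw [Finset.mem_union, Finset.mem_image, htm, Finset.mem_erase, Finset.mem_erase]
    constructor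
    · rintro (⟨h1, h2⟩ | ⟨w, hw, rfl⟩)
      · exact ⟨h2 z hz hxz.symm, h2 y hy hxy.symm, h1⟩
      · rw [hBm] at hw
        exact ⟨fun h => hw.2.2.2 (hinj w hw.1 z hz hw.2.1 hxz.symm h),
          fun h => hw.2.2.1 (hinj w hw.1 y hy hw.2.1 hxy.symm h), nrm_mem _⟩
    · rintro ⟨h1, h2, h3⟩
      by_cases h : ∀ w ∈ A, w ≠ x → a ≠ nrm (w - x)
      · exact Or.inl ⟨h3, h⟩
      · push Not at h
        obtain ⟨w, hw, hwx, he⟩ := h
        refine Or.inr ⟨w, ?_, he.symm⟩
        rw [hBm]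
        refine ⟨hw, hwx, ?_, ?_⟩
        · rintro rfl
          exact h2 he
        · rintro rfl
          exact h1 he
  have hdisj : Disjoint (tang A x) (B.image (fun w => nrm (w - x))) := by
    rw [Finset.disjoint_left]
    intro a ha hb
    rw [htm] at ha
    rw [Finset.mem_image] at hb
    obtain ⟨w, hw, he⟩ := hb
    rw [hBm] at hw
    exact ha.2 w hw.1 hw.2.1 he.symm
  have hprod : ∀ v : Pt p, ft A x v * ∏ w ∈ B, dt x w v = (∏ w ∈ B, kp (w - x)) *
      ∏ a ∈ ((dirs p).erase (nrm (y - x))).erase (nrm (z - x)),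
        (a.1 * (v.1 - x.1) + a.2 * (v.2 - x.2)) := by
    intro v
    rw [← hunion, Finset.prod_union hdisj, Finset.prod_image]
    · unfold ft
      have h1 : ∏ w ∈ B, dt x w v = (∏ w ∈ B, kp (w - x)) *
          ∏ w ∈ B, ((nrm (w - x)).1 * (v.1 - x.1) + (nrm (w - x)).2 * (v.2 - x.2)) := by
        rw [← Finset.prod_mul_distrib]
        exact Finset.prod_congr rfl fun w _ => hdt w v
      rw [h1]
      ring
    · intro w hw w' hw' he
      have h1 := (hBm w).1 hw
      have h2 := (hBm w').1 hw'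
      exact hinj w h1.1 w' h2.1 h1.2.1 h2.2.1 he
  have hmain := main (y - x) (z - x) (hv y hxy.symm) (hv z hxz.symm) (by
    have := dt_ne hA hx hy hz hxy hxz hyz
    unfold dt at this
    simpa only [Prod.fst_sub, Prod.snd_sub] using this)
  simp only [Prod.fst_sub, Prod.snd_sub] at hmain
  rw [hprod y, hprod z, hmain]
  ring

end Pool.Agent.Lib.MP_8dbdcc_co.AA
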