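import Pool.Agent.Lib.MP_8dbdcc_co.AA.Spec

/-!
# Pairs of points of a conic which are collinear with a point
-/

set_option autoImplicit false

namespace Pool.Agent.Lib.MP_8dbdcc_co.AA

open MvPolynomial Finset

namespace Pairs_aux

/-- The values of a polynomial of degree at most two. -/
theorem expl {F : Type} [Field F] (q : MvPolynomial (Fin 2) F) (hq : q.totalDegree ≤ 2) :
    ∃ A B C D E G : F, ∀ x y : F, eval ![x, y] q =
      A * x ^ 2 + B * x * y + C * y ^ 2 + D * x + E * y + G := by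
  have h1 : ∀ d ∈ q.support, ∃ A B C D E G : F, ∀ x y : F, eval ![x, y] (monomial d (coeff d q)) =
      A * x ^ 2 + B * x * y + C * y ^ 2 + D * x + E * y + G := by
    intro d hd
    have h2 : d 0 + d 1 ≤ 2 := by
      have h3 := (le_totalDegree hd).trans hq
      rw [Finsupp.sum_fintype _ _ (fun _ => rfl), Fin.sum_univ_two] at h3
      exact h3
    have h4 : ∀ x y : F, eval ![x, y] (monomial d (coeff d q)) =
        coeff d q * (x ^ d 0 * y ^ d 1) := by
      intro x y
      rw [eval_monomial, Finsupp.prod_fintype _ _ (fun _ => pow_zero _), Fin.prod_univ_two]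
      rfl
    set e := coeff d q with he
    set i := d 0 with hi
    set j := d 1 with hj
    have h5 : (i = 0 ∧ j = 0) ∨ (i = 1 ∧ j = 0) ∨ (i = 0 ∧ j = 1) ∨ (i = 2 ∧ j = 0) ∨
        (i = 1 ∧ j = 1) ∨ (i = 0 ∧ j = 2) := by omega
    rcases h5 with ⟨h, h'⟩ | ⟨h, h'⟩ | ⟨h, h'⟩ | ⟨h, h'⟩ | ⟨h, h'⟩ | ⟨h, h'⟩
    · exact ⟨0, 0, 0, 0, 0, e, fun x y => by rw [h4, h, h']; ring⟩
    · exact ⟨0, 0, 0, e, 0, 0, fun x y => by rw [h4, h, h']; ring⟩
    · exact ⟨0, 0, 0, 0, e, 0, fun x y => by rw [h4, h, h']; ring⟩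
    · exact ⟨e, 0, 0, 0, 0, 0, fun x y => by rw [h4, h, h']; ring⟩
    · exact ⟨0, e, 0, 0, 0, 0, fun x y => by rw [h4, h, h']; ring⟩
    · exact ⟨0, 0, e, 0, 0, 0, fun x y => by rw [h4, h, h']; ring⟩
  have h6 : ∃ A B C D E G : F, ∀ x y : F, eval ![x, y] (∑ d ∈ q.support, monomial d (coeff d q)) =
      A * x ^ 2 + B * x * y + C * y ^ 2 + D * x + E * y + G := by
    refine Finset.sum_induction _ (fun f : MvPolynomial (Fin 2) F => ∃ A B C D E G : F,
      ∀ x y : F, eval ![x, y] f = A * x ^ 2 + B * x * y + C * y ^ 2 + D * x + E * y + G) ?_ ?_ h1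
    · rintro f f' ⟨A, B, C, D, E, G, h⟩ ⟨A', B', C', D', E', G', h'⟩
      refine ⟨A + A', B + B', C + C', D + D', E + E', G + G', fun x y => ?_⟩
      rw [map_add, h, h']
      ring
    · exact ⟨0, 0, 0, 0, 0, 0, fun x y => by rw [map_zero]; ring⟩
  rwa [support_sum_monomial_coeff] at h6

variable {p : ℕ} [Fact p.Prime]

/-- The points of an arc on the line through `R` and `y`. -/
theorem line_le {A : Finset (Pt p)} (hA : Arc p A) {R y : Pt p} (hy : y ≠ R) {u v w : Pt p}
    (hu : u ∈ A) (hv : v ∈ A) (hw : w ∈ A) (hu' : dt R y u = 0) (hv' : dt R y v = 0)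
    (hw' : dt R y w = 0) (huv : u ≠ v) (huw : u ≠ w) : v = w := by
  classical
  by_contra hvw
  have h := hA (-(y.2 - R.2)) (y.1 - R.1) (-(y.2 - R.2) * R.1 + (y.1 - R.1) * R.2) (by
    intro h0
    have h1 := congrArg Prod.fst h0
    have h2 := congrArg Prod.snd h0
    simp only at h1 h2
    refine hy (Prod.ext ?_ ?_)
    · exact sub_eq_zero.1 h2
    · exact sub_eq_zero.1 (neg_eq_zero.1 h1))
  have h3 : ({u, v, w} : Finset (Pt p)) ⊆ A.filter (fun q => -(y.2 - R.2) * q.1 +
      (y.1 - R.1) * q.2 = -(y.2 - R.2) * R.1 + (y.1 - R.1) * R.2) := by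
    intro z hz
    simp only [Finset.mem_insert, Finset.mem_singleton] at hz
    rw [Finset.mem_filter]
    rcases hz with rfl | rfl | rfl
    · refine ⟨hu, ?_⟩
      unfold dt at hu'
      linear_combination hu'
    · refine ⟨hv, ?_⟩
      unfold dt at hv'
      linear_combination hv'
    · refine ⟨hw, ?_⟩
      unfold dt at hw'
      linear_combination hw'
  have h4 : ({u, v, w} : Finset (Pt p)).card = 3 := by
    rw [Finset.card_insert_of_notMem, Finset.card_insert_of_notMem, Finset.card_singleton]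
    · rw [Finset.mem_singleton]
      exact hvw
    · simp only [Finset.mem_insert, Finset.mem_singleton, not_or]
      exact ⟨huv, huw⟩
  have h5 := Finset.card_le_card h3
  rw [h4] at h5
  exact absurd (h5.trans h) (by norm_num)

theorem dt_self (R y : Pt p) : dt R y y = 0 := by
  unfold dt
  ring

theorem dt_base (R y : Pt p) : dt R y R = 0 := by
  unfold dt
  ring

theorem dt_swap {R y u : Pt p} (h : dt R y u = 0) : dt R u y = 0 := by
  unfold dt at h ⊢
  linear_combination -h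

/-- All but at most four points have a partner. -/
theorem exc (q : MvPolynomial (Fin 2) (ZMod p)) (Z : Finset (Pt p)) (R : Pt p)
    (hp : p ≠ 2) (hq : q.totalDegree ≤ 2) (hZ : ∀ x, x ∈ Z ↔ eval ![x.1, x.2] q = 0)
    (hA : Arc p Z) (hR : R ∉ Z) [DecidablePred fun y : Pt p => ∃ u ∈ Z, u ≠ y ∧ dt R y u = 0] :
    (Z.filter fun y => ¬ ∃ u ∈ Z, u ≠ y ∧ dt R y u = 0).card ≤ 4 := by
  classical
  obtain ⟨A, B, C, D, E, G, hval⟩ := expl q hq
  set c : ZMod p := eval ![R.1, R.2] q with hc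
  have hc0 : c ≠ 0 := fun h => hR ((hZ R).2 h)
  have h2 : (2 : ZMod p) ≠ 0 := by
    intro h
    have h3 : ((2 : ℕ) : ZMod p) = 0 := by exact_mod_cast h
    rw [ZMod.natCast_eq_zero_iff] at h3
    exact hp ((Nat.prime_dvd_prime_iff_eq (Fact.out : p.Prime) Nat.prime_two).1 h3)
  set l₁ : ZMod p := 2 * A * R.1 + B * R.2 + D with hl₁
  set l₂ : ZMod p := B * R.1 + 2 * C * R.2 + E with hl₂
  have key : ∀ y ∈ Z, (¬ ∃ u ∈ Z, u ≠ y ∧ dt R y u = 0) →
      l₁ * y.1 + l₂ * y.2 = l₁ * R.1 + l₂ * R.2 - c ∨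
      l₁ * y.1 + l₂ * y.2 = l₁ * R.1 + l₂ * R.2 - 2 * c := by
    intro y hy hno
    have hyR : y ≠ R := fun h => hR (h ▸ hy)
    set a : ZMod p := A * (y.1 - R.1) ^ 2 + B * (y.1 - R.1) * (y.2 - R.2) + C * (y.2 - R.2) ^ 2 with ha
    have hy0 := (hZ y).1 hy
    have hsum : a + (l₁ * (y.1 - R.1) + l₂ * (y.2 - R.2)) + c = 0 := by
      rw [hval] at hy0
      rw [ha, hl₁, hl₂, hc, hval]
      linear_combination hy0
    by_cases ha0 : a = 0
    · left
      rw [ha0] at hsum
      linear_combination hsum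
    · by_cases hac : a = c
      · right
        rw [hac] at hsum
        linear_combination hsum
      · exfalso
        refine hno ⟨(R.1 + c / a * (y.1 - R.1), R.2 + c / a * (y.2 - R.2)), ?_, ?_, ?_⟩
        · rw [hZ, hval]
          have h3 : A * (R.1 + c / a * (y.1 - R.1)) ^ 2 + B * (R.1 + c / a * (y.1 - R.1)) *
              (R.2 + c / a * (y.2 - R.2)) + C * (R.2 + c / a * (y.2 - R.2)) ^ 2 +
              D * (R.1 + c / a * (y.1 - R.1)) + E * (R.2 + c / a * (y.2 - R.2)) + G =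
              a * (c / a) ^ 2 + (l₁ * (y.1 - R.1) + l₂ * (y.2 - R.2)) * (c / a) + c := by
            rw [hc, hval, hl₁, hl₂, ha]
            ring
          have h4 : l₁ * (y.1 - R.1) + l₂ * (y.2 - R.2) = -a - c := by
            linear_combination hsum
          simp only
          rw [h3, h4]
          field_simp
          ring
        · intro h
          have h3 := congrArg Prod.fst h
          have h4 := congrArg Prod.snd h
          simp only at h3 h4
          have h5 : (c / a - 1) * (y.1 - R.1) = 0 := by linear_combination h3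
          have h6 : (c / a - 1) * (y.2 - R.2) = 0 := by linear_combination h4
          have h7 : c / a - 1 ≠ 0 := by
            intro h8
            rw [sub_eq_zero, div_eq_one_iff_eq ha0] at h8
            exact hac h8.symm
          refine hyR (Prod.ext ?_ ?_)
          · exact sub_eq_zero.1 ((mul_eq_zero.1 h5).resolve_left h7)
          · exact sub_eq_zero.1 ((mul_eq_zero.1 h6).resolve_left h7)
        · unfold dt
          simp only
          ring
  by_cases hl : (l₁, l₂) = (0, 0)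
  · have h3 : l₁ = 0 := congrArg Prod.fst hl
    have h4 : l₂ = 0 := congrArg Prod.snd hl
    have h5 : (Z.filter fun y => ¬ ∃ u ∈ Z, u ≠ y ∧ dt R y u = 0) = ∅ := by
      rw [Finset.filter_eq_empty_iff]
      intro y hy hno
      rcases key y hy hno with h | h
      · rw [h3, h4] at h
        exact hc0 (by linear_combination h)
      · rw [h3, h4] at h
        exact (mul_ne_zero h2 hc0) (by linear_combination h)
    rw [h5]
    simp
  · have h3 : (Z.filter fun y => ¬ ∃ u ∈ Z, u ≠ y ∧ dt R y u = 0) ⊆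
        (Z.filter fun y => l₁ * y.1 + l₂ * y.2 = l₁ * R.1 + l₂ * R.2 - c) ∪
        (Z.filter fun y => l₁ * y.1 + l₂ * y.2 = l₁ * R.1 + l₂ * R.2 - 2 * c) := by
      intro y hy
      rw [Finset.mem_filter] at hy
      rw [Finset.mem_union, Finset.mem_filter, Finset.mem_filter]
      rcases key y hy.1 hy.2 with h | h
      · exact Or.inl ⟨hy.1, h⟩
      · exact Or.inr ⟨hy.1, h⟩
    refine (Finset.card_le_card h3).trans ((Finset.card_union_le _ _).trans ?_)
    have h4 := hA l₁ l₂ (l₁ * R.1 + l₂ * R.2 - c) hl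
    have h5 := hA l₁ l₂ (l₁ * R.1 + l₂ * R.2 - 2 * c) hl
    omega

end Pairs_aux

open Pairs_aux in
theorem tPairs : S_Pairs := by
  intro p _ q Z Y R hp hq hZ hA hR hYZ
  classical
  have hneR : ∀ y ∈ Z, y ≠ R := fun y hy h => hR (h ▸ hy)
  -- uniqueness of the partner
  have huniq : ∀ y ∈ Z, ∀ u ∈ Z, ∀ v ∈ Z, u ≠ y → dt R y u = 0 → v ≠ y → dt R y v = 0 → u = v := by
    intro y hy u hu v hv h1 h2 h3 h4
    exact line_le hA (hneR y hy) hy hu hv (dt_self R y) h2 h4 (Ne.symm h1) (Ne.symm h3)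
  set P : Finset (Pt p × Pt p) := (Y ×ˢ Y).filter fun z => z.2 ≠ z.1 ∧ dt R z.1 z.2 = 0 with hP
  set π : Finset (Finset (Pt p)) := P.image fun z => {z.1, z.2} with hπ
  have hmem : ∀ t ∈ π, ∃ y ∈ Y, ∃ u ∈ Y, u ≠ y ∧ dt R y u = 0 ∧ t = {y, u} := by
    intro t ht
    obtain ⟨z, hz, rfl⟩ := Finset.mem_image.1 ht
    rw [hP, Finset.mem_filter, Finset.mem_product] at hz
    exact ⟨z.1, hz.1.1, z.2, hz.1.2, hz.2.1, hz.2.2, rfl⟩
  have hcard2 : ∀ t ∈ π, t.card = 2 := by
    intro t ht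
    obtain ⟨y, -, u, -, h1, -, rfl⟩ := hmem t ht
    exact Finset.card_pair (Ne.symm h1)
  refine ⟨π, fun t ht => ⟨?_, hcard2 t ht, ?_⟩, ?_, ?_⟩
  · obtain ⟨y, hy, u, hu, -, -, rfl⟩ := hmem t ht
    intro z hz
    simp only [Finset.mem_insert, Finset.mem_singleton] at hz
    rcases hz with rfl | rfl
    · exact hy
    · exact hu
  · obtain ⟨y, hy, u, hu, h1, h2, rfl⟩ := hmem t ht
    intro K hK hRK hsub
    have hyK : y ∈ K := hsub (by simp)
    have huK : u ∈ K := hsub (by simp)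
    have h3 := line_le hK (hneR y (hYZ hy)) hRK hyK huK (dt_base R y) (dt_self R y) h2
      (Ne.symm (hneR y (hYZ hy))) (Ne.symm (hneR u (hYZ hu)))
    exact h1 h3.symm
  · intro t ht t' ht' htt
    obtain ⟨y, hy, u, hu, h1, h2, rfl⟩ := hmem t ht
    obtain ⟨y', hy', u', hu', h1', h2', rfl⟩ := hmem t' ht'
    rw [Finset.disjoint_left]
    intro z hz hz'
    simp only [Finset.mem_insert, Finset.mem_singleton] at hz hz'
    apply htt
    rcases hz with rfl | rfl
    · rcases hz' with rfl | rfl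
      · rw [huniq z (hYZ hy) u (hYZ hu) u' (hYZ hu') h1 h2 h1' h2']
      · rw [huniq z (hYZ hy) u (hYZ hu) y' (hYZ hy') h1 h2 (Ne.symm h1') (dt_swap h2')]
        exact Finset.pair_comm _ _
    · rcases hz' with rfl | rfl
      · rw [huniq z (hYZ hu) y (hYZ hy) u' (hYZ hu') (Ne.symm h1) (dt_swap h2) h1' h2']
        exact Finset.pair_comm _ _
      · rw [huniq z (hYZ hu) y (hYZ hy) y' (hYZ hy') (Ne.symm h1) (dt_swap h2) (Ne.symm h1')
          (dt_swap h2')]
  · -- counting
    set Y' : Finset (Pt p) := Y.filter fun y => ∃ u ∈ Y, u ≠ y ∧ dt R y u = 0 with hY'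
    have hc1 : Y'.card ≤ 2 * π.card := by
      have h3 : Y' ⊆ π.biUnion id := by
        intro y hy
        rw [hY', Finset.mem_filter] at hy
        obtain ⟨hy, u, hu, h1, h2⟩ := hy
        rw [Finset.mem_biUnion]
        refine ⟨{y, u}, ?_, by simp⟩
        rw [hπ, Finset.mem_image]
        refine ⟨(y, u), ?_, rfl⟩
        rw [hP, Finset.mem_filter, Finset.mem_product]
        exact ⟨⟨hy, hu⟩, h1, h2⟩
      refine (Finset.card_le_card h3).trans (Finset.card_biUnion_le.trans ?_)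
      have h4 : ∑ t ∈ π, (id t).card = ∑ _t ∈ π, 2 := Finset.sum_congr rfl fun t ht => hcard2 t ht
      rw [h4, Finset.sum_const, smul_eq_mul, mul_comm]
    have hc2 := exc q Z R hp hq hZ hA hR
    set Bd : Finset (Pt p) := Z.filter fun y => ¬ ∃ u ∈ Z, u ≠ y ∧ dt R y u = 0 with hBd
    set M : Finset (Pt p) := (Y \ Y') \ Bd with hM
    have hMex : ∀ y ∈ M, ∃ u, u ∈ Z \ Y ∧ u ≠ y ∧ dt R y u = 0 := by
      intro y hy
      rw [hM, Finset.mem_sdiff, Finset.mem_sdiff] at hy
      obtain ⟨⟨hyY, hyY'⟩, hyB⟩ := hy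
      have hyZ := hYZ hyY
      rw [hBd, Finset.mem_filter, not_and, not_not] at hyB
      obtain ⟨u, huZ, h1, h2⟩ := hyB hyZ
      refine ⟨u, Finset.mem_sdiff.2 ⟨huZ, fun huY => hyY' ?_⟩, h1, h2⟩
      rw [hY', Finset.mem_filter]
      exact ⟨hyY, u, huY, h1, h2⟩
    choose! f hf hf1 hf2 using hMex
    have hMY : ∀ y ∈ M, y ∈ Z := fun y hy => by
      rw [hM, Finset.mem_sdiff, Finset.mem_sdiff] at hy
      exact hYZ hy.1.1
    have hc3 : M.card ≤ (Z \ Y).card := by
      refine Finset.card_le_card_of_injOn f (fun y hy => hf y hy) ?_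
      intro y hy y' hy' hyy
      have hfy : f y ∈ Z := (Finset.mem_sdiff.1 (hf y hy)).1
      refine huniq (f y) hfy y (hMY y hy) y' (hMY y' hy') (Ne.symm (hf1 y hy)) (dt_swap (hf2 y hy)) ?_ ?_
      · rw [hyy]
        exact Ne.symm (hf1 y' hy')
      · rw [hyy]
        exact dt_swap (hf2 y' hy')
    have hc4 : (Z \ Y).card = Z.card - Y.card := Finset.card_sdiff_of_subset hYZ
    have hc5 : Y.card ≤ Z.card := Finset.card_le_card hYZ
    have hc6 : Y ⊆ Y' ∪ (M ∪ Bd) := by
      intro y hy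
      rw [Finset.mem_union, Finset.mem_union]
      by_cases h1 : y ∈ Y'
      · exact Or.inl h1
      · by_cases h2 : y ∈ Bd
        · exact Or.inr (Or.inr h2)
        · refine Or.inr (Or.inl ?_)
          rw [hM, Finset.mem_sdiff, Finset.mem_sdiff]
          exact ⟨⟨hy, h1⟩, h2⟩
    have hc7 := (Finset.card_le_card hc6).trans ((Finset.card_union_le _ _).trans
      (Nat.add_le_add_left (Finset.card_union_le _ _) _))
    omega

end Pool.Agent.Lib.MP_8dbdcc_co.AA
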