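import Pool.Agent.Lib.MP_8dbdcc_co.AA.Spec

/-!
# The forms `phi` on the dual lines
-/

set_option autoImplicit false

namespace Pool.Agent.Lib.MP_8dbdcc_co.AA

open MvPolynomial Finset

namespace Phi_aux

variable {p : ℕ} [Fact p.Prime]

/-- `a · u` -/
noncomputable def sa (w : Fin 2 → KK p) (x a : Pt p) : KK p :=
  algebraMap (ZMod p) (KK p) a.1 * ux w x 0 + algebraMap (ZMod p) (KK p) a.2 * ux w x 1

/-- the root -/
noncomputable def ta (w : Fin 2 → KK p) (x a : Pt p) : KK p :=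
  -(algebraMap (ZMod p) (KK p) a.2 * (ux w x 0)⁻¹) * (sa w x a)⁻¹

theorem u0_ne {w : Fin 2 → KK p} (hw : Indep w) (x : Pt p) : ux w x 0 ≠ 0 := by
  intro h
  have h1 : algebraMap (ZMod p) (KK p) x.1 - w 0 = 0 := by simpa [ux] using h
  have h2 := hw 1 0 (-x.1) (by
    rw [map_one, map_zero, map_neg]
    linear_combination -h1)
  exact one_ne_zero h2.1

theorem sa_ne {w : Fin 2 → KK p} (hw : Indep w) (x a : Pt p) (ha : a ∈ dirs p) : sa w x a ≠ 0 := by
  intro h
  have h1 : algebraMap (ZMod p) (KK p) a.1 * (algebraMap (ZMod p) (KK p) x.1 - w 0) +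
      algebraMap (ZMod p) (KK p) a.2 * (algebraMap (ZMod p) (KK p) x.2 - w 1) = 0 := by
    simpa [sa, ux] using h
  have h2 := hw a.1 a.2 (-(a.1 * x.1 + a.2 * x.2)) (by
    rw [map_neg, map_add, map_mul, map_mul]
    linear_combination -h1)
  rcases Finset.mem_union.1 ha with h3 | h3
  · obtain ⟨s, -, rfl⟩ := Finset.mem_image.1 h3
    exact one_ne_zero h2.1
  · rw [Finset.mem_singleton] at h3
    subst h3
    exact one_ne_zero h2.2.1

theorem dual {w : Fin 2 → KK p} (hw : Indep w) (x a : Pt p) (ha : a ∈ dirs p) :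
    DualPt w x a (Rb (ux w x) + ta w x a • Jd (ux w x)) := by
  have hs : sa w x a ≠ 0 := sa_ne hw x a ha
  have hu : ux w x 0 ≠ 0 := u0_ne hw x
  have hsd : algebraMap (ZMod p) (KK p) a.1 * ux w x 0 + algebraMap (ZMod p) (KK p) a.2 * ux w x 1
      = sa w x a := rfl
  refine ⟨hs, ?_, ?_⟩
  · rw [hsd]
    have h1 : (Rb (ux w x) + ta w x a • Jd (ux w x)) 0 =
        -(ux w x 0)⁻¹ + ta w x a * (-(ux w x 1)) := by
      simp [Rb, Jd]
    rw [h1, ta]
    have h2 : (-(ux w x 0)⁻¹ + -(algebraMap (ZMod p) (KK p) a.2 * (ux w x 0)⁻¹) * (sa w x a)⁻¹ *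
        -(ux w x 1)) * sa w x a = (ux w x 0)⁻¹ * (-(sa w x a) +
          algebraMap (ZMod p) (KK p) a.2 * ux w x 1 * ((sa w x a)⁻¹ * sa w x a)) := by ring
    rw [h2, inv_mul_cancel₀ hs, ← hsd]
    have h3 : (ux w x 0)⁻¹ * (-(algebraMap (ZMod p) (KK p) a.1 * ux w x 0 +
        algebraMap (ZMod p) (KK p) a.2 * ux w x 1) +
        algebraMap (ZMod p) (KK p) a.2 * ux w x 1 * 1) =
        -(algebraMap (ZMod p) (KK p) a.1) * ((ux w x 0)⁻¹ * ux w x 0) := by ring
    rw [h3, inv_mul_cancel₀ hu, mul_one]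
  · rw [hsd]
    have h1 : (Rb (ux w x) + ta w x a • Jd (ux w x)) 1 = ta w x a * ux w x 0 := by
      simp [Rb, Jd]
    rw [h1, ta]
    have h2 : -(algebraMap (ZMod p) (KK p) a.2 * (ux w x 0)⁻¹) * (sa w x a)⁻¹ * ux w x 0 *
        sa w x a = -(algebraMap (ZMod p) (KK p) a.2) * ((ux w x 0)⁻¹ * ux w x 0) *
          ((sa w x a)⁻¹ * sa w x a) := by ring
    rw [h2, inv_mul_cancel₀ hu, inv_mul_cancel₀ hs, mul_one, mul_one]

theorem ta_inj {w : Fin 2 → KK p} (hw : Indep w) (x a b : Pt p) (ha : a ∈ dirs p)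
    (hb : b ∈ dirs p) (h : ta w x a = ta w x b) : a = b := by
  obtain ⟨ha0, ha1, ha2⟩ := dual hw x a ha
  obtain ⟨hb0, hb1, hb2⟩ := dual hw x b hb
  rw [← h] at hb1 hb2
  set Q := Rb (ux w x) + ta w x a • Jd (ux w x)
  have hinj := (algebraMap (ZMod p) (KK p)).injective
  rcases Finset.mem_union.1 ha with h3 | h3 <;> rcases Finset.mem_union.1 hb with h4 | h4
  · obtain ⟨s, -, rfl⟩ := Finset.mem_image.1 h3
    obtain ⟨r, -, rfl⟩ := Finset.mem_image.1 h4
    simp only [map_one, one_mul] at ha0 ha1 ha2 hb0 hb1 hb2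
    have hQ : Q 0 ≠ 0 := by
      intro h0
      rw [h0, zero_mul] at ha1
      exact one_ne_zero (neg_eq_zero.1 ha1.symm)
    have h5 := mul_left_cancel₀ hQ (ha1.trans hb1.symm)
    rw [h5] at ha2
    have h6 := neg_injective (ha2.symm.trans hb2)
    rw [hinj h6]
  · obtain ⟨s, -, rfl⟩ := Finset.mem_image.1 h3
    rw [Finset.mem_singleton] at h4
    subst h4
    exfalso
    simp only [map_one, map_zero, one_mul, zero_mul, zero_add, neg_zero] at ha0 ha1 ha2 hb0 hb1 hb2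
    rcases mul_eq_zero.1 hb1 with h5 | h5
    · rw [h5, zero_mul] at ha1
      exact one_ne_zero (neg_eq_zero.1 ha1.symm)
    · exact hb0 h5
  · obtain ⟨s, -, rfl⟩ := Finset.mem_image.1 h4
    rw [Finset.mem_singleton] at h3
    subst h3
    exfalso
    simp only [map_one, map_zero, one_mul, zero_mul, zero_add, neg_zero] at ha0 ha1 ha2 hb0 hb1 hb2
    rcases mul_eq_zero.1 ha1 with h5 | h5
    · rw [h5, zero_mul] at hb1
      exact one_ne_zero (neg_eq_zero.1 hb1.symm)
    · exact ha0 h5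
  · rw [Finset.mem_singleton] at h3 h4
    rw [h3, h4]

theorem res_lin {w : Fin 2 → KK p} (hw : Indep w) (x a : Pt p) (ha : a ∈ dirs p) :
    res (ux w x) (C (algebraMap (ZMod p) (KK p) a.1) * X 1 -
      C (algebraMap (ZMod p) (KK p) a.2) * X 0) =
    Polynomial.C (sa w x a) * (Polynomial.X - Polynomial.C (ta w x a)) := by
  have hs : sa w x a ≠ 0 := sa_ne hw x a ha
  have h1 : res (ux w x) (C (algebraMap (ZMod p) (KK p) a.1) * X 1 -
      C (algebraMap (ZMod p) (KK p) a.2) * X 0) =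
      Polynomial.C (algebraMap (ZMod p) (KK p) a.1) *
        (Polynomial.C (Rb (ux w x) 1) + Polynomial.C (Jd (ux w x) 1) * Polynomial.X) -
      Polynomial.C (algebraMap (ZMod p) (KK p) a.2) *
        (Polynomial.C (Rb (ux w x) 0) + Polynomial.C (Jd (ux w x) 0) * Polynomial.X) := by
    rw [res, map_sub, map_mul, map_mul, aeval_C, aeval_C, aeval_X, aeval_X]
    rfl
  have h2 : Rb (ux w x) 1 = 0 := rfl
  have h3 : Rb (ux w x) 0 = -(ux w x 0)⁻¹ := rfl
  have h4 : Jd (ux w x) 1 = ux w x 0 := rfl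
  have h5 : Jd (ux w x) 0 = -(ux w x 1) := rfl
  have h6 : sa w x a * ta w x a = -(algebraMap (ZMod p) (KK p) a.2 * (ux w x 0)⁻¹) := by
    rw [ta]
    have h7 : sa w x a * (-(algebraMap (ZMod p) (KK p) a.2 * (ux w x 0)⁻¹) * (sa w x a)⁻¹) =
      -(algebraMap (ZMod p) (KK p) a.2 * (ux w x 0)⁻¹) * (sa w x a * (sa w x a)⁻¹) := by ring
    rw [h7, mul_inv_cancel₀ hs, mul_one]
  rw [h1, h2, h3, h4, h5, mul_sub, ← Polynomial.C_mul, h6, sa]
  simp only [map_zero, map_neg, map_mul, map_add]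
  ring

open Classical in
theorem res_phi {w : Fin 2 → KK p} (hw : Indep w) (x : Pt p) (c : ZMod p) (T : Finset (Pt p))
    (hT : T ⊆ dirs p) :
    res (ux w x) (phi c T) =
      Polynomial.C (algebraMap (ZMod p) (KK p) c * ∏ a ∈ T, sa w x a) *
        ∏ t ∈ T.image (ta w x), (Polynomial.X - Polynomial.C t) := by
  classical
  have h1 : res (ux w x) (C (algebraMap (ZMod p) (KK p) c)) =
      Polynomial.C (algebraMap (ZMod p) (KK p) c) := by
    rw [res, aeval_C]
    rfl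
  rw [phi, map_mul, h1, map_prod,
    Finset.prod_congr rfl (fun a ha => res_lin hw x a (hT ha)), Finset.prod_mul_distrib,
    Finset.prod_image (fun a ha b hb h => ta_inj hw x a b (hT ha) (hT hb) h),
    Polynomial.C_mul, map_prod, mul_assoc]

end Phi_aux

open Phi_aux in
theorem tPhi : S_Res → S_Phi := by
  intro _ p _ w x T c hw hT hc
  classical
  have hcc : algebraMap (ZMod p) (KK p) c * ∏ a ∈ T, sa w x a ≠ 0 := by
    refine mul_ne_zero ?_ (Finset.prod_ne_zero_iff.2 fun a ha => sa_ne hw x a (hT ha))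
    rw [Ne, map_eq_zero]
    exact hc
  have hmon : (∏ t ∈ T.image (ta w x), (Polynomial.X - Polynomial.C t) : Polynomial (KK p)).Monic :=
    Polynomial.monic_prod_of_monic _ _ fun t _ => Polynomial.monic_X_sub_C t
  have hcard : (T.image (ta w x)).card = T.card :=
    Finset.card_image_of_injOn fun a ha b hb h => ta_inj hw x a b (hT ha) (hT hb) h
  refine ⟨u0_ne hw x, ?_, ?_, ?_, ?_⟩
  · rw [res_phi hw x c T hT, Polynomial.natDegree_C_mul hcc,
      Polynomial.natDegree_finsetProd_X_sub_C_eq_card, hcard]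
  · rw [res_phi hw x c T hT]
    exact mul_ne_zero (by rwa [Ne, Polynomial.C_eq_zero]) hmon.ne_zero
  · intro τ
    rw [res_phi hw x c T hT, ← Polynomial.count_roots, Polynomial.roots_C_mul _ hcc,
      Polynomial.roots_prod_X_sub_C]
    exact Multiset.nodup_iff_count_le_one.1 (T.image (ta w x)).nodup τ
  · intro τ hτ
    rw [res_phi hw x c T hT, Polynomial.IsRoot.def, Polynomial.eval_mul, Polynomial.eval_C,
      Polynomial.eval_prod] at hτ
    rcases mul_eq_zero.1 hτ with h | h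
    · exact absurd h hcc
    · obtain ⟨t, ht, h1⟩ := Finset.prod_eq_zero_iff.1 h
      obtain ⟨a, ha, rfl⟩ := Finset.mem_image.1 ht
      rw [Polynomial.eval_sub, Polynomial.eval_X, Polynomial.eval_C, sub_eq_zero] at h1
      rw [h1]
      exact ⟨a, ha, dual hw x a (hT ha)⟩

end Pool.Agent.Lib.MP_8dbdcc_co.AA
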