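import Pool.Agent.Lib.MP_8dbdcc_co.AA.Spec

/-!
# Restriction to a line
-/

set_option autoImplicit false

namespace Pool.Agent.Lib.MP_8dbdcc_co.AA

open MvPolynomial Finset

namespace Res_aux

variable {K : Type} [Field K]

/-- The section. -/
noncomputable def sec (u : Fin 2 → K) : Polynomial K →ₐ[K] Pl K :=
  Polynomial.aeval (C (u 0)⁻¹ * X 1)

theorem res_X0 (u : Fin 2 → K) :
    res u (X 0) = Polynomial.C (-(u 0)⁻¹) + Polynomial.C (-(u 1)) * Polynomial.X := by
  simp [res, Rb, Jd]

theorem res_X1 (u : Fin 2 → K) : res u (X 1) = Polynomial.C (u 0) * Polynomial.X := by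
  simp [res, Rb, Jd]

theorem res_C (u : Fin 2 → K) (a : K) : res u (C a) = Polynomial.C a := by
  unfold res
  rw [aeval_C]
  rfl

theorem sec_X (u : Fin 2 → K) : sec u Polynomial.X = C (u 0)⁻¹ * X 1 := by
  unfold sec
  rw [Polynomial.aeval_X]

theorem sec_C (u : Fin 2 → K) (a : K) : sec u (Polynomial.C a) = C a := by
  unfold sec
  rw [Polynomial.aeval_C]
  rfl

theorem res_LF (u : Fin 2 → K) (hu : u 0 ≠ 0) : res u (LF u) = 0 := by
  unfold LF
  rw [map_add, map_add, map_mul, map_mul, res_X0, res_X1, res_C, res_C, map_one]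
  have h1 : Polynomial.C (u 0) * Polynomial.C (u 0)⁻¹ = (1 : Polynomial K) := by
    rw [← Polynomial.C_mul, mul_inv_cancel₀ hu, Polynomial.C_1]
  rw [Polynomial.C_neg, Polynomial.C_neg]
  linear_combination -h1

theorem res_sec (u : Fin 2 → K) (hu : u 0 ≠ 0) (q : Polynomial K) : res u (sec u q) = q := by
  have h : (res u).comp (sec u) = AlgHom.id K (Polynomial K) := by
    apply Polynomial.algHom_ext
    rw [AlgHom.comp_apply, sec_X, map_mul, res_C, res_X1, AlgHom.id_apply, ← mul_assoc,
      ← Polynomial.C_mul, inv_mul_cancel₀ hu, Polynomial.C_1, one_mul]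
  exact DFunLike.congr_fun h q

theorem sec_res (u : Fin 2 → K) (hu : u 0 ≠ 0) (f : Pl K) : LF u ∣ f - sec u (res u f) := by
  induction f using MvPolynomial.induction_on with
  | C a => rw [res_C, sec_C, sub_self]; exact dvd_zero _
  | add p q hp hq =>
    have h : p + q - sec u (res u (p + q)) =
        (p - sec u (res u p)) + (q - sec u (res u q)) := by
      rw [map_add, map_add]
      ring
    rw [h]
    exact dvd_add hp hq
  | mul_X p i hp =>
    have h : p * X i - sec u (res u (p * X i)) =
        (p - sec u (res u p)) * X i + sec u (res u p) * (X i - sec u (res u (X i))) := by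
      rw [map_mul, map_mul]
      ring
    rw [h]
    refine dvd_add (Dvd.dvd.mul_right hp _) (Dvd.dvd.mul_left ?_ _)
    fin_cases i
    · refine ⟨C (u 0)⁻¹, ?_⟩
      change (X 0 : Pl K) - sec u (res u (X 0)) = LF u * C (u 0)⁻¹
      rw [res_X0, map_add, map_mul, sec_C, sec_C, sec_X]
      unfold LF
      have h1 : C (u 0) * C (u 0)⁻¹ = (1 : Pl K) := by
        rw [← C_mul, mul_inv_cancel₀ hu, C_1]
      rw [C_neg, C_neg]
      linear_combination -(X 0 : Pl K) * h1
    · change LF u ∣ (X 1 : Pl K) - sec u (res u (X 1))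
      rw [res_X1, map_mul, sec_C, sec_X, ← mul_assoc, ← C_mul, mul_inv_cancel₀ hu, C_1, one_mul,
        sub_self]
      exact dvd_zero _

theorem sec_deg (u : Fin 2 → K) (q : Polynomial K) : (sec u q).totalDegree ≤ q.natDegree := by
  unfold sec
  rw [Polynomial.aeval_eq_sum_range]
  apply totalDegree_finsetSum_le
  intro i hi
  have hi' : i ≤ q.natDegree := by
    have := Finset.mem_range.mp hi
    omega
  refine (totalDegree_smul_le _ _).trans ((totalDegree_pow _ _).trans ?_)
  have h1 : (C (u 0)⁻¹ * X 1 : Pl K).totalDegree ≤ 1 := by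
    refine (totalDegree_mul _ _).trans ?_
    rw [totalDegree_C, totalDegree_X, zero_add]
  calc i * (C (u 0)⁻¹ * X 1 : Pl K).totalDegree ≤ i * 1 := Nat.mul_le_mul_left i h1
    _ ≤ q.natDegree := by rw [mul_one]; exact hi'

theorem res_eval (u : Fin 2 → K) (f : Pl K) (τ : K) :
    (res u f).eval τ = eval (Rb u + τ • Jd u) f := by
  have h : (Polynomial.aeval τ).comp (res u) =
      (MvPolynomial.aeval (Rb u + τ • Jd u) : Pl K →ₐ[K] K) := by
    apply MvPolynomial.algHom_ext
    intro i
    rw [AlgHom.comp_apply, aeval_X]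
    unfold res
    rw [aeval_X, map_add, map_mul, Polynomial.aeval_C, Polynomial.aeval_C, Polynomial.aeval_X]
    simp only [Pi.add_apply, Pi.smul_apply, smul_eq_mul, Algebra.algebraMap_self, RingHom.id_apply]
    ring
  have h2 := DFunLike.congr_fun h f
  rw [AlgHom.comp_apply, Polynomial.coe_aeval_eq_eval] at h2
  rw [h2]
  rfl

theorem res_deg (u : Fin 2 → K) (f : Pl K) : (res u f).natDegree ≤ f.totalDegree := by
  have h := MvPolynomial.aeval_natDegree_le f le_rfl
    (fun i => Polynomial.C (Rb u i) + Polynomial.C (Jd u i) * Polynomial.X) (n := 1) (by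
      intro i
      refine (Polynomial.natDegree_add_le _ _).trans ?_
      rw [Polynomial.natDegree_C]
      refine max_le (Nat.zero_le _) ?_
      refine (Polynomial.natDegree_mul_le).trans ?_
      rw [Polynomial.natDegree_C, Polynomial.natDegree_X])
  rw [mul_one] at h
  exact h

end Res_aux

open Res_aux in
theorem tRes : S_Res := by
  intro K _ u hu
  refine ⟨fun f => ⟨fun h => ?_, ?_⟩, res_deg u, res_eval u, ?_, ?_, ?_, ?_⟩
  · have h1 := sec_res u hu f
    rw [h, map_zero, sub_zero] at h1
    exact h1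
  · rintro ⟨c, rfl⟩
    rw [map_mul, res_LF u hu, zero_mul]
  · intro τ
    rw [← res_eval, res_LF u hu, Polynomial.eval_zero]
  · intro Q hQ
    have h1 : u 0 * Q 0 + u 1 * Q 1 + 1 = 0 := by
      unfold LF at hQ
      simpa using hQ
    refine ⟨Q 1 / u 0, ?_⟩
    funext i
    fin_cases i
    · simp only [Fin.zero_eta, Fin.isValue, Rb, Jd, Pi.add_apply, Pi.smul_apply,
        Matrix.cons_val_zero, smul_eq_mul]
      field_simp
      linear_combination h1
    · simp only [Fin.mk_one, Fin.isValue, Rb, Jd, Pi.add_apply, Pi.smul_apply,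
        Matrix.cons_val_one, Matrix.cons_val_fin_one, smul_eq_mul]
      field_simp
      ring
  · intro τ τ' h
    have h1 := congrFun h 1
    simp only [Fin.isValue, Rb, Jd, Pi.add_apply, Pi.smul_apply,
        Matrix.cons_val_one, Matrix.cons_val_fin_one, smul_eq_mul, zero_add] at h1
    exact mul_right_cancel₀ hu h1
  · intro q
    exact ⟨sec u q, sec_deg u q, res_sec u hu q⟩

end Pool.Agent.Lib.MP_8dbdcc_co.AA
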