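import Pool.Agent.Lib.MP_8dbdcc_co.AA.Spec

/-!
# Stöhr-Voloch for conics
-/

set_option autoImplicit false

namespace Pool.Agent.Lib.MP_8dbdcc_co.AA

open MvPolynomial Finset

theorem tSV : S_CntD → S_FvD → S_FvV → S_Fn → S_SV := by
  intro hCnt hD hV hF K _ _ p _ _ g β S hg h3 hp hS
  have h1 := hCnt K p g (FF p β g) S 5 (by omega) hg (hF K p g β hg h3 hp)
    (fun Q hQ => (hS Q hQ).1) (fun Q hQ i hi => hV K p g β Q (hS Q hQ).2 i hi)
  have h2 := hD K p g β (by omega)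
  exact h1.trans (Nat.mul_le_mul_left _ h2)

end Pool.Agent.Lib.MP_8dbdcc_co.AA

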