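import Pool.Agent.Lib.MP_8dbdcc_co.AA.Spec
import Pool.Agent.Lib.MP_214199_co.Eff.Bezout

/-!
# Singular points
-/

set_option autoImplicit false

namespace Pool.Agent.Lib.MP_8dbdcc_co.AA

open MvPolynomial Finset

namespace Sg_aux

theorem totalDegree_pderiv_le {K : Type} [Field K] (i : Fin 2) (g : Pl K) :
    (pderiv i g).totalDegree ≤ g.totalDegree := by
  conv_lhs => rw [g.as_sum]
  rw [map_sum]
  refine totalDegree_finsetSum_le fun s hs => ?_
  rw [pderiv_monomial]
  refine (totalDegree_monomial_le _ _).trans ((?_ : _ ≤ _).trans (le_totalDegree hs))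
  rw [Finsupp.sum_fintype _ _ (fun _ => rfl), Finsupp.sum_fintype _ _ (fun _ => rfl)]
  refine Finset.sum_le_sum fun j _ => ?_
  simp

end Sg_aux

theorem tSg : S_Null → S_Sg := by
  intro hN K _ _ p _ _ g S hg hd hS
  have key : ∀ i : Fin 2, ¬ g ∣ pderiv i g → S.card ≤ g.totalDegree * g.totalDegree := by
    intro i hi
    refine (Pool.Agent.Lib.MP_214199_co.Eff.bezout g (pderiv i g) hg hi S ?_).trans
      (Nat.mul_le_mul_left _ (Sg_aux.totalDegree_pderiv_le i g))
    intro Q hQ
    obtain ⟨h1, h2⟩ := hS Q hQ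
    refine ⟨h1, ?_⟩
    by_contra h3
    apply h2
    refine ⟨h1, ?_⟩
    fin_cases i
    · exact Or.inl h3
    · exact Or.inr h3
  rcases (hN K p g hg).2 hd with h | h
  · exact key 0 h
  · exact key 1 h

end Pool.Agent.Lib.MP_8dbdcc_co.AA
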