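import Pool.Agent.Lib.MP_8dbdcc_co.AA.Spec

set_option autoImplicit false

namespace Pool.Agent.Lib.MP_8dbdcc_co.AA

open MvPolynomial Finset

private lemma am_pow {p : ℕ} [Fact p.Prime] (a : ZMod p) :
    (algebraMap (ZMod p) (KK p) a) ^ p = algebraMap (ZMod p) (KK p) a := by
  rw [← map_pow, ZMod.pow_card]

private lemma kk_charP (p : ℕ) [Fact p.Prime] : CharP (KK p) p :=
  charP_of_injective_algebraMap (algebraMap (ZMod p) (KK p)).injective p

theorem tSpc : S_Spc := by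
  intro p hp w x a Q hQ
  have : CharP (KK p) p := kk_charP p
  obtain ⟨hs, h0, h1⟩ := hQ
  have hux0 : ux w x 0 = algebraMap (ZMod p) (KK p) x.1 - w 0 := by simp [ux]
  have hux1 : ux w x 1 = algebraMap (ZMod p) (KK p) x.2 - w 1 := by simp [ux]
  rw [hux0, hux1] at hs h0 h1
  set s : KK p := algebraMap (ZMod p) (KK p) a.1 * (algebraMap (ZMod p) (KK p) x.1 - w 0) +
    algebraMap (ZMod p) (KK p) a.2 * (algebraMap (ZMod p) (KK p) x.2 - w 1) with hsd
  have hsp : s ^ p = s + algebraMap (ZMod p) (KK p) a.1 * (w 0 - w 0 ^ p) +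
      algebraMap (ZMod p) (KK p) a.2 * (w 1 - w 1 ^ p) := by
    rw [hsd, add_pow_char, mul_pow, mul_pow, sub_pow_char, sub_pow_char, am_pow, am_pow, am_pow,
      am_pow]
    ring
  have hneg : ∀ b : ZMod p, (- algebraMap (ZMod p) (KK p) b) ^ p =
      - algebraMap (ZMod p) (KK p) b := by
    intro b
    rw [← map_neg, am_pow]
  have g0 : (Q 0) ^ p * s ^ p = - algebraMap (ZMod p) (KK p) a.1 := by
    rw [← mul_pow, h0, hneg]
  have g1 : (Q 1) ^ p * s ^ p = - algebraMap (ZMod p) (KK p) a.2 := by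
    rw [← mul_pow, h1, hneg]
  have hspne : s ^ p ≠ 0 := pow_ne_zero _ hs
  have key : (1 + (w 0 - w 0 ^ p) * (Q 0) ^ p + (w 1 - w 1 ^ p) * (Q 1) ^ p) * s ^ p = s := by
    have e : (1 + (w 0 - w 0 ^ p) * (Q 0) ^ p + (w 1 - w 1 ^ p) * (Q 1) ^ p) * s ^ p =
      s ^ p + (w 0 - w 0 ^ p) * ((Q 0) ^ p * s ^ p) + (w 1 - w 1 ^ p) * ((Q 1) ^ p * s ^ p) := by
      ring
    rw [e, g0, g1, hsp]
    ring
  have fin : ∀ q b : KK p, q ^ p * s ^ p = - b → q * s = - b →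
      q ^ p = (1 + (w 0 - w 0 ^ p) * (Q 0) ^ p + (w 1 - w 1 ^ p) * (Q 1) ^ p) * q := by
    intro q b e1 e2
    apply mul_right_cancel₀ hspne
    calc q ^ p * s ^ p = q * s := by rw [e1, e2]
      _ = q * ((1 + (w 0 - w 0 ^ p) * (Q 0) ^ p + (w 1 - w 1 ^ p) * (Q 1) ^ p) * s ^ p) := by
          rw [key]
      _ = _ := by ring
  intro i
  fin_cases i
  · exact fin (Q 0) _ g0 h0
  · exact fin (Q 1) _ g1 h1

end Pool.Agent.Lib.MP_8dbdcc_co.AA
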