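import Pool.Agent.Lib.MP_8dbdcc_co.AA.Spec

/-!
# The theorem of Voloch with the constant `0.99`
-/

set_option autoImplicit false

namespace Pool.Agent.Lib.MP_8dbdcc_co.AA

open MvPolynomial Finset

namespace Vol_aux

/-- The points of the line `LF u = 0` which are zeros of `g`. -/
noncomputable def Sx {K : Type} [Field K] (u : Fin 2 → K) (g : Pl K) : Finset (Fin 2 → K) := by
  classical
  exact (res u g).roots.toFinset.image fun τ => Rb u + τ • Jd u

theorem mem_Sx {K : Type} [Field K] {u : Fin 2 → K} {g : Pl K} {Q : Fin 2 → K} :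
    Q ∈ Sx u g ↔ ∃ τ, τ ∈ (res u g).roots ∧ Rb u + τ • Jd u = Q := by
  classical
  simp [Sx]

theorem card_Sx {K : Type} [Field K] [IsAlgClosed K] (hRes : S_Res) {u : Fin 2 → K} {g : Pl K}
    (hu : u 0 ≠ 0) (hd : (res u g).natDegree = 2) :
    2 ≤ (Sx u g).card ∨ (1 ≤ (Sx u g).card ∧ ∃ τ, 2 ≤ (res u g).rootMultiplicity τ) := by
  classical
  obtain ⟨-, -, -, -, -, hinj, -⟩ := hRes K u hu
  have h1 : (Sx u g).card = (res u g).roots.toFinset.card := by
    unfold Sx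
    exact Finset.card_image_of_injective _ fun τ τ' h => hinj τ τ' h
  have h2 : (res u g).roots.card = 2 :=
    (IsAlgClosed.splits (res u g)).natDegree_eq_card_roots.symm.trans hd
  by_cases hn : (res u g).roots.Nodup
  · left
    rw [h1, Multiset.toFinset_card_of_nodup hn, h2]
  · right
    refine ⟨?_, ?_⟩
    · rw [h1, Nat.one_le_iff_ne_zero, Finset.card_ne_zero]
      obtain ⟨a, ha⟩ : ∃ a, a ∈ (res u g).roots :=
        Multiset.card_pos_iff_exists_mem.mp (by omega)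
      exact ⟨a, Multiset.mem_toFinset.mpr ha⟩
    · rw [Multiset.nodup_iff_count_le_one] at hn
      push Not at hn
      obtain ⟨τ, hτ⟩ := hn
      exact ⟨τ, by rw [← Polynomial.count_roots]; omega⟩

end Vol_aux

open Vol_aux in
theorem tVol : S_Res → S_Curve → S_C2 → S_Disc → S_Desc → S_Vol := by
  classical
  intro hRes hCurve hC2 hDisc hDesc p _ A hp hArc hA
  obtain ⟨w, g, hw, hg, hg2, h1, h2⟩ := hCurve p A hp hArc hA
  have h20 : (2 : KK p) ≠ 0 := by
    intro h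
    have h3 : ((2 : ℕ) : KK p) = 0 := by exact_mod_cast h
    rw [CharP.cast_eq_zero_iff (KK p) p 2] at h3
    have := Nat.le_of_dvd (by norm_num) h3
    omega
  obtain ⟨q, hq0, hqd, hq⟩ := hDisc (KK p) g h20 hg hg2
  obtain ⟨q0, hq00, hq0d, hq0e⟩ := hDesc p w q hq0 hqd
  refine ⟨q0, hq00, hq0d, ?_⟩
  have hon : ∀ x ∈ A, ∀ Q ∈ Sx (ux w x) g, eval Q (LF (ux w x)) = 0 ∧ eval Q g = 0 ∧
      ∃ a ∈ dirs p, DualPt w x a Q := by
    intro x hx Q hQ
    obtain ⟨hu, hd, hr⟩ := h1 x hx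
    obtain ⟨-, -, hev, hL, -, -, -⟩ := hRes (KK p) (ux w x) hu
    obtain ⟨τ, hτ, rfl⟩ := mem_Sx.mp hQ
    have hroot : (res (ux w x) g).IsRoot τ := Polynomial.isRoot_of_mem_roots hτ
    refine ⟨hL τ, ?_, hr τ hroot⟩
    rw [← hev]
    exact hroot
  have hcard : (A.biUnion fun x => Sx (ux w x) g).card ≤ p + 2 := by
    refine hC2 p w g _ hw hg hg2 ?_
    intro Q hQ
    obtain ⟨x, hx, hQx⟩ := Finset.mem_biUnion.mp hQ
    obtain ⟨-, hgQ, a, -, hs, hQ0, hQ1⟩ := hon x hx Q hQx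
    refine ⟨hgQ, a.1, a.2, -(a.1 * x.1 + a.2 * x.2), ?_⟩
    have hkey : algebraMap (ZMod p) (KK p) a.1 * w 0 + algebraMap (ZMod p) (KK p) a.2 * w 1 +
        algebraMap (ZMod p) (KK p) (-(a.1 * x.1 + a.2 * x.2)) =
        -(algebraMap (ZMod p) (KK p) a.1 * ux w x 0 + algebraMap (ZMod p) (KK p) a.2 * ux w x 1) := by
      simp only [ux, Matrix.cons_val_zero, Matrix.cons_val_one, map_neg, map_add, map_mul]
      ring
    rw [hkey]
    refine ⟨neg_ne_zero.mpr hs, ?_, ?_⟩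
    · rw [mul_neg, hQ0, neg_neg]
    · rw [mul_neg, hQ1, neg_neg]
  have hdisj : ∀ x ∈ A, ∀ y ∈ A, x ≠ y → Disjoint (Sx (ux w x) g) (Sx (ux w y) g) := by
    intro x hx y hy hxy
    rw [Finset.disjoint_left]
    intro Q hQx hQy
    exact h2 x hx y hy hxy Q (hon x hx Q hQx).1 (hon y hy Q hQy).1 (hon x hx Q hQx).2.1
  rw [Finset.card_biUnion hdisj] at hcard
  have hone : ∀ x ∈ A, 2 ≤ (Sx (ux w x) g).card +
      (if eval ![x.1, x.2] q0 = 0 then 1 else 0) := by
    intro x hx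
    obtain ⟨hu, hd, -⟩ := h1 x hx
    rcases card_Sx hRes hu hd with h | ⟨h, hτ⟩
    · omega
    · have h3 : eval (ux w x) q = 0 := by
        refine hq _ hu hτ ?_
        intro h0
        rw [h0] at hd
        simp at hd
      rw [if_pos (hq0e x h3)]
      omega
  have hsum := Finset.sum_le_sum hone
  rw [Finset.sum_add_distrib, Finset.sum_const, smul_eq_mul, ← Finset.card_filter] at hsum
  omega

end Pool.Agent.Lib.MP_8dbdcc_co.AA
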