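import Pool.Agent.Lib.MP_8dbdcc_co.AA.Spec

/-!
# A point off all rational lines
-/

set_option autoImplicit false

namespace Pool.Agent.Lib.MP_8dbdcc_co.AA

open MvPolynomial Finset

namespace W_aux

/-- The polynomial `b X² + a X + c`. -/
noncomputable def fp (p : ℕ) [Fact p.Prime] (t : ZMod p × ZMod p × ZMod p) : Polynomial (KK p) :=
  Polynomial.C (algebraMap (ZMod p) (KK p) t.2.1) * Polynomial.X ^ 2 +
    Polynomial.C (algebraMap (ZMod p) (KK p) t.1) * Polynomial.X +
    Polynomial.C (algebraMap (ZMod p) (KK p) t.2.2)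

theorem fp_eq (p : ℕ) [Fact p.Prime] (a b c : ZMod p) (h : fp p (a, b, c) = 0) :
    a = 0 ∧ b = 0 ∧ c = 0 := by
  have h0 := congrArg (fun q => Polynomial.coeff q 0) h
  have h1 := congrArg (fun q => Polynomial.coeff q 1) h
  have h2 := congrArg (fun q => Polynomial.coeff q 2) h
  simp only [fp, Polynomial.coeff_add, Polynomial.coeff_C_mul, Polynomial.coeff_X_pow,
    Polynomial.coeff_X, Polynomial.coeff_C, Polynomial.coeff_zero] at h0 h1 h2
  norm_num at h0 h1 h2
  exact ⟨h1, h2, h0⟩

end W_aux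

open W_aux in
theorem tW : S_W := by
  intro p _
  classical
  obtain ⟨θ, hθ⟩ := Infinite.exists_notMem_finset
    ((univ : Finset (ZMod p × ZMod p × ZMod p)).biUnion fun t => (fp p t).roots.toFinset)
  refine ⟨![θ, θ ^ 2], fun a b c h => ?_⟩
  by_contra hne
  apply hθ
  rw [mem_biUnion]
  refine ⟨(a, b, c), mem_univ _, ?_⟩
  rw [Multiset.mem_toFinset, Polynomial.mem_roots]
  · simp only [Polynomial.IsRoot, fp, Polynomial.eval_add, Polynomial.eval_mul, Polynomial.eval_C,
      Polynomial.eval_pow, Polynomial.eval_X]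
    simp only [Matrix.cons_val_zero, Matrix.cons_val_one] at h
    linear_combination h
  · exact fun h0 => hne (fp_eq p a b c h0)

end Pool.Agent.Lib.MP_8dbdcc_co.AA
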