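import Pool.Agent.Lib.MP_8dbdcc_co.AA.Big
import Pool.Agent.Lib.MP_8dbdcc_co.AA.Bz
import Pool.Agent.Lib.MP_8dbdcc_co.AA.C2
import Pool.Agent.Lib.MP_8dbdcc_co.AA.CI
import Pool.Agent.Lib.MP_8dbdcc_co.AA.CII
import Pool.Agent.Lib.MP_8dbdcc_co.AA.CntD
import Pool.Agent.Lib.MP_8dbdcc_co.AA.Conc
import Pool.Agent.Lib.MP_8dbdcc_co.AA.Cont
import Pool.Agent.Lib.MP_8dbdcc_co.AA.Curve
import Pool.Agent.Lib.MP_8dbdcc_co.AA.Cx
import Pool.Agent.Lib.MP_8dbdcc_co.AA.DPow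
import Pool.Agent.Lib.MP_8dbdcc_co.AA.Deg
import Pool.Agent.Lib.MP_8dbdcc_co.AA.Desc
import Pool.Agent.Lib.MP_8dbdcc_co.AA.Disc
import Pool.Agent.Lib.MP_8dbdcc_co.AA.Div
import Pool.Agent.Lib.MP_8dbdcc_co.AA.Fac
import Pool.Agent.Lib.MP_8dbdcc_co.AA.Fn
import Pool.Agent.Lib.MP_8dbdcc_co.AA.FvD
import Pool.Agent.Lib.MP_8dbdcc_co.AA.FvV
import Pool.Agent.Lib.MP_8dbdcc_co.AA.Gen
import Pool.Agent.Lib.MP_8dbdcc_co.AA.Ind
import Pool.Agent.Lib.MP_8dbdcc_co.AA.Int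
import Pool.Agent.Lib.MP_8dbdcc_co.AA.IrrA
import Pool.Agent.Lib.MP_8dbdcc_co.AA.IrrB
import Pool.Agent.Lib.MP_8dbdcc_co.AA.KW
import Pool.Agent.Lib.MP_8dbdcc_co.AA.Lin
import Pool.Agent.Lib.MP_8dbdcc_co.AA.LowA
import Pool.Agent.Lib.MP_8dbdcc_co.AA.LowB
import Pool.Agent.Lib.MP_8dbdcc_co.AA.Main
import Pool.Agent.Lib.MP_8dbdcc_co.AA.Match
import Pool.Agent.Lib.MP_8dbdcc_co.AA.MinB
import Pool.Agent.Lib.MP_8dbdcc_co.AA.N3
import Pool.Agent.Lib.MP_8dbdcc_co.AA.Node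
import Pool.Agent.Lib.MP_8dbdcc_co.AA.Null
import Pool.Agent.Lib.MP_8dbdcc_co.AA.NumA
import Pool.Agent.Lib.MP_8dbdcc_co.AA.NumB
import Pool.Agent.Lib.MP_8dbdcc_co.AA.One
import Pool.Agent.Lib.MP_8dbdcc_co.AA.Pairs
import Pool.Agent.Lib.MP_8dbdcc_co.AA.Phi
import Pool.Agent.Lib.MP_8dbdcc_co.AA.Res
import Pool.Agent.Lib.MP_8dbdcc_co.AA.SV
import Pool.Agent.Lib.MP_8dbdcc_co.AA.Sg
import Pool.Agent.Lib.MP_8dbdcc_co.AA.Spc
import Pool.Agent.Lib.MP_8dbdcc_co.AA.Tan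
import Pool.Agent.Lib.MP_8dbdcc_co.AA.Vol
import Pool.Agent.Lib.MP_8dbdcc_co.AA.W

/-!
# Assembly: almost all large arcs of `𝔽_p²` lie on a conic
-/

set_option autoImplicit false

namespace Pool.Agent.Lib.MP_8dbdcc_co.AA

theorem hCntD : S_CntD := tCntD tDPow tBz

theorem hInd : S_Ind := tInd tNull tMinB hCntD

theorem hN3 : S_N3 := tN3 tRes (tSg tNull) (tSV hCntD tFvD tFvV (tFn hInd))

theorem hDiv : S_Div := tDiv tRes

theorem hFac : S_Fac := tFac hDiv (tLin tRes hDiv)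

theorem hCurve : S_Curve :=
  tCurve tW tTan tRes (tCx tOne) (tPhi tRes) tSpc (tNode tTan) tConc (tInt tRes) hFac hN3

/-- An arc of `𝔽_p²` with at least `0.99 p` points has all but at most `p + 2 - |A|` of its points
on a conic (`p ≥ 400`). -/
theorem hVol : S_Vol := tVol tRes hCurve tC2 (tDisc tRes) tDesc

theorem hBig : S_Big := tBig hVol tIrrA tIrrB tPairs

/-- Almost all arcs with at least `p^(6/7)` points are contained in a conic. -/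
theorem hMain : S_Main :=
  tMain hBig tNumA tNumB (tCont tKW tDeg) (tCI tMatch tGen)
    (tCII hVol tIrrA tIrrB tPairs tGen) tLowA tLowB

end Pool.Agent.Lib.MP_8dbdcc_co.AA
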