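import Pool.Agent.Lib.MP_8dbdcc_co.AA.Spec

set_option autoImplicit false

namespace Pool.Agent.Lib.MP_8dbdcc_co.AA

open MvPolynomial Finset

theorem tBig : S_Vol → S_IrrA → S_IrrB → S_Pairs → S_Big := by
  classical
  intro hV hI hB hP p _ A hp hA h99
  obtain ⟨q, hq0, hq2, hcard⟩ := hV p A hp hA h99
  set Z : Finset (Pt p) := univ.filter fun x => eval ![x.1, x.2] q = 0 with hZ
  have hZm : ∀ x, x ∈ Z ↔ eval ![x.1, x.2] q = 0 := by
    intro x
    simp [hZ]
  set Y : Finset (Pt p) := A.filter fun x => eval ![x.1, x.2] q = 0 with hY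
  have hYZ : Y ⊆ Z := by
    intro x hx
    rw [hZm]
    exact (Finset.mem_filter.1 hx).2
  have hYA : Y ⊆ A := Finset.filter_subset _ _
  have hYarc : Arc p Y := by
    intro a b c hab
    exact (Finset.card_le_card (Finset.filter_subset_filter _ hYA)).trans (hA a b c hab)
  have hY5 : 5 ≤ Y.card := by omega
  have hZarc : Arc p Z := hI p q Y Z hq0 hq2 hZm hYarc hYZ hY5
  have hZc : Z.card ≤ p + 2 := hB p Z hZarc
  refine ⟨q, hq0, hq2, ?_⟩
  intro R hR
  by_contra hne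
  have hRZ : R ∉ Z := by
    rw [hZm]
    exact hne
  obtain ⟨π, hπ, -, hc⟩ := hP p q Z Y R (by omega) hq2 hZm hZarc hRZ hYZ
  have hpos : 0 < π.card := by omega
  obtain ⟨t, ht⟩ := Finset.card_pos.1 hpos
  obtain ⟨h1, -, h3⟩ := hπ t ht
  exact h3 A hA hR (h1.trans hYA)

end Pool.Agent.Lib.MP_8dbdcc_co.AA
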