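import Pool.Agent.Lib.MP_8dbdcc_co.AA.Spec

/-!
# ARC, DPow: powers under a derivation
-/

set_option autoImplicit false

namespace Pool.Agent.Lib.MP_8dbdcc_co.AA

open MvPolynomial Finset

private theorem DPow_step {K : Type} [Field K] (D : Derivation K (Pl K) (Pl K)) (E l : Pl K)
    (m : ℕ) : D (E * l ^ (m + 1)) = (D E * l + ((m : Pl K) + 1) * E * D l) * l ^ m := by
  rw [Derivation.leibniz, Derivation.leibniz_pow, Nat.add_sub_cancel]
  simp only [smul_eq_mul, nsmul_eq_mul]
  push_cast
  ring

theorem tDPow : S_DPow := by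
  intro K _ D E l Q m hl
  induction m generalizing E with
  | zero =>
    refine ⟨fun i hi => absurd hi (Nat.not_lt_zero i), ?_⟩
    rw [Function.iterate_zero, id, pow_zero, mul_one, pow_zero, mul_one, Nat.factorial_zero,
      Nat.cast_one, one_mul]
  | succ m ih =>
    obtain ⟨h1, h2⟩ := ih (D E * l + ((m : Pl K) + 1) * E * D l)
    refine ⟨fun i hi => ?_, ?_⟩
    · rcases i with _ | i
      · rw [Function.iterate_zero, id, map_mul, map_pow, hl, zero_pow (Nat.succ_ne_zero m),
          mul_zero]
      · rw [Function.iterate_succ_apply, DPow_step]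
        exact h1 i (by omega)
    · rw [Function.iterate_succ_apply, DPow_step, h2]
      have h3 : eval Q (D E * l + ((m : Pl K) + 1) * E * D l) =
          ((m : K) + 1) * eval Q E * eval Q (D l) := by
        rw [map_add, map_mul, map_mul, map_mul, hl, mul_zero, zero_add, map_add, map_natCast,
          map_one]
      rw [h3, Nat.factorial_succ, Nat.cast_mul, Nat.cast_add, Nat.cast_one]
      ring

end Pool.Agent.Lib.MP_8dbdcc_co.AA
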