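import Mathlib

/-!
# Almost all large arcs of `𝔽_p²` lie on a conic: definitions
-/

set_option autoImplicit false

namespace Pool.Agent.Lib.MP_8dbdcc_co.AA

open MvPolynomial Finset

/-! ## Plane curves -/

/-- Polynomials in two variables `X 0`, `X 1`. -/
abbrev Pl (K : Type) [CommSemiring K] := MvPolynomial (Fin 2) K

/-- The derivation `f ↦ g_y f_x - g_x f_y` along the curve `g = 0`. -/
noncomputable def Dg {K : Type} [Field K] (g : Pl K) : Derivation K (Pl K) (Pl K) :=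
  pderiv 1 g • (pderiv 0 : Derivation K (Pl K) (Pl K)) -
    pderiv 0 g • (pderiv 1 : Derivation K (Pl K) (Pl K))

theorem Dg_apply {K : Type} [Field K] (g f : Pl K) :
    Dg g f = pderiv 1 g * pderiv 0 f - pderiv 0 g * pderiv 1 f := by
  simp [Dg]

/-- `Q` is a nonsingular point of the curve `g = 0`. -/
def Smooth {K : Type} [Field K] (g : Pl K) (Q : Fin 2 → K) : Prop :=
  eval Q g = 0 ∧ (eval Q (pderiv 0 g) ≠ 0 ∨ eval Q (pderiv 1 g) ≠ 0)

/-- The (twisted) Frobenius condition for `Q`. -/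
def Special {K : Type} [Field K] (p : ℕ) (β Q : Fin 2 → K) : Prop :=
  ∀ i, (Q i) ^ p = (1 + β 0 * (Q 0) ^ p + β 1 * (Q 1) ^ p) * Q i

/-- The equation of the line `u 0 * Q 0 + u 1 * Q 1 = -1`. -/
noncomputable def LF {K : Type} [Field K] (u : Fin 2 → K) : Pl K :=
  C (u 0) * X 0 + C (u 1) * X 1 + 1

/-- The base point of the line `LF u = 0` (for `u 0 ≠ 0`). -/
def Rb {K : Type} [Field K] (u : Fin 2 → K) : Fin 2 → K := ![-(u 0)⁻¹, 0]

/-- The direction of the line `LF u = 0`. -/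
def Jd {K : Type} [Field K] (u : Fin 2 → K) : Fin 2 → K := ![-(u 1), u 0]

/-- Restriction to the line `LF u = 0`: `(res u f)(T) = f (Rb u + T * Jd u)`. -/
noncomputable def res {K : Type} [Field K] (u : Fin 2 → K) : Pl K →ₐ[K] Polynomial K :=
  aeval fun i => Polynomial.C (Rb u i) + Polynomial.C (Jd u i) * Polynomial.X

/-- The six monomials of degree at most two. -/
noncomputable def mv (K : Type) [Field K] : Fin 6 → Pl K :=
  ![1, X 0, X 1, X 0 ^ 2, X 0 * X 1, X 1 ^ 2]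

/-- `ω = 1 + β 0 X^p + β 1 Y^p`. -/
noncomputable def om {K : Type} [Field K] (p : ℕ) (β : Fin 2 → K) : Pl K :=
  1 + C (β 0) * X 0 ^ p + C (β 1) * X 1 ^ p

/-- The vector `c` with `c = ω² mv` at the special points. -/
noncomputable def cv {K : Type} [Field K] (p : ℕ) (β : Fin 2 → K) : Fin 6 → Pl K :=
  ![om p β ^ 2, om p β * X 0 ^ p, om p β * X 1 ^ p, X 0 ^ (2 * p), X 0 ^ p * X 1 ^ p,
    X 1 ^ (2 * p)]

/-- The Wronskian matrix: row `i` is `D^i mv`. -/
noncomputable def Wm {K : Type} [Field K] (g : Pl K) : Matrix (Fin 6) (Fin 6) (Pl K) :=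
  Matrix.of fun i j => (Dg g)^[(i : ℕ)] (mv K j)

/-- The auxiliary polynomial of Stöhr and Voloch (for conics). -/
noncomputable def FF {K : Type} [Field K] (p : ℕ) (β : Fin 2 → K) (g : Pl K) : Pl K :=
  ∑ j : Fin 6, cv p β j * (Wm g).adjugate j 5

/-! ## Arcs -/

/-- The points of the plane. -/
abbrev Pt (p : ℕ) := ZMod p × ZMod p

/-- `A ⊆ 𝔽_p²` has no three collinear points. -/
def Arc (p : ℕ) (A : Finset (Pt p)) : Prop :=
  ∀ a b c : ZMod p, (a, b) ≠ (0, 0) → (A.filter (fun q => a * q.1 + b * q.2 = c)).card ≤ 2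

/-- `A` is contained in a conic (the zero set of a nonzero polynomial of degree at most two). -/
def InConic (p : ℕ) (A : Finset (Pt p)) : Prop :=
  ∃ q : MvPolynomial (Fin 2) (ZMod p), q ≠ 0 ∧ q.totalDegree ≤ 2 ∧
    ∀ x ∈ A, MvPolynomial.eval ![x.1, x.2] q = 0

/-- The determinant of `b - a` and `c - a`; it is zero iff `a`, `b`, `c` are collinear. -/
def dt {p : ℕ} (a b c : Pt p) : ZMod p :=
  (b.1 - a.1) * (c.2 - a.2) - (b.2 - a.2) * (c.1 - a.1)

/-- Representatives of the `p + 1` directions: `(1, s)` and `(0, 1)`. -/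
def dirs (p : ℕ) [Fact p.Prime] : Finset (Pt p) :=
  (univ.image fun s : ZMod p => ((1 : ZMod p), s)) ∪ {(0, 1)}

/-- The tangents at `x`: the `a ∈ dirs p` such that the line `a · (y - x) = 0` contains no point of
`A` other than `x`. -/
def tang {p : ℕ} [Fact p.Prime] (A : Finset (Pt p)) (x : Pt p) : Finset (Pt p) :=
  (dirs p).filter fun a => ∀ y ∈ A, a.1 * (y.1 - x.1) + a.2 * (y.2 - x.2) = 0 → y = x

/-- The product of the tangent forms at `x`. -/
def ft {p : ℕ} [Fact p.Prime] (A : Finset (Pt p)) (x y : Pt p) : ZMod p :=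
  ∏ a ∈ tang A x, (a.1 * (y.1 - x.1) + a.2 * (y.2 - x.2))

/-! ## The dual plane over the algebraic closure -/

/-- The algebraic closure of `𝔽_p`. -/
abbrev KK (p : ℕ) [Fact p.Prime] := AlgebraicClosure (ZMod p)

/-- `1, w 0, w 1` are linearly independent over `𝔽_p`. -/
def Indep {p : ℕ} [Fact p.Prime] (w : Fin 2 → KK p) : Prop :=
  ∀ a b c : ZMod p, algebraMap (ZMod p) (KK p) a * w 0 + algebraMap (ZMod p) (KK p) b * w 1 +
    algebraMap (ZMod p) (KK p) c = 0 → a = 0 ∧ b = 0 ∧ c = 0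

/-- `x - w`, the coordinates of the line which is dual to the point `x`. -/
noncomputable def ux {p : ℕ} [Fact p.Prime] (w : Fin 2 → KK p) (x : Pt p) : Fin 2 → KK p :=
  ![algebraMap (ZMod p) (KK p) x.1 - w 0, algebraMap (ZMod p) (KK p) x.2 - w 1]

/-- `c * ∏_{a ∈ T} (a.1 Y - a.2 X)`. -/
noncomputable def phi {p : ℕ} [Fact p.Prime] (c : ZMod p) (T : Finset (Pt p)) : Pl (KK p) :=
  C (algebraMap (ZMod p) (KK p) c) *
    ∏ a ∈ T, (C (algebraMap (ZMod p) (KK p) a.1) * X 1 - C (algebraMap (ZMod p) (KK p) a.2) * X 0)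

/-- `Q` is the point of the dual plane which belongs to the line with normal vector `a` through
`x`: `Q = -a / (a · (x - w))`. -/
def DualPt {p : ℕ} [Fact p.Prime] (w : Fin 2 → KK p) (x a : Pt p) (Q : Fin 2 → KK p) : Prop :=
  algebraMap (ZMod p) (KK p) a.1 * ux w x 0 + algebraMap (ZMod p) (KK p) a.2 * ux w x 1 ≠ 0 ∧
  Q 0 * (algebraMap (ZMod p) (KK p) a.1 * ux w x 0 + algebraMap (ZMod p) (KK p) a.2 * ux w x 1) =
    - algebraMap (ZMod p) (KK p) a.1 ∧
  Q 1 * (algebraMap (ZMod p) (KK p) a.1 * ux w x 0 + algebraMap (ZMod p) (KK p) a.2 * ux w x 1) =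
    - algebraMap (ZMod p) (KK p) a.2

/-! ## Counting -/

/-- The neighbours of `v`: the `w ≠ v` such that some point of `T` different from `v`, `w` lies on
the line `v w`. -/
def Nb {p : ℕ} [Fact p.Prime] (T : Finset (Pt p)) (v : Pt p) : Finset (Pt p) :=
  univ.filter fun w => w ≠ v ∧ ∃ t ∈ T, t ≠ v ∧ t ≠ w ∧ dt t v w = 0

end Pool.Agent.Lib.MP_8dbdcc_co.AA
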