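import Pool.Agent.Lib.MP_8dbdcc_co.AA.Spec

/-!
# Arcs: interpolation on lines in general position (module Int)
-/

set_option autoImplicit false

namespace Pool.Agent.Lib.MP_8dbdcc_co.AA

open MvPolynomial Finset

namespace Int_aux

variable {K : Type} [Field K]

/-- The restriction of one line to another. -/
theorem res_LF (u v : Fin 2 → K) : res u (LF v) =
    Polynomial.C (u 0 * v 1 - u 1 * v 0) * Polynomial.X + Polynomial.C (1 - v 0 * (u 0)⁻¹) := by
  unfold res LF
  rw [map_add, map_add, map_mul, map_mul, map_one, aeval_X, aeval_X, ← MvPolynomial.algebraMap_eq,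
    AlgHom.commutes, AlgHom.commutes, Polynomial.algebraMap_eq]
  simp only [Rb, Jd, Matrix.cons_val_zero, Matrix.cons_val_one, map_neg, map_sub, map_mul, map_zero,
    map_one]
  ring

theorem res_LF' (u v : Fin 2 → K) (hd : u 0 * v 1 - u 1 * v 0 ≠ 0) :
    res u (LF v) = Polynomial.C (u 0 * v 1 - u 1 * v 0) *
      (Polynomial.X - Polynomial.C (-(1 - v 0 * (u 0)⁻¹) / (u 0 * v 1 - u 1 * v 0))) := by
  rw [res_LF u v, mul_sub, ← Polynomial.C_mul, mul_div_cancel₀ _ hd, Polynomial.C_neg, sub_neg_eq_add]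

theorem totalDegree_LF (u : Fin 2 → K) : (LF u).totalDegree ≤ 1 := by
  unfold LF
  refine (totalDegree_add _ _).trans (max_le ((totalDegree_add _ _).trans (max_le ?_ ?_)) ?_)
  · refine (totalDegree_mul _ _).trans ?_
    rw [totalDegree_C, totalDegree_X]
  · refine (totalDegree_mul _ _).trans ?_
    rw [totalDegree_C, totalDegree_X]
  · rw [totalDegree_one]
    exact Nat.zero_le _

end Int_aux

open Int_aux

theorem tInt : S_Res → S_Int := by
  intro hRes K _ ι _ I u P D
  induction I using Finset.induction_on with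
  | empty =>
    intro _ _ _ _ _
    exact ⟨0, by rw [totalDegree_zero]; exact Nat.zero_le _, fun i hi => absurd hi (Finset.notMem_empty i)⟩
  | insert i0 I hi0 ih =>
    intro hu hP hd hcom hcon
    have hmem : ∀ i ∈ I, i ∈ insert i0 I := fun i hi => Finset.mem_insert_of_mem hi
    have h0 : i0 ∈ insert i0 I := Finset.mem_insert_self i0 I
    have hne : ∀ i ∈ I, i0 ≠ i := by
      rintro i hi rfl
      exact hi0 hi
    obtain ⟨G, hG, hGi⟩ := ih (fun i hi => hu i (hmem i hi)) (fun i hi => hP i (hmem i hi))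
      (fun i hi j hj => hd i (hmem i hi) j (hmem j hj))
      (fun i hi j hj => hcom i (hmem i hi) j (hmem j hj))
      (fun i hi j hj k hk => hcon i (hmem i hi) j (hmem j hj) k (hmem k hk))
    obtain ⟨-, hR2, hR3, hR4, -, -, hR7⟩ := hRes K (u i0) (hu i0 h0)
    by_cases hf : res (u i0) (P i0 - G) = 0
    · refine ⟨G, hG, ?_⟩
      intro i hi
      rcases Finset.mem_insert.1 hi with rfl | hi
      · rw [map_sub, sub_eq_zero] at hf
        exact hf.symm
      · exact hGi i hi
    set f := res (u i0) (P i0 - G) with hfdef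
    set δ : ι → K := fun i => u i0 0 * u i 1 - u i0 1 * u i 0 with hδ
    set τ : ι → K := fun i => -(1 - u i 0 * (u i0 0)⁻¹) / δ i with hτ
    have hδ0 : ∀ i ∈ I, δ i ≠ 0 := fun i hi => hd i0 h0 i (hmem i hi) (hne i hi)
    have hq : ∀ i ∈ I, res (u i0) (LF (u i)) = Polynomial.C (δ i) * (Polynomial.X - Polynomial.C (τ i)) :=
      fun i hi => res_LF' (u i0) (u i) (hδ0 i hi)
    -- the common points
    have hQ : ∀ i ∈ I, eval (Rb (u i0) + τ i • Jd (u i0)) (LF (u i)) = 0 := by
      intro i hi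
      rw [← hR3, hq i hi]
      simp
    have hroot : ∀ i ∈ I, f.eval (τ i) = 0 := by
      intro i hi
      have h1 := hQ i hi
      have h2 := hR4 (τ i)
      set Q := Rb (u i0) + τ i • Jd (u i0) with hQdef
      have h3 : eval Q (P i0) = eval Q (P i) := hcom i0 h0 i (hmem i hi) (hne i hi) Q h2 h1
      obtain ⟨-, -, hS3, -, hS5, -, -⟩ := hRes K (u i) (hu i (hmem i hi))
      obtain ⟨τ', hτ'⟩ := hS5 Q h1
      have h4 : eval Q G = eval Q (P i) := by
        rw [hτ', ← hS3, ← hS3, hGi i hi]
      rw [hfdef, hR3, ← hQdef, map_sub, h3, h4, sub_self]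
    have hτinj : ∀ i ∈ I, ∀ j ∈ I, i ≠ j → τ i ≠ τ j := by
      intro i hi j hj hij h
      have h1 := hQ j hj
      rw [← h] at h1
      exact hcon i0 h0 i (hmem i hi) j (hmem j hj) (hne i hi) (hne j hj) hij _
        ⟨hR4 (τ i), hQ i hi, h1⟩
    have hdvd : (∏ i ∈ I, (Polynomial.X - Polynomial.C (τ i))) ∣ f := by
      apply Finset.prod_dvd_of_coprime
      · intro i hi j hj hij
        exact Polynomial.isCoprime_X_sub_C_of_isUnit_sub
          (isUnit_iff_ne_zero.2 (sub_ne_zero.2 (hτinj i hi j hj hij)))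
      · intro i hi
        exact Polynomial.dvd_iff_isRoot.2 (hroot i hi)
    obtain ⟨h, hh⟩ := hdvd
    have hδp : (∏ i ∈ I, δ i) ≠ 0 := Finset.prod_ne_zero_iff.2 hδ0
    have hprod : ∏ i ∈ I, res (u i0) (LF (u i)) =
        Polynomial.C (∏ i ∈ I, δ i) * ∏ i ∈ I, (Polynomial.X - Polynomial.C (τ i)) := by
      rw [Finset.prod_congr rfl hq, Finset.prod_mul_distrib, map_prod]
    set h' : Polynomial K := Polynomial.C (∏ i ∈ I, δ i)⁻¹ * h with hh'
    have hfac : f = h' * ∏ i ∈ I, res (u i0) (LF (u i)) := by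
      rw [hprod, hh, hh']
      have h1 : Polynomial.C (∏ i ∈ I, δ i)⁻¹ * Polynomial.C (∏ i ∈ I, δ i) = (1 : Polynomial K) := by
        rw [← Polynomial.C_mul, inv_mul_cancel₀ hδp, Polynomial.C_1]
      calc (∏ i ∈ I, (Polynomial.X - Polynomial.C (τ i))) * h =
          1 * ((∏ i ∈ I, (Polynomial.X - Polynomial.C (τ i))) * h) := (one_mul _).symm
        _ = _ := by rw [← h1]; ring
    have hdegprod : (∏ i ∈ I, (Polynomial.X - Polynomial.C (τ i))).natDegree = I.card := by
      rw [Polynomial.natDegree_prod_of_monic _ _ (fun i _ => Polynomial.monic_X_sub_C _)]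
      simp
    have hh0 : h ≠ 0 := by
      rintro rfl
      rw [mul_zero] at hh
      exact hf hh
    have hpr0 : (∏ i ∈ I, (Polynomial.X - Polynomial.C (τ i))) ≠ 0 :=
      Finset.prod_ne_zero_iff.2 fun i _ => Polynomial.X_sub_C_ne_zero _
    have hfdeg : f.natDegree ≤ D := by
      refine (hR2 _).trans ?_
      exact (totalDegree_sub _ _).trans (max_le (hP i0 h0) hG)
    have hdeg : h'.natDegree + I.card ≤ D := by
      have h1 : f.natDegree = I.card + h.natDegree := by
        rw [hh, Polynomial.natDegree_mul hpr0 hh0, hdegprod]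
      have h2 : h'.natDegree ≤ h.natDegree := Polynomial.natDegree_C_mul_le _ _
      omega
    obtain ⟨H, hH, hHr⟩ := hR7 h'
    refine ⟨G + H * ∏ i ∈ I, LF (u i), ?_, ?_⟩
    · refine (totalDegree_add _ _).trans (max_le hG ((totalDegree_mul _ _).trans ?_))
      have h1 : (∏ i ∈ I, LF (u i)).totalDegree ≤ I.card := by
        refine (totalDegree_finsetProd _ _).trans ?_
        refine (Finset.sum_le_card_nsmul _ _ 1 fun i _ => totalDegree_LF (u i)).trans ?_
        rw [smul_eq_mul, mul_one]
      omega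
    · intro i hi
      rcases Finset.mem_insert.1 hi with rfl | hi
      · rw [map_add, map_mul, map_prod, hHr, ← hfac, hfdef, map_sub, add_sub_cancel]
      · have h1 : res (u i) (∏ j ∈ I, LF (u j)) = 0 := by
          rw [map_prod]
          apply Finset.prod_eq_zero hi
          exact ((hRes K (u i) (hu i (hmem i hi))).1 _).2 dvd_rfl
        rw [map_add, map_mul, h1, mul_zero, add_zero]
        exact hGi i hi

end Pool.Agent.Lib.MP_8dbdcc_co.AA
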