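import Pool.Agent.Lib.MP_8dbdcc_co.AA.Spec

/-!
# The values of the forms at the nodes
-/

set_option autoImplicit false

namespace Pool.Agent.Lib.MP_8dbdcc_co.AA

open MvPolynomial Finset

namespace Node_aux

theorem eval_LF {K : Type} [Field K] (u Q : Fin 2 → K) :
    eval Q (LF u) = u 0 * Q 0 + u 1 * Q 1 + 1 := by
  simp [LF]

theorem eval_phi {p : ℕ} [Fact p.Prime] (c : ZMod p) (T : Finset (Pt p)) (Q : Fin 2 → KK p) :
    eval Q (phi c T) = algebraMap (ZMod p) (KK p) c *
      ∏ a ∈ T, (algebraMap (ZMod p) (KK p) a.1 * Q 1 - algebraMap (ZMod p) (KK p) a.2 * Q 0) := by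
  simp [phi]

theorem ft_ne {p : ℕ} [Fact p.Prime] (A : Finset (Pt p)) (x y : Pt p) (hy : y ∈ A) (hxy : x ≠ y) :
    ft A x y ≠ 0 := by
  rw [ft, Finset.prod_ne_zero_iff]
  intro a ha h
  rw [tang, Finset.mem_filter] at ha
  exact hxy (ha.2 y hy h).symm

/-- The value of the form at a point `Q` with `s Q = (-(y.2 - x.2), y.1 - x.1)`. -/
theorem val {p : ℕ} [Fact p.Prime] (c : ZMod p) (T : Finset (Pt p)) (d1 d2 : ZMod p)
    (Q : Fin 2 → KK p) (s : KK p) (h0 : s * Q 0 = -algebraMap (ZMod p) (KK p) d2)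
    (h1 : s * Q 1 = algebraMap (ZMod p) (KK p) d1) :
    s ^ T.card * eval Q (phi c T) =
      algebraMap (ZMod p) (KK p) (c * ∏ a ∈ T, (a.1 * d1 + a.2 * d2)) := by
  rw [eval_phi, map_mul, map_prod, mul_left_comm, ← Finset.prod_const, ← Finset.prod_mul_distrib]
  congr 1
  refine Finset.prod_congr rfl fun a _ => ?_
  rw [map_add, map_mul, map_mul]
  linear_combination algebraMap (ZMod p) (KK p) a.1 * h1 - algebraMap (ZMod p) (KK p) a.2 * h0

end Node_aux

open Node_aux in
theorem tNode : S_Tan → S_Node := by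
  intro hT p _ w A x y c hp hw hA hx hy hxy hc hcc
  have hcx : (tang A x).card + A.card = p + 2 := hT p A x hA hx
  have hcy : (tang A y).card + A.card = p + 2 := hT p A y hA hy
  obtain ⟨t, ht⟩ : ∃ t, t = (tang A x).card := ⟨_, rfl⟩
  have htx : (tang A x).card = t := ht.symm
  have hty : (tang A y).card = t := by omega
  obtain ⟨s, hs⟩ : ∃ s, s = ux w x 0 * ux w y 1 - ux w x 1 * ux w y 0 := ⟨_, rfl⟩
  have hs0 : s ≠ 0 := by
    intro h0
    have h1 := hw (x.2 - y.2) (y.1 - x.1) (x.1 * y.2 - x.2 * y.1) (by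
      rw [← h0, hs]
      simp only [ux, map_sub, map_mul, Matrix.cons_val_zero, Matrix.cons_val_one]
      ring)
    apply hxy
    have h2 : x.2 = y.2 := sub_eq_zero.1 h1.1
    have h3 : y.1 = x.1 := sub_eq_zero.1 h1.2.1
    exact Prod.ext h3.symm h2
  refine ⟨hs ▸ hs0, ?_, ?_⟩
  · refine ⟨![-(algebraMap (ZMod p) (KK p) (y.2 - x.2)) / s,
      algebraMap (ZMod p) (KK p) (y.1 - x.1) / s], ?_, ?_⟩
    · rw [eval_LF]
      simp only [Matrix.cons_val_zero, Matrix.cons_val_one]
      have h : ux w x 0 * -(algebraMap (ZMod p) (KK p) (y.2 - x.2)) +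
          ux w x 1 * algebraMap (ZMod p) (KK p) (y.1 - x.1) = -s := by
        rw [hs]
        simp only [ux, map_sub, Matrix.cons_val_zero, Matrix.cons_val_one]
        ring
      rw [← mul_div_assoc, ← mul_div_assoc, ← add_div, h, neg_div, div_self hs0, neg_add_cancel]
    · rw [eval_LF]
      simp only [Matrix.cons_val_zero, Matrix.cons_val_one]
      have h : ux w y 0 * -(algebraMap (ZMod p) (KK p) (y.2 - x.2)) +
          ux w y 1 * algebraMap (ZMod p) (KK p) (y.1 - x.1) = -s := by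
        rw [hs]
        simp only [ux, map_sub, Matrix.cons_val_zero, Matrix.cons_val_one]
        ring
      rw [← mul_div_assoc, ← mul_div_assoc, ← add_div, h, neg_div, div_self hs0, neg_add_cancel]
  · intro Q hQx hQy
    rw [eval_LF] at hQx hQy
    have hd1 : ux w y 0 - ux w x 0 = algebraMap (ZMod p) (KK p) (y.1 - x.1) := by
      simp only [ux, map_sub, Matrix.cons_val_zero]
      ring
    have hd2 : ux w y 1 - ux w x 1 = algebraMap (ZMod p) (KK p) (y.2 - x.2) := by
      simp only [ux, map_sub, Matrix.cons_val_one, Matrix.cons_val_zero]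
      ring
    have h0 : s * Q 0 = -algebraMap (ZMod p) (KK p) (y.2 - x.2) := by
      rw [← hd2, hs]
      linear_combination ux w y 1 * hQx - ux w x 1 * hQy
    have h1 : s * Q 1 = algebraMap (ZMod p) (KK p) (y.1 - x.1) := by
      rw [← hd1, hs]
      linear_combination ux w x 0 * hQy - ux w y 0 * hQx
    have hvx := val (c x) (tang A x) (y.1 - x.1) (y.2 - x.2) Q s h0 h1
    have hvy := val (c y) (tang A y) (y.1 - x.1) (y.2 - x.2) Q s h0 h1
    have hfx : ∏ a ∈ tang A x, (a.1 * (y.1 - x.1) + a.2 * (y.2 - x.2)) = ft A x y := rfl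
    have hfy : ∏ a ∈ tang A y, (a.1 * (y.1 - x.1) + a.2 * (y.2 - x.2)) =
        (-1) ^ t * ft A y x := by
      rw [ft, ← hty, ← Finset.prod_const, ← Finset.prod_mul_distrib]
      refine Finset.prod_congr rfl fun a _ => ?_
      ring
    rw [hfx, htx] at hvx
    rw [hfy, hty] at hvy
    have hst : s ^ t ≠ 0 := pow_ne_zero _ hs0
    have hodd : Odd p := (Fact.out : p.Prime).odd_of_ne_two hp
    have hsign : ((-1 : ZMod p)) ^ A.card = -(-1) ^ t := by
      have h2 : ((-1 : ZMod p)) ^ A.card * (-1) ^ t = -1 := by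
        rw [← pow_add]
        have h3 : A.card + t = p + 2 := by omega
        rw [h3]
        exact (hodd.add_even even_two).neg_one_pow
      have h4 : ((-1 : ZMod p)) ^ t * (-1) ^ t = 1 := by
        rw [← mul_pow, neg_one_mul, neg_neg, one_pow]
      calc ((-1 : ZMod p)) ^ A.card = (-1) ^ A.card * ((-1) ^ t * (-1) ^ t) := by
            rw [h4, mul_one]
        _ = ((-1) ^ A.card * (-1) ^ t) * (-1) ^ t := by ring
        _ = -(-1) ^ t := by rw [h2, neg_one_mul]
    constructor
    · apply mul_left_cancel₀ hst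
      rw [hvx, hcc, hsign, mul_neg, hvy, ← map_neg]
      congr 1
      ring
    · intro h
      rw [h, mul_zero] at hvx
      have h5 := (map_eq_zero (algebraMap (ZMod p) (KK p))).1 hvx.symm
      exact mul_ne_zero hc (ft_ne A x y hy hxy) h5

end Pool.Agent.Lib.MP_8dbdcc_co.AA
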