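import Pool.Agent.Lib.MP_8dbdcc_co.AA.Defs

/-!
# Almost all large arcs of `𝔽_p²` lie on a conic: statements of the modules

Part A: plane curves over an algebraically closed field of characteristic `p` (Stöhr-Voloch).
Part G: Segre's envelope of an arc.  Part K: containers and counting.
-/

set_option autoImplicit false

namespace Pool.Agent.Lib.MP_8dbdcc_co.AA

open MvPolynomial Finset

/-! ## Part A -/

/-- Powers and derivations.
Proof: induction on `m`, with `D (E * ℓ ^ (m + 1)) = (D E * ℓ + (m + 1) * E * D ℓ) * ℓ ^ m`, so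
`D^[i + 1] (E * ℓ ^ (m + 1)) = D^[i] (E' * ℓ ^ m)` with `E' = D E * ℓ + (m + 1) * E * D ℓ` and
`eval Q E' = (m + 1) * eval Q E * eval Q (D ℓ)`. -/
def S_DPow : Prop :=
  ∀ (K : Type) [Field K] (D : Derivation K (Pl K) (Pl K)) (E l : Pl K) (Q : Fin 2 → K) (m : ℕ),
    eval Q l = 0 →
    (∀ i < m, eval Q (D^[i] (E * l ^ m)) = 0) ∧
      eval Q (D^[m] (E * l ^ m)) = (m.factorial : K) * eval Q E * (eval Q (D l)) ^ m

/-- Bezout's theorem for linear functionals.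
Proof: the dimension count of `Pool.Agent.Lib.MP_214199_co.Eff.bezout` (copy that proof; the lemmas
`bezout_finrank_map`, `finrank_restrict` can be cited).  The functionals `L · i` are linearly
independent, so `L : Pl K → (ι → K)` is surjective (its range is not contained in a hyperplane); choose
preimages of the standard basis vectors and `N` so large that all of them have total degree `≤ d`,
`d = deg g + deg f + N`.  The kernel of `L` on the polynomials of total degree `≤ d` contains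
`g * R (d - deg g) + f * R (d - deg f)`, whose codimension in `R d` is `deg g * deg f`. -/
def S_Bz : Prop :=
  ∀ (K : Type) [Field K] (g f : Pl K) (ι : Type) [Fintype ι] (L : Pl K →ₗ[K] (ι → K)),
    Irreducible g → ¬ g ∣ f → (∀ a, L (a * g) = 0) → (∀ a, L (a * f) = 0) →
    (∀ c : ι → K, (∀ a, ∑ i, c i * L a i = 0) → c = 0) →
    Fintype.card ι ≤ g.totalDegree * f.totalDegree

/-- If `f` vanishes to order `w` along the curve `g = 0` at the points of `S`, then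
`w * |S| ≤ deg g * deg f`.
Proof: `S_Bz` with `ι = S × Fin w` and the functionals `a ↦ eval Q (D^[i] a)`, `D = Dg g`.
`D g = 0`, hence `D^[i] (a * g) = D^[i] a * g`, which is zero at `Q`.  `D^[i] (a * f)` is a
combination of the `D^[i'] a * D^[j] f`, `j ≤ i` (Leibniz), zero at `Q`.  Independence: suppose
`∑ c (Q, i) * eval Q (D^[i] a) = 0` for all `a` and `c (Q, m) ≠ 0`, `m` maximal for this `Q`.
There is a linear `l` with `eval Q l = 0`, `eval Q (D l) ≠ 0`: `l = X 0 - C (Q 0)` has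
`D l = g_y`, `l = X 1 - C (Q 1)` has `D l = - g_x`.  Let `E` be the product of the `(l')^w` over the
`Q' ∈ S`, `Q' ≠ Q`, with `l'` linear, `l' (Q') = 0`, `l' (Q) ≠ 0`.  For `a = E * l ^ m` all terms
with `Q' ≠ Q` vanish (`S_DPow` for `Q'` and the power `w`), also the terms `(Q, i)`, `i < m`, and
the term `(Q, m)` is `c (Q, m) * m! * E (Q) * (D l (Q))^m ≠ 0`, as `m < w ≤ p`. -/
def S_CntD : Prop :=
  ∀ (K : Type) [Field K] (p : ℕ) [Fact p.Prime] [CharP K p] (g f : Pl K)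
    (S : Finset (Fin 2 → K)) (w : ℕ),
    w ≤ p → Irreducible g → ¬ g ∣ f → (∀ Q ∈ S, Smooth g Q) →
    (∀ Q ∈ S, ∀ i < w, eval Q ((Dg g)^[i] f) = 0) →
    w * S.card ≤ g.totalDegree * f.totalDegree

/-- Two facts.  (1) Nullstellensatz: if `g` is irreducible and `g ∤ e`, then some point has `g = 0`,
`e ≠ 0` (Mathlib: `MvPolynomial.vanishingIdeal_zeroLocus_eq_radical`; the ideal `(g)` is prime, hence
radical).  (2) If `0 < deg g < p`, then `g_x ≠ 0` or `g_y ≠ 0` (a monomial of `g` with a positive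
exponent `e ≤ deg g < p`, look at the coefficient of `pderiv`), and then it is not divisible by `g`,
since its total degree is smaller. -/
def S_Null : Prop :=
  ∀ (K : Type) [Field K] [IsAlgClosed K] (p : ℕ) [Fact p.Prime] [CharP K p] (g : Pl K),
    Irreducible g →
    (∀ e : Pl K, ¬ g ∣ e → ∃ Q : Fin 2 → K, eval Q g = 0 ∧ eval Q e ≠ 0) ∧
    (g.totalDegree < p → ¬ g ∣ pderiv 0 g ∨ ¬ g ∣ pderiv 1 g)

/-- A Wronskian argument modulo `g`.
Proof: `R = Pl K ⧸ (g)` is a domain and the matrix `M i j = D^[i] (m j) mod g` (`i j : Fin N`) has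
dependent rows, so `det M = 0` (`Matrix.exists_vecMul_eq_zero_iff`) and there is `b ≠ 0` with
`M *ᵥ b = 0` (`Matrix.exists_mulVec_eq_zero_iff`), that is: `b j` not all divisible by `g`,
`g ∣ ∑ j, b j * D^[i] (m j)` for all `i < N`.  Call `b` good if `b` is not zero mod `g` and, with
`s` = the number of `j` with `¬ g ∣ b j`, `g ∣ ∑ j, b j * D^[i] (m j)` for all `i < s`.  Take a good
`b` with `s` minimal, `j0` with `¬ g ∣ b j0`.  Let `c = b j0 * D b - (D b j0) * b`; differentiating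
the relations (`D g = 0`, so `g ∣ f → g ∣ D f`), `g ∣ ∑ j, c j * D^[i] (m j)` for all `i < s - 1`, and
the support of `c` mod `g` is contained in the support of `b` without `j0`.  By minimality `c = 0`
mod `g`.  Now by induction on `i`: `g ∣ ∑ j, b j * D^[i] (m j)`: apply `D`, multiply by `b j0`,
`b j0 * D b j ≡ (D b j0) * b j`, so `g ∣ b j0 * ∑ j, b j * D^[i + 1] (m j)`. -/
def S_MinB : Prop :=
  ∀ (K : Type) [Field K] (g : Pl K) (N : ℕ) (m a : Fin N → Pl K),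
    Irreducible g → (∀ j, g ∣ ∑ i : Fin N, a i * (Dg g)^[(i : ℕ)] (m j)) → (∃ i, ¬ g ∣ a i) →
    ∃ b : Fin N → Pl K, ∃ j0, ¬ g ∣ b j0 ∧
      ∀ i : ℕ, g ∣ ∑ j : Fin N, b j * (Dg g)^[i] (m j)

/-- The Wronskian matrix of polynomials of degree `≤ s < deg g` is nonsingular modulo `g`.
Proof: otherwise take `b`, `j0` from `S_MinB`.  By `S_Null` one of `g_x`, `g_y`, say `e`, is not
divisible by `g`; `g ∤ b j0 * e`, so there is `P` with `g (P) = 0`, `b j0 (P) ≠ 0`, `e (P) ≠ 0`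
(`Smooth g P`).  `q = ∑ j, C (eval P (b j)) * m j` is nonzero (linear independence) of total degree
`≤ s < deg g`, so `g ∤ q`; `eval P (D^[i] q) = eval P (∑ j, b j * D^[i] (m j)) = 0` for all `i`.
`S_CntD` with `S = {P}`, `w = s * deg g + 1` gives `s * deg g + 1 ≤ deg g * s`, a contradiction. -/
def S_Ind : Prop :=
  ∀ (K : Type) [Field K] [IsAlgClosed K] (p : ℕ) [Fact p.Prime] [CharP K p] (g : Pl K) (s N : ℕ)
    (m a : Fin N → Pl K),
    Irreducible g → s < g.totalDegree → s * g.totalDegree + 1 ≤ p →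
    (∀ j, (m j).totalDegree ≤ s) → LinearIndependent K m →
    (∀ j, g ∣ ∑ i : Fin N, a i * (Dg g)^[(i : ℕ)] (m j)) → ∀ i, g ∣ a i

/-- Degree of the auxiliary polynomial `FF`.
`deg (pderiv i g) ≤ deg g - 1`, so `deg (D f) ≤ deg f + (n - 1)`, `n = deg g`, and
`deg (D^[i] (mv j)) ≤ 2 + i (n - 1)`.  `(Wm g).adjugate j 5 = det ((Wm g).updateRow 5 (Pi.single j 1))`
(`Matrix.adjugate_apply`) has degree `≤ ∑_{i < 5} (2 + i (n - 1)) = 10 + 10 (n - 1)` (Leibniz formula)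
and `deg (cv j) ≤ 2 p`. -/
def S_FvD : Prop :=
  ∀ (K : Type) [Field K] (p : ℕ) (g : Pl K) (β : Fin 2 → K), 1 ≤ g.totalDegree →
    (FF p β g).totalDegree ≤ 2 * p + 10 * g.totalDegree

/-- Vanishing of the auxiliary polynomial `FF`.
`D (cv j) = 0` (`D (X^p) = p X^(p-1) D X = 0`).  Let `A j = (Wm g).adjugate j 5`.  For `l < 5`:
`∑ j, D^[l] (mv j) * A j = 0` (`Matrix.mul_adjugate`, entry `(l, 5)`).  Put
`a l i = ∑ j, D^[l] (mv j) * D^[i] (A j)`; `D (a l i) = a (l+1) i + a l (i+1)`, so by induction on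
`i`: `a l i = 0` whenever `l + i ≤ 4`.  In particular `∑ j, mv j * D^[i] (A j) = 0` for `i ≤ 4`.
`D^[i] FF = ∑ j, cv j * D^[i] (A j)`, and at a special point `Q`: `cv j (Q) = ω(Q)² mv j (Q)`. -/
def S_FvV : Prop :=
  ∀ (K : Type) [Field K] (p : ℕ) [Fact p.Prime] [CharP K p] (g : Pl K) (β Q : Fin 2 → K),
    Special p β Q → ∀ i < 5, eval Q ((Dg g)^[i] (FF p β g)) = 0

/-- `g` does not divide `FF`.
Proof: `FF` is the determinant of the matrix `Wm g` with the last row replaced by `c = cv p β`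
(`Matrix.det_eq_sum_mul_adjugate_row`).  If `g ∣ FF`, the rows are dependent in the domain
`Pl K ⧸ (g)` (`Matrix.exists_vecMul_eq_zero_iff`): there are `a_0, ..., a_4, a_5`, not all divisible
by `g`, with `g ∣ ∑_{i<5} a_i D^[i] (mv j) + a_5 c j` for all `j`.  Apply `D` (`D c = 0`), multiply by
`a_5` and subtract `D a_5` times the relation:
`g ∣ ∑_{i<5} (a_5 D a_i - a_i D a_5) D^[i] (mv j) + ∑_{i<5} a_5 a_i D^[i+1] (mv j)`.
`S_Ind` (`N = 6`, `s = 2`, `m = mv K`, the six monomials are linearly independent) gives that all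
six coefficients are divisible by `g`: `a_5 a_4`, `a_5 a_{i-1} + a_5 D a_i - a_i D a_5`
(`1 ≤ i ≤ 4`), ....  If `g ∣ a_5`, the relation itself and `S_Ind` give that `g` divides all `a_i`, a
contradiction.  So `g ∤ a_5`, and `g ∣ a_4`, hence (`g ∣ D a_4`) `g ∣ a_3`, ..., `g ∣ a_0`.  Then
`g ∣ a_5 c j` for all `j`, so `g ∣ X 0 ^ (2p)`, `g ∣ X 1 ^ (2p)`, `g ∣ X 0`, `g ∣ X 1`: impossible, as
`deg g ≥ 3`. -/
def S_Fn : Prop :=
  ∀ (K : Type) [Field K] [IsAlgClosed K] (p : ℕ) [Fact p.Prime] [CharP K p] (g : Pl K)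
    (β : Fin 2 → K),
    Irreducible g → 3 ≤ g.totalDegree → 2 * g.totalDegree + 1 ≤ p → ¬ g ∣ FF p β g

/-- Stöhr-Voloch: `S_CntD` with `w = 5`, `f = FF p β g`, `S_FvD`, `S_FvV`, `S_Fn`. -/
def S_SV : Prop :=
  ∀ (K : Type) [Field K] [IsAlgClosed K] (p : ℕ) [Fact p.Prime] [CharP K p] (g : Pl K)
    (β : Fin 2 → K) (S : Finset (Fin 2 → K)),
    Irreducible g → 3 ≤ g.totalDegree → 2 * g.totalDegree + 1 ≤ p →
    (∀ Q ∈ S, Smooth g Q ∧ Special p β Q) →
    5 * S.card ≤ g.totalDegree * (2 * p + 10 * g.totalDegree)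

/-- Singular points: one of `g_x`, `g_y` is not divisible by `g` (`S_Null`) and has degree
`≤ deg g - 1`; `Pool.Agent.Lib.MP_214199_co.Eff.bezout`. -/
def S_Sg : Prop :=
  ∀ (K : Type) [Field K] [IsAlgClosed K] (p : ℕ) [Fact p.Prime] [CharP K p] (g : Pl K)
    (S : Finset (Fin 2 → K)),
    Irreducible g → g.totalDegree < p → (∀ Q ∈ S, eval Q g = 0 ∧ ¬ Smooth g Q) →
    S.card ≤ g.totalDegree * g.totalDegree

/-- Facts about the restriction to the line `LF u = 0`, `u 0 ≠ 0`.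
`u · Rb u = -1`, `u · Jd u = 0`, `res u (LF u) = 0`; the kernel: modulo `LF u`, `X 0` is congruent to
`-(1 + u 1 X 1) / u 0`, so every `f` is congruent to a polynomial in `X 1` (a section
`s : q ↦ q (X 1 / u 0)`, `s = Polynomial.aeval (C (u 0)⁻¹ * X 1)`, satisfies `res u (s q) = q` and
`LF u ∣ f - s (res u f)`; check the last on the generators `X 0`, `X 1`). -/
def S_Res : Prop :=
  ∀ (K : Type) [Field K] (u : Fin 2 → K), u 0 ≠ 0 →
    (∀ f : Pl K, res u f = 0 ↔ LF u ∣ f) ∧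
    (∀ f : Pl K, (res u f).natDegree ≤ f.totalDegree) ∧
    (∀ (f : Pl K) (τ : K), (res u f).eval τ = eval (Rb u + τ • Jd u) f) ∧
    (∀ τ : K, eval (Rb u + τ • Jd u) (LF u) = 0) ∧
    (∀ Q : Fin 2 → K, eval Q (LF u) = 0 → ∃ τ : K, Q = Rb u + τ • Jd u) ∧
    (∀ τ τ' : K, Rb u + τ • Jd u = Rb u + τ' • Jd u → τ = τ') ∧
    (∀ q : Polynomial K, ∃ H : Pl K, H.totalDegree ≤ q.natDegree ∧ res u H = q)

/-- Curves of degree `n ≥ 3` with many special points.
Proof: let `S i` be the set of the points `Rb (u i) + τ • Jd (u i)`, `τ` a root of `res (u i) g`;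
the number of roots with multiplicities is `n = natDegree` (`K` algebraically closed) and every
multiplicity is at most two, so `n ≤ 2 * |S i|`; the `S i` are disjoint.  Hence
`|I| * n ≤ 2 * N`, `N = |⋃ S i| = N_smooth + N_sing`, `N_sing ≤ n * n` (`S_Sg`; the points of the
`S i` are zeros of `g`), `5 * N_smooth ≤ n * (2 p + 10 n)` (`S_SV`).  So
`5 |I| n ≤ 2 n (2 p + 10 n) + 10 n² = n (4 p + 30 n)`. -/
def S_N3 : Prop :=
  ∀ (K : Type) [Field K] [IsAlgClosed K] (p : ℕ) [Fact p.Prime] [CharP K p] (g : Pl K)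
    (β : Fin 2 → K) (ι : Type) (I : Finset ι) (u : ι → Fin 2 → K),
    Irreducible g → 3 ≤ g.totalDegree → 2 * g.totalDegree + 1 ≤ p →
    (∀ i ∈ I, u i 0 ≠ 0) →
    (∀ i ∈ I, (res (u i) g).natDegree = g.totalDegree) →
    (∀ i ∈ I, ∀ τ, (res (u i) g).rootMultiplicity τ ≤ 2) →
    (∀ i ∈ I, ∀ τ, (res (u i) g).IsRoot τ → Special p β (Rb (u i) + τ • Jd (u i))) →
    (∀ i ∈ I, ∀ j ∈ I, i ≠ j → ∀ Q, eval Q (LF (u i)) = 0 → eval Q (LF (u j)) = 0 →
      eval Q g ≠ 0) →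
    5 * I.card ≤ 4 * p + 30 * g.totalDegree

/-! ## Part G -/

/-- Every point `x` of an arc `A` is on exactly `p + 2 - |A|` tangents.
Proof: `dirs p` has `p + 1` elements; for every `y ≠ x` there is exactly one `a ∈ dirs p` with
`a · (y - x) = 0`, and different `y ∈ A` have different `a` (otherwise three points of `A` would be
on a line). -/
def S_Tan : Prop :=
  ∀ (p : ℕ) [Fact p.Prime] (A : Finset (Pt p)) (x : Pt p), Arc p A → x ∈ A →
    (tang A x).card + A.card = p + 2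

/-- The product over the lines through `x`.
Proof: for `w ∈ A \ {x}` let `a_w ∈ dirs p` be the normal vector of the line `x w`,
`(-(w.2 - x.2), w.1 - x.1) = κ_w a_w`, `κ_w ≠ 0`, so `dt x w y = κ_w (a_w · (y - x))` and the same with
`z`.  `dirs p` is the disjoint union of `tang A x`, of the `a_w` (`w ≠ x, y, z`) and of `a_y`, `a_z`.
So the claim is `∏ l_a(y) = - ∏ l_a(z)`, the products over `a ∈ dirs p \ {a_y, a_z}`,
`l_a(v) = a · (v - x)`.  All `l_a(y)`, `l_a(z)` are nonzero there, `a ↦ l_a(y) / l_a(z)` is injective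
(`(a·Y)(b·Z) - (b·Y)(a·Z) = (a.1 b.2 - a.2 b.1)(Y.1 Z.2 - Y.2 Z.1)`, `Y = y - x`, `Z = z - x`), so it
is a bijection onto the `p - 1` nonzero elements, whose product is `-1`
(`FiniteField.prod_univ_units_id_eq_neg_one` or `ZMod.wilsons_lemma`). -/
def S_One : Prop :=
  ∀ (p : ℕ) [Fact p.Prime] (A : Finset (Pt p)) (x y z : Pt p), Arc p A → x ∈ A → y ∈ A → z ∈ A →
    x ≠ y → x ≠ z → y ≠ z →
    ft A x y * ∏ w ∈ ((A.erase x).erase y).erase z, dt x w y =
      -(ft A x z * ∏ w ∈ ((A.erase x).erase y).erase z, dt x w z)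

/-- Segre's lemma of tangents, normalised.
Proof: `ft A x y ≠ 0` for `x ≠ y` in `A` by the definition of `tang`.  Multiply the three relations
of `S_One` for `(x; y, z)`, `(y; z, x)`, `(z; x, y)`; `dt x w y = - dt y w x`, etc. and all of these
are nonzero (`A` is an arc), the number of `w` is `|A| - 3`.  Result:
`ft x y * ft y z * ft z x = (-1)^|A| * (ft x z * ft y x * ft z y)`.  Fix `x0 ∈ A`, put `c x0 = 1`,
`c x = (-1)^|A| * ft x0 x / ft x x0`.  For `x, y ≠ x0` use the relation for `(x0, x, y)`. -/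
def S_Cx : Prop :=
  ∀ (p : ℕ) [Fact p.Prime] (A : Finset (Pt p)), Arc p A →
    (∀ x ∈ A, ∀ y ∈ A, x ≠ y → ft A x y ≠ 0) ∧
    ∃ c : Pt p → ZMod p, (∀ x ∈ A, c x ≠ 0) ∧
      ∀ x ∈ A, ∀ y ∈ A, x ≠ y → c x * ft A x y = (-1) ^ A.card * (c y * ft A y x)

/-- A point `w` off all rational lines exists: `w = (θ, θ²)` with `θ` not a root of a nonzero
polynomial of degree `≤ 2` over `ZMod p` (finitely many roots, the algebraic closure is infinite). -/
def S_W : Prop :=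
  ∀ (p : ℕ) [Fact p.Prime], ∃ w : Fin 2 → KK p, Indep w

/-- The forms `phi` on the dual lines.  Let `u = ux w x`.
(1) `u 0 ≠ 0`.  (2) For `a ∈ dirs p`, `s = a · u ≠ 0`, and the restriction of `a.1 Y - a.2 X` to the
line is `s T + a.2 / u 0` (`a.1 * Jd 1 - a.2 * Jd 0 = a.1 u 0 + a.2 u 1 = s`), with the simple root
`τ`, `Rb u + τ • Jd u = - a / s`.  Different `a` have different roots, so `res u (phi c T)` has
degree `|T|` and simple roots. -/
def S_Phi : Prop :=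
  ∀ (p : ℕ) [Fact p.Prime] (w : Fin 2 → KK p) (x : Pt p) (T : Finset (Pt p)) (c : ZMod p),
    Indep w → T ⊆ dirs p → c ≠ 0 →
    ux w x 0 ≠ 0 ∧
    (res (ux w x) (phi c T)).natDegree = T.card ∧ res (ux w x) (phi c T) ≠ 0 ∧
    (∀ τ, (res (ux w x) (phi c T)).rootMultiplicity τ ≤ 1) ∧
    ∀ τ, (res (ux w x) (phi c T)).IsRoot τ →
      ∃ a ∈ T, DualPt w x a (Rb (ux w x) + τ • Jd (ux w x))

/-- The points `- a / s` are special for `β i = w i - (w i)^p`: `(- a / s)^p = - a / s^p` (also for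
`p = 2`) and `s^p = s + a · β`, since `x` and `a` are rational. -/
def S_Spc : Prop :=
  ∀ (p : ℕ) [Fact p.Prime] (w : Fin 2 → KK p) (x a : Pt p) (Q : Fin 2 → KK p),
    DualPt w x a Q → Special p (fun i => w i - (w i) ^ p) Q

/-- The values of the forms at the nodes.
Proof: let `s = -(y.2 - x.2) * (w 0 - x.1) + (y.1 - x.1) * (w 1 - x.2)`; `s ≠ 0` by `Indep w`
(coefficients `-(y.2 - x.2)`, `y.1 - x.1` of `w 0`, `w 1`).  The two lines `LF (ux w x) = 0`,
`LF (ux w y) = 0` have exactly one common point `Q = (-(y.2 - x.2), y.1 - x.1) / s` (their determinant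
is `± s`).  `a.1 * Q 1 - a.2 * Q 0 = (a.1 (y.1 - x.1) + a.2 (y.2 - x.2)) / s`, so
`eval Q (phi (c x) (tang A x)) = c x * ft A x y / s^t`, `t = |tang A x| = p + 2 - |A|` (`S_Tan`), and
for `(y, x)` the same with `-s` instead of `s`.  The relation of `S_Cx` and
`(-1)^(|A| + t) = (-1)^(p + 2) = -1` give the claim. -/
def S_Node : Prop :=
  ∀ (p : ℕ) [Fact p.Prime] (w : Fin 2 → KK p) (A : Finset (Pt p)) (x y : Pt p) (c : Pt p → ZMod p),
    p ≠ 2 → Indep w → Arc p A → x ∈ A → y ∈ A → x ≠ y → c x ≠ 0 →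
    c x * ft A x y = (-1) ^ A.card * (c y * ft A y x) →
    (ux w x 0 * ux w y 1 - ux w x 1 * ux w y 0 ≠ 0) ∧
    (∃ Q, eval Q (LF (ux w x)) = 0 ∧ eval Q (LF (ux w y)) = 0) ∧
    ∀ Q, eval Q (LF (ux w x)) = 0 → eval Q (LF (ux w y)) = 0 →
      eval Q (phi (c x) (tang A x)) = - eval Q (phi (c y) (tang A y)) ∧
      eval Q (phi (c x) (tang A x)) ≠ 0

/-- Three dual lines of points of an arc have no common point: `eval Q (LF (ux w x)) = 0` says
`(x - w) · Q = -1`; subtracting, `(y - x) · Q = 0`, `(z - x) · Q = 0`, so `Q = 0` because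
`dt x y z ≠ 0`, a contradiction. -/
def S_Conc : Prop :=
  ∀ (p : ℕ) [Fact p.Prime] (w : Fin 2 → KK p) (A : Finset (Pt p)) (x y z : Pt p),
    Arc p A → x ∈ A → y ∈ A → z ∈ A → x ≠ y → x ≠ z → y ≠ z →
    ∀ Q, ¬ (eval Q (LF (ux w x)) = 0 ∧ eval Q (LF (ux w y)) = 0 ∧ eval Q (LF (ux w z)) = 0)

/-- Interpolation on lines in general position.
Proof: induction on `I`.  Let `G` be the polynomial for `I`, `i0 ∉ I`, `ρ = res (u i0)`,
`f = ρ (P i0 - G)`, of degree `≤ D`.  For `i ∈ I` the common point of the lines `i0`, `i` is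
`Rb + τ_i • Jd`, and `f (τ_i) = 0`.  `ρ (LF (u i))` has degree one (leading coefficient
`± (u i0 0 * u i 1 - u i0 1 * u i 0)`) and the root `τ_i`; the `τ_i` are different (no three
concurrent lines).  So `∏_{i ∈ I} ρ (LF (u i))` divides `f`: `f = h * ∏ ρ (LF (u i))`.  If `f = 0`
take `h = 0`; otherwise `deg h + |I| = deg f ≤ D`.  Take `H` with `ρ H = h`, `deg H ≤ deg h` (`S_Res`);
`G + H * ∏_{i ∈ I} LF (u i)` is the polynomial for `insert i0 I` (`res (u i) (LF (u i)) = 0`). -/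
def S_Int : Prop :=
  ∀ (K : Type) [Field K] (ι : Type) [DecidableEq ι] (I : Finset ι) (u : ι → Fin 2 → K)
    (P : ι → Pl K) (D : ℕ),
    (∀ i ∈ I, u i 0 ≠ 0) → (∀ i ∈ I, (P i).totalDegree ≤ D) →
    (∀ i ∈ I, ∀ j ∈ I, i ≠ j → u i 0 * u j 1 - u i 1 * u j 0 ≠ 0) →
    (∀ i ∈ I, ∀ j ∈ I, i ≠ j → ∀ Q, eval Q (LF (u i)) = 0 → eval Q (LF (u j)) = 0 →
      eval Q (P i) = eval Q (P j)) →
    (∀ i ∈ I, ∀ j ∈ I, ∀ k ∈ I, i ≠ j → i ≠ k → j ≠ k →
      ∀ Q, ¬ (eval Q (LF (u i)) = 0 ∧ eval Q (LF (u j)) = 0 ∧ eval Q (LF (u k)) = 0)) →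
    ∃ G : Pl K, G.totalDegree ≤ D ∧ ∀ i ∈ I, res (u i) G = res (u i) (P i)

/-- The envelope data. -/
def Env (K : Type) [Field K] (ι : Type) (I : Finset ι) (u : ι → Fin 2 → K) (P : ι → Pl K) (t : ℕ)
    (G : Pl K) : Prop :=
  (2 : K) ≠ 0 ∧ (∀ i ∈ I, u i 0 ≠ 0) ∧ G.totalDegree ≤ 2 * t ∧ 2 * t < I.card ∧ 3 ≤ I.card ∧
    (∀ i ∈ I, res (u i) G = res (u i) (P i) ^ 2) ∧
    (∀ i ∈ I, (res (u i) (P i)).natDegree = t ∧ res (u i) (P i) ≠ 0 ∧
      ∀ τ, (res (u i) (P i)).rootMultiplicity τ ≤ 1) ∧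
    (∀ i ∈ I, ∀ j ∈ I, i ≠ j → (∃ Q, eval Q (LF (u i)) = 0 ∧ eval Q (LF (u j)) = 0) ∧
      ∀ Q, eval Q (LF (u i)) = 0 → eval Q (LF (u j)) = 0 →
        eval Q (P i) = - eval Q (P j) ∧ eval Q (P i) ≠ 0)

/-- Divisors of the envelope.
`res (u i) G = (res (u i) (P i))²` has degree `2 t` and `G ≠ 0`, so for a factorisation `G = g * b`:
`natDegree (res g) = totalDegree g` (`natDegree (res g) ≤ totalDegree g`, the same for `b`, the sums
are `2 t` and `≤ 2 t`).  The multiplicities of the roots of `res G` are at most `2 * 1`. -/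
def S_Div : Prop :=
  ∀ (K : Type) [Field K] (ι : Type) (I : Finset ι) (u : ι → Fin 2 → K)
    (P : ι → Pl K) (t : ℕ) (G g : Pl K), Env K ι I u P t G → g ∣ G →
    g.totalDegree ≤ 2 * t ∧ G ≠ 0 ∧ ∀ i ∈ I,
      (res (u i) g).natDegree = g.totalDegree ∧
      (∀ τ, (res (u i) g).rootMultiplicity τ ≤ 2) ∧
      ∀ τ, (res (u i) g).IsRoot τ → (res (u i) (P i)).IsRoot τ

/-- Linear factors of the envelope are double.
Proof: `G = g * G'`.  For `i ∈ I` let `τ_i` be the root of `res (u i) g` (degree one, by `S_Div`),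
`Q_i = Rb + τ_i • Jd`.  `τ_i` is a root of `res (P i)`, so its multiplicity in `res G` is exactly `2`
(so `g ^ 3 ∤ G`), hence `1` in `res G'`, and `G' (Q_i) = 0`.  The `Q_i` are different: a common zero
of `LF (u i)`, `LF (u j)` is not a zero of `P i`.  So `g` and `G'` have `|I| > 2 t` common zeros, and
`g ∣ G'` by `Pool.Agent.Lib.MP_214199_co.Eff.bezout` (`deg g * deg G' ≤ 2 t`). -/
def S_Lin : Prop :=
  ∀ (K : Type) [Field K] (ι : Type) (I : Finset ι) (u : ι → Fin 2 → K)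
    (P : ι → Pl K) (t : ℕ) (G g G' : Pl K), Env K ι I u P t G → Irreducible g →
    g.totalDegree = 1 → G = g * G' → g ∣ G' ∧ ¬ g ^ 3 ∣ G

/-- A factor of degree at least two of the envelope.
Proof.  By `S_Div` it is enough to find an irreducible divisor of degree at least two.  Suppose that
all irreducible factors of `G` have degree one (a nonunit nonzero polynomial has degree `≥ 1`).
Choose `F` with `F² ∣ G` and `totalDegree F` maximal, `G = F² * G1`.
(a) `G1` a unit: `G = F0²`, `F0 = F * C (√c)`; `(res F0)² = (res (P i))²`, so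
`res (u i) F0 = ε_i * res (u i) (P i)`, `ε_i = ±1`.  At the common point `Q` of the lines `i ≠ j`:
`ε_i (P i) (Q) = F0 (Q) = ε_j (P j) (Q) = - ε_j (P i) (Q)`, so `ε_i = - ε_j`.  Three indices give
`2 ε = 0`.
(b) `G1` not a unit: let `g` be an irreducible factor of `G1`; `deg g = 1`; `G = g * G'`; by `S_Lin`
`g ∣ G'`, `g³ ∤ G`.  With `G1 = g * G2`: `G' = F² * G2`, so `g ∣ G2` or `g ∣ F`.  If `g ∣ G2`, then
`(F g)² ∣ G`, against the maximality.  If `g ∣ F`, then `g³ ∣ G`, a contradiction. -/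
def S_Fac : Prop :=
  ∀ (K : Type) [Field K] [IsAlgClosed K] (ι : Type) (I : Finset ι) (u : ι → Fin 2 → K)
    (P : ι → Pl K) (t : ℕ) (G : Pl K), Env K ι I u P t G →
    ∃ g : Pl K, Irreducible g ∧ 2 ≤ g.totalDegree ∧ g.totalDegree ≤ 2 * t ∧ ∀ i ∈ I,
      (res (u i) g).natDegree = g.totalDegree ∧
      (∀ τ, (res (u i) g).rootMultiplicity τ ≤ 2) ∧
      ∀ τ, (res (u i) g).IsRoot τ → (res (u i) (P i)).IsRoot τ

/-- The curve attached to a large arc.
Proof: `S_W`, `S_Tan` (`t = |tang A x| = p + 2 - |A|` for all `x ∈ A`), `S_Cx`, `S_Phi`, `S_Spc`,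
`S_Node`, `S_Conc`; `S_Int` with `ι = Pt p`, `u = ux w`, `P x = phi (c x) (tang A x) ^ 2`, `D = 2 t`
(`totalDegree (phi c T) ≤ |T|`); then `S_Fac`.  `100 t ≤ p + 200` gives `2 t < |A|`.  The last claim:
`eval Q g = 0` on the line of `x` gives a root of `res g`, so a root of `res (phi (c x) _)`,
but by `S_Node` `phi` is not zero at a common point.  If `deg g ≥ 3`, `S_N3` gives
`5 |A| ≤ 4 p + 30 deg g ≤ 4 p + 60 t`, which is false for `p ≥ 400`, `99 p ≤ 100 |A|`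
(`4.95 p ≤ 4.6 p + 120`).  So `deg g = 2`. -/
def S_Curve : Prop :=
  ∀ (p : ℕ) [Fact p.Prime] (A : Finset (Pt p)), 400 ≤ p → Arc p A → 99 * p ≤ 100 * A.card →
    ∃ (w : Fin 2 → KK p) (g : Pl (KK p)), Indep w ∧ Irreducible g ∧ g.totalDegree = 2 ∧
      (∀ x ∈ A, ux w x 0 ≠ 0 ∧ (res (ux w x) g).natDegree = 2 ∧
        ∀ τ, (res (ux w x) g).IsRoot τ →
          ∃ a ∈ dirs p, DualPt w x a (Rb (ux w x) + τ • Jd (ux w x))) ∧
      ∀ x ∈ A, ∀ y ∈ A, x ≠ y → ∀ Q, eval Q (LF (ux w x)) = 0 → eval Q (LF (ux w y)) = 0 →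
        eval Q g ≠ 0

/-- A conic has at most `p + 2` zeros which belong to rational lines.
Proof: for `Q ∈ S` choose `(a, b, c) ≠ 0` rational with `s = a w 0 + b w 1 + c ≠ 0`, `Q = (a, b) / s`;
then `c / s = 1 - w · Q`.  Fix `Q0 ∈ S` with vector `v0`.  For another `Q ∈ S` with vector `v`, `v`,
`v0` are independent, and there is a rational `z ≠ 0` with `z · v0 = z · v = 0` (cross product),
unique up to scaling; so `Q`, `Q0` are zeros of the linear polynomial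
`μ_z = z1 X + z2 Y + z3 (1 - w · (X, Y))`, which is not constant (`Indep w`).  There are `p + 1` classes
of vectors `z ≠ 0` orthogonal to `v0`, and for each of them `μ_z` and `g` have at most two common
zeros (`g` irreducible of degree two, `μ_z` does not divide it; e.g. `bezout` for `μ_z`, `g`).
So `|S| ≤ 1 + (p + 1)`. -/
def S_C2 : Prop :=
  ∀ (p : ℕ) [Fact p.Prime] (w : Fin 2 → KK p) (g : Pl (KK p)) (S : Finset (Fin 2 → KK p)),
    Indep w → Irreducible g → g.totalDegree = 2 →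
    (∀ Q ∈ S, eval Q g = 0 ∧ ∃ a b c : ZMod p,
      algebraMap (ZMod p) (KK p) a * w 0 + algebraMap (ZMod p) (KK p) b * w 1 +
        algebraMap (ZMod p) (KK p) c ≠ 0 ∧
      Q 0 * (algebraMap (ZMod p) (KK p) a * w 0 + algebraMap (ZMod p) (KK p) b * w 1 +
        algebraMap (ZMod p) (KK p) c) = algebraMap (ZMod p) (KK p) a ∧
      Q 1 * (algebraMap (ZMod p) (KK p) a * w 0 + algebraMap (ZMod p) (KK p) b * w 1 +
        algebraMap (ZMod p) (KK p) c) = algebraMap (ZMod p) (KK p) b) →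
    S.card ≤ p + 2

/-- The tangent lines of a conic satisfy a quadratic equation.
Proof: `g = A X² + B X Y + C Y² + D X + E Y + F`.  Put
`q = (4CF - E²) X² + 2 (DE - 2BF) X Y + (4AF - D²) Y² + 2 (BE - 2CD) X + 2 (BD - 2AE) Y + (4AC - B²)`
(with new variables `u = (X, Y)`).  For a point `Q` of the line `u · Q = -1`, with
`j = Jd u = (-u 1, u 0)`: `(∇g(Q) · j)² - 4 g(Q) * (A j0² + B j0 j1 + C j1²) = - q(u)` (use
`u 0 ≠ 0` to eliminate `Q 0`, then `ring`); a double root gives `g (Q) = 0`, `∇g(Q) · j = 0`.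
`q ≠ 0`: otherwise `4CF = E²`, `4AF = D²`, `4AC = B²`, `DE = 2BF`, `BE = 2CD`, `BD = 2AE`, and
`4 A g = (2 A X + B Y + D)²` if `A ≠ 0`; if `A = 0`, then `B = D = 0` and
`4 C g = (2 C Y + E)²` if `C ≠ 0`; if `A = C = 0`, `g` is constant: never irreducible.  (Here `2 ≠ 0`.) -/
def S_Disc : Prop :=
  ∀ (K : Type) [Field K] (g : Pl K), (2 : K) ≠ 0 → Irreducible g → g.totalDegree = 2 →
    ∃ q : Pl K, q ≠ 0 ∧ q.totalDegree ≤ 2 ∧
      ∀ u : Fin 2 → K, u 0 ≠ 0 → (∃ τ, 2 ≤ (res u g).rootMultiplicity τ) → res u g ≠ 0 →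
        eval u q = 0

/-- Descent to `ZMod p`.
Proof: `q' = q (X - w)` (`aeval fun i => X i - C (w i)`) is nonzero (the shift is an automorphism) of
total degree `≤ 2`; let `c ≠ 0` be one of its coefficients, `ψ : KK p → ZMod p` a `ZMod p`-linear map
with `ψ c ≠ 0` (vector spaces over a field are separated by linear functionals); `q0` = `ψ` applied
to the coefficients.  `eval ![x.1, x.2] q0 = ψ (eval x q') = ψ (eval (ux w x) q)`. -/
def S_Desc : Prop :=
  ∀ (p : ℕ) [Fact p.Prime] (w : Fin 2 → KK p) (q : Pl (KK p)), q ≠ 0 → q.totalDegree ≤ 2 →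
    ∃ q0 : MvPolynomial (Fin 2) (ZMod p), q0 ≠ 0 ∧ q0.totalDegree ≤ 2 ∧
      ∀ x : Pt p, eval (ux w x) q = 0 → eval ![x.1, x.2] q0 = 0

/-- Voloch's theorem with a weaker constant: a large arc has most of its points on a conic.
Proof: `S_Curve`.  Let `S x` be the set of the points `Rb + τ • Jd`, `τ` a root of `res (ux w x) g`;
`|S x| ∈ {1, 2}` (degree two over an algebraically closed field), and `|S x| = 1` iff there is a
double root.  The `S x` are disjoint, and by `S_C2` (a `DualPt w x a Q` is of the form of `S_C2`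
with `(a.1, a.2, - a · x)`, `s = a · (w - x)`) `∑ |S x| ≤ p + 2`.  So at least `2 |A| - (p + 2)` points
have a double root; `S_Disc`, `S_Desc`. -/
def S_Vol : Prop :=
  ∀ (p : ℕ) [Fact p.Prime] (A : Finset (Pt p)), 400 ≤ p → Arc p A → 99 * p ≤ 100 * A.card →
    ∃ q : MvPolynomial (Fin 2) (ZMod p), q ≠ 0 ∧ q.totalDegree ≤ 2 ∧
      2 * A.card ≤ p + 2 + (A.filter fun x => eval ![x.1, x.2] q = 0).card

/-! ## Part K -/

/-- The Kleitman-Winston algorithm.
Proof: strong induction on `|U|`.  If `|U| ≤ b + W`: `F T = U`, `T = ∅`.  Otherwise take `v ∈ U` of the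
hypothesis, `U1 = (U.erase v) \ N v`, `U2 = U.erase v`, and `F1`, `F2` for `U1`, `U2` by induction
(the hypothesis passes to subsets).  `F T = if v ∈ T then F1 (T.erase v) else F2 T`.  For `I` with
`v ∉ I` use `U2` (`T ⊆ I`, so `v ∉ T`).  For `I ∋ v` use `I.erase v ⊆ U1` and `j - 1`: `j ≥ 1`, since
`|U| - b > W`, and `|U1| ≤ |U| - |U ∩ N v|`, `|U1| - b ≤ (1 - δ) (|U| - b) ≤ W / (1 - δ)^(j - 1)`;
`T = insert v T1`. -/
def S_KW : Prop :=
  ∀ (V : Type) [DecidableEq V] (N : V → Finset V) (W δ b : ℝ), 0 ≤ b → 0 < W → 0 ≤ δ → δ < 1 →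
    ∀ U : Finset V,
    (∀ U' ⊆ U, b + W < (U'.card : ℝ) → ∃ v ∈ U', δ * ((U'.card : ℝ) - b) ≤ ((U' ∩ N v).card : ℝ)) →
    ∃ F : Finset V → Finset V, (∀ T, F T ⊆ U ∧ ((F T).card : ℝ) ≤ b + W) ∧
      ∀ I ⊆ U, (∀ v ∈ I, ∀ w ∈ I, w ∉ N v) →
      ∀ j : ℕ, (U.card : ℝ) - b ≤ W / (1 - δ) ^ j →
        ∃ T ⊆ I, T.card ≤ j ∧ I ⊆ T ∪ F T

/-- The degrees in the graph of an arc `T`.
Proof: we may assume `|U| > p + 1` (otherwise the left side is `≤ 0`).  For `t ∈ T` (so `t ∉ U`) the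
`p + 1` lines through `t` partition `U`, so by Cauchy-Schwarz the number of pairs
`(v, w)`, `v ≠ w` in `U`, `dt t v w = 0`, is at least `|U|²/(p + 1) - |U|`.  For given `v ≠ w` at
most two `t ∈ T` have `dt t v w = 0` (`T` is an arc).  So
`∑_{v ∈ U} |U ∩ Nb T v| ≥ (|T| / 2) (|U|² / (p + 1) - |U|)`. -/
def S_Deg : Prop :=
  ∀ (p : ℕ) [Fact p.Prime] (T U : Finset (Pt p)), Arc p T → Disjoint T U → U.Nonempty →
    ∃ v ∈ U, (T.card : ℝ) / (2 * (p + 1)) * ((U.card : ℝ) - (p + 1)) ≤ ((U ∩ Nb T v).card : ℝ)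

/-- The containers.
Proof: for every arc `T1` with `r` elements apply `S_KW` with `U = univ \ T1` (`p² - r` elements),
`N = Nb T1`, `b = p + 1`, `W = 1`, `δ = r / (2 (p + 1))` (`S_Deg`), giving `F_{T1}`.  `𝒞` = all sets
`T1 ∪ T2 ∪ F_{T1} T2` with `T1` an arc, `|T1| = r`, `|T2| ≤ j`, enlarged to exactly
`p + 2 + r + j` elements (`Finset.exists_superset_card_eq`).  There are at most `(p²)^r * (p² + 1)^j` of
them (a set with `≤ j` elements is the image of a function `Fin j → Option`).  An arc `A` with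
`|A| ≥ r`: take `T1 ⊆ A` with `r` elements, `I = A \ T1`, which is independent for `Nb T1`. -/
def S_Cont : Prop :=
  ∀ (p : ℕ) [Fact p.Prime] (r j : ℕ), 1 ≤ r → r ≤ p → p + 2 + r + j ≤ p ^ 2 →
    (p : ℝ) ^ 2 ≤ 1 / (1 - (r : ℝ) / (2 * (p + 1))) ^ j →
    ∃ 𝒞 : Finset (Finset (Pt p)), 𝒞.card ≤ (p ^ 2 + 1) ^ (r + j) ∧
      (∀ X ∈ 𝒞, X.card = p + 2 + r + j) ∧
      ∀ A : Finset (Pt p), Arc p A → r ≤ A.card → ∃ X ∈ 𝒞, A ⊆ X

/-- Disjoint collinear triples.
Proof: take a maximal family `τ` of pairwise disjoint subsets `t ⊆ X` with `|t| = 3` which are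
contained in a line (so in no arc).  `X \ ⋃ τ` is an arc: otherwise a line contains three of its
points.  So `|X| - 3 |τ| < s`. -/
def S_Match : Prop :=
  ∀ (p : ℕ) [Fact p.Prime] (X : Finset (Pt p)) (s : ℕ),
    (∀ A ⊆ X, Arc p A → A.card < s) →
    ∃ τ : Finset (Finset (Pt p)), (∀ t ∈ τ, t ⊆ X ∧ t.card = 3 ∧ ∀ A, Arc p A → ¬ t ⊆ A) ∧
      (∀ t ∈ τ, ∀ t' ∈ τ, t ≠ t' → Disjoint t t') ∧ X.card < s + 3 * τ.card

/-- Generating functions: equality holds; induction on `τ`.  For `t ∈ τ` the subsets of `X` are the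
`B ∪ A'` with `B ⊆ t`, `A' ⊆ X \ t`, and the sum is
`((1 + z)^e - z^e) * ∑_{A' ⊆ X \ t, A' ⊉ t' for t' ∈ τ \ {t}} z^|A'|`. -/
def S_Gen : Prop :=
  ∀ (V : Type) [DecidableEq V] (X : Finset V) (τ : Finset (Finset V)) (e : ℕ) (z : ℝ), 0 < z →
    (∀ t ∈ τ, t ⊆ X ∧ t.card = e) → (∀ t ∈ τ, ∀ t' ∈ τ, t ≠ t' → Disjoint t t') → 1 ≤ e →
    ∑ A ∈ X.powerset.filter (fun A => ∀ t ∈ τ, ¬ t ⊆ A), z ^ A.card ≤
      (1 + z) ^ X.card * (1 - (z / (1 + z)) ^ e) ^ τ.card

/-- The lower bound.  The subsets of the parabola `{(s, s²)}` are arcs (a line meets it in the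
roots of a nonzero polynomial of degree `≤ 2`), so there are at least `choose p m` arcs with
`m` elements. -/
def S_LowA : Prop :=
  ∀ (p : ℕ) [Fact p.Prime] (m : ℕ),
    (p.choose m : ℝ) ≤ ({A : Finset (Pt p) | A.card = m ∧ Arc p A}.ncard : ℝ)

/-- The largest term.  `(1 + z)^p = ∑ i, choose p i * z^i`, and for `z = m / (p - m)` the largest term
is the one with `i = m` (the ratio of the terms `i + 1` and `i` is `(p - i) z / (i + 1)`, which is
`≥ 1` iff `(i + 1) p ≤ (p + 1) m`, that is iff `i + 1 ≤ m`). -/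
def S_LowB : Prop :=
  ∀ (p m : ℕ), 0 < m → m < p →
    (1 + (m : ℝ) / (p - m)) ^ p ≤ (p + 1) * ((p.choose m : ℝ) * ((m : ℝ) / (p - m)) ^ m)

/-- Sets of zeros of conics.  If `q` has at least five zeros in an arc, its zero set `Z` is an
arc: otherwise a line contains three zeros of `q`, its equation `l` divides `q`, `q = l * m`, and the
zeros of `q` are contained in the union of two lines (or of a line and the empty set), which contains
at most four points of an arc. -/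
def S_IrrA : Prop :=
  ∀ (p : ℕ) [Fact p.Prime] (q : MvPolynomial (Fin 2) (ZMod p)) (B Z : Finset (Pt p)),
    q ≠ 0 → q.totalDegree ≤ 2 → (∀ x, x ∈ Z ↔ eval ![x.1, x.2] q = 0) → Arc p B → B ⊆ Z →
    5 ≤ B.card → Arc p Z

/-- An arc has at most `p + 2` points: for `x` in the arc the `p + 1` lines through `x` contain at most
one more point each. -/
def S_IrrB : Prop :=
  ∀ (p : ℕ) [Fact p.Prime] (A : Finset (Pt p)), Arc p A → A.card ≤ p + 2

/-- Pairs of points of a conic which are collinear with `R`.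
Proof: for `y ∈ Z` the polynomial `q (R + τ (y - R)) = a τ² + b τ + q (R)` in `τ` has the root
`τ = 1`, `a` = the quadratic part at `y - R`, `b = L (y - R)` with a linear form `L` (depending on
`R`).  If `a ≠ 0` and `a ≠ q (R)`, the other root `τ' = q (R) / a` is `≠ 0, 1` and gives another point
`σ y = R + τ' (y - R) ∈ Z` on the line `R y`, and `σ (σ y) = y` (`Z` is an arc: the line contains
only two points of `Z`).  If `a = 0`, then `L (y - R) = - q (R)`; if `a = q (R)`, then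
`L (y - R) = - 2 q (R)`: as `q (R) ≠ 0`, `p ≠ 2`, these are lines (or empty), each with at most two
points of `Z`.  So there is a `σ` for all but at most four `y ∈ Z`, and for at least
`|Y| - 4 - (|Z| - |Y|)` elements `y ∈ Y` also `σ y ∈ Y`.  The set of these `y` is invariant under the
involution `σ` without fixed points, and `π` = the set of the `{y, σ y}`. -/
def S_Pairs : Prop :=
  ∀ (p : ℕ) [Fact p.Prime] (q : MvPolynomial (Fin 2) (ZMod p)) (Z Y : Finset (Pt p)) (R : Pt p),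
    p ≠ 2 → q.totalDegree ≤ 2 → (∀ x, x ∈ Z ↔ eval ![x.1, x.2] q = 0) → Arc p Z → R ∉ Z → Y ⊆ Z →
    ∃ π : Finset (Finset (Pt p)),
      (∀ t ∈ π, t ⊆ Y ∧ t.card = 2 ∧ ∀ A, Arc p A → R ∈ A → ¬ t ⊆ A) ∧
      (∀ t ∈ π, ∀ t' ∈ π, t ≠ t' → Disjoint t t') ∧ 2 * Y.card ≤ 2 * π.card + 4 + Z.card

/-- Containers without a large arc: `S_Match` with `s = ⌈99 p / 100⌉`, so `3 |τ| > |X| - s`,
`|τ| ≥ p / 300`; `S_Gen` with `e = 3` (every arc `A ⊆ X` avoids all `t ∈ τ`). -/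
def S_CI : Prop :=
  ∀ (p : ℕ) [Fact p.Prime] (X : Finset (Pt p)) (m : ℕ) (z : ℝ), 0 < z → p + 1 ≤ X.card →
    (∀ A ⊆ X, Arc p A → ¬ 99 * p ≤ 100 * A.card) →
    ({A : Finset (Pt p) | A ⊆ X ∧ A.card = m ∧ Arc p A}.ncard : ℝ) * z ^ m ≤
      (1 + z) ^ X.card * (1 - (z / (1 + z)) ^ 3) ^ (p / 300)

/-- Containers with a large arc `K`: `S_Vol` gives `q` with at least `2 |K| - p - 2` zeros in `K`;
`Z` = the zero set of `q` is an arc (`S_IrrA`, `S_IrrB`) with `|Z| ≤ p + 2`; `Y = Z ∩ X` has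
`|Y| ≥ 2 |K| - p - 2`.  If `A ⊆ X` is an arc in no conic, there is `R ∈ A \ Z`; by `S_Pairs`
`|π| ≥ |Y| - 2 - |Z|/2 ≥ 2 |K| - p - 2 - p / 2 - 3 ≥ 0.48 p - 5 ≥ p / 3` and `A` contains no
`t ∈ π = π_R`.  `S_Gen` (`e = 2`) for every `R ∈ X \ Z`, and sum over `R`. -/
def S_CII : Prop :=
  ∀ (p : ℕ) [Fact p.Prime] (X K : Finset (Pt p)) (m : ℕ) (z : ℝ), 400 ≤ p → 0 < z →
    K ⊆ X → Arc p K → 99 * p ≤ 100 * K.card →
    ({A : Finset (Pt p) | A ⊆ X ∧ A.card = m ∧ Arc p A ∧ ¬ InConic p A}.ncard : ℝ) * z ^ m ≤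
      X.card * ((1 + z) ^ X.card * (1 - (z / (1 + z)) ^ 2) ^ (p / 3))

/-- A very large arc is contained in a conic: `q`, `Z` as in `S_CII` for `K = A`, `Y = Z ∩ A`; if
`R ∈ A \ Z`, then `S_Pairs` gives `2 |π| ≥ 2 |Y| - 4 - (p + 2) > 0`, and `A` contains `R` and some
`t ∈ π`, a contradiction.  So `A ⊆ Z`. -/
def S_Big : Prop :=
  ∀ (p : ℕ) [Fact p.Prime] (A : Finset (Pt p)), 400 ≤ p → Arc p A → 99 * p ≤ 100 * A.card →
    InConic p A

/-- Numerical facts for large `p`, with `r = Nat.sqrt p + 1`, `j = ⌈5 √p log p⌉₊`.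
The last one: `δ = r / (2 (p + 1)) ≥ √p / (2 (p + 1))`, `1 / (1 - δ)^j ≥ exp (δ j) ≥ p²`, as
`δ j ≥ (5/2) (p / (p + 1)) log p ≥ 2 log p`. -/
def S_NumA : Prop :=
  ∃ p0 : ℕ, ∀ p : ℕ, p0 ≤ p → ∀ m : ℕ, (p : ℝ) ^ (6 / 7 : ℝ) ≤ m →
    Nat.sqrt p + 1 ≤ m ∧ Nat.sqrt p + 1 ≤ p ∧
    p + 2 + (Nat.sqrt p + 1) + ⌈5 * Real.sqrt p * Real.log p⌉₊ ≤ p ^ 2 ∧
    (p : ℝ) ^ 2 ≤ 1 / (1 - ((Nat.sqrt p + 1 : ℕ) : ℝ) / (2 * (p + 1))) ^
      ⌈5 * Real.sqrt p * Real.log p⌉₊

/-- The numerical inequality.  With `α = m / p`, `1 + m / (p - m) = 1 / (1 - α) ≤ 100`,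
`p^(-1/7) ≤ α ≤ 0.99`: `(1 - α³)^(p/300) ≤ exp (- α³ (p/300 - 1))`, `(1 - α²)^(p/3) ≤
exp (- α² (p/3 - 1)) ≤ exp (- α³ (p/300 - 1))` (`⌊p/300⌋ ≥ p/300 - 1`), `m³ / (400 p²) = α³ p / 400`,
`α³ p (1/300 - 1/400) ≥ p^(4/7) / 1200`, and the logarithm of the other factors is
`O (√p (log p)²)`. -/
def S_NumB : Prop :=
  ∃ p0 : ℕ, ∀ p : ℕ, p0 ≤ p → ∀ m : ℕ, (p : ℝ) ^ (6 / 7 : ℝ) ≤ m → 100 * m ≤ 99 * p →
    Real.exp ((m : ℝ) ^ 3 / (400 * p ^ 2)) * ((p : ℝ) + 1) *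
      ((p : ℝ) ^ 2 + 1) ^ ((Nat.sqrt p + 1) + ⌈5 * Real.sqrt p * Real.log p⌉₊) *
      (1 + (m : ℝ) / (p - m)) ^ (2 + (Nat.sqrt p + 1) + ⌈5 * Real.sqrt p * Real.log p⌉₊) *
      ((1 - ((m : ℝ) / p) ^ 3) ^ (p / 300) +
        ((p + 2 + (Nat.sqrt p + 1) + ⌈5 * Real.sqrt p * Real.log p⌉₊ : ℕ) : ℝ) *
          (1 - ((m : ℝ) / p) ^ 2) ^ (p / 3)) ≤ 1

/-- The theorem.
Proof: for `100 m > 99 p` the left side is zero (`S_Big`).  Otherwise `z = m / (p - m)`, so
`z / (1 + z) = m / p`; `S_NumA`, `S_NumB`, `S_Cont` (`r = Nat.sqrt p + 1`, `j = ⌈5 √p log p⌉₊`,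
`N0 = p + 2 + r + j`).  Every bad arc is contained in some `X ∈ 𝒞`; by `S_CI`, `S_CII` the number of
bad arcs in `X`, times `z^m`, is at most
`(1 + z)^N0 * ((1 - α³)^(p/300) + N0 * (1 - α²)^(p/3))`; sum over `𝒞`; `S_LowA`, `S_LowB`. -/
def S_Main : Prop :=
  ∃ p0 : ℕ, ∀ p : ℕ, p.Prime → p0 ≤ p → ∀ m : ℕ, (p : ℝ) ^ (6 / 7 : ℝ) ≤ m →
    Real.exp ((m : ℝ) ^ 3 / (400 * p ^ 2)) *
        ({A : Finset (Pt p) | A.card = m ∧ Arc p A ∧ ¬ InConic p A}.ncard : ℝ) ≤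
      ({A : Finset (Pt p) | A.card = m ∧ Arc p A}.ncard : ℝ)

end Pool.Agent.Lib.MP_8dbdcc_co.AA
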