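import Pool.Agent.Lib.MP_8dbdcc_co.AA.Spec

set_option autoImplicit false

namespace Pool.Agent.Lib.MP_8dbdcc_co.AA

open MvPolynomial Finset

namespace Tan_aux

/-- The representative of the normal vector of the line through `x` and `y`. -/
noncomputable def nv {p : ℕ} [Fact p.Prime] (x y : Pt p) : Pt p :=
  if y.2 - x.2 = 0 then (0, 1) else (1, -((y.1 - x.1) / (y.2 - x.2)))

theorem mem_dirs {p : ℕ} [Fact p.Prime] (a : Pt p) :
    a ∈ dirs p ↔ (∃ s : ZMod p, a = (1, s)) ∨ a = (0, 1) := by
  constructor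
  · intro h
    rcases Finset.mem_union.1 h with h | h
    · obtain ⟨s, -, hs⟩ := Finset.mem_image.1 h
      exact Or.inl ⟨s, hs.symm⟩
    · exact Or.inr (Finset.mem_singleton.1 h)
  · rintro (⟨s, rfl⟩ | rfl)
    · exact Finset.mem_union_left _ (Finset.mem_image.2 ⟨s, Finset.mem_univ _, rfl⟩)
    · exact Finset.mem_union_right _ (Finset.mem_singleton.2 rfl)

theorem card_dirs (p : ℕ) [Fact p.Prime] : (dirs p).card = p + 1 := by
  unfold dirs
  rw [Finset.card_union_of_disjoint, Finset.card_image_of_injective, Finset.card_univ,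
    ZMod.card, Finset.card_singleton]
  · intro s t h
    exact (Prod.mk.inj h).2
  · rw [Finset.disjoint_singleton_right]
    intro h
    obtain ⟨s, -, hs⟩ := Finset.mem_image.1 h
    exact one_ne_zero (Prod.mk.inj hs).1

theorem ne_zero_of_mem {p : ℕ} [Fact p.Prime] {a : Pt p} (h : a ∈ dirs p) :
    (a.1, a.2) ≠ ((0, 0) : Pt p) := by
  rcases (mem_dirs a).1 h with ⟨s, rfl⟩ | rfl
  · intro h'
    exact one_ne_zero (Prod.mk.inj h').1
  · intro h'
    exact one_ne_zero (Prod.mk.inj h').2

theorem nv_mem {p : ℕ} [Fact p.Prime] (x y : Pt p) : nv x y ∈ dirs p := by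
  rw [mem_dirs]
  unfold nv
  split_ifs with h
  · exact Or.inr rfl
  · exact Or.inl ⟨_, rfl⟩

theorem nv_zero {p : ℕ} [Fact p.Prime] (x y : Pt p) :
    (nv x y).1 * (y.1 - x.1) + (nv x y).2 * (y.2 - x.2) = 0 := by
  unfold nv
  split_ifs with h
  · simp [h]
  · simp only
    field_simp
    ring

theorem nv_unique {p : ℕ} [Fact p.Prime] {x y a : Pt p} (hxy : y ≠ x) (ha : a ∈ dirs p)
    (h : a.1 * (y.1 - x.1) + a.2 * (y.2 - x.2) = 0) : a = nv x y := by
  unfold nv
  rcases (mem_dirs a).1 ha with ⟨s, rfl⟩ | rfl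
  · simp only at h
    split_ifs with h2
    · exfalso
      apply hxy
      have h1 : y.1 - x.1 = 0 := by
        rw [h2] at h
        simpa using h
      exact Prod.ext (sub_eq_zero.1 h1) (sub_eq_zero.1 h2)
    · refine Prod.ext rfl ?_
      simp only
      have h3 : s * (y.2 - x.2) = -(y.1 - x.1) := by linear_combination h
      rw [← neg_div, eq_div_iff h2, h3]
  · simp only [zero_mul, zero_add, one_mul] at h
    rw [if_pos h]

end Tan_aux

open Tan_aux in
theorem tTan : S_Tan := by
  classical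
  intro p _ A x hA hx
  have key : (dirs p).filter (fun a => ¬ ∀ y ∈ A, a.1 * (y.1 - x.1) + a.2 * (y.2 - x.2) = 0 → y = x)
      = (A.erase x).image (nv x) := by
    ext a
    simp only [Finset.mem_filter, Finset.mem_image, Finset.mem_erase]
    constructor
    · rintro ⟨ha, h⟩
      push Not at h
      obtain ⟨y, hy, h0, hne⟩ := h
      exact ⟨y, ⟨hne, hy⟩, (nv_unique hne ha h0).symm⟩
    · rintro ⟨y, ⟨hne, hy⟩, rfl⟩
      refine ⟨nv_mem x y, ?_⟩
      intro h
      exact hne (h y hy (nv_zero x y))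
  have hinj : Set.InjOn (nv x) (A.erase x : Finset (Pt p)) := by
    intro y hy z hz hyz
    by_contra hne
    rw [Finset.mem_coe, Finset.mem_erase] at hy hz
    have h2 := hA (nv x y).1 (nv x y).2 ((nv x y).1 * x.1 + (nv x y).2 * x.2)
      (ne_zero_of_mem (nv_mem x y))
    have hsub : ({x, y, z} : Finset (Pt p)) ⊆ A.filter
        (fun q => (nv x y).1 * q.1 + (nv x y).2 * q.2 = (nv x y).1 * x.1 + (nv x y).2 * x.2) := by
      intro q hq
      rw [Finset.mem_insert, Finset.mem_insert, Finset.mem_singleton] at hq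
      rw [Finset.mem_filter]
      rcases hq with rfl | rfl | rfl
      · exact ⟨hx, rfl⟩
      · exact ⟨hy.2, by linear_combination nv_zero x q⟩
      · refine ⟨hz.2, ?_⟩
        rw [hyz]
        linear_combination nv_zero x q
    have h3 : ({x, y, z} : Finset (Pt p)).card = 3 := by
      rw [Finset.card_insert_of_notMem, Finset.card_pair hne]
      rw [Finset.mem_insert, Finset.mem_singleton]
      rintro (h | h)
      · exact hy.1 h.symm
      · exact hz.1 h.symm
    have h4 := Finset.card_le_card hsub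
    omega
  have h1 := Finset.card_filter_add_card_filter_not (s := dirs p)
    (fun a => ∀ y ∈ A, a.1 * (y.1 - x.1) + a.2 * (y.2 - x.2) = 0 → y = x)
  rw [key, Finset.card_image_of_injOn hinj, Finset.card_erase_of_mem hx, card_dirs] at h1
  have h5 : 0 < A.card := Finset.card_pos.2 ⟨x, hx⟩
  have h6 : (tang A x).card = ((dirs p).filter
      (fun a => ∀ y ∈ A, a.1 * (y.1 - x.1) + a.2 * (y.2 - x.2) = 0 → y = x)).card := rfl
  omega

end Pool.Agent.Lib.MP_8dbdcc_co.AA
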